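import Pool.Agent.LD6.Deg

/-!
LD6: local facts at a vertex `x` that is the centre of no claw, in a 6-connected graph without a
`K₆` minor.
-/

set_option autoImplicit false

namespace Pool.Agent.LD6

open Finset Pool.Agent.LG6

variable {V : Type} {G : SimpleGraph V}

/-- A vertex that is the centre of no claw has exactly six neighbours. -/
theorem nc_card [DecidableEq V] [Fintype V] (hG : IsKConnected 6 G) (hm : ¬ HasCompleteMinor 6 G)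
    {v : V} {N : Finset V} (hN : ∀ x, x ∈ N ↔ G.Adj v x) (hc : NC G v) : N.card = 6 := by
  classical
  have h6 := min_deg hG v N (fun f hf => (hN f).2 hf) (fun h => ((hN v).1 h).ne rfl)
  by_contra hne
  have h7 : 7 ≤ N.card := by omega
  obtain ⟨d, hdv, hdN⟩ : ∃ d, d ≠ v ∧ d ∉ N := by
    by_contra hall
    push Not at hall
    have hall' : ∀ x, x ≠ v → G.Adj v x := fun x hx => (hN x).1 (hall x hx)
    apply hm
    apply claw_main hG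
    intro u a b c ha hb hc' hab hac hbc
    by_cases h1 : a = v
    · subst h1
      exact Or.inl (hall' b hab.symm)
    · by_cases h2 : b = v
      · subst h2
        exact Or.inl (hall' a h1).symm
      · by_cases h3 : c = v
        · subst h3
          exact Or.inr (Or.inl (hall' a h1).symm)
        · exact hc a b c (hall' a h1) (hall' b h2) (hall' c h3) hab hac hbc
  obtain ⟨D, hD, hvD, hND, S, hSN, hS6, hS⟩ := exists_att hG hN hdv hdN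
  obtain ⟨S', hS', hc6⟩ := exists_subset_card_eq hS6
  obtain ⟨t₁, ht₁, t₂, ht₂, t₃, ht₃, h12, h13, h23⟩ :=
    ramsey hc (S := S') (fun x hx => (hN x).1 (hSN (hS' hx))) hc6
  have h3 : (((S'.erase t₁).erase t₂).erase t₃).card = 3 := by
    rw [card_erase_of_mem, card_erase_of_mem, card_erase_of_mem ht₁, hc6]
    · rw [mem_erase]; exact ⟨h12.ne.symm, ht₂⟩
    · rw [mem_erase, mem_erase]; exact ⟨h23.ne.symm, h13.ne.symm, ht₃⟩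
  obtain ⟨w₁, w₂, w₃, w12, w13, w23, hw⟩ := card_eq_three.1 h3
  have mw : ∀ x, (x = w₁ ∨ x = w₂ ∨ x = w₃) → x ≠ t₃ ∧ x ≠ t₂ ∧ x ≠ t₁ ∧ x ∈ S' := by
    intro x hx
    have h4 : x ∈ ((S'.erase t₁).erase t₂).erase t₃ := by
      rw [hw, mem_insert, mem_insert, mem_singleton]
      exact hx
    rw [mem_erase, mem_erase, mem_erase] at h4
    exact h4
  obtain ⟨u, hu, huS⟩ : ∃ u ∈ N, u ∉ S' := by
    by_contra h
    push Not at h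
    have := card_le_card (show N ⊆ S' from h)
    omega
  have m1 := mw w₁ (Or.inl rfl)
  have m2 := mw w₂ (Or.inr (Or.inl rfl))
  have m3 := mw w₃ (Or.inr (Or.inr rfl))
  have hne : ∀ x ∈ S', x ≠ u := fun x hx h => huS (h ▸ hx)
  exact seven hG hm hc hN hD hvD hND hSN hS (hS' ht₁) (hS' ht₂) (hS' ht₃) h12 h13 h23
    (hS' m1.2.2.2) (hS' m2.2.2.2) (hS' m3.2.2.2) hu ⟨w12, w13, w23⟩
    ⟨hne _ m1.2.2.2, hne _ m2.2.2.2, hne _ m3.2.2.2⟩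
    ⟨m1.2.2.1.symm, m2.2.2.1.symm, m3.2.2.1.symm, hne _ ht₁⟩
    ⟨m1.2.1.symm, m2.2.1.symm, m3.2.1.symm, hne _ ht₂⟩
    ⟨m1.1.symm, m2.1.symm, m3.1.symm, hne _ ht₃⟩

/-- The local facts at `v`. -/
structure At (G : SimpleGraph V) (v : V) : Prop where
  claw : ∀ a b c : V, G.Adj v a → G.Adj v b → G.Adj v c → a ≠ b → a ≠ c → b ≠ c →
    G.Adj a b ∨ G.Adj a c ∨ G.Adj b c
  dom : ∀ t₁ t₂ t₃ z z' h : V, G.Adj v t₁ → G.Adj v t₂ → G.Adj v t₃ → G.Adj v z → G.Adj v z' →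
    G.Adj v h → G.Adj t₁ t₂ → G.Adj t₁ t₃ → G.Adj t₂ t₃ → G.Adj z z' →
    (z ≠ t₁ ∧ z ≠ t₂ ∧ z ≠ t₃ ∧ z' ≠ t₁ ∧ z' ≠ t₂ ∧ z' ≠ t₃ ∧ h ≠ t₁ ∧ h ≠ t₂ ∧ h ≠ t₃ ∧
      h ≠ z ∧ h ≠ z') →
    (G.Adj t₁ z ∨ G.Adj t₁ z') → (G.Adj t₂ z ∨ G.Adj t₂ z') → (G.Adj t₃ z ∨ G.Adj t₃ z') → False
  nbr : ∃ N : Finset V, N.card = 6 ∧ ∀ x, x ∈ N ↔ G.Adj v x
  out : ∀ w : V, G.Adj v w → ¬ (∀ x, G.Adj w x → x = v ∨ G.Adj v x)
  tri : ∃ t₁ t₂ t₃ : V, G.Adj v t₁ ∧ G.Adj v t₂ ∧ G.Adj v t₃ ∧ G.Adj t₁ t₂ ∧ G.Adj t₁ t₃ ∧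
    G.Adj t₂ t₃

/-- The global facts. -/
structure Gl (G : SimpleGraph V) : Prop where
  sym : ∀ x y, G.Adj x y → G.Adj y x
  irr : ∀ x, ¬ G.Adj x x
  five : ∀ x₁ x₂ x₃ x₄ x₅ : V, G.Adj x₁ x₂ → G.Adj x₁ x₃ → G.Adj x₁ x₄ → G.Adj x₁ x₅ →
    G.Adj x₂ x₃ → G.Adj x₂ x₄ → G.Adj x₂ x₅ → G.Adj x₃ x₄ → G.Adj x₃ x₅ → G.Adj x₄ x₅ → False

theorem Gl.mk' [Fintype V] (hG : IsKConnected 6 G) (hm : ¬ HasCompleteMinor 6 G) : Gl G := by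
  classical
  refine ⟨fun x y h => h.symm, fun x h => h.ne rfl, ?_⟩
  intro x₁ x₂ x₃ x₄ x₅ h12 h13 h14 h15 h23 h24 h25 h34 h35 h45
  exact Pool.Agent.LG6.five hG hm h12 h13 h14 h15 h23 h24 h25 h34 h35 h45

theorem At.mk' [Fintype V] (hG : IsKConnected 6 G) (hm : ¬ HasCompleteMinor 6 G) {v : V}
    (hc : NC G v) : At G v := by
  classical
  have hN : ∀ x, x ∈ univ.filter (fun x => G.Adj v x) ↔ G.Adj v x := fun x => by
    rw [mem_filter]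
    exact ⟨fun h => h.2, fun h => ⟨mem_univ _, h⟩⟩
  have h6 := nc_card hG hm hN hc
  generalize univ.filter (fun x => G.Adj v x) = N at hN h6
  obtain ⟨D, hD, hvD, hND, hS⟩ : ∃ D : Set V, (G.induce D).Connected ∧ v ∉ D ∧
      (∀ x ∈ N, x ∉ D) ∧ ∀ x ∈ N, ∃ y ∈ D, G.Adj x y := by
    obtain ⟨d, hdv, hdN⟩ := exists_far hG hm (v := v) h6
    obtain ⟨D, hD, hvD, hND, S, hSN, hS6, hS⟩ := exists_att hG hN hdv hdN
    have hSe : S = N := eq_of_subset_of_card_le hSN (by omega)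
    exact ⟨D, hD, hvD, hND, hSe ▸ hS⟩
  refine ⟨hc, ?_, ⟨N, h6, hN⟩, ?_, ?_⟩
  · rintro t₁ t₂ t₃ z z' h a1 a2 a3 az az' ah h12 h13 h23 hz
      ⟨n1, n2, n3, n4, n5, n6, n7, n8, n9, n10, n11⟩ d1 d2 d3
    have dd : ∀ t, (G.Adj t z ∨ G.Adj t z') → ∃ y ∈ ({z, z'} : Set V), G.Adj t y := by
      rintro t (h' | h')
      · exact ⟨z, Or.inl rfl, h'⟩
      · exact ⟨z', Or.inr rfl, h'⟩
    refine dom7 hm hN hD hvD hND (Subset.refl N) hS ((hN _).2 a1) ((hN _).2 a2) ((hN _).2 a3)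
      ((hN _).2 ah) h12 h13 h23 {z, z'} (SimpleGraph.induce_pair_connected_of_adj hz) ?_
      ⟨z, Or.inl rfl, (hN _).2 az⟩ ?_ ?_ ?_ ?_ n7 n8 n9 (dd _ d1) (dd _ d2) (dd _ d3)
    · rintro y (rfl | hy)
      · exact (hN _).2 az
      · rw [Set.mem_singleton_iff] at hy
        exact hy ▸ (hN _).2 az'
    · rintro (hy | hy)
      · exact n10 hy
      · exact n11 hy
    · rintro (hy | hy)
      · exact n1 hy.symm
      · exact n4 (Set.mem_singleton_iff.1 hy).symm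
    · rintro (hy | hy)
      · exact n2 hy.symm
      · exact n5 (Set.mem_singleton_iff.1 hy).symm
    · rintro (hy | hy)
      · exact n3 hy.symm
      · exact n6 (Set.mem_singleton_iff.1 hy).symm
  · intro w hvw hw
    obtain ⟨y, hy, hwy⟩ := hS w ((hN w).2 hvw)
    rcases hw y hwy with h | h
    · exact hvD (h ▸ hy)
    · exact hND y ((hN y).2 h) hy
  · obtain ⟨t₁, m1, t₂, m2, t₃, m3, h12, h13, h23⟩ := ramsey hc (fun x hx => (hN x).1 hx) h6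
    exact ⟨t₁, t₂, t₃, (hN _).1 m1, (hN _).1 m2, (hN _).1 m3, h12, h13, h23⟩

/-- Seven different neighbours. -/
theorem At.seven {v : V} (L : At G v) {a b c d e f g : V} (ha : G.Adj v a) (hb : G.Adj v b)
    (hc : G.Adj v c) (hd : G.Adj v d) (he : G.Adj v e) (hf : G.Adj v f) (hg : G.Adj v g)
    (hn : a ≠ b ∧ a ≠ c ∧ a ≠ d ∧ a ≠ e ∧ a ≠ f ∧ a ≠ g ∧ b ≠ c ∧ b ≠ d ∧ b ≠ e ∧ b ≠ f ∧ b ≠ g ∧
      c ≠ d ∧ c ≠ e ∧ c ≠ f ∧ c ≠ g ∧ d ≠ e ∧ d ≠ f ∧ d ≠ g ∧ e ≠ f ∧ e ≠ g ∧ f ≠ g) : False := by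
  classical
  obtain ⟨N, h6, hN⟩ := L.nbr
  have h1 : ({a, b, c, d, e, f, g} : Finset V) ⊆ N := by
    intro x hx
    simp only [mem_insert, mem_singleton] at hx
    rw [hN]
    rcases hx with rfl | rfl | rfl | rfl | rfl | rfl | rfl <;> assumption
  have h2 := card_le_card h1
  have h3 : ({a, b, c, d, e, f, g} : Finset V).card = 7 := by
    have : ([a, b, c, d, e, f, g] : List V).Nodup := by
      simp only [List.nodup_cons, List.mem_cons, List.not_mem_nil, or_false, not_or]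
      refine ⟨⟨hn.1, hn.2.1, hn.2.2.1, hn.2.2.2.1, hn.2.2.2.2.1, hn.2.2.2.2.2.1⟩, ?_⟩
      obtain ⟨-, -, -, -, -, -, h⟩ := hn
      refine ⟨⟨h.1, h.2.1, h.2.2.1, h.2.2.2.1, h.2.2.2.2.1⟩, ?_⟩
      obtain ⟨-, -, -, -, -, h⟩ := h
      refine ⟨⟨h.1, h.2.1, h.2.2.1, h.2.2.2.1⟩, ?_⟩
      obtain ⟨-, -, -, -, h⟩ := h
      refine ⟨⟨h.1, h.2.1, h.2.2.1⟩, ⟨h.2.2.2.1, h.2.2.2.2.1⟩, h.2.2.2.2.2, ?_⟩
      exact ⟨fun h => h, List.nodup_nil⟩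
    have h4 := List.toFinset_card_of_nodup this
    simpa using h4
  omega

/-- Six different neighbours are all neighbours. -/
theorem At.all {v : V} (L : At G v) {a b c d e f : V} (ha : G.Adj v a) (hb : G.Adj v b)
    (hc : G.Adj v c) (hd : G.Adj v d) (he : G.Adj v e) (hf : G.Adj v f)
    (hn : a ≠ b ∧ a ≠ c ∧ a ≠ d ∧ a ≠ e ∧ a ≠ f ∧ b ≠ c ∧ b ≠ d ∧ b ≠ e ∧ b ≠ f ∧
      c ≠ d ∧ c ≠ e ∧ c ≠ f ∧ d ≠ e ∧ d ≠ f ∧ e ≠ f) :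
    ∀ y, G.Adj v y → y = a ∨ y = b ∨ y = c ∨ y = d ∨ y = e ∨ y = f := by
  intro y hy
  by_contra hno
  push Not at hno
  obtain ⟨m1, m2, m3, m4, m5, m6⟩ := hno
  obtain ⟨n1, n2, n3, n4, n5, n6, n7, n8, n9, n10, n11, n12, n13, n14, n15⟩ := hn
  exact L.seven ha hb hc hd he hf hy
    ⟨n1, n2, n3, n4, n5, m1.symm, n6, n7, n8, n9, m2.symm, n10, n11, n12, m3.symm, n13, n14,
      m4.symm, n15, m5.symm, m6.symm⟩

/-- Five different neighbours: there is a sixth one. -/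
theorem At.more5 {v : V} (L : At G v) {a b c d e : V} (ha : G.Adj v a) (hb : G.Adj v b)
    (hc : G.Adj v c) (hd : G.Adj v d) (he : G.Adj v e)
    (hn : a ≠ b ∧ a ≠ c ∧ a ≠ d ∧ a ≠ e ∧ b ≠ c ∧ b ≠ d ∧ b ≠ e ∧ c ≠ d ∧ c ≠ e ∧ d ≠ e) :
    ∃ f, G.Adj v f ∧ f ≠ a ∧ f ≠ b ∧ f ≠ c ∧ f ≠ d ∧ f ≠ e ∧
      ∀ y, G.Adj v y → y = a ∨ y = b ∨ y = c ∨ y = d ∨ y = e ∨ y = f := by
  classical
  obtain ⟨N, h6, hN⟩ := L.nbr
  have h1 : ∃ f ∈ N, f ∉ ({a, b, c, d, e} : Finset V) := by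
    by_contra h
    push Not at h
    have h2 := card_le_card (show N ⊆ {a, b, c, d, e} from h)
    have h3 : ({a, b, c, d, e} : Finset V).card ≤ 5 := card_le_five
    omega
  obtain ⟨f, hf, hf'⟩ := h1
  rw [hN] at hf
  simp only [mem_insert, mem_singleton, not_or] at hf'
  obtain ⟨m1, m2, m3, m4, m5⟩ := hf'
  obtain ⟨n1, n2, n3, n4, n5, n6, n7, n8, n9, n10⟩ := hn
  exact ⟨f, hf, m1, m2, m3, m4, m5, L.all ha hb hc hd he hf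
    ⟨n1, n2, n3, n4, Ne.symm m1, n5, n6, n7, Ne.symm m2, n8, n9, Ne.symm m3, n10, Ne.symm m4,
      Ne.symm m5⟩⟩

/-- Four different neighbours: there are two more. -/
theorem At.more4 {v : V} (L : At G v) {a b c d : V} (ha : G.Adj v a) (hb : G.Adj v b)
    (hc : G.Adj v c) (hd : G.Adj v d)
    (hn : a ≠ b ∧ a ≠ c ∧ a ≠ d ∧ b ≠ c ∧ b ≠ d ∧ c ≠ d) :
    ∃ e f, G.Adj v e ∧ G.Adj v f ∧ e ≠ f ∧ (e ≠ a ∧ e ≠ b ∧ e ≠ c ∧ e ≠ d) ∧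
      (f ≠ a ∧ f ≠ b ∧ f ≠ c ∧ f ≠ d) ∧
      ∀ y, G.Adj v y → y = a ∨ y = b ∨ y = c ∨ y = d ∨ y = e ∨ y = f := by
  classical
  obtain ⟨N, h6, hN⟩ := L.nbr
  have h1 : ∃ e ∈ N, e ∉ ({a, b, c, d} : Finset V) := by
    by_contra h
    push Not at h
    have h2 := card_le_card (show N ⊆ {a, b, c, d} from h)
    have h3 : ({a, b, c, d} : Finset V).card ≤ 4 := card_le_four
    omega
  obtain ⟨e, he, he'⟩ := h1
  rw [hN] at he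
  simp only [mem_insert, mem_singleton, not_or] at he'
  obtain ⟨m1, m2, m3, m4⟩ := he'
  obtain ⟨n1, n2, n3, n4, n5, n6⟩ := hn
  obtain ⟨f, hf, k1, k2, k3, k4, k5, hall⟩ := L.more5 ha hb hc hd he
    ⟨n1, n2, n3, Ne.symm m1, n4, n5, Ne.symm m2, n6, Ne.symm m3, Ne.symm m4⟩
  exact ⟨e, f, he, hf, k5.symm, ⟨m1, m2, m3, m4⟩, ⟨k1, k2, k3, k4⟩, hall⟩

end Pool.Agent.LD6
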