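import Pool.Agent.LD6.Menger

/-!
LD6: Lemma X, the component `C` of `c`, `d` splits into two parts, one attached to one path, the
other to the other path.
-/

set_option autoImplicit false

namespace Pool.Agent.LD6

open Finset Relation Pool.Agent.LG6 Pool.Agent.MK3.Mg

variable {V : Type} {G : SimpleGraph V}

/-- There are no two disjoint connected sets in `C`, one containing `c`, the other one `d`, with
different neighbours in `Q`. -/
def NoSplit (G : SimpleGraph V) (C : Set V) (c d : V) (Q : Set V) : Prop :=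
  ∀ S T : Set V, S ⊆ C → T ⊆ C → (G.induce S).Connected → (G.induce T).Connected →
    Disjoint S T → c ∈ S → d ∈ T → ∀ s t, s ∈ Q → t ∈ Q → (∃ x ∈ S, G.Adj x s) →
    (∃ y ∈ T, G.Adj y t) → s = t

/-- The conclusion: `C` is the disjoint union of the connected sets `E` (containing `c`) and `F`
(containing `d`), joined by the edge `cd` only; `E` is attached to `Q1`, `F` to `Q2`. -/
structure EF (G : SimpleGraph V) (C : Set V) (c d : V) (Q1 Q2 E F : Set V) : Prop where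
  cov : ∀ x, x ∈ C ↔ x ∈ E ∨ x ∈ F
  dis : Disjoint E F
  cE : c ∈ E
  dF : d ∈ F
  conE : (G.induce E).Connected
  conF : (G.induce F).Connected
  cd : ∀ x ∈ E, ∀ y ∈ F, G.Adj x y → x = c ∧ y = d
  noE : ∀ x ∈ E, ∀ y ∈ Q2, ¬ G.Adj x y
  noF : ∀ x ∈ F, ∀ y ∈ Q1, ¬ G.Adj x y
  nE : ∃ y₁ y₂ y₃, y₁ ∈ Q1 ∧ y₂ ∈ Q1 ∧ y₃ ∈ Q1 ∧ y₁ ≠ y₂ ∧ y₁ ≠ y₃ ∧ y₂ ≠ y₃ ∧
    (∃ x ∈ E, G.Adj x y₁) ∧ (∃ x ∈ E, G.Adj x y₂) ∧ (∃ x ∈ E, G.Adj x y₃)
  nF : ∃ y₁ y₂ y₃, y₁ ∈ Q2 ∧ y₂ ∈ Q2 ∧ y₃ ∈ Q2 ∧ y₁ ≠ y₂ ∧ y₁ ≠ y₃ ∧ y₂ ≠ y₃ ∧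
    (∃ x ∈ F, G.Adj x y₁) ∧ (∃ x ∈ F, G.Adj x y₂) ∧ (∃ x ∈ F, G.Adj x y₃)

/-- From a walk to connected sets. -/
theorem conn_of_walk {C Q P : Set V} {x s : V} (hxC : x ∈ C) (hQ : Disjoint C Q) (hs : s ∈ Q)
    (h : WIn (fun u w => G.Adj u w ∧ u ∈ C) P x s) :
    ∃ S : Set V, S ⊆ C ∧ S ⊆ P ∧ (G.induce S).Connected ∧ x ∈ S ∧ ∃ u ∈ S, G.Adj u s := by
  refine ⟨{w | ReflTransGen (fun u w => G.Adj u w ∧ w ∈ C ∧ w ∈ P) x w}, ?_, ?_, ?_,
    ReflTransGen.refl, ?_⟩
  · intro w hw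
    rcases ReflTransGen.cases_tail hw with h' | ⟨_, _, hc⟩
    · exact h' ▸ hxC
    · exact hc.2.1
  · intro w hw
    rcases ReflTransGen.cases_tail hw with h' | ⟨_, _, hc⟩
    · exact h' ▸ h.left
    · exact hc.2.2
  · exact reach_conn (fun _ _ h => h.1) x
  · have key : (s ∈ C → ReflTransGen (fun u w => G.Adj u w ∧ w ∈ C ∧ w ∈ P) x s) ∧
        (s ∉ C → ∃ u, ReflTransGen (fun u w => G.Adj u w ∧ w ∈ C ∧ w ∈ P) x u ∧ G.Adj u s) := by
      refine WIn.induction' (motive := fun s =>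
        (s ∈ C → ReflTransGen (fun u w => G.Adj u w ∧ w ∈ C ∧ w ∈ P) x s) ∧
        (s ∉ C → ∃ u, ReflTransGen (fun u w => G.Adj u w ∧ w ∈ C ∧ w ∈ P) x u ∧ G.Adj u s))
        ?_ ?_ h
      · intro _
        exact ⟨fun _ => ReflTransGen.refl, fun h => absurd hxC h⟩
      · intro b e _ hR he ih
        have hb := ih.1 hR.2
        exact ⟨fun heC => hb.tail ⟨hR.1, heC, he⟩, fun _ => ⟨b, hb, hR.1⟩⟩
    obtain ⟨u, hu, hus⟩ := key.2 (fun h => Set.disjoint_left.1 hQ h hs)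
    exact ⟨u, hu, hus⟩

/-- A separating vertex. -/
theorem sep [Finite V] {C Q : Set V} {c d : V} (hc : c ∈ C) (hd : d ∈ C)
    (hQ : Disjoint C Q) (h : NoSplit G C c d Q) :
    ∃ z, (z ∈ C ∨ z ∈ Q) ∧ ∀ Z : Set V, Z ⊆ C → (G.induce Z).Connected → (c ∈ Z ∨ d ∈ Z) →
      z ∉ Z → ∀ g ∈ Z, ∀ y ∈ Q, G.Adj g y → y = z := by
  classical
  -- first without the condition on `z`
  have h1 : ∃ z, ∀ Z : Set V, Z ⊆ C → (G.induce Z).Connected → (c ∈ Z ∨ d ∈ Z) →
      z ∉ Z → ∀ g ∈ Z, ∀ y ∈ Q, G.Adj g y → y = z := by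
    by_contra hno
    push Not at hno
    -- every vertex is avoided by a walk
    have hw : ∀ z : V, SIn (fun u w => G.Adj u w ∧ u ∈ C) ({z} : Set V)ᶜ {c, d} Q := by
      intro z
      obtain ⟨Z, hZC, hZ, hcd, hz, g, hg, y, hy, hgy, hyz⟩ := hno z
      obtain ⟨x, hx, hxZ⟩ : ∃ x ∈ ({c, d} : Set V), x ∈ Z := by
        rcases hcd with h | h
        · exact ⟨c, Or.inl rfl, h⟩
        · exact ⟨d, Or.inr rfl, h⟩
      refine ⟨x, hx, y, hy, fun h => hz (h ▸ hxZ), ?_⟩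
      have h3 := (SimpleGraph.reachable_iff_reflTransGen _ _).1
        (hZ.preconnected ⟨x, hxZ⟩ ⟨g, hg⟩)
      have h4 : ReflTransGen (fun u w => (G.Adj u w ∧ u ∈ C) ∧ w ∈ ({z} : Set V)ᶜ) x g := by
        refine Relation.ReflTransGen.lift
          (p := fun u w => (G.Adj u w ∧ u ∈ C) ∧ w ∈ ({z} : Set V)ᶜ) Subtype.val ?_ _ _ h3
        rintro ⟨u, hu⟩ ⟨w, hw⟩ huw
        exact ⟨⟨huw, hZC hu⟩, fun h => hz (h ▸ hw)⟩
      exact h4.tail ⟨⟨hgy, hZC hg⟩, hyz⟩
    obtain ⟨P, hd', hP⟩ := mengerK 2 (fun u w => G.Adj u w ∧ u ∈ C) {c, d} Q (by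
      intro S hS
      have hS' : S.card ≤ 1 := by omega
      have : Nonempty V := ⟨c⟩
      obtain ⟨z, hz⟩ := (Finset.card_le_one_iff_subset_singleton (s := S)).1 hS'
      refine (hw z).mono (fun _ _ _ _ h => h) ?_ (fun _ h => h) (fun _ h => h)
      intro w hw' hwS
      exact hw' (mem_singleton.1 (hz (mem_coe.1 hwS))))
    obtain ⟨x, hx, s, hs, hxs⟩ := hP 0
    obtain ⟨y, hy, t, ht, hyt⟩ := hP 1
    have hd01 : Disjoint (P 0) (P 1) := hd' 0 1 (by decide)
    have hxC : x ∈ C := by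
      rcases hx with rfl | rfl
      · exact hc
      · exact hd
    have hyC : y ∈ C := by
      rcases hy with rfl | rfl
      · exact hc
      · exact hd
    obtain ⟨S, hSC, hSP, hS, hxS, us, hus, hss⟩ := conn_of_walk hxC hQ hs hxs
    obtain ⟨T, hTC, hTP, hT, hyT, ut, hut, htt⟩ := conn_of_walk hyC hQ ht hyt
    have hST : Disjoint S T := Set.disjoint_of_subset hSP hTP hd01
    have hst : s ≠ t := by
      intro h
      exact Set.disjoint_left.1 hd01 hxs.right (h ▸ hyt.right)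
    have hxy : x ≠ y := by
      intro h
      exact Set.disjoint_left.1 hd01 hxs.left (h ▸ hyt.left)
    rcases hx with rfl | hx
    · rcases hy with rfl | hy
      · exact hxy rfl
      · rw [Set.mem_singleton_iff] at hy
        subst hy
        exact hst (h S T hSC hTC hS hT hST hxS hyT s t hs ht ⟨us, hus, hss⟩ ⟨ut, hut, htt⟩)
    · rw [Set.mem_singleton_iff] at hx
      subst hx
      rcases hy with rfl | hy
      · exact hst (h T S hTC hSC hT hS hST.symm hyT hxS t s ht hs ⟨ut, hut, htt⟩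
          ⟨us, hus, hss⟩).symm
      · rw [Set.mem_singleton_iff] at hy
        exact hxy hy.symm
  obtain ⟨z, hz⟩ := h1
  by_cases hzC : z ∈ C ∨ z ∈ Q
  · exact ⟨z, hzC, hz⟩
  · rw [not_or] at hzC
    refine ⟨c, Or.inl hc, ?_⟩
    intro Z hZC hZ hcd _ g hg y hy hgy
    exact absurd hy ((hz Z hZC hZ hcd (fun h => hzC.1 (hZC h)) g hg y hy hgy) ▸ hzC.2)

/-- A connected subset of `X` that meets a component is contained in it. -/
theorem sub_of_meet {X D Z : Set V} (hD : ∀ g ∈ D, ∀ h ∈ X, G.Adj g h → h ∈ D)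
    (hZX : Z ⊆ X) (hZ : (G.induce Z).Connected) {z : V} (hz : z ∈ Z) (hzD : z ∈ D) : Z ⊆ D := by
  intro w hw
  by_contra hwD
  obtain ⟨g, h, _, hh, hgh, hgD, hhD⟩ := cross hZ D hz hw hzD hwD
  exact hhD (hD g hgD h (hZX hh) hgh)

section

variable [Fintype V] [DecidableEq V]

omit [DecidableEq V] in
/-- A set with a small boundary. -/
theorem no_small (hG : IsKConnected 6 G) {Z : Set V} {z p : V} (hz : z ∈ Z) (hp : p ∉ Z)
    (K : Finset V) (hK : K.card < 6) (hzK : z ∉ K) (hpK : p ∉ K)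
    (hN : ∀ g ∈ Z, ∀ y, G.Adj g y → y ∈ Z ∨ y ∈ K) : False := by
  have hc := hG.2 K hK
  obtain ⟨g, h, _, hh, hgh, hgZ, hhZ⟩ := cross hc Z (e := z) (f := p)
    (fun h => hzK (mem_coe.1 h)) (fun h => hpK (mem_coe.1 h)) hz hp
  rcases hN g hgZ h hgh with h' | h'
  · exact hhZ h'
  · exact hh (mem_coe.2 h')

/-- A part attached to `v`, `a`, `d` and `Q` only has three neighbours in `Q`. -/
theorem three_nbrs (hG : IsKConnected 6 G) {v a c d p : V} {E Q : Set V} (hc : c ∈ E)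
    (hv : v ∉ E) (ha : a ∉ E) (hd : d ∉ E) (hQ : Disjoint E Q) (hp : p ∉ E)
    (hpv : p ≠ v) (hpa : p ≠ a) (hpd : p ≠ d) (hpQ : p ∉ Q)
    (hN : ∀ g ∈ E, ∀ y, G.Adj g y → y ∈ E ∨ y = v ∨ y = a ∨ y = d ∨ y ∈ Q) :
    ∃ y₁ y₂ y₃, y₁ ∈ Q ∧ y₂ ∈ Q ∧ y₃ ∈ Q ∧ y₁ ≠ y₂ ∧ y₁ ≠ y₃ ∧ y₂ ≠ y₃ ∧
      (∃ x ∈ E, G.Adj x y₁) ∧ (∃ x ∈ E, G.Adj x y₂) ∧ (∃ x ∈ E, G.Adj x y₃) := by
  classical
  set N : Finset V := univ.filter fun y => y ∈ Q ∧ ∃ x ∈ E, G.Adj x y with hNdef
  have hmem : ∀ y, y ∈ N ↔ y ∈ Q ∧ ∃ x ∈ E, G.Adj x y := by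
    intro y
    rw [hNdef, mem_filter]
    exact ⟨fun h => h.2, fun h => ⟨mem_univ _, h⟩⟩
  have hcard : 2 < N.card := by
    by_contra hle
    push Not at hle
    refine no_small hG hc hp ({v, a, d} ∪ N) ?_ ?_ ?_ ?_
    · have h1 := card_union_le ({v, a, d} : Finset V) N
      have h2 : ({v, a, d} : Finset V).card ≤ 3 := card_le_three
      omega
    · intro h
      rcases mem_union.1 h with h | h
      · simp only [mem_insert, mem_singleton] at h
        rcases h with h | h | h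
        · exact hv (h ▸ hc)
        · exact ha (h ▸ hc)
        · exact hd (h ▸ hc)
      · exact Set.disjoint_left.1 hQ hc ((hmem c).1 h).1
    · intro h
      rcases mem_union.1 h with h | h
      · simp only [mem_insert, mem_singleton] at h
        rcases h with h | h | h
        · exact hpv h
        · exact hpa h
        · exact hpd h
      · exact hpQ ((hmem p).1 h).1
    · intro g hg y hgy
      rcases hN g hg y hgy with h | h | h | h | h
      · exact Or.inl h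
      · exact Or.inr (mem_union_left _ (by simp [h]))
      · exact Or.inr (mem_union_left _ (by simp [h]))
      · exact Or.inr (mem_union_left _ (by simp [h]))
      · exact Or.inr (mem_union_right _ ((hmem y).2 ⟨h, g, hg, hgy⟩))
  obtain ⟨y₁, h1, y₂, h2, y₃, h3, h12, h13, h23⟩ := Finset.two_lt_card.1 hcard
  exact ⟨y₁, y₂, y₃, ((hmem _).1 h1).1, ((hmem _).1 h2).1, ((hmem _).1 h3).1, h12, h13, h23,
    ((hmem _).1 h1).2, ((hmem _).1 h2).2, ((hmem _).1 h3).2⟩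

/-- The two components. -/
theorem ef_of (hG : IsKConnected 6 G) {v a c d p : V} {C Q1 Q2 E F : Set V}
    (hC : (G.induce C).Connected) (hc : c ∈ C) (hd : d ∈ C) (hcd : c ≠ d)
    (hv : v ∉ C) (ha : a ∉ C) (hQ1 : Disjoint C Q1) (hQ2 : Disjoint C Q2)
    (hN : ∀ x ∈ C, ∀ y, G.Adj x y → y ∈ C ∨ y = v ∨ y = a ∨ y ∈ Q1 ∨ y ∈ Q2)
    (hp : p ∉ C) (hpv : p ≠ v) (hpa : p ≠ a) (hp1 : p ∉ Q1) (hp2 : p ∉ Q2)
    (hE : E ⊆ C \ {d}) (hcE : c ∈ E) (conE : (G.induce E).Connected)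
    (clE : ∀ g ∈ E, ∀ h ∈ C \ {d}, G.Adj g h → h ∈ E)
    (hF : F ⊆ C \ {c}) (hdF : d ∈ F) (conF : (G.induce F).Connected)
    (clF : ∀ g ∈ F, ∀ h ∈ C \ {c}, G.Adj g h → h ∈ F)
    (noE : ∀ x ∈ E, ∀ y ∈ Q2, ¬ G.Adj x y) (noF : ∀ x ∈ F, ∀ y ∈ Q1, ¬ G.Adj x y) :
    EF G C c d Q1 Q2 E F := by
  classical
  have hEC : E ⊆ C := fun x hx => (hE hx).1
  have hFC : F ⊆ C := fun x hx => (hF hx).1
  have hdE : d ∉ E := fun h => (hE h).2 rfl
  have hcF : c ∉ F := fun h => (hF h).2 rfl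
  have hcv : c ≠ v := fun h => hv (h ▸ hc)
  have hca : c ≠ a := fun h => ha (h ▸ hc)
  have hdv : d ≠ v := fun h => hv (h ▸ hd)
  have hda : d ≠ a := fun h => ha (h ▸ hd)
  have hpc : p ≠ c := fun h => hp (h ▸ hc)
  have hpd : p ≠ d := fun h => hp (h ▸ hd)
  have hdis : Disjoint E F := by
    rw [Set.disjoint_left]
    intro z hzE hzF
    have hzc : z ≠ c := fun h => hcF (h ▸ hzF)
    have hzd : z ≠ d := fun h => hdE (h ▸ hzE)
    have hzC : z ∈ C := hEC hzE
    have hzX : z ∈ C \ ({c, d} : Set V) := ⟨hzC, by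
      rintro (h | h)
      · exact hzc h
      · exact hzd h⟩
    obtain ⟨Z, hZX, hzZ, hZ, clZ⟩ := comp G (C \ ({c, d} : Set V)) z hzX
    have hZE : Z ⊆ E := sub_of_meet clE (fun x hx => ⟨(hZX hx).1, fun h => (hZX hx).2
      (Or.inr h)⟩) hZ hzZ hzE
    have hZF : Z ⊆ F := sub_of_meet clF (fun x hx => ⟨(hZX hx).1, fun h => (hZX hx).2
      (Or.inl h)⟩) hZ hzZ hzF
    refine no_small hG hzZ (fun h => hp (hEC (hZE h))) {c, d, v, a}
      (lt_of_le_of_lt card_le_four (by norm_num)) ?_ ?_ ?_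
    · simp only [mem_insert, mem_singleton]
      rintro (h | h | h | h)
      · exact hzc h
      · exact hzd h
      · exact hv (h ▸ hzC)
      · exact ha (h ▸ hzC)
    · simp only [mem_insert, mem_singleton]
      rintro (h | h | h | h)
      · exact hpc h
      · exact hpd h
      · exact hpv h
      · exact hpa h
    · intro g hg y hgy
      rcases hN g (hEC (hZE hg)) y hgy with h | h | h | h | h
      · by_cases hyc : y = c
        · exact Or.inr (by simp [hyc])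
        by_cases hyd : y = d
        · exact Or.inr (by simp [hyd])
        refine Or.inl (clZ g hg y ⟨h, ?_⟩ hgy)
        rintro (h' | h')
        · exact hyc h'
        · exact hyd h'
      · exact Or.inr (by simp [h])
      · exact Or.inr (by simp [h])
      · exact absurd hgy (noF g (hZF hg) y h)
      · exact absurd hgy (noE g (hZE hg) y h)
  have hcov : ∀ x, x ∈ C ↔ x ∈ E ∨ x ∈ F := by
    intro x
    constructor
    · intro hx
      by_contra hno
      rw [not_or] at hno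
      have hxX : x ∈ C \ ({c, d} : Set V) := ⟨hx, by
        rintro (h | h)
        · exact hno.1 (h ▸ hcE)
        · rw [Set.mem_singleton_iff] at h
          exact hno.2 (h ▸ hdF)⟩
      obtain ⟨Z, hZX, hxZ, hZ, clZ⟩ := comp G (C \ ({c, d} : Set V)) x hxX
      have hcZ : c ∉ Z := fun h => (hZX h).2 (Or.inl rfl)
      obtain ⟨g, h, hg, hh, hgh, hgZ, hhZ⟩ := cross hC Z hx hc hxZ hcZ
      have hgX := hZX hgZ
      have hh' : h = c ∨ h = d := by
        by_contra hno'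
        rw [not_or] at hno'
        exact hhZ (clZ g hgZ h ⟨hh, by
          rintro (h' | h')
          · exact hno'.1 h'
          · exact hno'.2 h'⟩ hgh)
      rcases hh' with rfl | rfl
      · have hgE : g ∈ E := clE h hcE g ⟨hg, fun h' => hgX.2 (Or.inr h')⟩ hgh.symm
        exact hno.1 (sub_of_meet clE (fun y hy => ⟨(hZX hy).1, fun h' => (hZX hy).2
          (Or.inr h')⟩) hZ hgZ hgE hxZ)
      · have hgF : g ∈ F := clF h hdF g ⟨hg, fun h' => hgX.2 (Or.inl h')⟩ hgh.symm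
        exact hno.2 (sub_of_meet clF (fun y hy => ⟨(hZX hy).1, fun h' => (hZX hy).2
          (Or.inl h')⟩) hZ hgZ hgF hxZ)
    · rintro (h | h)
      · exact hEC h
      · exact hFC h
  have hcdE : ∀ x ∈ E, ∀ y ∈ F, G.Adj x y → x = c ∧ y = d := by
    intro x hx y hy hxy
    have h1 : y = d := by
      by_contra hyd
      exact Set.disjoint_left.1 hdis (clE x hx y ⟨hFC hy, hyd⟩ hxy) hy
    have h2 : x = c := by
      by_contra hxc
      exact Set.disjoint_left.1 hdis hx (clF y hy x ⟨hEC hx, hxc⟩ hxy.symm)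
    exact ⟨h2, h1⟩
  refine ⟨hcov, hdis, hcE, hdF, conE, conF, hcdE, noE, noF, ?_, ?_⟩
  · refine three_nbrs (v := v) (a := a) (d := d) (p := p) hG hcE (fun h => hv (hEC h))
      (fun h => ha (hEC h)) hdE
      (Set.disjoint_of_subset_left hEC hQ1) (fun h => hp (hEC h)) hpv hpa hpd hp1 ?_
    intro g hg y hgy
    rcases hN g (hEC hg) y hgy with h | h | h | h | h
    · rcases (hcov y).1 h with h | h
      · exact Or.inl h
      · exact Or.inr (Or.inr (Or.inr (Or.inl (hcdE g hg y h hgy).2)))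
    · exact Or.inr (Or.inl h)
    · exact Or.inr (Or.inr (Or.inl h))
    · exact Or.inr (Or.inr (Or.inr (Or.inr h)))
    · exact absurd hgy (noE g hg y h)
  · refine three_nbrs (v := v) (a := a) (d := c) (p := p) hG hdF (fun h => hv (hFC h))
      (fun h => ha (hFC h)) hcF
      (Set.disjoint_of_subset_left hFC hQ2) (fun h => hp (hFC h)) hpv hpa hpc hp2 ?_
    intro g hg y hgy
    rcases hN g (hFC hg) y hgy with h | h | h | h | h
    · rcases (hcov y).1 h with h | h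
      · exact Or.inr (Or.inr (Or.inr (Or.inl (hcdE y h g hg hgy.symm).1)))
      · exact Or.inl h
    · exact Or.inr (Or.inl h)
    · exact Or.inr (Or.inr (Or.inl h))
    · exact absurd hgy (noF g hg y h)
    · exact Or.inr (Or.inr (Or.inr (Or.inr h)))

/-- **The claim `C = E + F`.** -/
theorem claimEF (hG : IsKConnected 6 G) {v a c d p3 : V} {C P1 P2 : Set V}
    (hC : (G.induce C).Connected) (hc : c ∈ C) (hd : d ∈ C) (hcd : c ≠ d)
    (hv : v ∉ C) (ha : a ∉ C) (hP1 : Disjoint C P1) (hP2 : Disjoint C P2)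
    (hN : ∀ x ∈ C, ∀ y, G.Adj x y → y ∈ C ∨ y = v ∨ y = a ∨ y ∈ P1 ∨ y ∈ P2)
    (h3 : p3 ∉ C ∧ p3 ≠ v ∧ p3 ≠ a ∧ p3 ∉ P1 ∧ p3 ∉ P2)
    (h01 : NoSplit G C c d P1) (h02 : NoSplit G C c d P2) :
    (∃ E F : Set V, EF G C c d P1 P2 E F) ∨ (∃ E F : Set V, EF G C c d P2 P1 E F) := by
  classical
  obtain ⟨h31, h32, h33, h34, h35⟩ := h3
  obtain ⟨z1, hz1, hs1⟩ := sep hc hd hP1 h01
  obtain ⟨z2, hz2, hs2⟩ := sep hc hd hP2 h02
  have hpz1 : p3 ≠ z1 := by
    rintro rfl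
    rcases hz1 with h | h
    · exact h31 h
    · exact h34 h
  have hpz2 : p3 ≠ z2 := by
    rintro rfl
    rcases hz2 with h | h
    · exact h31 h
    · exact h35 h
  -- `c` and `d` are among `z1`, `z2`
  have key : ∀ x, x ∈ C → (x = c ∨ x = d) → x = z1 ∨ x = z2 := by
    intro x hx hxcd
    by_contra hno
    rw [not_or] at hno
    have hxX : x ∈ C \ ({z1, z2} : Set V) := ⟨hx, by
      rintro (h | h)
      · exact hno.1 h
      · exact hno.2 h⟩
    obtain ⟨Z, hZX, hxZ, hZ, clZ⟩ := comp G (C \ ({z1, z2} : Set V)) x hxX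
    have hZC : Z ⊆ C := fun y hy => (hZX hy).1
    have hcdZ : c ∈ Z ∨ d ∈ Z := by
      rcases hxcd with rfl | rfl
      · exact Or.inl hxZ
      · exact Or.inr hxZ
    have hz1Z : z1 ∉ Z := fun h => (hZX h).2 (Or.inl rfl)
    have hz2Z : z2 ∉ Z := fun h => (hZX h).2 (Or.inr rfl)
    refine no_small hG hxZ (fun h => h31 (hZC h)) {v, a, z1, z2}
      (lt_of_le_of_lt card_le_four (by norm_num)) ?_ ?_ ?_
    · simp only [mem_insert, mem_singleton]
      rintro (h | h | h | h)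
      · exact hv (h ▸ hx)
      · exact ha (h ▸ hx)
      · exact hno.1 h
      · exact hno.2 h
    · simp only [mem_insert, mem_singleton]
      rintro (h | h | h | h)
      · exact h32 h
      · exact h33 h
      · exact hpz1 h
      · exact hpz2 h
    · intro g hg y hgy
      rcases hN g (hZC hg) y hgy with h | h | h | h | h
      · by_cases hy1 : y = z1
        · exact Or.inr (by simp [hy1])
        by_cases hy2 : y = z2
        · exact Or.inr (by simp [hy2])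
        refine Or.inl (clZ g hg y ⟨h, ?_⟩ hgy)
        rintro (h' | h')
        · exact hy1 h'
        · exact hy2 h'
      · exact Or.inr (by simp [h])
      · exact Or.inr (by simp [h])
      · have := hs1 Z hZC hZ hcdZ hz1Z g hg y h hgy
        exact Or.inr (by simp [this])
      · have := hs2 Z hZC hZ hcdZ hz2Z g hg y h hgy
        exact Or.inr (by simp [this])
  obtain ⟨E, hE, hcE, conE, clE⟩ := comp G (C \ ({d} : Set V)) c ⟨hc, hcd⟩
  obtain ⟨F, hF, hdF, conF, clF⟩ := comp G (C \ ({c} : Set V)) d ⟨hd, hcd.symm⟩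
  have hEC : E ⊆ C := fun x hx => (hE hx).1
  have hFC : F ⊆ C := fun x hx => (hF hx).1
  have hdE : d ∉ E := fun h => (hE h).2 rfl
  have hcF : c ∉ F := fun h => (hF h).2 rfl
  have hc' := key c hc (Or.inl rfl)
  have hd' := key d hd (Or.inr rfl)
  have hcases : (z1 = c ∧ z2 = d) ∨ (z1 = d ∧ z2 = c) := by
    rcases hc' with h | h
    · rcases hd' with h' | h'
      · exact absurd (h.trans h'.symm) hcd
      · exact Or.inl ⟨h.symm, h'.symm⟩
    · rcases hd' with h' | h'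
      · exact Or.inr ⟨h'.symm, h.symm⟩
      · exact absurd (h.trans h'.symm) hcd
  rcases hcases with ⟨rfl, rfl⟩ | ⟨rfl, rfl⟩
  · left
    refine ⟨E, F, ef_of hG hC hc hd hcd hv ha hP1 hP2 hN h31 h32 h33 h34 h35 hE hcE conE clE hF hdF
      conF clF ?_ ?_⟩
    · intro x hx y hy hxy
      have := hs2 E hEC conE (Or.inl hcE) hdE x hx y hy hxy
      exact Set.disjoint_left.1 hP2 hd (this ▸ hy)
    · intro x hx y hy hxy
      have := hs1 F hFC conF (Or.inr hdF) hcF x hx y hy hxy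
      exact Set.disjoint_left.1 hP1 hc (this ▸ hy)
  · right
    refine ⟨E, F, ef_of hG hC hc hd hcd hv ha hP2 hP1
      (fun x hx y hxy => by have := hN x hx y hxy; tauto) h31 h32 h33 h35 h34 hE hcE conE clE hF
      hdF conF clF ?_ ?_⟩
    · intro x hx y hy hxy
      have := hs1 E hEC conE (Or.inl hcE) hdE x hx y hy hxy
      exact Set.disjoint_left.1 hP1 hd (this ▸ hy)
    · intro x hx y hy hxy
      have := hs2 F hFC conF (Or.inr hdF) hcF x hx y hy hxy
      exact Set.disjoint_left.1 hP2 hc (this ▸ hy)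

end

end Pool.Agent.LD6
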