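import Pool.Agent.LD6.End1

/-!
LD6: the endgame, a common neighbour `p ≠ v` of all six neighbours of `v`.
-/

set_option autoImplicit false

namespace Pool.Agent.LD6

open Finset Pool.Agent.LG6

variable {V : Type} {G : SimpleGraph V}

theorem M.common_core (hm : ¬ HasCompleteMinor 6 G)
    {v a₁ a₂ a₃ b₁ b₂ b₃ p : V} (h : M G v a₁ a₂ a₃ b₁ b₂ b₃) (pv : p ≠ v)
    (nvp : ¬ G.Adj v p) (p1 : G.Adj a₁ p) (p2 : G.Adj a₂ p) (p3 : G.Adj a₃ p)
    (q1 : G.Adj b₁ p) (q3 : G.Adj b₃ p) (D : Set V) (hD : (G.induce D).Connected)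
    (hX : ∀ x ∈ D, x ≠ v ∧ x ≠ p ∧ (x ≠ a₁ ∧ x ≠ a₂ ∧ x ≠ a₃) ∧ x ≠ b₁ ∧ x ≠ b₂ ∧ x ≠ b₃)
    (t1 : ∃ y ∈ D, G.Adj b₁ y) (t2 : ∃ y ∈ D, G.Adj a₂ y) (t3 : ∃ y ∈ D, G.Adj a₃ y) :
    False := by
  classical
  obtain ⟨va1, va2, va3, vb1, vb2, vb3, a12, a13, a23, b12, b13, b23, c1, c2, c3, n12, n13, n21,
    n23, n31, n32, ⟨m1, m2, m3, m4, m5, m6⟩, Nv⟩ := h
  have pa : p ≠ a₁ ∧ p ≠ a₂ ∧ p ≠ a₃ ∧ p ≠ b₁ ∧ p ≠ b₂ ∧ p ≠ b₃ := by
    and_intros <;> rintro rfl <;> exact nvp (by assumption)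
  have dv : ∀ x, x ∈ D → x ≠ v := fun x hx => (hX x hx).1
  apply hm
  apply clique_model ({a₁, a₂, a₃} : Finset V) (J := Fin 3)
    (R := ![({v, b₂} : Set V), ({p, b₃} : Set V), D ∪ {b₁}])
  · intro e he f hf hef
    simp only [mem_insert, mem_singleton] at he hf
    rcases he with rfl | rfl | rfl <;> rcases hf with rfl | rfl | rfl <;>
      first
        | exact absurd rfl hef
        | assumption
        | exact SimpleGraph.Adj.symm (by assumption)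
  · intro j
    fin_cases j
    · exact SimpleGraph.induce_pair_connected_of_adj vb2
    · exact SimpleGraph.induce_pair_connected_of_adj q3.symm
    · obtain ⟨y, hy, hby⟩ := t1
      exact SimpleGraph.connected_induce_union hD.preconnected
        (single_connected G b₁).preconnected hy rfl hby.symm
  · intro e he j
    simp only [mem_insert, mem_singleton] at he
    have hne : e ≠ v ∧ e ≠ p ∧ e ≠ b₁ ∧ e ≠ b₂ ∧ e ≠ b₃ ∧ e ∉ D := by
      rcases he with rfl | rfl | rfl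
      · exact ⟨va1.ne.symm, pa.1.symm, c1.ne, m1, m2, fun h => (hX _ h).2.2.1.1 rfl⟩
      · exact ⟨va2.ne.symm, pa.2.1.symm, m3, c2.ne, m4, fun h => (hX _ h).2.2.1.2.1 rfl⟩
      · exact ⟨va3.ne.symm, pa.2.2.1.symm, m5, m6, c3.ne, fun h => (hX _ h).2.2.1.2.2 rfl⟩
    fin_cases j
    · rintro (h | h)
      · exact hne.1 h
      · exact hne.2.2.2.1 h
    · rintro (h | h)
      · exact hne.2.1 h
      · exact hne.2.2.2.2.1 h
    · rintro (h | h)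
      · exact hne.2.2.2.2.2 h
      · exact hne.2.2.1 h
  · have d1 : Disjoint ({v, b₂} : Set V) ({p, b₃} : Set V) := by
      rw [Set.disjoint_left]
      rintro x (rfl | rfl) (h | h)
      · exact pv h.symm
      · exact vb3.ne h
      · exact pa.2.2.2.2.1 h.symm
      · exact b23.ne h
    have d2 : Disjoint ({v, b₂} : Set V) (D ∪ {b₁}) := by
      rw [Set.disjoint_left]
      rintro x (rfl | rfl) (h | h)
      · exact (hX _ h).1 rfl
      · exact vb1.ne h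
      · exact (hX _ h).2.2.2.2.1 rfl
      · exact b12.ne h.symm
    have d3 : Disjoint ({p, b₃} : Set V) (D ∪ {b₁}) := by
      rw [Set.disjoint_left]
      rintro x (rfl | rfl) (h | h)
      · exact (hX _ h).2.1 rfl
      · exact pa.2.2.2.1 h
      · exact (hX _ h).2.2.2.2.2 rfl
      · exact b13.ne h.symm
    intro i j hij
    fin_cases i <;> fin_cases j
    · exact absurd rfl hij
    · exact d1
    · exact d2
    · exact d1.symm
    · exact absurd rfl hij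
    · exact d3
    · exact d2.symm
    · exact d3.symm
    · exact absurd rfl hij
  · have e1 : ∃ x ∈ ({v, b₂} : Set V), ∃ y ∈ ({p, b₃} : Set V), G.Adj x y :=
      ⟨b₂, Or.inr rfl, b₃, Or.inr rfl, b23⟩
    have e2 : ∃ x ∈ ({v, b₂} : Set V), ∃ y ∈ (D ∪ {b₁} : Set V), G.Adj x y :=
      ⟨v, Or.inl rfl, b₁, Or.inr rfl, vb1⟩
    have e3 : ∃ x ∈ ({p, b₃} : Set V), ∃ y ∈ (D ∪ {b₁} : Set V), G.Adj x y :=
      ⟨p, Or.inl rfl, b₁, Or.inr rfl, q1.symm⟩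
    have sw : ∀ A B : Set V, (∃ x ∈ A, ∃ y ∈ B, G.Adj x y) → ∃ x ∈ B, ∃ y ∈ A, G.Adj x y := by
      rintro A B ⟨x, hx, y, hy, hxy⟩
      exact ⟨y, hy, x, hx, hxy.symm⟩
    intro i j hij
    fin_cases i <;> fin_cases j
    · exact absurd rfl hij
    · exact e1
    · exact e2
    · exact sw _ _ e1
    · exact absurd rfl hij
    · exact e3
    · exact sw _ _ e2
    · exact sw _ _ e3
    · exact absurd rfl hij
  · intro e he j
    simp only [mem_insert, mem_singleton] at he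
    have hh : G.Adj e v ∧ G.Adj e p ∧ ∃ y ∈ (D ∪ {b₁} : Set V), G.Adj e y := by
      rcases he with rfl | rfl | rfl
      · exact ⟨va1.symm, p1, b₁, Or.inr rfl, c1⟩
      · obtain ⟨y, hy, h⟩ := t2
        exact ⟨va2.symm, p2, y, Or.inl hy, h⟩
      · obtain ⟨y, hy, h⟩ := t3
        exact ⟨va3.symm, p3, y, Or.inl hy, h⟩
    fin_cases j
    · exact ⟨v, Or.inl rfl, hh.1⟩
    · exact ⟨p, Or.inl rfl, hh.2.1⟩
    · exact hh.2.2
  · rw [Fintype.card_fin, card_insert_of_notMem, card_insert_of_notMem, card_singleton]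
    · rw [mem_singleton]
      exact a23.ne
    · rw [mem_insert, mem_singleton]
      rintro (h | h)
      · exact a12.ne h
      · exact a13.ne h

theorem M.common [Fintype V] [DecidableEq V] (hG : IsKConnected 6 G)
    (hm : ¬ HasCompleteMinor 6 G) (_hL : Gl G) {v a₁ a₂ a₃ b₁ b₂ b₃ p s : V}
    (h : M G v a₁ a₂ a₃ b₁ b₂ b₃) (pv : p ≠ v) (nvp : ¬ G.Adj v p) (p1 : G.Adj a₁ p)
    (p2 : G.Adj a₂ p) (p3 : G.Adj a₃ p) (q1 : G.Adj b₁ p) (q2 : G.Adj b₂ p) (q3 : G.Adj b₃ p)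
    (sv : s ≠ v) (nvs : ¬ G.Adj v s) (sp : s ≠ p) : False := by
  classical
  obtain ⟨D, hDX, hsD, hD, hcl⟩ := comp G
    {x | x ≠ v ∧ x ≠ p ∧ (x ≠ a₁ ∧ x ≠ a₂ ∧ x ≠ a₃) ∧ x ≠ b₁ ∧ x ≠ b₂ ∧ x ≠ b₃} s (by
      refine ⟨sv, sp, ⟨?_, ?_, ?_⟩, ?_, ?_, ?_⟩ <;> rintro rfl
      · exact nvs h.va1
      · exact nvs h.va2
      · exact nvs h.va3
      · exact nvs h.vb1
      · exact nvs h.vb2
      · exact nvs h.vb3)
  set T : Finset V := {a₁, a₂, a₃, b₁, b₂, b₃, p} with hT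
  have hTc : T.card ≤ 7 := by
    rw [hT]
    refine (card_insert_le _ _).trans ?_
    exact Nat.succ_le_succ card_le_six
  set C := T.filter fun x => ∃ y ∈ D, G.Adj x y with hC
  have hTm : ∀ x, x ∈ T ↔ x = a₁ ∨ x = a₂ ∨ x = a₃ ∨ x = b₁ ∨ x = b₂ ∨ x = b₃ ∨ x = p := by
    intro x
    rw [hT]
    simp only [mem_insert, mem_singleton]
  have hC6 : 6 ≤ C.card := by
    by_contra hlt
    push Not at hlt
    obtain ⟨g, w, hg, hw, hgw, hgD, hwD⟩ := cross (hG.2 C hlt) D (e := s) (f := v)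
      (fun h' => by
        have h1 := (hTm s).1 (mem_of_mem_filter _ (mem_coe.1 h'))
        have h2 := hDX hsD
        obtain ⟨-, k2, ⟨k3, k4, k5⟩, k6, k7, k8⟩ := h2
        rcases h1 with h1 | h1 | h1 | h1 | h1 | h1 | h1
        · exact k3 h1
        · exact k4 h1
        · exact k5 h1
        · exact k6 h1
        · exact k7 h1
        · exact k8 h1
        · exact k2 h1)
      (fun h' => by
        have h1 := (hTm v).1 (mem_of_mem_filter _ (mem_coe.1 h'))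
        rcases h1 with h1 | h1 | h1 | h1 | h1 | h1 | h1
        · exact h.va1.ne h1
        · exact h.va2.ne h1
        · exact h.va3.ne h1
        · exact h.vb1.ne h1
        · exact h.vb2.ne h1
        · exact h.vb3.ne h1
        · exact pv h1.symm) hsD (fun h' => (hDX h').1 rfl)
    have hgX := hDX hgD
    obtain ⟨k1, k2, ⟨k3, k4, k5⟩, k6, k7, k8⟩ := hgX
    by_cases hwv : w = v
    · subst hwv
      rcases h.Nv g hgw.symm with h1 | h1 | h1 | h1 | h1 | h1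
      · exact k3 h1
      · exact k4 h1
      · exact k5 h1
      · exact k6 h1
      · exact k7 h1
      · exact k8 h1
    · by_cases hwT : w ∈ T
      · exact hw (mem_coe.2 (mem_filter.2 ⟨hwT, g, hgD, hgw.symm⟩))
      · refine hwD (hcl g hgD w ?_ hgw)
        have hn : ¬ (w = a₁ ∨ w = a₂ ∨ w = a₃ ∨ w = b₁ ∨ w = b₂ ∨ w = b₃ ∨ w = p) :=
          fun h' => hwT ((hTm w).2 h')
        rw [not_or, not_or, not_or, not_or, not_or, not_or] at hn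
        obtain ⟨j1, j2, j3, j4, j5, j6, j7⟩ := hn
        exact ⟨hwv, j7, ⟨j1, j2, j3⟩, j4, j5, j6⟩
  have hmiss : ∀ x y, x ∈ T → y ∈ T → x ≠ y → (∃ z ∈ D, G.Adj x z) ∨ (∃ z ∈ D, G.Adj y z) := by
    intro x y hx hy hxy
    by_contra hno
    rw [not_or] at hno
    have h1 : C ⊆ (T.erase x).erase y := by
      intro z hz
      rw [hC, mem_filter] at hz
      rw [mem_erase, mem_erase]
      refine ⟨?_, ?_, hz.1⟩
      · rintro rfl
        exact hno.2 hz.2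
      · rintro rfl
        exact hno.1 hz.2
    have h2 := card_le_card h1
    rw [card_erase_of_mem (mem_erase.2 ⟨hxy.symm, hy⟩), card_erase_of_mem hx] at h2
    omega
  have A1 : a₁ ∈ T := (hTm _).2 (Or.inl rfl)
  have A2 : a₂ ∈ T := (hTm _).2 (Or.inr (Or.inl rfl))
  have A3 : a₃ ∈ T := (hTm _).2 (Or.inr (Or.inr (Or.inl rfl)))
  have B1 : b₁ ∈ T := (hTm _).2 (Or.inr (Or.inr (Or.inr (Or.inl rfl))))
  have B2 : b₂ ∈ T := (hTm _).2 (Or.inr (Or.inr (Or.inr (Or.inr (Or.inl rfl)))))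
  have B3 : b₃ ∈ T := (hTm _).2 (Or.inr (Or.inr (Or.inr (Or.inr (Or.inr (Or.inl rfl))))))
  have hX1 : ∀ x ∈ D, x ≠ v ∧ x ≠ p ∧ (x ≠ a₁ ∧ x ≠ a₂ ∧ x ≠ a₃) ∧ x ≠ b₁ ∧ x ≠ b₂ ∧ x ≠ b₃ :=
    fun x hx => hDX hx
  have core1 : (∃ y ∈ D, G.Adj b₁ y) → (∃ y ∈ D, G.Adj a₂ y) → (∃ y ∈ D, G.Adj a₃ y) → False :=
    fun t1 t2 t3 => M.common_core hm h pv nvp p1 p2 p3 q1 q3 D hD hX1 t1 t2 t3
  have core2 : (∃ y ∈ D, G.Adj b₂ y) → (∃ y ∈ D, G.Adj a₁ y) → (∃ y ∈ D, G.Adj a₃ y) → False :=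
    fun t1 t2 t3 => M.common_core hm h.p12 pv nvp p2 p1 p3 q2 q3 D hD
      (fun x hx => by
        obtain ⟨k1, k2, ⟨k3, k4, k5⟩, k6, k7, k8⟩ := hX1 x hx
        exact ⟨k1, k2, ⟨k4, k3, k5⟩, k7, k6, k8⟩) t1 t2 t3
  have core3 : (∃ y ∈ D, G.Adj b₃ y) → (∃ y ∈ D, G.Adj a₁ y) → (∃ y ∈ D, G.Adj a₂ y) → False :=
    fun t1 t2 t3 => M.common_core hm h.p23.p12 pv nvp p3 p1 p2 q3 q2 D hD
      (fun x hx => by
        obtain ⟨k1, k2, ⟨k3, k4, k5⟩, k6, k7, k8⟩ := hX1 x hx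
        exact ⟨k1, k2, ⟨k5, k3, k4⟩, k8, k6, k7⟩) t1 t2 t3
  have nab : a₁ ≠ b₂ ∧ a₁ ≠ b₃ ∧ a₂ ≠ b₁ ∧ a₂ ≠ b₃ ∧ a₃ ≠ b₁ ∧ a₃ ≠ b₂ := h.ne
  obtain ⟨m1, m2, m3, m4, m5, m6⟩ := nab
  by_cases t1 : ∃ z ∈ D, G.Adj a₁ z
  · by_cases t2 : ∃ z ∈ D, G.Adj a₂ z
    · by_cases t3 : ∃ z ∈ D, G.Adj a₃ z
      · rcases hmiss b₁ b₂ B1 B2 h.b12.ne with hb | hb
        · exact core1 hb t2 t3
        · exact core2 hb t1 t3
      · exact core3 ((hmiss a₃ b₃ A3 B3 h.c3.ne).resolve_left t3) t1 t2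
    · exact core2 ((hmiss a₂ b₂ A2 B2 h.c2.ne).resolve_left t2) t1
        ((hmiss a₂ a₃ A2 A3 h.a23.ne).resolve_left t2)
  · exact core1 ((hmiss a₁ b₁ A1 B1 h.c1.ne).resolve_left t1)
      ((hmiss a₁ a₂ A1 A2 h.a12.ne).resolve_left t1)
      ((hmiss a₁ a₃ A1 A3 h.a13.ne).resolve_left t1)

end Pool.Agent.LD6
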