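import Pool.Agent.LG6.Claw

/-!
LD6: the local version of `LG6.seven`: only `v` has to be the centre of no claw.
-/

set_option autoImplicit false

namespace Pool.Agent.LD6

open Finset Pool.Agent.LG6

variable {V : Type} {G : SimpleGraph V}

/-- `v` is not the centre of an induced claw. -/
def NC (G : SimpleGraph V) (v : V) : Prop :=
  ∀ a b c : V, G.Adj v a → G.Adj v b → G.Adj v c → a ≠ b → a ≠ c → b ≠ c →
    G.Adj a b ∨ G.Adj a c ∨ G.Adj b c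

variable [DecidableEq V] [Fintype V]


/-- Seven neighbours, at most one of which is not attached. -/
theorem seven (hG : IsKConnected 6 G) (hm : ¬ HasCompleteMinor 6 G)
    {v : V} (hc : NC G v) {N S : Finset V}
    (hN : ∀ x, x ∈ N ↔ G.Adj v x) {D : Set V} (hD : (G.induce D).Connected) (hvD : v ∉ D)
    (hND : ∀ x ∈ N, x ∉ D) (hSN : S ⊆ N) (hS : ∀ x ∈ S, ∃ y ∈ D, G.Adj x y)
    {t₁ t₂ t₃ w₁ w₂ w₃ u : V} (ht₁ : t₁ ∈ S) (ht₂ : t₂ ∈ S) (ht₃ : t₃ ∈ S)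
    (h12 : G.Adj t₁ t₂) (h13 : G.Adj t₁ t₃) (h23 : G.Adj t₂ t₃)
    (hw₁ : w₁ ∈ S) (hw₂ : w₂ ∈ S) (hw₃ : w₃ ∈ S) (hu : u ∈ N)
    (hww : w₁ ≠ w₂ ∧ w₁ ≠ w₃ ∧ w₂ ≠ w₃) (hwu : w₁ ≠ u ∧ w₂ ≠ u ∧ w₃ ≠ u)
    (h1 : t₁ ≠ w₁ ∧ t₁ ≠ w₂ ∧ t₁ ≠ w₃ ∧ t₁ ≠ u) (h2 : t₂ ≠ w₁ ∧ t₂ ≠ w₂ ∧ t₂ ≠ w₃ ∧ t₂ ≠ u)
    (h3 : t₃ ≠ w₁ ∧ t₃ ≠ w₂ ∧ t₃ ≠ w₃ ∧ t₃ ≠ u) : False := by
  have hvx : ∀ x ∈ N, G.Adj v x := fun x hx => (hN x).1 hx
  -- no induced path `a b c` leaving out some `h` in `S`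
  have P3 : ∀ a b c h : V, a ∈ N → b ∈ N → c ∈ N → h ∈ S → (a ∈ S ∨ b ∈ S ∨ c ∈ S) →
      h ≠ a → h ≠ b → h ≠ c → h ≠ t₁ → h ≠ t₂ → h ≠ t₃ →
      a ≠ t₁ → a ≠ t₂ → a ≠ t₃ → b ≠ t₁ → b ≠ t₂ → b ≠ t₃ → c ≠ t₁ → c ≠ t₂ → c ≠ t₃ →
      G.Adj a b → G.Adj b c → a ≠ c → G.Adj a c := by
    intro a b c h ha hb hc' hh hs n1 n2 n3 n4 n5 n6 m1 m2 m3 m4 m5 m6 m7 m8 m9 hab hbc hac
    by_contra hnac
    have dm : ∀ t, t ∈ N → a ≠ t → c ≠ t → ∃ z ∈ ({a, b} ∪ {c} : Set V), G.Adj t z := by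
      intro t ht hat hct
      rcases hc t a c (hvx t ht) (hvx a ha) (hvx c hc') hat.symm hct.symm hac with h' | h' | h'
      · exact ⟨a, Or.inl (Or.inl rfl), h'⟩
      · exact ⟨c, Or.inr rfl, h'⟩
      · exact absurd h' hnac
    refine dom7 hm hN hD hvD hND hSN hS ht₁ ht₂ ht₃ hh h12 h13 h23 ({a, b} ∪ {c})
      (triple_connected G hab hbc) ?_ ?_ ?_ ?_ ?_ ?_ n4 n5 n6
      (dm t₁ (hSN ht₁) m1 m7) (dm t₂ (hSN ht₂) m2 m8) (dm t₃ (hSN ht₃) m3 m9)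
    · rintro z ((rfl | hz) | hz)
      · exact ha
      · rw [Set.mem_singleton_iff] at hz
        exact hz ▸ hb
      · rw [Set.mem_singleton_iff] at hz
        exact hz ▸ hc'
    · rcases hs with hs | hs | hs
      · exact ⟨a, Or.inl (Or.inl rfl), hs⟩
      · exact ⟨b, Or.inl (Or.inr rfl), hs⟩
      · exact ⟨c, Or.inr rfl, hs⟩
    · rintro ((hz | hz) | hz)
      · exact n1 hz
      · exact n2 hz
      · exact n3 hz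
    · rintro ((hz | hz) | hz)
      · exact m1 hz.symm
      · exact m4 (Set.mem_singleton_iff.1 hz).symm
      · exact m7 (Set.mem_singleton_iff.1 hz).symm
    · rintro ((hz | hz) | hz)
      · exact m2 hz.symm
      · exact m5 (Set.mem_singleton_iff.1 hz).symm
      · exact m8 (Set.mem_singleton_iff.1 hz).symm
    · rintro ((hz | hz) | hz)
      · exact m3 hz.symm
      · exact m6 (Set.mem_singleton_iff.1 hz).symm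
      · exact m9 (Set.mem_singleton_iff.1 hz).symm
  obtain ⟨w12, w13, w23⟩ := hww
  obtain ⟨w1u, w2u, w3u⟩ := hwu
  obtain ⟨a1, a2, a3, a4⟩ := h1
  obtain ⟨b1, b2, b3, b4⟩ := h2
  obtain ⟨c1, c2, c3, c4⟩ := h3
  have nw1 := hSN hw₁
  have nw2 := hSN hw₂
  have nw3 := hSN hw₃
  have nt1 := hSN ht₁
  have nt2 := hSN ht₂
  have nt3 := hSN ht₃
  -- the claws inside `W`
  have al : ∀ a b c : V, a ∈ N → b ∈ N → c ∈ N → a ≠ b → a ≠ c → b ≠ c →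
      G.Adj a b ∨ G.Adj a c ∨ G.Adj b c := fun a b c ha hb hc' =>
    hc a b c (hvx a ha) (hvx b hb) (hvx c hc')
  have fv : ∀ a b c d : V, a ∈ N → b ∈ N → c ∈ N → d ∈ N → G.Adj a b → G.Adj a c → G.Adj a d →
      G.Adj b c → G.Adj b d → G.Adj c d → False := fun a b c d ha hb hc' hd =>
    five hG hm (hvx a ha) (hvx b hb) (hvx c hc') (hvx d hd)
  -- a triangle and a further vertex
  have L31 : ∀ a b c y : V, a ∈ N → b ∈ N → c ∈ N → y ∈ N → y ≠ a → y ≠ b → y ≠ c →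
      (t₁ ≠ a ∧ t₁ ≠ b ∧ t₁ ≠ c ∧ t₁ ≠ y) → (t₂ ≠ a ∧ t₂ ≠ b ∧ t₂ ≠ c ∧ t₂ ≠ y) →
      (t₃ ≠ a ∧ t₃ ≠ b ∧ t₃ ≠ c ∧ t₃ ≠ y) →
      G.Adj a b → G.Adj a c → G.Adj b c → ¬ G.Adj y a → ¬ G.Adj y b → ¬ G.Adj y c → False := by
    intro a b c y ha hb hc' hy ya yb yc d1 d2 d3 hab hac hbc nya nyb nyc
    have key : ∀ t ∈ N, (t ≠ a ∧ t ≠ b ∧ t ≠ c ∧ t ≠ y) → G.Adj t y := by
      rintro t ht ⟨e1, e2, e3, e4⟩
      by_contra hty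
      have f1 : G.Adj t a := by
        rcases al t y a ht hy ha e4 e1 ya with h | h | h
        · exact absurd h hty
        · exact h
        · exact absurd h nya
      have f2 : G.Adj t b := by
        rcases al t y b ht hy hb e4 e2 yb with h | h | h
        · exact absurd h hty
        · exact h
        · exact absurd h nyb
      have f3 : G.Adj t c := by
        rcases al t y c ht hy hc' e4 e3 yc with h | h | h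
        · exact absurd h hty
        · exact h
        · exact absurd h nyc
      exact fv t a b c ht ha hb hc' f1 f2 f3 hab hac hbc
    exact fv t₁ t₂ t₃ y nt1 nt2 nt3 hy h12 h13 (key t₁ nt1 d1) h23 (key t₂ nt2 d2)
      (key t₃ nt3 d3)
  have L22 : ∀ a b c d : V, a ∈ N → b ∈ N → c ∈ N → d ∈ N → a ≠ c → a ≠ d → b ≠ c → b ≠ d →
      (t₁ ≠ a ∧ t₁ ≠ b ∧ t₁ ≠ c ∧ t₁ ≠ d) → (t₂ ≠ a ∧ t₂ ≠ b ∧ t₂ ≠ c ∧ t₂ ≠ d) →
      (t₃ ≠ a ∧ t₃ ≠ b ∧ t₃ ≠ c ∧ t₃ ≠ d) →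
      G.Adj a b → G.Adj c d → ¬ G.Adj a c → ¬ G.Adj a d → ¬ G.Adj b c → ¬ G.Adj b d → False := by
    intro a b c d ha hb hc' hd nac nad nbc nbd d1 d2 d3 hab hcd xac xad xbc xbd
    have key : ∀ t ∈ N, (t ≠ a ∧ t ≠ b ∧ t ≠ c ∧ t ≠ d) →
        (G.Adj t a ∧ G.Adj t b) ∨ (G.Adj t c ∧ G.Adj t d) := by
      rintro t ht ⟨e1, e2, e3, e4⟩
      have q1 := al t a c ht ha hc' e1 e3 nac
      have q2 := al t a d ht ha hd e1 e4 nad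
      have q3 := al t b c ht hb hc' e2 e3 nbc
      have q4 := al t b d ht hb hd e2 e4 nbd
      tauto
    have pr : ∀ s t, s ∈ N → t ∈ N → G.Adj s t →
        ¬ ((G.Adj s a ∧ G.Adj s b) ∧ (G.Adj t a ∧ G.Adj t b)) ∧
        ¬ ((G.Adj s c ∧ G.Adj s d) ∧ (G.Adj t c ∧ G.Adj t d)) := fun s t hs ht hst =>
      ⟨fun h => fv s t a b hs ht ha hb hst h.1.1 h.1.2 h.2.1 h.2.2 hab,
        fun h => fv s t c d hs ht hc' hd hst h.1.1 h.1.2 h.2.1 h.2.2 hcd⟩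
    have k1 := key t₁ nt1 d1
    have k2 := key t₂ nt2 d2
    have k3 := key t₃ nt3 d3
    have p12 := pr t₁ t₂ nt1 nt2 h12
    have p13 := pr t₁ t₃ nt1 nt3 h13
    have p23 := pr t₂ t₃ nt2 nt3 h23
    rcases k1 with k1 | k1 <;> rcases k2 with k2 | k2
    · exact p12.1 ⟨k1, k2⟩
    · rcases k3 with k3 | k3
      · exact p13.1 ⟨k1, k3⟩
      · exact p23.2 ⟨k2, k3⟩
    · rcases k3 with k3 | k3
      · exact p23.1 ⟨k2, k3⟩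
      · exact p13.2 ⟨k1, k3⟩
    · exact p12.2 ⟨k1, k2⟩
  -- the six pairs of `W`
  have sy : ∀ x y : V, G.Adj x y ↔ G.Adj y x := fun x y => G.adj_comm x y
  -- paths through `u`
  have q1 := P3 w₁ w₂ u w₃ nw1 nw2 hu hw₃ (Or.inl hw₁) w13.symm w23.symm w3u a3.symm b3.symm
    c3.symm a1.symm b1.symm c1.symm a2.symm b2.symm c2.symm a4.symm b4.symm c4.symm
  have q2 := P3 w₂ w₁ u w₃ nw2 nw1 hu hw₃ (Or.inl hw₂) w23.symm w13.symm w3u a3.symm b3.symm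
    c3.symm a2.symm b2.symm c2.symm a1.symm b1.symm c1.symm a4.symm b4.symm c4.symm
  have q3 := P3 w₁ u w₂ w₃ nw1 hu nw2 hw₃ (Or.inl hw₁) w13.symm w3u w23.symm a3.symm b3.symm
    c3.symm a1.symm b1.symm c1.symm a4.symm b4.symm c4.symm a2.symm b2.symm c2.symm
  have q4 := P3 w₁ w₃ u w₂ nw1 nw3 hu hw₂ (Or.inl hw₁) w12.symm w23 w2u a2.symm b2.symm
    c2.symm a1.symm b1.symm c1.symm a3.symm b3.symm c3.symm a4.symm b4.symm c4.symm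
  have q5 := P3 w₃ w₁ u w₂ nw3 nw1 hu hw₂ (Or.inl hw₃) w23 w12.symm w2u a2.symm b2.symm
    c2.symm a3.symm b3.symm c3.symm a1.symm b1.symm c1.symm a4.symm b4.symm c4.symm
  have q6 := P3 w₁ u w₃ w₂ nw1 hu nw3 hw₂ (Or.inl hw₁) w12.symm w2u w23 a2.symm b2.symm
    c2.symm a1.symm b1.symm c1.symm a4.symm b4.symm c4.symm a3.symm b3.symm c3.symm
  have q7 := P3 w₂ w₃ u w₁ nw2 nw3 hu hw₁ (Or.inl hw₂) w12 w13 w1u a1.symm b1.symm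
    c1.symm a2.symm b2.symm c2.symm a3.symm b3.symm c3.symm a4.symm b4.symm c4.symm
  have q8 := P3 w₃ w₂ u w₁ nw3 nw2 hu hw₁ (Or.inl hw₃) w13 w12 w1u a1.symm b1.symm
    c1.symm a3.symm b3.symm c3.symm a2.symm b2.symm c2.symm a4.symm b4.symm c4.symm
  have q9 := P3 w₂ u w₃ w₁ nw2 hu nw3 hw₁ (Or.inl hw₂) w12 w1u w13 a1.symm b1.symm
    c1.symm a2.symm b2.symm c2.symm a4.symm b4.symm c4.symm a3.symm b3.symm c3.symm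
  have r1 := al w₁ w₂ w₃ nw1 nw2 nw3 w12 w13 w23
  have r2 := al w₁ w₂ u nw1 nw2 hu w12 w1u w2u
  have r3 := al w₁ w₃ u nw1 nw3 hu w13 w1u w3u
  have r4 := al w₂ w₃ u nw2 nw3 hu w23 w2u w3u
  have s1 := fv w₁ w₂ w₃ u nw1 nw2 nw3 hu
  have l1 := L31 w₁ w₂ w₃ u nw1 nw2 nw3 hu w1u.symm w2u.symm w3u.symm ⟨a1, a2, a3, a4⟩
    ⟨b1, b2, b3, b4⟩ ⟨c1, c2, c3, c4⟩
  have l2 := L31 w₁ w₂ u w₃ nw1 nw2 hu nw3 w13.symm w23.symm w3u ⟨a1, a2, a4, a3⟩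
    ⟨b1, b2, b4, b3⟩ ⟨c1, c2, c4, c3⟩
  have l3 := L31 w₁ w₃ u w₂ nw1 nw3 hu nw2 w12.symm w23 w2u ⟨a1, a3, a4, a2⟩
    ⟨b1, b3, b4, b2⟩ ⟨c1, c3, c4, c2⟩
  have l4 := L31 w₂ w₃ u w₁ nw2 nw3 hu nw1 w12 w13 w1u ⟨a2, a3, a4, a1⟩
    ⟨b2, b3, b4, b1⟩ ⟨c2, c3, c4, c1⟩
  have m1 := L22 w₁ w₂ w₃ u nw1 nw2 nw3 hu w13 w1u w23 w2u ⟨a1, a2, a3, a4⟩
    ⟨b1, b2, b3, b4⟩ ⟨c1, c2, c3, c4⟩
  have m2 := L22 w₁ w₃ w₂ u nw1 nw3 nw2 hu w12 w1u w23.symm w3u ⟨a1, a3, a2, a4⟩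
    ⟨b1, b3, b2, b4⟩ ⟨c1, c3, c2, c4⟩
  have m3 := L22 w₁ u w₂ w₃ nw1 hu nw2 nw3 w12 w13 w2u.symm w3u.symm ⟨a1, a4, a2, a3⟩
    ⟨b1, b4, b2, b3⟩ ⟨c1, c4, c2, c3⟩
  exact prop_core (G.Adj w₁ w₂) (G.Adj w₁ w₃) (G.Adj w₁ u) (G.Adj w₂ w₃) (G.Adj w₂ u)
    (G.Adj w₃ u) (fun h h' => q1 h h' w1u) (fun h h' => q2 h.symm h' w2u)
    (fun h h' => q3 h h'.symm w12) (fun h h' => q4 h h' w1u) (fun h h' => q5 h.symm h' w3u)
    (fun h h' => q6 h h'.symm w13) (fun h h' => q7 h h' w2u) (fun h h' => q8 h.symm h' w3u)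
    (fun h h' => q9 h h'.symm w23) r1 r2 r3 r4
    (fun h1 h2 h3 h4 h5 h6 => s1 h1 h2 h3 h4 h5 h6)
    (fun h1 h2 h3 h4 h5 h6 => l1 h1 h2 h3 (fun h => h4 h.symm) (fun h => h5 h.symm)
      (fun h => h6 h.symm))
    (fun h1 h2 h3 h4 h5 h6 => l2 h1 h2 h3 (fun h => h4 h.symm) (fun h => h5 h.symm) h6)
    (fun h1 h2 h3 h4 h5 h6 => l3 h1 h2 h3 (fun h => h4 h.symm) h5 h6)
    (fun h1 h2 h3 h4 h5 h6 => l4 h1 h2 h3 h4 h5 h6)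
    (fun h1 h2 h3 h4 h5 h6 => m1 h1 h2 h3 h4 h5 h6)
    (fun h1 h2 h3 h4 h5 h6 => m2 h1 h2 h3 h4 (fun h => h5 h.symm) h6)
    (fun h1 h2 h3 h4 h5 h6 => m3 h1 h2 h3 h4 (fun h => h5 h.symm) (fun h => h6 h.symm))

omit [Fintype V] in
/-- A triangle in six vertices of a neighbourhood. -/
theorem ramsey {v : V} (hc : NC G v) {S : Finset V} (hS : ∀ x ∈ S, G.Adj v x)
    (h6 : S.card = 6) : ∃ t₁ ∈ S, ∃ t₂ ∈ S, ∃ t₃ ∈ S, G.Adj t₁ t₂ ∧ G.Adj t₁ t₃ ∧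
      G.Adj t₂ t₃ := by
  classical
  obtain ⟨x, hx⟩ : S.Nonempty := card_pos.1 (by omega)
  have h1 := card_filter_add_card_filter_not (s := S.erase x) (p := fun y => G.Adj x y)
  rw [card_erase_of_mem hx, h6] at h1
  rcases Nat.lt_or_ge 2 ((S.erase x).filter fun y => G.Adj x y).card with h2 | h2
  · obtain ⟨a, ha, b, hb, c, hc', hab, hac, hbc⟩ := two_lt_card.1 h2
    rw [mem_filter, mem_erase] at ha hb hc'
    rcases hc a b c (hS a ha.1.2) (hS b hb.1.2) (hS c hc'.1.2) hab hac hbc with h | h | h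
    · exact ⟨x, hx, a, ha.1.2, b, hb.1.2, ha.2, hb.2, h⟩
    · exact ⟨x, hx, a, ha.1.2, c, hc'.1.2, ha.2, hc'.2, h⟩
    · exact ⟨x, hx, b, hb.1.2, c, hc'.1.2, hb.2, hc'.2, h⟩
  · obtain ⟨a, ha, b, hb, c, hc', hab, hac, hbc⟩ := two_lt_card.1
      (show 2 < ((S.erase x).filter fun y => ¬ G.Adj x y).card by omega)
    rw [mem_filter, mem_erase] at ha hb hc'
    have key : ∀ p q, p ∈ S → q ∈ S → p ≠ x → q ≠ x → p ≠ q → ¬ G.Adj x p → ¬ G.Adj x q →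
        G.Adj p q := by
      intro p q hp hq hpx hqx hpq hxp hxq
      rcases hc x p q (hS x hx) (hS p hp) (hS q hq) hpx.symm hqx.symm hpq with h | h | h
      · exact absurd h hxp
      · exact absurd h hxq
      · exact h
    exact ⟨a, ha.1.2, b, hb.1.2, c, hc'.1.2, key a b ha.1.2 hb.1.2 ha.1.1 hb.1.1 hab ha.2 hb.2,
      key a c ha.1.2 hc'.1.2 ha.1.1 hc'.1.1 hac ha.2 hc'.2,
      key b c hb.1.2 hc'.1.2 hb.1.1 hc'.1.1 hbc hb.2 hc'.2⟩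


end Pool.Agent.LD6
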