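import Pool.Agent.LD6.T2

/-!
LD6: the endgame, a perfect matching between the two triangles in the neighbourhood of `v`.
-/

set_option autoImplicit false

namespace Pool.Agent.LD6

open Finset Pool.Agent.LG6

variable {V : Type} {G : SimpleGraph V}

/-- The statement of Lemma X (negated form). -/
def LemX (G : SimpleGraph V) : Prop :=
  ∀ v a c d b₁ b₂ b₃ w₁ w₂ w₃ : V, G.Adj v a → G.Adj v c → G.Adj v d → G.Adj a c → G.Adj a d →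
    G.Adj c d → G.Adj v b₁ → G.Adj v b₂ → G.Adj v b₃ → G.Adj b₁ b₂ → G.Adj b₁ b₃ → G.Adj b₂ b₃ →
    G.Adj a w₁ → G.Adj a w₂ → G.Adj a w₃ → G.Adj w₁ w₂ → G.Adj w₁ w₃ → G.Adj w₂ w₃ →
    (b₁ ≠ a ∧ b₁ ≠ c ∧ b₁ ≠ d) → (b₂ ≠ a ∧ b₂ ≠ c ∧ b₂ ≠ d) → (b₃ ≠ a ∧ b₃ ≠ c ∧ b₃ ≠ d) →
    (w₁ ≠ v ∧ w₁ ≠ c ∧ w₁ ≠ d) → (w₂ ≠ v ∧ w₂ ≠ c ∧ w₂ ≠ d) → (w₃ ≠ v ∧ w₃ ≠ c ∧ w₃ ≠ d) →
    (b₁ ≠ w₁ ∧ b₁ ≠ w₂ ∧ b₁ ≠ w₃) → (b₂ ≠ w₁ ∧ b₂ ≠ w₂ ∧ b₂ ≠ w₃) →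
    (b₃ ≠ w₁ ∧ b₃ ≠ w₂ ∧ b₃ ≠ w₃) → False

/-- `N(v)` is the union of the triangles `a₁ a₂ a₃` and `b₁ b₂ b₃`, and the edges between them are
`aᵢ bᵢ`. -/
structure M (G : SimpleGraph V) (v a₁ a₂ a₃ b₁ b₂ b₃ : V) : Prop where
  va1 : G.Adj v a₁
  va2 : G.Adj v a₂
  va3 : G.Adj v a₃
  vb1 : G.Adj v b₁
  vb2 : G.Adj v b₂
  vb3 : G.Adj v b₃
  a12 : G.Adj a₁ a₂
  a13 : G.Adj a₁ a₃
  a23 : G.Adj a₂ a₃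
  b12 : G.Adj b₁ b₂
  b13 : G.Adj b₁ b₃
  b23 : G.Adj b₂ b₃
  c1 : G.Adj a₁ b₁
  c2 : G.Adj a₂ b₂
  c3 : G.Adj a₃ b₃
  n12 : ¬ G.Adj a₁ b₂
  n13 : ¬ G.Adj a₁ b₃
  n21 : ¬ G.Adj a₂ b₁
  n23 : ¬ G.Adj a₂ b₃
  n31 : ¬ G.Adj a₃ b₁
  n32 : ¬ G.Adj a₃ b₂
  ne : a₁ ≠ b₂ ∧ a₁ ≠ b₃ ∧ a₂ ≠ b₁ ∧ a₂ ≠ b₃ ∧ a₃ ≠ b₁ ∧ a₃ ≠ b₂
  Nv : ∀ x, G.Adj v x → x = a₁ ∨ x = a₂ ∨ x = a₃ ∨ x = b₁ ∨ x = b₂ ∨ x = b₃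

theorem M.sw {v a₁ a₂ a₃ b₁ b₂ b₃ : V} (h : M G v a₁ a₂ a₃ b₁ b₂ b₃) :
    M G v b₁ b₂ b₃ a₁ a₂ a₃ :=
  ⟨h.vb1, h.vb2, h.vb3, h.va1, h.va2, h.va3, h.b12, h.b13, h.b23, h.a12, h.a13, h.a23, h.c1.symm,
    h.c2.symm, h.c3.symm, fun h' => h.n21 h'.symm, fun h' => h.n31 h'.symm,
    fun h' => h.n12 h'.symm, fun h' => h.n32 h'.symm, fun h' => h.n13 h'.symm,
    fun h' => h.n23 h'.symm, ⟨h.ne.2.2.1.symm, h.ne.2.2.2.2.1.symm, h.ne.1.symm,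
      h.ne.2.2.2.2.2.symm, h.ne.2.1.symm, h.ne.2.2.2.1.symm⟩,
    fun x hx => by have := h.Nv x hx; tauto⟩

theorem M.p12 {v a₁ a₂ a₃ b₁ b₂ b₃ : V} (h : M G v a₁ a₂ a₃ b₁ b₂ b₃) :
    M G v a₂ a₁ a₃ b₂ b₁ b₃ :=
  ⟨h.va2, h.va1, h.va3, h.vb2, h.vb1, h.vb3, h.a12.symm, h.a23, h.a13, h.b12.symm, h.b23, h.b13,
    h.c2, h.c1, h.c3, h.n21, h.n23, h.n12, h.n13, h.n32, h.n31, ⟨h.ne.2.2.1, h.ne.2.2.2.1, h.ne.1,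
      h.ne.2.1, h.ne.2.2.2.2.2, h.ne.2.2.2.2.1⟩,
    fun x hx => by have := h.Nv x hx; tauto⟩

theorem M.p23 {v a₁ a₂ a₃ b₁ b₂ b₃ : V} (h : M G v a₁ a₂ a₃ b₁ b₂ b₃) :
    M G v a₁ a₃ a₂ b₁ b₃ b₂ :=
  ⟨h.va1, h.va3, h.va2, h.vb1, h.vb3, h.vb2, h.a13, h.a12, h.a23.symm, h.b13, h.b12, h.b23.symm,
    h.c1, h.c3, h.c2, h.n13, h.n12, h.n31, h.n32, h.n21, h.n23, ⟨h.ne.2.1, h.ne.1, h.ne.2.2.2.2.1,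
      h.ne.2.2.2.2.2, h.ne.2.2.1, h.ne.2.2.2.1⟩,
    fun x hx => by have := h.Nv x hx; tauto⟩

/-- The two outside neighbours `x`, `y` of `a₁`. -/
theorem M.ty (hL : Gl G) (hB : LemB G) {v a₁ a₂ a₃ b₁ b₂ b₃ : V} (h : M G v a₁ a₂ a₃ b₁ b₂ b₃)
    (A1 : At G a₁) :
    ∃ x y, x ≠ y ∧ G.Adj a₁ x ∧ G.Adj a₁ y ∧ G.Adj x y ∧ ¬ G.Adj v x ∧ ¬ G.Adj v y ∧ x ≠ v ∧
      y ≠ v ∧ (∀ z, G.Adj a₁ z → z = v ∨ z = a₂ ∨ z = a₃ ∨ z = b₁ ∨ z = x ∨ z = y) ∧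
      ((G.Adj b₁ x ∧ G.Adj b₁ y) ∨
        (¬ G.Adj b₁ x ∧ G.Adj b₁ y ∧ G.Adj a₂ x ∧ G.Adj a₃ x ∧ ¬ G.Adj a₂ y ∧ ¬ G.Adj a₃ y)) := by
  obtain ⟨va1, va2, va3, vb1, vb2, vb3, a12, a13, a23, b12, b13, b23, c1, c2, c3, n12, n13, n21,
    n23, n31, n32, ⟨m1, m2, m3, m4, m5, m6⟩, Nv⟩ := h
  have sym := hL.sym
  have irr := hL.irr
  obtain ⟨x, y, ax, ay, xy, ⟨xv, x2, x3, x4⟩, ⟨yv, y2, y3, y4⟩, N1⟩ :=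
    A1.more4 va1.symm a12 a13 c1 (by and_intros <;> grind)
  have nvx : ¬ G.Adj v x := by grind
  have nvy : ¬ G.Adj v y := by grind
  have hxy : G.Adj x y := by
    have := A1.claw v x y va1.symm ax ay (by grind) (by grind) xy
    grind
  have k1 : G.Adj a₂ x ∨ G.Adj b₁ x := by
    have := A1.claw a₂ b₁ x a12 c1 ax (by grind) (by grind) (by grind)
    grind
  have k2 : G.Adj a₃ x ∨ G.Adj b₁ x := by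
    have := A1.claw a₃ b₁ x a13 c1 ax (by grind) (by grind) (by grind)
    grind
  have k3 : G.Adj a₂ y ∨ G.Adj b₁ y := by
    have := A1.claw a₂ b₁ y a12 c1 ay (by grind) (by grind) (by grind)
    grind
  have k4 : G.Adj a₃ y ∨ G.Adj b₁ y := by
    have := A1.claw a₃ b₁ y a13 c1 ay (by grind) (by grind) (by grind)
    grind
  -- a hub with four neighbours
  have hub : ∀ s t p q : V, G.Adj a₁ s → G.Adj s v → G.Adj s t → G.Adj s p → G.Adj s q →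
      G.Adj a₁ t → G.Adj a₁ p → G.Adj a₁ q → v ≠ t → v ≠ p → v ≠ q → t ≠ p → t ≠ q → p ≠ q →
      s ≠ b₁ → s ≠ b₂ → s ≠ b₃ → False := by
    intro s t p q h1 h2 h3 h4 h5 h6 h7 h8 e1 e2 e3 e4 e5 e6 f1 f2 f3
    exact hB a₁ s v t p q v b₁ b₂ b₃ h1 va1.symm h6 h7 h8 h2 h3 h4 h5 vb1 vb2 vb3 b12 b13 b23
      ⟨e1, e2, e3, e4, e5, e6⟩ (by and_intros <;> grind)
  have five : G.Adj a₂ x → G.Adj a₃ x → G.Adj a₂ y → G.Adj a₃ y → False := fun h1 h2 h3 h4 =>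
    hL.five a₁ a₂ a₃ x y a12 a13 ax ay a23 h1 h3 h2 h4 hxy
  have h22 : G.Adj a₂ x → G.Adj a₂ y → False := fun h1 h2 =>
    hub a₂ a₃ x y a12 va2.symm a23 h1 h2 a13 ax ay (by grind) (by grind) (by grind) (by grind)
      (by grind) xy (by grind) (by grind) (by grind)
  have h33 : G.Adj a₃ x → G.Adj a₃ y → False := fun h1 h2 =>
    hub a₃ a₂ x y a13 va3.symm a23.symm h1 h2 a12 ax ay (by grind) (by grind) (by grind) (by grind)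
      (by grind) xy (by grind) (by grind) (by grind)
  by_cases bx : G.Adj b₁ x
  · by_cases byy : G.Adj b₁ y
    · exact ⟨x, y, xy, ax, ay, hxy, nvx, nvy, xv, yv, N1, Or.inl ⟨bx, byy⟩⟩
    · refine ⟨y, x, Ne.symm xy, ay, ax, hxy.symm, nvy, nvx, yv, xv, by grind, Or.inr ?_⟩
      refine ⟨byy, bx, by grind, by grind, by grind, by grind⟩
  · refine ⟨x, y, xy, ax, ay, hxy, nvx, nvy, xv, yv, N1, Or.inr ?_⟩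
    refine ⟨bx, by grind, by grind, by grind, by grind, by grind⟩

/-- The third pattern: `L(K₅)`. -/
theorem M.tri (hm : ¬ HasCompleteMinor 6 G) [DecidableEq V] (hL : Gl G)
    {v a₁ a₂ a₃ b₁ b₂ b₃ p s₁ s₂ : V}
    (h : M G v a₁ a₂ a₃ b₁ b₂ b₃) (n1 : ¬ G.Adj v p) (n2 : ¬ G.Adj v s₁) (n3 : ¬ G.Adj v s₂)
    (np : p ≠ v) (ns1 : s₁ ≠ v) (ns2 : s₂ ≠ v)
    (e1 : p ≠ s₁) (e2 : p ≠ s₂) (e3 : s₁ ≠ s₂)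
    (q1 : G.Adj a₁ p) (q2 : G.Adj b₁ p) (q3 : G.Adj a₁ s₁) (q4 : G.Adj b₁ s₁)
    (q5 : G.Adj a₂ p) (q7 : G.Adj a₃ s₁)
    (q9 : G.Adj b₃ s₁) (q10 : G.Adj b₃ s₂) (r1 : G.Adj p s₁) (r2 : G.Adj p s₂) : False := by
  obtain ⟨va1, va2, va3, vb1, vb2, vb3, a12, a13, a23, b12, b13, b23, c1, c2, c3, n12, n13, n21,
    n23, n31, n32, ⟨m1, m2, m3, m4, m5, m6⟩, Nv⟩ := h
  have sym := hL.sym
  have irr := hL.irr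
  exact model3 hm (k₁ := a₁) (k₂ := b₁) (k₃ := p) (k₄ := s₁) (a := a₃) (b := a₂) (c := b₂)
    (d := v) (e := b₃) (f := s₂) c1 q1 q3 q2 q4 r1 a23.symm c2 vb3 q10
    (by and_intros <;> grind) (by and_intros <;> grind) (by and_intros <;> grind)
    (by and_intros <;> grind) (by and_intros <;> grind) (by and_intros <;> grind)
    (by and_intros <;> grind) ⟨a₂, Or.inr (Or.inl rfl), v, Or.inl rfl, va2.symm⟩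
    (Or.inr (Or.inl a12)) (Or.inr (Or.inr b12)) (Or.inr (Or.inl q5.symm)) (Or.inl q7.symm)
    (Or.inl va1.symm) (Or.inl vb1.symm) (Or.inr (Or.inr r2)) (Or.inr (Or.inl q9.symm))

end Pool.Agent.LD6
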