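import Pool.Agent.LD6.End1

/-!
LD6: the endgame, continued: an index of the second type (`p` complete to the `aᵢ`, `u` complete to
the `bᵢ`).
-/

set_option autoImplicit false

namespace Pool.Agent.LD6

open Finset Pool.Agent.LG6

variable {V : Type} {G : SimpleGraph V}

/-- The index 1 with its outside neighbours `p, r` (of `a₁`) and `u, r` (of `b₁`). -/
structure Ix (G : SimpleGraph V) (v a₁ a₂ a₃ b₁ b₂ b₃ p u r : V) : Prop where
  Na : ∀ z, G.Adj a₁ z → z = v ∨ z = a₂ ∨ z = a₃ ∨ z = b₁ ∨ z = p ∨ z = u ∨ z = r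
  Nb : ∀ z, G.Adj b₁ z → z = v ∨ z = b₂ ∨ z = b₃ ∨ z = a₁ ∨ z = p ∨ z = u ∨ z = r
  or : r = u ∨ (G.Adj a₁ r ∧ G.Adj b₁ r ∧ G.Adj p r ∧ G.Adj u r ∧ ¬ G.Adj a₂ r ∧ ¬ G.Adj a₃ r ∧
    ¬ G.Adj b₂ r ∧ ¬ G.Adj b₃ r ∧ ¬ G.Adj v r ∧ r ≠ v)

/-- The second type at the index 1. -/
theorem M.two (hL : Gl G) (hB : LemB G) {v a₁ a₂ a₃ b₁ b₂ b₃ x y : V}
    (h : M G v a₁ a₂ a₃ b₁ b₂ b₃) (B1 : At G b₁) (ax : G.Adj a₁ x)
    (ay : G.Adj a₁ y) (xy : G.Adj x y) (nvx : ¬ G.Adj v x) (nvy : ¬ G.Adj v y)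
    (xv : x ≠ v) (yv : y ≠ v)
    (N1 : ∀ z, G.Adj a₁ z → z = v ∨ z = a₂ ∨ z = a₃ ∨ z = b₁ ∨ z = x ∨ z = y)
    (nbx : ¬ G.Adj b₁ x) (bY : G.Adj b₁ y)
    (nay : ¬ G.Adj a₂ y) (nay' : ¬ G.Adj a₃ y) :
    ∃ u, G.Adj b₁ u ∧ G.Adj b₂ u ∧ G.Adj b₃ u ∧ ¬ G.Adj a₁ u ∧ ¬ G.Adj v u ∧ u ≠ v ∧
      Ix G v a₁ a₂ a₃ b₁ b₂ b₃ x u y ∧ y ≠ u := by
  have h' := h
  obtain ⟨va1, va2, va3, vb1, vb2, vb3, a12, a13, a23, b12, b13, b23, c1, c2, c3, n12, n13, n21,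
    n23, n31, n32, ⟨m1, m2, m3, m4, m5, m6⟩, Nv⟩ := h'
  have sym := hL.sym
  have irr := hL.irr
  obtain ⟨x', y', xy', bx', by', hxy', nvx', nvy', xv', yv', N2, hor⟩ := h.sw.ty hL hB B1
  rcases hor with hor | ⟨k1, k2, k3, k4, k5, k6⟩
  · exfalso
    obtain ⟨k1, k2⟩ := hor
    have e1 := N1 x' k1
    have e2 := N1 y' k2
    grind
  · have e1 : y = y' := by
      have e1 := N1 y' k2
      have e2 := N2 y bY
      grind
    subst e1
    refine ⟨x', bx', k3, k4, k1, nvx', xv', ⟨by grind, by grind, Or.inr ?_⟩, fun h => xy' h.symm⟩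
    refine ⟨ay, bY, xy, hxy', nay, nay', k5, k6, nvy, yv⟩

/-- The index 1 when `p` is complete to the `aᵢ` and `u` to the `bᵢ`. -/
theorem M.ix (hL : Gl G) (hB : LemB G) {v a₁ a₂ a₃ b₁ b₂ b₃ p u : V}
    (h : M G v a₁ a₂ a₃ b₁ b₂ b₃) (A1 : At G a₁) (B1 : At G b₁) (nvp : ¬ G.Adj v p) (pv : p ≠ v)
    (nvu : ¬ G.Adj v u) (uv : u ≠ v) (pu : p ≠ u)
    (ap1 : G.Adj a₁ p) (ap2 : G.Adj a₂ p)
    (bu1 : G.Adj b₁ u) (bu2 : G.Adj b₂ u) :
    ∃ r, Ix G v a₁ a₂ a₃ b₁ b₂ b₃ p u r := by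
  have h' := h
  obtain ⟨va1, va2, va3, vb1, vb2, vb3, a12, a13, a23, b12, b13, b23, c1, c2, c3, n12, n13, n21,
    n23, n31, n32, ⟨m1, m2, m3, m4, m5, m6⟩, Nv⟩ := h'
  have sym := hL.sym
  have irr := hL.irr
  obtain ⟨x, y, xy, ax, ay, hxy, nvx, nvy, xv, yv, N1, hor⟩ := h.ty hL hB A1
  rcases hor with ⟨k1, k2⟩ | ⟨k1, k2, k3, k4, k5, k6⟩
  · have N2 := B1.all vb1.symm b12 b13 c1.symm k1 k2 (by and_intros <;> grind)
    refine ⟨u, ?_, ?_, Or.inl rfl⟩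
    · intro z hz
      have e1 := N1 z hz
      have e2 := N2 u bu1
      have e3 := N1 p ap1
      grind
    · intro z hz
      have e1 := N2 z hz
      have e2 := N2 u bu1
      have e3 := N1 p ap1
      grind
  · obtain ⟨u', bu', bu2', bu3', nau', nvu', uv', hi, yu⟩ :=
      h.two hL hB B1 ax ay hxy nvx nvy xv yv N1 k1 k2 k5 k6
    have e1 : x = p := by
      have e1 := N1 p ap1
      grind
    have e2 : u' = u := by
      have e1 := hi.Nb u bu1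
      rcases hi.or with h1 | h1
      · grind
      · grind
    subst e1
    subst e2
    exact ⟨y, hi⟩

/-- The final contradiction of this case. -/
theorem M.fin [Fintype V] [DecidableEq V] (hG : IsKConnected 6 G) (hm : ¬ HasCompleteMinor 6 G)
    (hL : Gl G) {v a₁ a₂ a₃ b₁ b₂ b₃ p u r₁ r₂ r₃ : V}
    (h : M G v a₁ a₂ a₃ b₁ b₂ b₃) (nvp : ¬ G.Adj v p) (pv : p ≠ v)
    (nvu : ¬ G.Adj v u) (uv : u ≠ v) (pu : p ≠ u)
    (ap1 : G.Adj a₁ p) (ap2 : G.Adj a₂ p) (ap3 : G.Adj a₃ p)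
    (bu1 : G.Adj b₁ u) (bu2 : G.Adj b₂ u) (bu3 : G.Adj b₃ u)
    (i1 : Ix G v a₁ a₂ a₃ b₁ b₂ b₃ p u r₁) (i2 : Ix G v a₂ a₁ a₃ b₂ b₁ b₃ p u r₂)
    (i3 : Ix G v a₃ a₁ a₂ b₃ b₁ b₂ p u r₃) (ne : r₁ ≠ u) : False := by
  obtain ⟨va1, va2, va3, vb1, vb2, vb3, a12, a13, a23, b12, b13, b23, c1, c2, c3, n12, n13, n21,
    n23, n31, n32, ⟨m1, m2, m3, m4, m5, m6⟩, Nv⟩ := h
  have sym := hL.sym
  have irr := hL.irr
  obtain ⟨j1, j2, j3⟩ := i1
  obtain ⟨j4, j5, j6⟩ := i2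
  obtain ⟨j7, j8, j9⟩ := i3
  have j3' := j3.resolve_left ne
  obtain ⟨ar1, br1, pr1, ur1, na21, na31, nb21, nb31, nvr1, r1v⟩ := j3'
  have vr2 : v ≠ r₂ := by
    rcases j6 with h | h
    · exact fun h' => uv (h ▸ h').symm
    · exact h.2.2.2.2.2.2.2.2.2.symm
  have vr3 : v ≠ r₃ := by
    rcases j9 with h | h
    · exact fun h' => uv (h ▸ h').symm
    · exact h.2.2.2.2.2.2.2.2.2.symm
  have all : ∀ z, (z = v ∨ z = a₁ ∨ z = a₂ ∨ z = a₃ ∨ z = b₁ ∨ z = b₂ ∨ z = b₃) ∨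
      (z = p ∨ z = u ∨ z = r₁ ∨ z = r₂ ∨ z = r₃) := by
    intro z
    by_contra hno
    push Not at hno
    obtain ⟨q1, q2⟩ := hno
    have hc : ({p, u, r₁, r₂, r₃} : Finset V).card < 6 := lt_of_le_of_lt card_le_five (by omega)
    obtain ⟨g, w, hg, hw, hgw, hgD, hwD⟩ := cross (hG.2 _ hc)
      {z | z = v ∨ z = a₁ ∨ z = a₂ ∨ z = a₃ ∨ z = b₁ ∨ z = b₂ ∨ z = b₃} (e := v) (f := z)
      (by
        intro hv
        simp only [coe_insert, coe_singleton, Set.mem_insert_iff, Set.mem_singleton_iff] at hv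
        grind)
      (by
        intro hv
        simp only [coe_insert, coe_singleton, Set.mem_insert_iff, Set.mem_singleton_iff] at hv
        grind) (Or.inl rfl) (by
        simp only [Set.mem_ofPred_eq]
        grind)
    simp only [coe_insert, coe_singleton, Set.mem_insert_iff, Set.mem_singleton_iff,
      Set.mem_ofPred_eq] at hg hw hgD hwD
    rcases hgD with rfl | rfl | rfl | rfl | rfl | rfl | rfl
    · have := Nv w hgw
      grind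
    · have := j1 w hgw
      grind
    · have := j4 w hgw
      grind
    · have := j7 w hgw
      grind
    · have := j2 w hgw
      grind
    · have := j5 w hgw
      grind
    · have := j8 w hgw
      grind
  have N : ∀ z, G.Adj r₁ z → z = a₁ ∨ z = b₁ ∨ z = p ∨ z = u ∨ z = r₂ ∨ z = r₃ := by
    intro z hz
    rcases all z with h1 | h1
    · rcases h1 with rfl | rfl | rfl | rfl | rfl | rfl | rfl
      · exact absurd hz.symm nvr1
      · exact Or.inl rfl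
      · exact absurd hz.symm na21
      · exact absurd hz.symm na31
      · exact Or.inr (Or.inl rfl)
      · exact absurd hz.symm nb21
      · exact absurd hz.symm nb31
    · rcases h1 with rfl | rfl | rfl | rfl | rfl
      · exact Or.inr (Or.inr (Or.inl rfl))
      · exact Or.inr (Or.inr (Or.inr (Or.inl rfl)))
      · exact absurd hz (irr _)
      · exact Or.inr (Or.inr (Or.inr (Or.inr (Or.inl rfl))))
      · exact Or.inr (Or.inr (Or.inr (Or.inr (Or.inr rfl))))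
  have five : ∀ x₁ x₂ x₃ x₄ x₅ : V,
      (∀ z, G.Adj r₁ z → z = x₁ ∨ z = x₂ ∨ z = x₃ ∨ z = x₄ ∨ z = x₅) → False := by
    intro x₁ x₂ x₃ x₄ x₅ hx
    have h1 := min_deg hG r₁ (({x₁, x₂, x₃, x₄, x₅} : Finset V).erase r₁) (by
      intro f hf
      rw [mem_erase]
      refine ⟨hf.ne.symm, ?_⟩
      simp only [mem_insert, mem_singleton]
      exact hx f hf) (notMem_erase _ _)
    have h2 := card_erase_le (s := ({x₁, x₂, x₃, x₄, x₅} : Finset V)) (a := r₁)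
    have h3 : ({x₁, x₂, x₃, x₄, x₅} : Finset V).card ≤ 5 := card_le_five
    omega
  have ne2 : r₂ ≠ u := by
    intro h1
    exact five a₁ b₁ p u r₃ (fun z hz => by have := N z hz; grind)
  have ne3 : r₃ ≠ u := by
    intro h1
    exact five a₁ b₁ p u r₂ (fun z hz => by have := N z hz; grind)
  have r13 : G.Adj r₁ r₃ := by
    by_contra hno
    exact five a₁ b₁ p u r₂ (fun z hz => by have := N z hz; grind)
  obtain ⟨ar2, br2, pr2, ur2, na12, na32, nb12, nb32, nvr2, r2v⟩ := j6.resolve_left ne2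
  obtain ⟨ar3, br3, pr3, ur3, na13, na23, nb13, nb23, nvr3, r3v⟩ := j9.resolve_left ne3
  refine model hm va1 va2 va3 a12 a13 a23 {x | x = p ∨ x = r₂ ∨ x = u ∨ x = b₁}
    {x | x = r₁ ∨ x = r₃ ∨ x = b₃ ∨ x = b₂} (path4 G pr2 ur2.symm bu1.symm)
    (path4 G r13 br3.symm b23.symm) ?_ ?_ ?_ ⟨p, Or.inl rfl, r₁, Or.inl rfl, pr1⟩
    ⟨b₁, Or.inr (Or.inr (Or.inr rfl)), vb1⟩ ⟨p, Or.inl rfl, ap1⟩ ⟨p, Or.inl rfl, ap2⟩
    ⟨p, Or.inl rfl, ap3⟩ ⟨b₂, Or.inr (Or.inr (Or.inr rfl)), vb2⟩ ⟨r₁, Or.inl rfl, ar1⟩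
    ⟨b₂, Or.inr (Or.inr (Or.inr rfl)), c2⟩ ⟨r₃, Or.inr (Or.inl rfl), ar3⟩
  · simp only [Set.mem_ofPred_eq]
    and_intros <;> grind
  · simp only [Set.mem_ofPred_eq]
    and_intros <;> grind
  · simp only [Set.mem_ofPred_eq]
    rintro x (rfl | rfl | rfl | rfl)
    all_goals grind

end Pool.Agent.LD6
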