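import Pool.Agent.LD6.End2

/-!
LD6: the endgame, continued: the matching case.
-/

set_option autoImplicit false

namespace Pool.Agent.LD6

open Finset Pool.Agent.LG6

variable {V : Type} {G : SimpleGraph V}

/-- The statement of `M.common`. -/
def Cm (G : SimpleGraph V) (v a₁ a₂ a₃ b₁ b₂ b₃ : V) : Prop :=
  ∀ p s : V, p ≠ v → ¬ G.Adj v p → G.Adj a₁ p → G.Adj a₂ p → G.Adj a₃ p → G.Adj b₁ p →
    G.Adj b₂ p → G.Adj b₃ p → s ≠ v → ¬ G.Adj v s → s ≠ p → False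

/-- An index of the first type. -/
structure I1 (G : SimpleGraph V) (v a b x y : V) : Prop where
  xy : x ≠ y
  ax : G.Adj a x
  ay : G.Adj a y
  bx : G.Adj b x
  byy : G.Adj b y
  hxy : G.Adj x y
  nvx : ¬ G.Adj v x
  nvy : ¬ G.Adj v y
  xv : x ≠ v
  yv : y ≠ v

theorem I1.sw {v a b x y : V} (h : I1 G v a b x y) : I1 G v a b y x :=
  ⟨h.xy.symm, h.ay, h.ax, h.byy, h.bx, h.hxy.symm, h.nvy, h.nvx, h.yv, h.xv⟩

/-- Two indices of the first type are not disjoint. -/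
theorem M.dis (hL : Gl G) (hX : LemX G) {v a₁ a₂ a₃ b₁ b₂ b₃ x y x' y' : V}
    (h : M G v a₁ a₂ a₃ b₁ b₂ b₃) (i : I1 G v a₁ b₁ x y) (j : I1 G v a₂ b₂ x' y') :
    x = x' ∨ x = y' ∨ y = x' ∨ y = y' := by
  obtain ⟨va1, va2, va3, vb1, vb2, vb3, a12, a13, a23, b12, b13, b23, c1, c2, c3, n12, n13, n21,
    n23, n31, n32, ⟨m1, m2, m3, m4, m5, m6⟩, Nv⟩ := h
  obtain ⟨e1, e2, e3, e4, e5, e6, e7, e8, e9, e10⟩ := i
  obtain ⟨f1, f2, f3, f4, f5, f6, f7, f8, f9, f10⟩ := j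
  have sym := hL.sym
  have irr := hL.irr
  by_contra hno
  push Not at hno
  obtain ⟨g1, g2, g3, g4⟩ := hno
  exact hX a₁ a₂ v a₃ b₁ x y b₂ x' y' a12 va1.symm a13 va2.symm a23 va3 c1 e2 e3 e4 e5 e6 c2 f2 f3
    f4 f5 f6 (by and_intros <;> grind) (by and_intros <;> grind) (by and_intros <;> grind)
    (by and_intros <;> grind) (by and_intros <;> grind) (by and_intros <;> grind)
    (by and_intros <;> grind) (by and_intros <;> grind) (by and_intros <;> grind)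

/-- Two indices of the first type are not equal. -/
theorem M.neq (hL : Gl G) (hB : LemB G) {v a₁ a₂ a₃ b₁ b₂ b₃ x y : V}
    (h : M G v a₁ a₂ a₃ b₁ b₂ b₃) (i : I1 G v a₁ b₁ x y) (j1 : G.Adj a₂ x) (j2 : G.Adj a₂ y) :
    False := by
  obtain ⟨va1, va2, va3, vb1, vb2, vb3, a12, a13, a23, b12, b13, b23, c1, c2, c3, n12, n13, n21,
    n23, n31, n32, ⟨m1, m2, m3, m4, m5, m6⟩, Nv⟩ := h
  obtain ⟨e1, e2, e3, e4, e5, e6, e7, e8, e9, e10⟩ := i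
  have sym := hL.sym
  have irr := hL.irr
  exact hB a₁ a₂ v a₃ x y v b₁ b₂ b₃ a12 va1.symm a13 e2 e3 va2.symm a23 j1 j2 vb1 vb2 vb3 b12
    b13 b23 (by and_intros <;> grind) (by and_intros <;> grind)

/-- All indices are of the first type, the first two share `p`. -/
theorem M.three [DecidableEq V] (hm : ¬ HasCompleteMinor 6 G) (hL : Gl G) (hX : LemX G)
    {v a₁ a₂ a₃ b₁ b₂ b₃ p s₁ s₂ x y : V} (h : M G v a₁ a₂ a₃ b₁ b₂ b₃)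
    (hC : Cm G v a₁ a₂ a₃ b₁ b₂ b₃) (i : I1 G v a₁ b₁ p s₁) (j : I1 G v a₂ b₂ p s₂)
    (k : I1 G v a₃ b₃ x y) (hs : s₁ ≠ s₂) : False := by
  have hpx : ∀ z, I1 G v a₃ b₃ p z → False := fun z hz =>
    hC p s₁ i.xv i.nvx i.ax j.ax hz.ax i.bx j.bx hz.bx i.yv i.nvy i.xy.symm
  have hx : x ≠ p := by
    rintro rfl
    exact hpx _ k
  have hy : y ≠ p := by
    rintro rfl
    exact hpx _ k.sw
  have tr : I1 G v a₃ b₃ s₁ s₂ → False := fun hz =>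
    h.tri hm hL i.nvx i.nvy j.nvy i.xv i.yv j.yv i.xy j.xy hs i.ax i.bx i.ay i.byy j.ax hz.ax hz.bx
      hz.byy i.hxy j.hxy
  have d1 := h.p23.dis hL hX i k
  have d2 := h.p12.p23.dis hL hX j k
  have e1 : s₁ = x ∨ s₁ = y := by
    rcases d1 with h1 | h1 | h1 | h1
    · exact absurd h1.symm hx
    · exact absurd h1.symm hy
    · exact Or.inl h1
    · exact Or.inr h1
  have e2 : s₂ = x ∨ s₂ = y := by
    rcases d2 with h1 | h1 | h1 | h1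
    · exact absurd h1.symm hx
    · exact absurd h1.symm hy
    · exact Or.inl h1
    · exact Or.inr h1
  rcases e1 with rfl | rfl <;> rcases e2 with rfl | rfl
  · exact hs rfl
  · exact tr k
  · exact tr k.sw
  · exact hs rfl

/-- All indices are of the first type. -/
theorem M.allOne [DecidableEq V] (hm : ¬ HasCompleteMinor 6 G) (hL : Gl G) (hB : LemB G)
    (hX : LemX G)
    {v a₁ a₂ a₃ b₁ b₂ b₃ x₁ y₁ x₂ y₂ x y : V} (h : M G v a₁ a₂ a₃ b₁ b₂ b₃)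
    (hC : Cm G v a₁ a₂ a₃ b₁ b₂ b₃) (i : I1 G v a₁ b₁ x₁ y₁) (j : I1 G v a₂ b₂ x₂ y₂)
    (k : I1 G v a₃ b₃ x y) : False := by
  have key : ∀ {p s₁ s₂ : V}, I1 G v a₁ b₁ p s₁ → I1 G v a₂ b₂ p s₂ → False := by
    intro p s₁ s₂ h1 h2
    by_cases hs : s₁ = s₂
    · subst hs
      exact h.neq hL hB h1 h2.ax h2.ay
    · exact h.three hm hL hX hC h1 h2 k hs
  rcases h.dis hL hX i j with h1 | h1 | h1 | h1
  · subst h1
    exact key i j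
  · subst h1
    exact key i j.sw
  · subst h1
    exact key i.sw j
  · subst h1
    exact key i.sw j.sw

/-- The matching case. -/
theorem M.false [Fintype V] [DecidableEq V] (hG : IsKConnected 6 G) (hm : ¬ HasCompleteMinor 6 G)
    (hL : Gl G) (hB : LemB G) (hX : LemX G) {v a₁ a₂ a₃ b₁ b₂ b₃ : V}
    (h : M G v a₁ a₂ a₃ b₁ b₂ b₃) (hA : ∀ x, G.Adj v x → At G x)
    (hC : Cm G v a₁ a₂ a₃ b₁ b₂ b₃) : False := by
  have A1 := hA _ h.va1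
  have A2 := hA _ h.va2
  have A3 := hA _ h.va3
  have B1 := hA _ h.vb1
  have B2 := hA _ h.vb2
  have B3 := hA _ h.vb3
  -- one index of the second type
  have two : ∀ {a₁ a₂ a₃ b₁ b₂ b₃ x y : V}, M G v a₁ a₂ a₃ b₁ b₂ b₃ → At G a₂ → At G a₃ → At G b₁ →
      At G b₂ → At G b₃ → G.Adj a₁ x → G.Adj a₁ y → G.Adj x y → ¬ G.Adj v x → ¬ G.Adj v y →
      x ≠ v → y ≠ v →
      (∀ z, G.Adj a₁ z → z = v ∨ z = a₂ ∨ z = a₃ ∨ z = b₁ ∨ z = x ∨ z = y) →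
      ¬ G.Adj b₁ x → G.Adj b₁ y → G.Adj a₂ x → G.Adj a₃ x → ¬ G.Adj a₂ y → ¬ G.Adj a₃ y →
      False := by
    intro a₁ a₂ a₃ b₁ b₂ b₃ x y h A2 A3 B1 B2 B3 ax ay xy nvx nvy xv yv N1 k1 k2 k3 k4 k5 k6
    obtain ⟨u, bu1, bu2, bu3, nau, nvu, uv, i1, yu⟩ :=
      h.two hL hB B1 ax ay xy nvx nvy xv yv N1 k1 k2 k5 k6
    have xu : x ≠ u := fun h' => k1 (h' ▸ bu1)
    obtain ⟨r₂, i2⟩ := h.p12.ix hL hB A2 B2 nvx xv nvu uv xu k3 ax bu2 bu1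
    obtain ⟨r₃, i3⟩ := h.p23.p12.ix hL hB A3 B3 nvx xv nvu uv xu k4 ax bu3 bu1
    exact h.fin hG hm hL nvx xv nvu uv xu ax k3 k4 bu1 bu2 bu3 i1 i2 i3 yu
  obtain ⟨x₁, y₁, e1, e2, e3, e4, e5, e6, e7, e8, e9, e10⟩ := h.ty hL hB A1
  obtain ⟨x₂, y₂, f1, f2, f3, f4, f5, f6, f7, f8, f9, f10⟩ := h.p12.ty hL hB A2
  obtain ⟨x₃, y₃, g1, g2, g3, g4, g5, g6, g7, g8, g9, g10⟩ := h.p23.p12.ty hL hB A3
  rcases e10 with e10 | ⟨k1, k2, k3, k4, k5, k6⟩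
  · rcases f10 with f10 | ⟨k1, k2, k3, k4, k5, k6⟩
    · rcases g10 with g10 | ⟨k1, k2, k3, k4, k5, k6⟩
      · exact h.allOne hm hL hB hX hC ⟨e1, e2, e3, e10.1, e10.2, e4, e5, e6, e7, e8⟩
          ⟨f1, f2, f3, f10.1, f10.2, f4, f5, f6, f7, f8⟩
          ⟨g1, g2, g3, g10.1, g10.2, g4, g5, g6, g7, g8⟩
      · exact two h.p23.p12 A1 A2 B3 B1 B2 g2 g3 g4 g5 g6 g7 g8 g9 k1 k2 k3 k4 k5 k6
    · exact two h.p12 A1 A3 B2 B1 B3 f2 f3 f4 f5 f6 f7 f8 f9 k1 k2 k3 k4 k5 k6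
  · exact two h A2 A3 B1 B2 B3 e2 e3 e4 e5 e6 e7 e8 e9 k1 k2 k3 k4 k5 k6

end Pool.Agent.LD6
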