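import Pool.Agent.LD6.T2
import Pool.Agent.LG6.Claw

/-!
LD6: if no vertex of the closed neighbourhood of `v` is the centre of a claw, then the neighbourhood
of `v` is the union of two disjoint triangles.
-/

set_option autoImplicit false

namespace Pool.Agent.LD6

open Finset Pool.Agent.LG6

variable {V : Type} {G : SimpleGraph V} [DecidableEq V]

/-- The neighbourhood of a vertex is not a 5-cycle together with a vertex that has three consecutive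
neighbours on it. -/
theorem hub_false (hm : ¬ HasCompleteMinor 6 G) (hL : Gl G) (hB : LemB G)
    {v : V} (hA : ∀ x, G.Adj v x → At G x) (Av : At G v) {w c₀ c₁ c₂ c₃ c₄ : V} (vw : G.Adj v w) (v0 : G.Adj v c₀) (v1 : G.Adj v c₁)
    (v2 : G.Adj v c₂) (v3 : G.Adj v c₃) (v4 : G.Adj v c₄) (a01 : G.Adj c₀ c₁) (a12 : G.Adj c₁ c₂)
    (a23 : G.Adj c₂ c₃) (a34 : G.Adj c₃ c₄) (a40 : G.Adj c₄ c₀) (n02 : ¬ G.Adj c₀ c₂)
    (n13 : ¬ G.Adj c₁ c₃) (n24 : ¬ G.Adj c₂ c₄) (n30 : ¬ G.Adj c₃ c₀) (n41 : ¬ G.Adj c₄ c₁)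
    (m02 : c₀ ≠ c₂) (m13 : c₁ ≠ c₃) (m24 : c₂ ≠ c₄) (m30 : c₃ ≠ c₀) (m41 : c₄ ≠ c₁)
    (w1 : G.Adj w c₁) (w2 : G.Adj w c₂) (w3 : G.Adj w c₃) (wn0 : w ≠ c₀) (wn4 : w ≠ c₄) :
    False := by
  by_cases h0 : G.Adj w c₀ <;> by_cases h4 : G.Adj w c₄
  · apply Av.out w vw
    have Nw := (hA w vw).all vw.symm h0 w1 w2 w3 h4
      ⟨v0.ne, v1.ne, v2.ne, v3.ne, v4.ne, a01.ne, m02, m30.symm, a40.ne.symm, a12.ne, m13,
        m41.symm, a23.ne, m24, a34.ne⟩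
    intro x hx
    rcases Nw x hx with rfl | rfl | rfl | rfl | rfl | rfl
    · exact Or.inl rfl
    · exact Or.inr v0
    · exact Or.inr v1
    · exact Or.inr v2
    · exact Or.inr v3
    · exact Or.inr v4
  · exact t3_false hL hB Av (hA _ v4) (v := v) (w := w) (p₁ := c₀) (p₂ := c₁) (p₃ := c₂) (p₄ := c₃) (y := c₄)
      ⟨vw, v0, v1, v2, v3, v4, h0, w1, w2, w3, a01, a12, a23, a40, a34.symm, n02,
        fun h => n30 h.symm, n13, n41, fun h => n24 h.symm, fun h => h4 h.symm,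
        ⟨m02, m30.symm, m13, m41, m24.symm, wn4.symm⟩⟩
  · exact t3_false hL hB Av (hA _ v0) (v := v) (w := w) (p₁ := c₁) (p₂ := c₂) (p₃ := c₃) (p₄ := c₄) (y := c₀)
      ⟨vw, v1, v2, v3, v4, v0, w1, w2, w3, h4, a12, a23, a34, a01, a40.symm, n13,
        fun h => n41 h.symm, n24, n02, fun h => n30 h.symm, fun h => h0 h.symm,
        ⟨m13, m41.symm, m24, m02, m30.symm, wn0.symm⟩⟩
  · exact t2_false hm hL hB hA Av (v := v) (s := w) (t := c₂) (a := c₁) (b := c₃) (a' := c₀) (b' := c₄)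
      ⟨vw, v2, v1, v3, v0, v4, w2, w1, w3, a12.symm, a23, a01.symm, a34, a40.symm, h0, h4,
        fun h => n02 h.symm, n24, n13, fun h => n41 h.symm, n30,
        ⟨wn0, wn4, m02.symm, m24, m13, m41.symm, m30⟩⟩

/-- A path `p r q` in `N(v)` outside a triangle `t₁ t₂ t₃`. -/
theorem path_false (hm : ¬ HasCompleteMinor 6 G) (hL : Gl G) (hB : LemB G)
    {v : V} (hA : ∀ x, G.Adj v x → At G x) (Av : At G v) {t₁ t₂ t₃ p q r : V} (a1 : G.Adj v t₁) (a2 : G.Adj v t₂) (a3 : G.Adj v t₃)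
    (ap : G.Adj v p) (aq : G.Adj v q) (ar : G.Adj v r) (h12 : G.Adj t₁ t₂) (h13 : G.Adj t₁ t₃)
    (h23 : G.Adj t₂ t₃) (pr : G.Adj p r) (rq : G.Adj r q) (npq : ¬ G.Adj p q) (mpq : p ≠ q)
    (n1 : t₁ ≠ p ∧ t₁ ≠ q ∧ t₁ ≠ r) (n2 : t₂ ≠ p ∧ t₂ ≠ q ∧ t₂ ≠ r)
    (n3 : t₃ ≠ p ∧ t₃ ≠ q ∧ t₃ ≠ r) (k1 : ¬ G.Adj t₁ p ∧ ¬ G.Adj t₁ r)
    (k2 : ¬ G.Adj t₂ q ∧ ¬ G.Adj t₂ r) : False := by
  have c1 : G.Adj t₁ q := by
    rcases Av.claw p q t₁ ap aq a1 mpq n1.1.symm n1.2.1.symm with h | h | h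
    · exact absurd h npq
    · exact absurd h.symm k1.1
    · exact h.symm
  have c2 : G.Adj t₂ p := by
    rcases Av.claw p q t₂ ap aq a2 mpq n2.1.symm n2.2.1.symm with h | h | h
    · exact absurd h npq
    · exact h.symm
    · exact absurd h.symm k2.1
  rcases Av.claw p q t₃ ap aq a3 mpq n3.1.symm n3.2.1.symm with h | h | h
  · exact absurd h npq
  · -- `c₀ = r, c₁ = p, c₂ = t₂, c₃ = t₁, c₄ = q`
    exact hub_false hm hL hB hA Av (v := v) (w := t₃) (c₀ := r) (c₁ := p) (c₂ := t₂) (c₃ := t₁) (c₄ := q)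
      a3 ar ap a2 a1 aq pr.symm c2.symm h12.symm c1 rq.symm (fun h => k2.2 h.symm)
      (fun h => k1.1 h.symm) k2.1 k1.2 (fun h => npq h.symm) n2.2.2.symm n1.1.symm n2.2.1
      n1.2.2 mpq.symm h.symm h23.symm h13.symm n3.2.2 n3.2.1
  · exact hub_false hm hL hB hA Av (v := v) (w := t₃) (c₀ := r) (c₁ := q) (c₂ := t₁) (c₃ := t₂) (c₄ := p)
      a3 ar aq a1 a2 ap rq c1.symm h12 c2 pr (fun h => k1.2 h.symm)
      (fun h => k2.1 h.symm) k1.1 k2.2 npq n1.2.2.symm n2.2.1.symm n1.1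
      n2.2.2 mpq h.symm h13.symm h23.symm n3.2.2 n3.1

/-- The case of a path `p r q` outside a triangle. -/
theorem path_case (hm : ¬ HasCompleteMinor 6 G) (hL : Gl G) (hB : LemB G)
    {v : V} (hA : ∀ x, G.Adj v x → At G x) (Av : At G v) {t₁ t₂ t₃ p q r : V} (a1 : G.Adj v t₁) (a2 : G.Adj v t₂) (a3 : G.Adj v t₃)
    (ap : G.Adj v p) (aq : G.Adj v q) (ar : G.Adj v r) (h12 : G.Adj t₁ t₂) (h13 : G.Adj t₁ t₃)
    (h23 : G.Adj t₂ t₃) (pr : G.Adj p r) (rq : G.Adj r q) (npq : ¬ G.Adj p q) (mpq : p ≠ q)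
    (n1 : t₁ ≠ p ∧ t₁ ≠ q ∧ t₁ ≠ r) (n2 : t₂ ≠ p ∧ t₂ ≠ q ∧ t₂ ≠ r)
    (n3 : t₃ ≠ p ∧ t₃ ≠ q ∧ t₃ ≠ r) : False := by
  have key : ∀ z z' h : V, G.Adj v z → G.Adj v z' → G.Adj v h → G.Adj z z' → h ≠ z → h ≠ z' →
      (t₁ ≠ z ∧ t₁ ≠ z' ∧ t₁ ≠ h) → (t₂ ≠ z ∧ t₂ ≠ z' ∧ t₂ ≠ h) → (t₃ ≠ z ∧ t₃ ≠ z' ∧ t₃ ≠ h) →
      (¬ G.Adj t₁ z ∧ ¬ G.Adj t₁ z') ∨ (¬ G.Adj t₂ z ∧ ¬ G.Adj t₂ z') ∨
        (¬ G.Adj t₃ z ∧ ¬ G.Adj t₃ z') := by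
    intro z z' h az az' ah hzz hz hz' ⟨b1, b2, b3⟩ ⟨b4, b5, b6⟩ ⟨b7, b8, b9⟩
    by_contra hno
    push Not at hno
    obtain ⟨d1, d2, d3⟩ := hno
    exact Av.dom t₁ t₂ t₃ z z' h a1 a2 a3 az az' ah h12 h13 h23 hzz
      ⟨b1.symm, b4.symm, b7.symm, b2.symm, b5.symm, b8.symm, b3.symm, b6.symm, b9.symm, hz, hz'⟩
      (or_iff_not_imp_left.2 d1) (or_iff_not_imp_left.2 d2) (or_iff_not_imp_left.2 d3)
  have k1 := key p r q ap ar aq pr mpq.symm rq.ne.symm ⟨n1.1, n1.2.2, n1.2.1⟩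
    ⟨n2.1, n2.2.2, n2.2.1⟩ ⟨n3.1, n3.2.2, n3.2.1⟩
  have k2 := key q r p aq ar ap rq.symm mpq pr.ne ⟨n1.2.1, n1.2.2, n1.1⟩
    ⟨n2.2.1, n2.2.2, n2.1⟩ ⟨n3.2.1, n3.2.2, n3.1⟩
  have same : ∀ t, G.Adj v t → (t ≠ p ∧ t ≠ q ∧ t ≠ r) → (¬ G.Adj t p ∧ ¬ G.Adj t r) →
      (¬ G.Adj t q ∧ ¬ G.Adj t r) → False := by
    intro t ht ⟨e1, e2, e3⟩ ⟨e4, e5⟩ ⟨e6, e7⟩
    rcases Av.claw p q t ap aq ht mpq e1.symm e2.symm with h | h | h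
    · exact npq h
    · exact e4 h.symm
    · exact e6 h.symm
  rcases k1 with k1 | k1 | k1 <;> rcases k2 with k2 | k2 | k2
  · exact same _ a1 n1 k1 k2
  · exact path_false hm hL hB hA Av a1 a2 a3 ap aq ar h12 h13 h23 pr rq npq mpq n1 n2 n3 k1 k2
  · exact path_false hm hL hB hA Av a1 a3 a2 ap aq ar h13 h12 h23.symm pr rq npq mpq n1 n3 n2 k1 k2
  · exact path_false hm hL hB hA Av a2 a1 a3 ap aq ar h12.symm h23 h13 pr rq npq mpq n2 n1 n3 k1 k2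
  · exact same _ a2 n2 k1 k2
  · exact path_false hm hL hB hA Av a2 a3 a1 ap aq ar h23 h12.symm h13.symm pr rq npq mpq n2 n3 n1 k1 k2
  · exact path_false hm hL hB hA Av a3 a1 a2 ap aq ar h13.symm h23.symm h12 pr rq npq mpq n3 n1 n2 k1 k2
  · exact path_false hm hL hB hA Av a3 a2 a1 ap aq ar h23.symm h13.symm h12.symm pr rq npq mpq n3 n2 n1
      k1 k2
  · exact same _ a3 n3 k1 k2

/-- The case of one edge `p r` and an isolated vertex `q` outside a triangle. -/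
theorem edge_case (hL : Gl G) {v : V} (Av : At G v)
    {t₁ t₂ t₃ p q r : V} (a1 : G.Adj v t₁) (a2 : G.Adj v t₂) (a3 : G.Adj v t₃)
    (ap : G.Adj v p) (aq : G.Adj v q) (ar : G.Adj v r) (h12 : G.Adj t₁ t₂) (h13 : G.Adj t₁ t₃)
    (h23 : G.Adj t₂ t₃) (pr : G.Adj p r) (nrq : ¬ G.Adj r q) (npq : ¬ G.Adj p q) (mpq : p ≠ q)
    (mrq : r ≠ q)
    (n1 : t₁ ≠ p ∧ t₁ ≠ q ∧ t₁ ≠ r) (n2 : t₂ ≠ p ∧ t₂ ≠ q ∧ t₂ ≠ r)
    (n3 : t₃ ≠ p ∧ t₃ ≠ q ∧ t₃ ≠ r)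
    (hN : ∀ x, G.Adj v x ↔ x = t₁ ∨ x = t₂ ∨ x = t₃ ∨ x = p ∨ x = q ∨ x = r) :
    ∃ A B : Finset V, QV G v A B := by
  have key : ∀ t, G.Adj v t → (t ≠ p ∧ t ≠ q ∧ t ≠ r) → ¬ G.Adj t q → G.Adj t p ∧ G.Adj t r := by
    intro t ht ⟨e1, e2, e3⟩ hq
    constructor
    · rcases Av.claw p q t ap aq ht mpq e1.symm e2.symm with h | h | h
      · exact absurd h npq
      · exact h.symm
      · exact absurd h.symm hq
    · rcases Av.claw r q t ar aq ht mrq e3.symm e2.symm with h | h | h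
      · exact absurd h nrq
      · exact h.symm
      · exact absurd h.symm hq
  have two : ∀ t t', G.Adj v t → G.Adj v t' → (t ≠ p ∧ t ≠ q ∧ t ≠ r) →
      (t' ≠ p ∧ t' ≠ q ∧ t' ≠ r) → G.Adj t t' → ¬ G.Adj t q → G.Adj t' q := by
    intro t t' ht ht' e e' htt hq
    by_contra hq'
    obtain ⟨b1, b2⟩ := key t ht e hq
    obtain ⟨b3, b4⟩ := key t' ht' e' hq'
    exact hL.five v t t' p r ht ht' ap ar htt b1 b2 b3 b4 pr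
  have fin : ∀ t t' t'' : V, G.Adj v t → G.Adj v t' → G.Adj v t'' → (t ≠ p ∧ t ≠ q ∧ t ≠ r) →
      (t' ≠ p ∧ t' ≠ q ∧ t' ≠ r) → (t'' ≠ p ∧ t'' ≠ q ∧ t'' ≠ r) → G.Adj t t' → G.Adj t t'' →
      G.Adj t' t'' →
      (∀ x, G.Adj v x ↔ x = t ∨ x = t' ∨ x = t'' ∨ x = p ∨ x = q ∨ x = r) →
      ¬ G.Adj t q → ∃ A B : Finset V, QV G v A B := by
    intro t t' t'' ht ht' ht'' e e' e'' h1 h2 h3 hN' hq
    have b1 := two t t' ht ht' e e' h1 hq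
    have b2 := two t t'' ht ht'' e e'' h2 hq
    obtain ⟨b3, b4⟩ := key t ht e hq
    refine ⟨_, _, QV.mk6 hL.sym (v := v) (a := t) (b := p) (c := r) (d := q) (e := t') (f := t'')
      ?_ b3 b4 pr b1.symm b2.symm h3 ⟨⟨e.2.1, h1.ne, h2.ne⟩, ⟨mpq, e'.1.symm, e''.1.symm⟩,
        ⟨mrq, e'.2.2.symm, e''.2.2.symm⟩⟩⟩
    intro x
    rw [hN']
    tauto
  by_cases c1 : G.Adj t₁ q
  · by_cases c2 : G.Adj t₂ q
    · by_cases c3 : G.Adj t₃ q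
      · exact (hL.five v t₁ t₂ t₃ q a1 a2 a3 aq h12 h13 c1 h23 c2 c3).elim
      · exact fin t₃ t₁ t₂ a3 a1 a2 n3 n1 n2 h13.symm h23.symm h12
          (fun x => by rw [hN]; tauto) c3
    · exact fin t₂ t₁ t₃ a2 a1 a3 n2 n1 n3 h12.symm h23 h13
        (fun x => by rw [hN]; tauto) c2
  · exact fin t₁ t₂ t₃ a1 a2 a3 n1 n2 n3 h12 h13 h23 hN c1

/-- The neighbourhood of `v` is the union of two disjoint triangles. -/
theorem local_qv (hm : ¬ HasCompleteMinor 6 G) (hL : Gl G) (hB : LemB G)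
    {v : V} (hA : ∀ x, G.Adj v x → At G x) (Av : At G v) :
    ∃ A B : Finset V, QV G v A B := by
  obtain ⟨N, h6, hN⟩ := Av.nbr
  obtain ⟨t₁, m1, t₂, m2, t₃, m3, h12, h13, h23⟩ := ramsey Av.claw (fun x hx => (hN x).1 hx) h6
  have hT : ({t₁, t₂, t₃} : Finset V).card = 3 :=
    card_eq_three.2 ⟨t₁, t₂, t₃, h12.ne, h13.ne, h23.ne, rfl⟩
  have hTN : ({t₁, t₂, t₃} : Finset V) ⊆ N := by
    intro x hx
    simp only [mem_insert, mem_singleton] at hx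
    rcases hx with rfl | rfl | rfl <;> assumption
  have hW : (N \ {t₁, t₂, t₃}).card = 3 := by
    rw [card_sdiff_of_subset hTN, h6, hT]
  obtain ⟨p, q, r, mpq, mpr, mqr, hpqr⟩ := card_eq_three.1 hW
  have hmem : ∀ x, x ∈ N \ {t₁, t₂, t₃} ↔ x = p ∨ x = q ∨ x = r := by
    intro x
    rw [hpqr]
    simp only [mem_insert, mem_singleton]
  have hp := (hmem p).2 (Or.inl rfl)
  have hq := (hmem q).2 (Or.inr (Or.inl rfl))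
  have hr := (hmem r).2 (Or.inr (Or.inr rfl))
  simp only [mem_sdiff, mem_insert, mem_singleton, not_or] at hp hq hr
  obtain ⟨ap, p1, p2, p3⟩ := hp
  obtain ⟨aq, q1, q2, q3⟩ := hq
  obtain ⟨ar, r1, r2, r3⟩ := hr
  rw [hN] at ap aq ar
  have a1 := (hN t₁).1 m1
  have a2 := (hN t₂).1 m2
  have a3 := (hN t₃).1 m3
  have hall : ∀ x, G.Adj v x ↔ x = t₁ ∨ x = t₂ ∨ x = t₃ ∨ x = p ∨ x = q ∨ x = r := by
    intro x
    constructor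
    · intro hx
      by_cases h : x ∈ ({t₁, t₂, t₃} : Finset V)
      · simp only [mem_insert, mem_singleton] at h
        tauto
      · have h2 := (hmem x).1 (mem_sdiff.2 ⟨(hN x).2 hx, h⟩)
        tauto
    · rintro (rfl | rfl | rfl | rfl | rfl | rfl) <;> assumption
  have np : t₁ ≠ p ∧ t₂ ≠ p ∧ t₃ ≠ p := ⟨Ne.symm p1, Ne.symm p2, Ne.symm p3⟩
  have nq : t₁ ≠ q ∧ t₂ ≠ q ∧ t₃ ≠ q := ⟨Ne.symm q1, Ne.symm q2, Ne.symm q3⟩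
  have nr : t₁ ≠ r ∧ t₂ ≠ r ∧ t₃ ≠ r := ⟨Ne.symm r1, Ne.symm r2, Ne.symm r3⟩
  by_cases cpq : G.Adj p q <;> by_cases cpr : G.Adj p r <;> by_cases cqr : G.Adj q r
  · exact ⟨_, _, QV.mk6 hL.sym hall h12 h13 h23 cpq cpr cqr
      ⟨⟨np.1, nq.1, nr.1⟩, ⟨np.2.1, nq.2.1, nr.2.1⟩, ⟨np.2.2, nq.2.2, nr.2.2⟩⟩⟩
  · -- `q p r`
    exact (path_case hm hL hB hA Av a1 a2 a3 aq ar ap h12 h13 h23 cpq.symm cpr cqr mqr
      ⟨nq.1, nr.1, np.1⟩ ⟨nq.2.1, nr.2.1, np.2.1⟩ ⟨nq.2.2, nr.2.2, np.2.2⟩).elim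
  · -- `p q r`
    exact (path_case hm hL hB hA Av a1 a2 a3 ap ar aq h12 h13 h23 cpq cqr cpr mpr
      ⟨np.1, nr.1, nq.1⟩ ⟨np.2.1, nr.2.1, nq.2.1⟩ ⟨np.2.2, nr.2.2, nq.2.2⟩).elim
  · -- edge `p q`, isolated `r`
    exact edge_case hL Av a1 a2 a3 ap ar aq h12 h13 h23 cpq cqr cpr mpr mqr
      ⟨np.1, nr.1, nq.1⟩ ⟨np.2.1, nr.2.1, nq.2.1⟩ ⟨np.2.2, nr.2.2, nq.2.2⟩
      (fun x => by rw [hall]; tauto)
  · -- `p r q`
    exact (path_case hm hL hB hA Av a1 a2 a3 ap aq ar h12 h13 h23 cpr cqr.symm cpq mpq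
      ⟨np.1, nq.1, nr.1⟩ ⟨np.2.1, nq.2.1, nr.2.1⟩ ⟨np.2.2, nq.2.2, nr.2.2⟩).elim
  · -- edge `p r`, isolated `q`
    exact edge_case hL Av a1 a2 a3 ap aq ar h12 h13 h23 cpr (fun h => cqr h.symm) cpq mpq mqr.symm
      ⟨np.1, nq.1, nr.1⟩ ⟨np.2.1, nq.2.1, nr.2.1⟩ ⟨np.2.2, nq.2.2, nr.2.2⟩ hall
  · -- edge `q r`, isolated `p`
    exact edge_case hL Av a1 a2 a3 aq ap ar h12 h13 h23 cqr (fun h => cpr h.symm)
      (fun h => cpq h.symm) mpq.symm mpr.symm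
      ⟨nq.1, np.1, nr.1⟩ ⟨nq.2.1, np.2.1, nr.2.1⟩ ⟨nq.2.2, np.2.2, nr.2.2⟩
      (fun x => by rw [hall]; tauto)
  · rcases Av.claw p q r ap aq ar mpq mpr mqr with h | h | h
    · exact absurd h cpq
    · exact absurd h cpr
    · exact absurd h cqr

end Pool.Agent.LD6
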