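import Pool.Agent.LD6.End3
import Pool.Agent.LD6.Hub

/-!
LD6: the endgame, concluded.
-/

set_option autoImplicit false

namespace Pool.Agent.LD6

open Finset Pool.Agent.LG6

variable {V : Type} {G : SimpleGraph V} [DecidableEq V]

/-- A vertex `a` of `A` without neighbours in `B`. -/
theorem case_two (hX : LemX G) {v a : V} {A B : Finset V} (q : QV G v A B) (ha : a ∈ A)
    (Aa : At G a) (hno : ∀ b ∈ B, ¬ G.Adj a b) : False := by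
  obtain ⟨c, hc, c', hc', hca, hca', hcc, hall⟩ := others q.hA ha
  obtain ⟨b₁, b₂, b₃, b12, b13, b23, hBe⟩ := card_eq_three.1 q.hB
  have mB : ∀ x, x ∈ B ↔ x = b₁ ∨ x = b₂ ∨ x = b₃ := by
    intro x
    rw [hBe]
    simp only [mem_insert, mem_singleton]
  have hb1 := (mB b₁).2 (Or.inl rfl)
  have hb2 := (mB b₂).2 (Or.inr (Or.inl rfl))
  have hb3 := (mB b₃).2 (Or.inr (Or.inr rfl))
  have va := (q.nbr a).2 (Or.inl ha)
  have vc := (q.nbr c).2 (Or.inl hc)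
  have vc' := (q.nbr c').2 (Or.inl hc')
  have ac := q.cA a ha c hc hca.symm
  have ac' := q.cA a ha c' hc' hca'.symm
  have cc' := q.cA c hc c' hc' hcc
  obtain ⟨N, h6, hN⟩ := Aa.nbr
  have hT : ({v, c, c'} : Finset V).card = 3 :=
    card_eq_three.2 ⟨v, c, c', vc.ne, vc'.ne, hcc, rfl⟩
  have hTN : ({v, c, c'} : Finset V) ⊆ N := by
    intro x hx
    simp only [mem_insert, mem_singleton] at hx
    rw [hN]
    rcases hx with rfl | rfl | rfl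
    · exact va.symm
    · exact ac
    · exact ac'
  have hW : (N \ {v, c, c'}).card = 3 := by
    rw [card_sdiff_of_subset hTN, h6, hT]
  obtain ⟨w₁, w₂, w₃, w12, w13, w23, hWe⟩ := card_eq_three.1 hW
  have hmem : ∀ x, (x = w₁ ∨ x = w₂ ∨ x = w₃) →
      G.Adj a x ∧ x ≠ v ∧ x ≠ c ∧ x ≠ c' ∧ ¬ G.Adj v x := by
    intro x hx
    have h1 : x ∈ N \ {v, c, c'} := by
      rw [hWe]
      simp only [mem_insert, mem_singleton]
      exact hx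
    simp only [mem_sdiff, mem_insert, mem_singleton, not_or] at h1
    obtain ⟨h2, h3, h4, h5⟩ := h1
    rw [hN] at h2
    refine ⟨h2, h3, h4, h5, ?_⟩
    intro h6
    rcases (q.nbr x).1 h6 with h7 | h7
    · rcases hall x h7 with h8 | h8 | h8
      · exact h2.ne h8.symm
      · exact h4 h8
      · exact h5 h8
    · exact hno x h7 h2
  obtain ⟨aw1, w1v, w1c, w1c', nv1⟩ := hmem w₁ (Or.inl rfl)
  obtain ⟨aw2, w2v, w2c, w2c', nv2⟩ := hmem w₂ (Or.inr (Or.inl rfl))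
  obtain ⟨aw3, w3v, w3c, w3c', nv3⟩ := hmem w₃ (Or.inr (Or.inr rfl))
  have key : ∀ x y, G.Adj a x → G.Adj a y → ¬ G.Adj v x → ¬ G.Adj v y → x ≠ v → y ≠ v → x ≠ y →
      G.Adj x y := by
    intro x y ax ay nx ny xv yv xy
    rcases Aa.claw v x y va.symm ax ay xv.symm yv.symm xy with h | h | h
    · exact absurd h nx
    · exact absurd h ny
    · exact h
  have bn : ∀ b ∈ B, b ≠ a ∧ b ≠ c ∧ b ≠ c' := by
    intro b hb
    refine ⟨?_, ?_, ?_⟩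
    · rintro rfl
      exact q.disj _ ha hb
    · rintro rfl
      exact q.disj _ hc hb
    · rintro rfl
      exact q.disj _ hc' hb
  have bw : ∀ b ∈ B, ∀ w, ¬ G.Adj v w → b ≠ w := by
    intro b hb w hw
    rintro rfl
    exact hw ((q.nbr _).2 (Or.inr hb))
  exact hX v a c c' b₁ b₂ b₃ w₁ w₂ w₃ va vc vc' ac ac' cc'
    ((q.nbr _).2 (Or.inr hb1)) ((q.nbr _).2 (Or.inr hb2)) ((q.nbr _).2 (Or.inr hb3))
    (q.cB _ hb1 _ hb2 b12) (q.cB _ hb1 _ hb3 b13) (q.cB _ hb2 _ hb3 b23) aw1 aw2 aw3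
    (key _ _ aw1 aw2 nv1 nv2 w1v w2v w12) (key _ _ aw1 aw3 nv1 nv3 w1v w3v w13)
    (key _ _ aw2 aw3 nv2 nv3 w2v w3v w23) (bn _ hb1) (bn _ hb2) (bn _ hb3)
    ⟨w1v, w1c, w1c'⟩ ⟨w2v, w2c, w2c'⟩ ⟨w3v, w3c, w3c'⟩
    ⟨bw _ hb1 _ nv1, bw _ hb1 _ nv2, bw _ hb1 _ nv3⟩
    ⟨bw _ hb2 _ nv1, bw _ hb2 _ nv2, bw _ hb2 _ nv3⟩
    ⟨bw _ hb3 _ nv1, bw _ hb3 _ nv2, bw _ hb3 _ nv3⟩

variable [Fintype V]

/-- The main local theorem, from Lemma B, Lemma X and `Cm`. -/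
theorem loc_main (hG : IsKConnected 6 G) (hm : ¬ HasCompleteMinor 6 G) (hB : LemB G)
    (hX : LemX G)
    (hC : ∀ v a₁ a₂ a₃ b₁ b₂ b₃ : V, M G v a₁ a₂ a₃ b₁ b₂ b₃ → Cm G v a₁ a₂ a₃ b₁ b₂ b₃)
    {v : V} (hv : NC G v) (hN : ∀ x, G.Adj v x → NC G x) : False := by
  have hL := Gl.mk' hG hm
  have Av := At.mk' hG hm hv
  have hA : ∀ x, G.Adj v x → At G x := fun x hx => At.mk' hG hm (hN x hx)
  obtain ⟨A, B, q⟩ := local_qv hm hL hB hA Av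
  by_cases h1 : ∃ b ∈ B, ∀ x ∈ A, ¬ G.Adj b x
  · obtain ⟨b, hb, hb'⟩ := h1
    exact case_two hX q.swap hb (hA b ((q.nbr b).2 (Or.inr hb))) hb'
  push Not at h1
  obtain ⟨a₁, a₂, a₃, m12, m13, m23, hAe⟩ := card_eq_three.1 q.hA
  have mA : ∀ x, x ∈ A ↔ x = a₁ ∨ x = a₂ ∨ x = a₃ := by
    intro x
    rw [hAe]
    simp only [mem_insert, mem_singleton]
  have ha1 := (mA a₁).2 (Or.inl rfl)
  have ha2 := (mA a₂).2 (Or.inr (Or.inl rfl))
  have ha3 := (mA a₃).2 (Or.inr (Or.inr rfl))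
  have star : ∀ a ∈ A, ∃ b ∈ B, G.Adj a b ∧ ∀ x ∈ A, G.Adj b x → x = a := by
    intro a ha
    obtain ⟨b, hb, hb'⟩ := star_A hG hm q ha
    obtain ⟨x, hx, hbx⟩ := h1 b hb
    have := hb' x hx hbx
    subst this
    exact ⟨b, hb, hbx.symm, hb'⟩
  obtain ⟨b₁, hb1, c1, s1⟩ := star a₁ ha1
  obtain ⟨b₂, hb2, c2, s2⟩ := star a₂ ha2
  obtain ⟨b₃, hb3, c3, s3⟩ := star a₃ ha3
  have n12 : ¬ G.Adj a₁ b₂ := fun h => m12 (s2 a₁ ha1 h.symm)
  have n13 : ¬ G.Adj a₁ b₃ := fun h => m13 (s3 a₁ ha1 h.symm)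
  have n21 : ¬ G.Adj a₂ b₁ := fun h => m12 (s1 a₂ ha2 h.symm).symm
  have n23 : ¬ G.Adj a₂ b₃ := fun h => m23 (s3 a₂ ha2 h.symm)
  have n31 : ¬ G.Adj a₃ b₁ := fun h => m13 (s1 a₃ ha3 h.symm).symm
  have n32 : ¬ G.Adj a₃ b₂ := fun h => m23 (s2 a₃ ha3 h.symm).symm
  have e12 : b₁ ≠ b₂ := fun h => n12 (h ▸ c1)
  have e13 : b₁ ≠ b₃ := fun h => n13 (h ▸ c1)
  have e23 : b₂ ≠ b₃ := fun h => n23 (h ▸ c2)
  have hBe : B = {b₁, b₂, b₃} := by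
    symm
    apply eq_of_subset_of_card_le
    · intro x hx
      simp only [mem_insert, mem_singleton] at hx
      rcases hx with rfl | rfl | rfl <;> assumption
    · rw [q.hB, card_eq_three.2 ⟨b₁, b₂, b₃, e12, e13, e23, rfl⟩]
  have mB : ∀ x, x ∈ B ↔ x = b₁ ∨ x = b₂ ∨ x = b₃ := by
    intro x
    rw [hBe]
    simp only [mem_insert, mem_singleton]
  have dAB : ∀ a ∈ A, ∀ b ∈ B, a ≠ b := by
    rintro a ha b hb rfl
    exact q.disj a ha hb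
  have h : M G v a₁ a₂ a₃ b₁ b₂ b₃ :=
    ⟨(q.nbr _).2 (Or.inl ha1), (q.nbr _).2 (Or.inl ha2), (q.nbr _).2 (Or.inl ha3),
      (q.nbr _).2 (Or.inr hb1), (q.nbr _).2 (Or.inr hb2), (q.nbr _).2 (Or.inr hb3),
      q.cA _ ha1 _ ha2 m12, q.cA _ ha1 _ ha3 m13, q.cA _ ha2 _ ha3 m23,
      q.cB _ hb1 _ hb2 e12, q.cB _ hb1 _ hb3 e13, q.cB _ hb2 _ hb3 e23, c1, c2, c3, n12, n13,
      n21, n23, n31, n32, ⟨dAB _ ha1 _ hb2, dAB _ ha1 _ hb3, dAB _ ha2 _ hb1, dAB _ ha2 _ hb3,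
        dAB _ ha3 _ hb1, dAB _ ha3 _ hb2⟩, fun x hx => by
          rcases (q.nbr x).1 hx with h | h
          · rcases (mA x).1 h with h | h | h
            · exact Or.inl h
            · exact Or.inr (Or.inl h)
            · exact Or.inr (Or.inr (Or.inl h))
          · rcases (mB x).1 h with h | h | h
            · exact Or.inr (Or.inr (Or.inr (Or.inl h)))
            · exact Or.inr (Or.inr (Or.inr (Or.inr (Or.inl h))))
            · exact Or.inr (Or.inr (Or.inr (Or.inr (Or.inr h))))⟩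
  exact h.false hG hm hL hB hX hA (hC _ _ _ _ _ _ _ h)

end Pool.Agent.LD6
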