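import Pool.Agent.LD6.End4

/-!
LD6, Theorem F: adjacent vertices with exactly two common neighbours, which are adjacent (`qv_out`);
the configuration `T2` when one of the last two vertices is arbitrary (`t2_gen`).
-/

set_option autoImplicit false

namespace Pool.Agent.LD6

open Finset Pool.Agent.LG6

variable {V : Type} {G : SimpleGraph V}

/-- The three further neighbours of `g` form a triangle. -/
theorem At.rest (hL : Gl G) {g t p q : V} (Ag : At G g) (gt : G.Adj g t) (gp : G.Adj g p)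
    (gq : G.Adj g q) (tp : t ≠ p) (tq : t ≠ q) (pq : p ≠ q)
    (hout : ∀ x, G.Adj g x → G.Adj t x → x = p ∨ x = q) :
    ∃ x y z, G.Adj g x ∧ G.Adj g y ∧ G.Adj g z ∧ G.Adj x y ∧ G.Adj x z ∧ G.Adj y z ∧
      (x ≠ t ∧ y ≠ t ∧ z ≠ t) ∧ (x ≠ p ∧ y ≠ p ∧ z ≠ p) ∧ (x ≠ q ∧ y ≠ q ∧ z ≠ q) := by
  classical
  obtain ⟨N, h6, hN⟩ := Ag.nbr
  have hT : ({t, p, q} : Finset V).card = 3 := card_eq_three.2 ⟨t, p, q, tp, tq, pq, rfl⟩
  have hTN : ({t, p, q} : Finset V) ⊆ N := by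
    intro x hx
    simp only [mem_insert, mem_singleton] at hx
    rw [hN]
    rcases hx with rfl | rfl | rfl <;> assumption
  have hW : (N \ {t, p, q}).card = 3 := by
    rw [card_sdiff_of_subset hTN, h6, hT]
  obtain ⟨x, y, z, xy, xz, yz, hWe⟩ := card_eq_three.1 hW
  have hmem : ∀ u, (u = x ∨ u = y ∨ u = z) → G.Adj g u ∧ u ≠ t ∧ u ≠ p ∧ u ≠ q := by
    intro u hu
    have h1 : u ∈ N \ {t, p, q} := by
      rw [hWe]
      simp only [mem_insert, mem_singleton]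
      exact hu
    simp only [mem_sdiff, mem_insert, mem_singleton, not_or, hN] at h1
    exact ⟨h1.1, h1.2.1, h1.2.2.1, h1.2.2.2⟩
  obtain ⟨gx, x1, x2, x3⟩ := hmem x (Or.inl rfl)
  obtain ⟨gy, y1, y2, y3⟩ := hmem y (Or.inr (Or.inl rfl))
  obtain ⟨gz, z1, z2, z3⟩ := hmem z (Or.inr (Or.inr rfl))
  have key : ∀ u u', G.Adj g u → G.Adj g u' → u ≠ t → u' ≠ t → u ≠ p → u ≠ q → u' ≠ p → u' ≠ q →
      u ≠ u' → G.Adj u u' := by
    intro u u' gu gu' a1 a2 a3 a4 a5 a6 huu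
    rcases Ag.claw t u u' gt gu gu' a1.symm a2.symm huu with h | h | h
    · rcases hout u gu h with h | h
      · exact absurd h a3
      · exact absurd h a4
    · rcases hout u' gu' h with h | h
      · exact absurd h a5
      · exact absurd h a6
    · exact h
  exact ⟨x, y, z, gx, gy, gz, key x y gx gy x1 y1 x2 x3 y2 y3 xy,
    key x z gx gz x1 z1 x2 x3 z2 z3 xz, key y z gy gz y1 z1 y2 y3 z2 z3 yz, ⟨x1, y1, z1⟩,
    ⟨x2, y2, z2⟩, ⟨x3, y3, z3⟩⟩

/-- Two adjacent vertices that are centres of no claw do not have exactly two common neighbours that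
are adjacent. -/
theorem qv_out (hL : Gl G) (hX : LemX G) {g t p q : V} (Ag : At G g) (At' : At G t)
    (gt : G.Adj g t) (gp : G.Adj g p) (gq : G.Adj g q) (tp : G.Adj t p) (tq : G.Adj t q)
    (pq : G.Adj p q) (hout : ∀ x, G.Adj g x → G.Adj t x → x = p ∨ x = q) : False := by
  obtain ⟨b₁, b₂, b₃, gb1, gb2, gb3, b12, b13, b23, ⟨n1, n2, n3⟩, ⟨n4, n5, n6⟩, ⟨n7, n8, n9⟩⟩ :=
    Ag.rest hL gt gp gq tp.ne tq.ne pq.ne hout
  obtain ⟨w₁, w₂, w₃, tw1, tw2, tw3, w12, w13, w23, ⟨m1, m2, m3⟩, ⟨m4, m5, m6⟩, ⟨m7, m8, m9⟩⟩ :=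
    At'.rest hL gt.symm tp tq gp.ne gq.ne pq.ne (fun x h1 h2 => hout x h2 h1)
  have bw : ∀ b w, G.Adj g b → G.Adj t w → b ≠ p → b ≠ q → b ≠ w := by
    rintro b w h1 h2 h3 h4 rfl
    rcases hout b h1 h2 with h | h
    · exact h3 h
    · exact h4 h
  exact hX g t p q b₁ b₂ b₃ w₁ w₂ w₃ gt gp gq tp tq pq gb1 gb2 gb3 b12 b13 b23 tw1 tw2 tw3 w12 w13
    w23 ⟨n1, n4, n7⟩ ⟨n2, n5, n8⟩ ⟨n3, n6, n9⟩ ⟨m1, m4, m7⟩ ⟨m2, m5, m8⟩ ⟨m3, m6, m9⟩
    ⟨bw _ _ gb1 tw1 n4 n7, bw _ _ gb1 tw2 n4 n7, bw _ _ gb1 tw3 n4 n7⟩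
    ⟨bw _ _ gb2 tw1 n5 n8, bw _ _ gb2 tw2 n5 n8, bw _ _ gb2 tw3 n5 n8⟩
    ⟨bw _ _ gb3 tw1 n6 n9, bw _ _ gb3 tw2 n6 n9, bw _ _ gb3 tw3 n6 n9⟩

variable [DecidableEq V]

/-- As `t2_mixed`, but `b'` is arbitrary. -/
theorem t2_mixed' (hm : ¬ HasCompleteMinor 6 G) (hL : Gl G)
    {v s t a b a' b' e e' g g' : V} (Av : At G v) (As : At G s) (At' : At G t) (Aa : At G a)
    (Ab : At G b) (Aa' : At G a') (h : T2 G v s t a b a' b') (se : G.Adj s e)
    (se' : G.Adj s e') (tg : G.Adj t g) (tg' : G.Adj t g') (nte : ¬ G.Adj t e)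
    (nte' : ¬ G.Adj t e') (nsg : ¬ G.Adj s g) (nsg' : ¬ G.Adj s g') (ee : e ≠ e') (gg : g ≠ g')
    (nve : ¬ G.Adj v e) (nve' : ¬ G.Adj v e') (nvg : ¬ G.Adj v g) (nvg' : ¬ G.Adj v g')
    (ev : e ≠ v) (ev' : e' ≠ v) (gv : g ≠ v) (gv' : g' ≠ v) (ae : G.Adj a e) (ag : G.Adj a g)
    (be' : G.Adj b e') (bg' : G.Adj b g') : False := by
  obtain ⟨vs, vt, va, vb, va', vb', st, sa, sb, ta, tb, aa', bb', ab', nsa, nsb, nta, ntb, nab,
    nab', nba', m1, m2, m3, m4, m5, m6, m7⟩ := h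
  have sym := hL.sym
  have irr := hL.irr
  have ndist : ∀ x y z, G.Adj x y → ¬ G.Adj x z → y ≠ z := fun x y z h h' e => h' (e ▸ h)
  have es : e ≠ s := se.ne.symm
  have es' : e' ≠ s := se'.ne.symm
  have et : e ≠ t := (ndist v t e vt nve).symm
  have et' : e' ≠ t := (ndist v t e' vt nve').symm
  have gs : g ≠ s := (ndist v s g vs nvg).symm
  have gs' : g' ≠ s := (ndist v s g' vs nvg').symm
  have gt : g ≠ t := tg.ne.symm
  have gt' : g' ≠ t := tg'.ne.symm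
  have eg : e ≠ g := ndist s e g se nsg
  have eg' : e ≠ g' := ndist s e g' se nsg'
  have e'g : e' ≠ g := ndist s e' g se' nsg
  have e'g' : e' ≠ g' := ndist s e' g' se' nsg'
  have ea' : e ≠ a' := (ndist v a' e va' nve).symm
  have eb' : e ≠ b' := (ndist v b' e vb' nve).symm
  have e'a' : e' ≠ a' := (ndist v a' e' va' nve').symm
  have e'b' : e' ≠ b' := (ndist v b' e' vb' nve').symm
  have ga' : g ≠ a' := (ndist v a' g va' nvg).symm
  have gb' : g ≠ b' := (ndist v b' g vb' nvg).symm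
  have g'a' : g' ≠ a' := (ndist v a' g' va' nvg').symm
  have g'b' : g' ≠ b' := (ndist v b' g' vb' nvg').symm
  have ea : e ≠ a := ae.ne.symm
  have ga : g ≠ a := ag.ne.symm
  have e'b : e' ≠ b := be'.ne.symm
  have g'b : g' ≠ b := bg'.ne.symm
  have eb : e ≠ b := (ndist v b e vb nve).symm
  have gb : g ≠ b := (ndist v b g vb nvg).symm
  have e'a : e' ≠ a := (ndist v a e' va nve').symm
  have g'a : g' ≠ a := (ndist v a g' va nvg').symm
  have Na := Aa.all va.symm sa.symm ta.symm aa' ae ag (by and_intros <;> grind)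
  have Nb := Ab.all vb.symm sb.symm tb.symm bb' be' bg' (by and_intros <;> grind)
  have hee : G.Adj e e' := by
    have := As.claw v e e' vs.symm se se' (by grind) (by grind) ee
    grind
  have hgg : G.Adj g g' := by
    have := At'.claw v g g' vt.symm tg tg' (by grind) (by grind) gg
    grind
  have heg : G.Adj e g := by
    have := Aa.claw v e g va.symm ae ag (by grind) (by grind) eg
    grind
  have hea : G.Adj a' e := by
    have := Aa.claw t a' e ta.symm aa' ae (by grind) (by grind) (by grind)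
    grind
  have hga : G.Adj a' g := by
    have := Aa.claw s a' g sa.symm aa' ag (by grind) (by grind) (by grind)
    grind
  have heg' : G.Adj e' g' := by
    have := Ab.claw v e' g' vb.symm be' bg' (by grind) (by grind) e'g'
    grind
  have heb : G.Adj b' e' := by
    have := Ab.claw t b' e' tb.symm bb' be' (by grind) (by grind) (by grind)
    grind
  have hgb : G.Adj b' g' := by
    have := Ab.claw s b' g' sb.symm bb' bg' (by grind) (by grind) (by grind)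
    grind
  obtain ⟨z, az, zv, za, zb', ze, zg, Na'⟩ :=
    Aa'.more5 va'.symm aa'.symm ab' hea hga (by and_intros <;> grind)
  have Nv := Av.all vs vt va vb va' vb' (by and_intros <;> grind)
  have nvz : ¬ G.Adj v z := by grind
  have hez : G.Adj e z := by
    have := Aa'.claw v e z va'.symm hea az (by grind) (by grind) (by grind)
    grind
  have hgz : G.Adj g z := by
    have := Aa'.claw v g z va'.symm hga az (by grind) (by grind) (by grind)
    grind
  have naz : ¬ G.Adj a z := by grind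
  have hbz : G.Adj b' z := by
    have := Aa'.claw a b' z aa'.symm ab' az (by grind) (by grind) (by grind)
    grind
  by_cases ze' : z = e'
  · subst ze'
    refine model hm vs vt va st sa ta {x | x = b ∨ x = z ∨ x = a'}
      {x | x = b' ∨ x = g' ∨ x = g ∨ x = e} (path3 G be' az.symm)
      (path4 G hgb hgg.symm heg.symm) ?_ ?_ ?_ ⟨b, Or.inl rfl, b', Or.inl rfl, bb'⟩
      ⟨b, Or.inl rfl, vb⟩ ⟨b, Or.inl rfl, sb⟩ ⟨b, Or.inl rfl, tb⟩
      ⟨a', Or.inr (Or.inr rfl), aa'⟩ ⟨b', Or.inl rfl, vb'⟩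
      ⟨e, Or.inr (Or.inr (Or.inr rfl)), se⟩ ⟨g, Or.inr (Or.inr (Or.inl rfl)), tg⟩
      ⟨g, Or.inr (Or.inr (Or.inl rfl)), ag⟩
    · simp only [Set.mem_ofPred_eq]
      and_intros <;> grind
    · simp only [Set.mem_ofPred_eq]
      and_intros <;> grind
    · simp only [Set.mem_ofPred_eq]
      rintro x (rfl | rfl | rfl)
      all_goals grind
  by_cases zg' : z = g'
  · subst zg'
    refine model hm vs vt va st sa ta {x | x = b ∨ x = z ∨ x = a'}
      {x | x = b' ∨ x = e' ∨ x = e ∨ x = g} (path3 G bg' az.symm)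
      (path4 G heb hee.symm heg) ?_ ?_ ?_ ⟨b, Or.inl rfl, b', Or.inl rfl, bb'⟩
      ⟨b, Or.inl rfl, vb⟩ ⟨b, Or.inl rfl, sb⟩ ⟨b, Or.inl rfl, tb⟩
      ⟨a', Or.inr (Or.inr rfl), aa'⟩ ⟨b', Or.inl rfl, vb'⟩
      ⟨e, Or.inr (Or.inr (Or.inl rfl)), se⟩ ⟨g, Or.inr (Or.inr (Or.inr rfl)), tg⟩
      ⟨g, Or.inr (Or.inr (Or.inr rfl)), ag⟩
    · simp only [Set.mem_ofPred_eq]
      and_intros <;> grind
    · simp only [Set.mem_ofPred_eq]
      and_intros <;> grind
    · simp only [Set.mem_ofPred_eq]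
      rintro x (rfl | rfl | rfl)
      all_goals grind
  -- `K = {v,s,t,b}`, `P = {a, e, z, b'}`, `Q = {a', g, g', e'}`
  refine model hm vs vt vb st sb tb {x | x = a ∨ x = e ∨ x = z ∨ x = b'}
    {x | x = a' ∨ x = g ∨ x = g' ∨ x = e'} (path4 G ae hez hbz.symm)
    (path4 G hga hgg heg'.symm) ?_ ?_ ?_ ⟨a, Or.inl rfl, a', Or.inl rfl, aa'⟩
    ⟨a, Or.inl rfl, va⟩ ⟨a, Or.inl rfl, sa⟩ ⟨a, Or.inl rfl, ta⟩
    ⟨b', Or.inr (Or.inr (Or.inr rfl)), bb'⟩ ⟨a', Or.inl rfl, va'⟩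
    ⟨e', Or.inr (Or.inr (Or.inr rfl)), se'⟩ ⟨g, Or.inr (Or.inl rfl), tg⟩
    ⟨g', Or.inr (Or.inr (Or.inl rfl)), bg'⟩
  · simp only [Set.mem_ofPred_eq]
    and_intros <;> grind
  · simp only [Set.mem_ofPred_eq]
    and_intros <;> grind
  · simp only [Set.mem_ofPred_eq]
    rintro x (rfl | rfl | rfl | rfl)
    all_goals grind

/-- The configuration `T2` does not occur when `v, s, t, a, b, a'` are centres of no claw. -/
theorem t2_gen (hm : ¬ HasCompleteMinor 6 G) (hL : Gl G) (hB : LemB G)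
    {v s t a b a' b' : V} (Av : At G v) (As : At G s) (At' : At G t) (Aa : At G a)
    (Ab : At G b) (Aa' : At G a') (h : T2 G v s t a b a' b') : False := by
  have h' := h
  obtain ⟨vs, vt, va, vb, va', vb', st, sa, sb, ta, tb, aa', bb', ab', nsa, nsb, nta, ntb, nab,
    nab', nba', m1, m2, m3, m4, m5, m6, m7⟩ := h'
  have sym := hL.sym
  have irr := hL.irr
  have Nv := Av.all vs vt va vb va' vb' (by and_intros <;> grind)
  obtain ⟨e, e', se, se', ee, ⟨ev, et, ea, eb⟩, ⟨ev', et', ea', eb'⟩, Ns⟩ :=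
    As.more4 vs.symm st sa sb (by and_intros <;> grind)
  obtain ⟨g, g', tg, tg', gg, ⟨gv, gs, ga, gb⟩, ⟨gv', gs', ga', gb'⟩, Nt⟩ :=
    At'.more4 vt.symm st.symm ta tb (by and_intros <;> grind)
  have nve : ¬ G.Adj v e := by grind
  have nve' : ¬ G.Adj v e' := by grind
  have nvg : ¬ G.Adj v g := by grind
  have nvg' : ¬ G.Adj v g' := by grind
  have nte : ¬ G.Adj t e := fun h1 => t2_nocommon hL hB Aa' h se h1 nve ev
  have nte' : ¬ G.Adj t e' := fun h1 => t2_nocommon hL hB Aa' h se' h1 nve' ev'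
  have nsg : ¬ G.Adj s g := fun h1 => t2_nocommon hL hB Aa' h h1 tg nvg gv
  have nsg' : ¬ G.Adj s g' := fun h1 => t2_nocommon hL hB Aa' h h1 tg' nvg' gv'
  have k1 := fun h1 => t2_same hL As Aa h se se' ee nve nve' ev ev' nte nte' h1
  have k2 := fun h1 => t2_same hL As Ab h.rev se se' ee nve nve' ev ev' nte nte' h1
  have k3 := fun h1 => t2_same hL At' Aa h.swap tg tg' gg nvg nvg' gv gv' nsg nsg' h1
  have k4 := fun h1 => t2_same hL At' Ab h.rev.swap tg tg' gg nvg nvg' gv gv' nsg nsg' h1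
  have c1 : G.Adj a e ∨ G.Adj b e := by
    have := As.claw a b e sa sb se m5 (by grind) (by grind)
    grind
  have c2 : G.Adj a e' ∨ G.Adj b e' := by
    have := As.claw a b e' sa sb se' m5 (by grind) (by grind)
    grind
  have c3 : G.Adj a g ∨ G.Adj b g := by
    have := At'.claw a b g ta tb tg m5 (by grind) (by grind)
    grind
  have c4 : G.Adj a g' ∨ G.Adj b g' := by
    have := At'.claw a b g' ta tb tg' m5 (by grind) (by grind)
    grind
  have d1 : (G.Adj a e ∧ G.Adj b e') ∨ (G.Adj a e' ∧ G.Adj b e) := by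
    rcases c1 with h1 | h1 <;> rcases c2 with h2 | h2
    · exact (k1 h1 h2).elim
    · exact Or.inl ⟨h1, h2⟩
    · exact Or.inr ⟨h2, h1⟩
    · exact (k2 h1 h2).elim
  have d2 : (G.Adj a g ∧ G.Adj b g') ∨ (G.Adj a g' ∧ G.Adj b g) := by
    rcases c3 with h1 | h1 <;> rcases c4 with h2 | h2
    · exact (k3 h1 h2).elim
    · exact Or.inl ⟨h1, h2⟩
    · exact Or.inr ⟨h2, h1⟩
    · exact (k4 h1 h2).elim
  rcases d1 with ⟨p1, p2⟩ | ⟨p1, p2⟩ <;> rcases d2 with ⟨p3, p4⟩ | ⟨p3, p4⟩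
  · exact t2_mixed' hm hL Av As At' Aa Ab Aa' h se se' tg tg' nte nte' nsg nsg' ee gg nve nve'
      nvg nvg' ev ev' gv gv' p1 p3 p2 p4
  · exact t2_mixed' hm hL Av As At' Aa Ab Aa' h se se' tg' tg nte nte' nsg' nsg ee gg.symm nve
      nve' nvg' nvg ev ev' gv' gv p1 p3 p2 p4
  · exact t2_mixed' hm hL Av As At' Aa Ab Aa' h se' se tg tg' nte' nte nsg nsg' ee.symm gg nve'
      nve nvg nvg' ev' ev gv gv' p1 p3 p2 p4
  · exact t2_mixed' hm hL Av As At' Aa Ab Aa' h se' se tg' tg nte' nte nsg' nsg ee.symm gg.symm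
      nve' nve nvg' nvg ev' ev gv' gv p1 p3 p2 p4

end Pool.Agent.LD6
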