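import Pool.Agent.LD6.F1

/-!
LD6, Theorem F: the configuration `T2` near an isolated claw centre `w` (`w = a` and `w = s`).
-/

set_option autoImplicit false

namespace Pool.Agent.LD6

open Finset Pool.Agent.LG6

variable {V : Type} {G : SimpleGraph V}

theorem At.cl {v : V} (L : At G v) {a b c : V} (ha : G.Adj v a) (hb : G.Adj v b)
    (hc : G.Adj v c) (hab : a ≠ b) (hac : a ≠ c) (hbc : b ≠ c) (n1 : ¬ G.Adj a b)
    (n2 : ¬ G.Adj a c) : G.Adj b c := by
  rcases L.claw a b c ha hb hc hab hac hbc with h | h | h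
  · exact absurd h n1
  · exact absurd h n2
  · exact h

/-- `w = a`: not both outside neighbours of `t` are adjacent to `a`. -/
theorem t2_both (hL : Gl G) (hX : LemX G) {v s t a b a' b' g g' : V}
    (At' : At G t) (Ag : At G g) (h : T2 G v s t a b a' b') (tg : G.Adj t g)
    (tg' : G.Adj t g') (nsg : ¬ G.Adj s g) (gg : G.Adj g g')
    (nvg : ¬ G.Adj v g) (gv : g ≠ v) (gv' : g' ≠ v)
    (gs : g ≠ s) (gs' : g' ≠ s) (ag : G.Adj a g) (ag' : G.Adj a g')
    (nbg : ¬ G.Adj b g) (bg : g ≠ b) (bg' : g' ≠ b) : False := by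
  obtain ⟨vs, vt, va, vb, va', vb', st, sa, sb, ta, tb, aa', bb', ab', nsa, nsb, nta, ntb, nab,
    nab', nba', m1, m2, m3, m4, m5, m6, m7⟩ := h
  have sym := hL.sym
  have irr := hL.irr
  have Nt := At'.all vt.symm st.symm ta tb tg tg' (by and_intros <;> grind)
  refine qv_out hL hX Ag At' tg.symm ag.symm gg ta tg' ag' ?_
  intro x hgx htx
  have := Nt x htx
  grind

variable [DecidableEq V]

/-- `w = a`: the final model. -/
theorem t2_beta_core (hm : ¬ HasCompleteMinor 6 G) (hL : Gl G) (hB : LemB G)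
    {v s t a b a' b' e e' g g' : V} (Av : At G v) (As : At G s) (At' : At G t)
    (Ab : At G b) (Ab' : At G b') (Ae : At G e) (Ae' : At G e') (Ag : At G g) (Ag' : At G g')
    (hz : ∀ z, G.Adj a' z → z ≠ a → At G z)
    (h : T2 G v s t a b a' b') (se : G.Adj s e)
    (se' : G.Adj s e') (tg : G.Adj t g) (tg' : G.Adj t g') (nte : ¬ G.Adj t e)
    (nte' : ¬ G.Adj t e') (nsg : ¬ G.Adj s g) (nsg' : ¬ G.Adj s g') (ee : e ≠ e') (gg : g ≠ g')
    (nve : ¬ G.Adj v e) (nve' : ¬ G.Adj v e') (nvg : ¬ G.Adj v g) (nvg' : ¬ G.Adj v g')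
    (ev : e ≠ v) (ev' : e' ≠ v) (gv : g ≠ v) (gv' : g' ≠ v) (ae : G.Adj a e) (ag : G.Adj a g)
    (be' : G.Adj b e') (bg' : G.Adj b g') (nbe : ¬ G.Adj b e) (nbg : ¬ G.Adj b g)
    (nae' : ¬ G.Adj a e') (nag' : ¬ G.Adj a g') : False := by
  obtain ⟨vs, vt, va, vb, va', vb', st, sa, sb, ta, tb, aa', bb', ab', nsa, nsb, nta, ntb, nab,
    nab', nba', m1, m2, m3, m4, m5, m6, m7⟩ := h
  have sym := hL.sym
  have irr := hL.irr
  have ndist : ∀ x y z, G.Adj x y → ¬ G.Adj x z → y ≠ z := fun x y z h h' e => h' (e ▸ h)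
  have es : e ≠ s := se.ne.symm
  have es' : e' ≠ s := se'.ne.symm
  have et : e ≠ t := (ndist v t e vt nve).symm
  have et' : e' ≠ t := (ndist v t e' vt nve').symm
  have gs : g ≠ s := (ndist v s g vs nvg).symm
  have gs' : g' ≠ s := (ndist v s g' vs nvg').symm
  have gt : g ≠ t := tg.ne.symm
  have gt' : g' ≠ t := tg'.ne.symm
  have eg : e ≠ g := ndist s e g se nsg
  have eg' : e ≠ g' := ndist s e g' se nsg'
  have e'g : e' ≠ g := ndist s e' g se' nsg
  have e'g' : e' ≠ g' := ndist s e' g' se' nsg'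
  have ea' : e ≠ a' := (ndist v a' e va' nve).symm
  have eb' : e ≠ b' := (ndist v b' e vb' nve).symm
  have e'a' : e' ≠ a' := (ndist v a' e' va' nve').symm
  have e'b' : e' ≠ b' := (ndist v b' e' vb' nve').symm
  have ga' : g ≠ a' := (ndist v a' g va' nvg).symm
  have gb' : g ≠ b' := (ndist v b' g vb' nvg).symm
  have g'a' : g' ≠ a' := (ndist v a' g' va' nvg').symm
  have g'b' : g' ≠ b' := (ndist v b' g' vb' nvg').symm
  have ea : e ≠ a := ae.ne.symm
  have ga : g ≠ a := ag.ne.symm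
  have e'b : e' ≠ b := be'.ne.symm
  have g'b : g' ≠ b := bg'.ne.symm
  have eb : e ≠ b := (ndist v b e vb nve).symm
  have gb : g ≠ b := (ndist v b g vb nvg).symm
  have e'a : e' ≠ a := (ndist v a e' va nve').symm
  have g'a : g' ≠ a := (ndist v a g' va nvg').symm
  have hee : G.Adj e e' := As.cl vs.symm se se' ev.symm ev'.symm ee nve nve'
  have hgg : G.Adj g g' := At'.cl vt.symm tg tg' gv.symm gv'.symm gg nvg nvg'
  have heg' : G.Adj e' g' := Ab.cl vb.symm be' bg' ev'.symm gv'.symm e'g' nve' nvg'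
  have heb : G.Adj b' e' := Ab.cl tb.symm bb' be' m4 et'.symm e'b'.symm ntb nte'
  have hgb : G.Adj b' g' := Ab.cl sb.symm bb' bg' m2 gs'.symm g'b'.symm nsb nsg'
  have Nb := Ab.all vb.symm sb.symm tb.symm bb' be' bg' (by and_intros <;> grind)
  obtain ⟨z, bz, zv, zb, za', ze, zg, Nb'⟩ :=
    Ab'.more5 vb'.symm bb'.symm ab'.symm heb hgb (by and_intros <;> grind)
  have zs : z ≠ s := fun h => nsb (h ▸ bz).symm
  have zt : z ≠ t := fun h => ntb (h ▸ bz).symm
  have za : z ≠ a := fun h => nab' (h ▸ bz).symm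
  have zb' : z ≠ b' := bz.ne.symm
  have Nv := Av.all vs vt va vb va' vb' (by and_intros <;> grind)
  have nvz : ¬ G.Adj v z := by
    intro h
    rcases Nv z h with h | h | h | h | h | h
    · exact zs h
    · exact zt h
    · exact za h
    · exact zb h
    · exact za' h
    · exact zb' h
  have nbz : ¬ G.Adj b z := by
    intro h
    rcases Nb z h with h | h | h | h | h | h
    · exact zv h
    · exact zs h
    · exact zt h
    · exact zb' h
    · exact ze h
    · exact zg h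
  have hez : G.Adj e' z := Ab'.cl vb'.symm heb bz ev'.symm zv.symm ze.symm nve' nvz
  have hgz : G.Adj g' z := Ab'.cl vb'.symm hgb bz gv'.symm zv.symm zg.symm nvg' nvz
  have haz : G.Adj a' z := Ab'.cl bb'.symm ab'.symm bz m7 zb.symm za'.symm nba' nbz
  have Az := hz z haz za
  have nb'e : z ≠ e → ¬ G.Adj b' e := by
    intro hze h
    rcases Nb' e h with h | h | h | h | h | h
    · exact ev h
    · exact eb h
    · exact ea' h
    · exact ee h
    · exact eg' h
    · exact hze h.symm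
  have nb'g : z ≠ g → ¬ G.Adj b' g := by
    intro hze h
    rcases Nb' g h with h | h | h | h | h | h
    · exact gv h
    · exact gb h
    · exact ga' h
    · exact e'g h.symm
    · exact gg h
    · exact hze h.symm
  by_cases ze' : z = e
  · subst ze'
    exfalso
    have Ne := Ae.all se.symm ae.symm hee haz.symm bz.symm hgz.symm (by and_intros <;> grind)
    have h1 := Ag'.cl bg'.symm hgg.symm hgz gb.symm zb.symm eg.symm nbg nbz
    rcases Ne g h1.symm with h | h | h | h | h | h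
    · exact gs h
    · exact ga h
    · exact e'g h.symm
    · exact ga' h
    · exact gb' h
    · exact gg h
  by_cases zg' : z = g
  · subst zg'
    exfalso
    have Ng := Ag.all tg.symm ag.symm hgg haz.symm bz.symm hez.symm (by and_intros <;> grind)
    have h1 := Ae'.cl be'.symm hee.symm hez eb.symm zb.symm eg nbe nbz
    rcases Ng e h1.symm with h | h | h | h | h | h
    · exact et h
    · exact ea h
    · exact eg' h
    · exact ea' h
    · exact eb' h
    · exact ee h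
  have hEz : G.Adj e z :=
    Ae'.cl be'.symm hee.symm hez eb.symm zb.symm (Ne.symm ze') nbe nbz
  have hGz : G.Adj g z :=
    Ag'.cl bg'.symm hgg.symm hgz gb.symm zb.symm (Ne.symm zg') nbg nbz
  have heg : G.Adj e g :=
    Az.cl bz.symm hEz.symm hGz.symm eb'.symm gb'.symm eg (nb'e ze') (nb'g zg')
  clear Nb Nb' Nv
  refine model hm vs vt va st sa ta {x | x = b ∨ x = e' ∨ x = z ∨ x = a'}
    {x | x = b' ∨ x = g' ∨ x = g ∨ x = e} (path4 G be' hez haz.symm)
    (path4 G hgb hgg.symm heg.symm) ?_ ?_ ?_ ⟨b, Or.inl rfl, b', Or.inl rfl, bb'⟩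
    ⟨b, Or.inl rfl, vb⟩ ⟨b, Or.inl rfl, sb⟩ ⟨b, Or.inl rfl, tb⟩
    ⟨a', Or.inr (Or.inr (Or.inr rfl)), aa'⟩ ⟨b', Or.inl rfl, vb'⟩
    ⟨e, Or.inr (Or.inr (Or.inr rfl)), se⟩ ⟨g, Or.inr (Or.inr (Or.inl rfl)), tg⟩
    ⟨g, Or.inr (Or.inr (Or.inl rfl)), ag⟩
  · simp only [Set.mem_ofPred_eq]
    and_intros <;> grind
  · simp only [Set.mem_ofPred_eq]
    and_intros <;> grind
  · simp only [Set.mem_ofPred_eq]
    rintro x (rfl | rfl | rfl | rfl)
    all_goals grind

/-- `T2` with `w = a`. -/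
theorem t2_beta (hm : ¬ HasCompleteMinor 6 G) (hL : Gl G) (hB : LemB G) (hX : LemX G)
    {v s t a b a' b' : V} (h : T2 G v s t a b a' b') (h1 : ∀ x, G.Adj a x → At G x)
    (h2 : ∀ x y, G.Adj a x → G.Adj x y → y ≠ a → At G y) : False := by
  have h' := h
  obtain ⟨vs, vt, va, vb, va', vb', st, sa, sb, ta, tb, aa', bb', ab', nsa, nsb, nta, ntb, nab,
    nab', nba', m1, m2, m3, m4, m5, m6, m7⟩ := h'
  have sym := hL.sym
  have irr := hL.irr
  have Av := h1 v va.symm
  have As := h1 s sa.symm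
  have At' := h1 t ta.symm
  have Aa' := h1 a' aa'
  have Ab := h2 v b va.symm vb m5.symm
  have Ab' := h2 v b' va.symm vb' m6.symm
  have Nv := Av.all vs vt va vb va' vb' (by and_intros <;> grind)
  obtain ⟨e, e', se, se', ee, ⟨ev, et, ea, eb⟩, ⟨ev', et', ea', eb'⟩, Ns⟩ :=
    As.more4 vs.symm st sa sb (by and_intros <;> grind)
  obtain ⟨g, g', tg, tg', gg, ⟨gv, gs, ga, gb⟩, ⟨gv', gs', ga', gb'⟩, Nt⟩ :=
    At'.more4 vt.symm st.symm ta tb (by and_intros <;> grind)
  have nve : ¬ G.Adj v e := by grind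
  have nve' : ¬ G.Adj v e' := by grind
  have nvg : ¬ G.Adj v g := by grind
  have nvg' : ¬ G.Adj v g' := by grind
  have nte : ¬ G.Adj t e := fun h1 => t2_nocommon hL hB Aa' h se h1 nve ev
  have nte' : ¬ G.Adj t e' := fun h1 => t2_nocommon hL hB Aa' h se' h1 nve' ev'
  have nsg : ¬ G.Adj s g := fun h1 => t2_nocommon hL hB Aa' h h1 tg nvg gv
  have nsg' : ¬ G.Adj s g' := fun h1 => t2_nocommon hL hB Aa' h h1 tg' nvg' gv'
  have hee : G.Adj e e' := by
    have := As.claw v e e' vs.symm se se' (by grind) (by grind) ee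
    grind
  have hgg : G.Adj g g' := by
    have := At'.claw v g g' vt.symm tg tg' (by grind) (by grind) gg
    grind
  have Ae := h2 s e sa.symm se ea
  have Ae' := h2 s e' sa.symm se' ea'
  have Ag := h2 t g ta.symm tg ga
  have Ag' := h2 t g' ta.symm tg' ga'
  have k2 := fun h1 => t2_same hL As Ab h.rev se se' ee nve nve' ev ev' nte nte' h1
  have k4 := fun h1 => t2_same hL At' Ab h.rev.swap tg tg' gg nvg nvg' gv gv' nsg nsg' h1
  have k1 : G.Adj a e → G.Adj a e' → False := by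
    intro q1 q2
    by_cases q3 : G.Adj b e
    · have q4 : ¬ G.Adj b e' := fun q4 => k2 q3 q4
      exact t2_both hL hX As Ae' h.swap se' se nte' hee.symm nve' ev' ev et' et q2 q1 q4 eb' eb
    · exact t2_both hL hX As Ae h.swap se se' nte hee nve ev ev' et et' q1 q2 q3 eb eb'
  have k3 : G.Adj a g → G.Adj a g' → False := by
    intro q1 q2
    by_cases q3 : G.Adj b g
    · have q4 : ¬ G.Adj b g' := fun q4 => k4 q3 q4
      exact t2_both hL hX At' Ag' h tg' tg nsg' hgg.symm nvg' gv' gv gs' gs q2 q1 q4 gb' gb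
    · exact t2_both hL hX At' Ag h tg tg' nsg hgg nvg gv gv' gs gs' q1 q2 q3 gb gb'
  have c1 : G.Adj a e ∨ G.Adj b e := by
    have := As.claw a b e sa sb se m5 (by grind) (by grind)
    grind
  have c2 : G.Adj a e' ∨ G.Adj b e' := by
    have := As.claw a b e' sa sb se' m5 (by grind) (by grind)
    grind
  have c3 : G.Adj a g ∨ G.Adj b g := by
    have := At'.claw a b g ta tb tg m5 (by grind) (by grind)
    grind
  have c4 : G.Adj a g' ∨ G.Adj b g' := by
    have := At'.claw a b g' ta tb tg' m5 (by grind) (by grind)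
    grind
  have d1 : (G.Adj a e ∧ G.Adj b e' ∧ ¬ G.Adj b e ∧ ¬ G.Adj a e') ∨
      (G.Adj a e' ∧ G.Adj b e ∧ ¬ G.Adj b e' ∧ ¬ G.Adj a e) := by
    grind
  have d2 : (G.Adj a g ∧ G.Adj b g' ∧ ¬ G.Adj b g ∧ ¬ G.Adj a g') ∨
      (G.Adj a g' ∧ G.Adj b g ∧ ¬ G.Adj b g' ∧ ¬ G.Adj a g) := by
    grind
  have hz : ∀ z, G.Adj a' z → z ≠ a → At G z := fun z hz hza => h2 a' z aa' hz hza
  rcases d1 with ⟨p1, p2, p3, p4⟩ | ⟨p1, p2, p3, p4⟩ <;>
    rcases d2 with ⟨q1, q2, q3, q4⟩ | ⟨q1, q2, q3, q4⟩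
  · exact t2_beta_core hm hL hB Av As At' Ab Ab' Ae Ae' Ag Ag' hz h se se' tg tg' nte nte' nsg
      nsg' ee gg nve nve' nvg nvg' ev ev' gv gv' p1 q1 p2 q2 p3 q3 p4 q4
  · exact t2_beta_core hm hL hB Av As At' Ab Ab' Ae Ae' Ag' Ag hz h se se' tg' tg nte nte' nsg'
      nsg ee gg.symm nve nve' nvg' nvg ev ev' gv' gv p1 q1 p2 q2 p3 q3 p4 q4
  · exact t2_beta_core hm hL hB Av As At' Ab Ab' Ae' Ae Ag Ag' hz h se' se tg tg' nte' nte nsg
      nsg' ee.symm gg nve' nve nvg nvg' ev' ev gv gv' p1 q1 p2 q2 p3 q3 p4 q4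
  · exact t2_beta_core hm hL hB Av As At' Ab Ab' Ae' Ae Ag' Ag hz h se' se tg' tg nte' nte nsg'
      nsg ee.symm gg.symm nve' nve nvg' nvg ev' ev gv' gv p1 q1 p2 q2 p3 q3 p4 q4

/-- `w = s`: the final model. -/
theorem t2_alpha_core (hm : ¬ HasCompleteMinor 6 G) (hL : Gl G) (hX : LemX G)
    {v s t a b a' b' g g' : V} (Av : At G v) (At' : At G t) (Aa : At G a)
    (Ab : At G b) (Aa' : At G a') (Ab' : At G b')
    (h2 : ∀ x y, G.Adj s x → G.Adj x y → y ≠ s → At G y)
    (h : T2 G v s t a b a' b') (tg : G.Adj t g) (tg' : G.Adj t g')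
    (nsg : ¬ G.Adj s g) (nsg' : ¬ G.Adj s g') (gg : g ≠ g')
    (nvg : ¬ G.Adj v g) (nvg' : ¬ G.Adj v g')
    (gv : g ≠ v) (gv' : g' ≠ v) (ag : G.Adj a g)
    (bg' : G.Adj b g') (nbg : ¬ G.Adj b g)
    (nag' : ¬ G.Adj a g') : False := by
  obtain ⟨vs, vt, va, vb, va', vb', st, sa, sb, ta, tb, aa', bb', ab', nsa, nsb, nta, ntb, nab,
    nab', nba', m1, m2, m3, m4, m5, m6, m7⟩ := h
  have sym := hL.sym
  have irr := hL.irr
  have ndist : ∀ x y z, G.Adj x y → ¬ G.Adj x z → y ≠ z := fun x y z h h' e => h' (e ▸ h)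
  have gs : g ≠ s := (ndist v s g vs nvg).symm
  have gs' : g' ≠ s := (ndist v s g' vs nvg').symm
  have gt : g ≠ t := tg.ne.symm
  have gt' : g' ≠ t := tg'.ne.symm
  have ga' : g ≠ a' := (ndist v a' g va' nvg).symm
  have gb' : g ≠ b' := (ndist v b' g vb' nvg).symm
  have g'a' : g' ≠ a' := (ndist v a' g' va' nvg').symm
  have g'b' : g' ≠ b' := (ndist v b' g' vb' nvg').symm
  have ga : g ≠ a := ag.ne.symm
  have g'b : g' ≠ b := bg'.ne.symm
  have gb : g ≠ b := (ndist v b g vb nvg).symm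
  have g'a : g' ≠ a := (ndist v a g' va nvg').symm
  have Nv := Av.all vs vt va vb va' vb' (by and_intros <;> grind)
  have Nt := At'.all vt.symm st.symm ta tb tg tg' (by and_intros <;> grind)
  have hgg : G.Adj g g' := At'.cl vt.symm tg tg' gv.symm gv'.symm gg nvg nvg'
  obtain ⟨x, ax, xv, xs, xt, xa', xg, Na⟩ :=
    Aa.more5 va.symm sa.symm ta.symm aa' ag (by and_intros <;> grind)
  obtain ⟨y, bY, yv, ys, yt, yb', yg, Nb⟩ :=
    Ab.more5 vb.symm sb.symm tb.symm bb' bg' (by and_intros <;> grind)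
  have xa : x ≠ a := ax.ne.symm
  have yb : y ≠ b := bY.ne.symm
  have xb : x ≠ b := fun h => nab (h ▸ ax)
  have xb' : x ≠ b' := fun h => nab' (h ▸ ax)
  have xg' : x ≠ g' := fun h => nag' (h ▸ ax)
  have ya : y ≠ a := fun h => nab (h ▸ bY).symm
  have ya' : y ≠ a' := fun h => nba' (h ▸ bY)
  have yg' : y ≠ g := fun h => nbg (h ▸ bY)
  have nvx : ¬ G.Adj v x := by
    intro h
    rcases Nv x h with h | h | h | h | h | h
    · exact xs h
    · exact xt h
    · exact xa h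
    · exact xb h
    · exact xa' h
    · exact xb' h
  have ntx : ¬ G.Adj t x := by
    intro h
    rcases Nt x h with h | h | h | h | h | h
    · exact xv h
    · exact xs h
    · exact xa h
    · exact xb h
    · exact xg h
    · exact xg' h
  have nvy : ¬ G.Adj v y := by
    intro h
    rcases Nv y h with h | h | h | h | h | h
    · exact ys h
    · exact yt h
    · exact ya h
    · exact yb h
    · exact ya' h
    · exact yb' h
  have nty : ¬ G.Adj t y := by
    intro h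
    rcases Nt y h with h | h | h | h | h | h
    · exact yv h
    · exact ys h
    · exact ya h
    · exact yb h
    · exact yg' h
    · exact yg h
  have hgx : G.Adj g x := Aa.cl va.symm ag ax gv.symm xv.symm xg.symm nvg nvx
  have hga : G.Adj a' g := Aa.cl sa.symm aa' ag m1 gs.symm ga'.symm nsa nsg
  have hxa : G.Adj a' x := Aa.cl ta.symm aa' ax m3 xt.symm xa'.symm nta ntx
  have hgy : G.Adj g' y := Ab.cl vb.symm bg' bY gv'.symm yv.symm yg.symm nvg' nvy
  have hgb : G.Adj b' g' := Ab.cl sb.symm bb' bg' m2 gs'.symm g'b'.symm nsb nsg'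
  have hyb : G.Adj b' y := Ab.cl tb.symm bb' bY m4 yt.symm yb'.symm ntb nty
  have Ax := h2 a x sa ax xs
  have Ay := h2 b y sb bY ys
  have hsx : G.Adj s x := by
    by_contra hno
    refine qv_out hL hX Aa Ax ax aa' ag hxa.symm hgx.symm hga ?_
    intro u hu hxu
    rcases Na u hu with rfl | rfl | rfl | rfl | rfl | rfl
    · exact absurd hxu.symm nvx
    · exact absurd hxu.symm hno
    · exact absurd hxu.symm ntx
    · exact Or.inl rfl
    · exact Or.inr rfl
    · exact absurd hxu (irr _)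
  have hsy : G.Adj s y := by
    by_contra hno
    refine qv_out hL hX Ab Ay bY bb' bg' hyb.symm hgy.symm hgb ?_
    intro u hu hyu
    rcases Nb u hu with rfl | rfl | rfl | rfl | rfl | rfl
    · exact absurd hyu.symm nvy
    · exact absurd hyu.symm hno
    · exact absurd hyu.symm nty
    · exact Or.inl rfl
    · exact Or.inr rfl
    · exact absurd hyu (irr _)
  obtain ⟨z, az, zv, za, zb', zg, zx, Na'⟩ :=
    Aa'.more5 va'.symm aa'.symm ab' hga hxa (by and_intros <;> grind)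
  have zs : z ≠ s := fun h => nsa (h ▸ az).symm
  have zt : z ≠ t := fun h => nta (h ▸ az).symm
  have zb : z ≠ b := fun h => nba' (h ▸ az).symm
  have za' : z ≠ a' := az.ne.symm
  have nvz : ¬ G.Adj v z := by
    intro h
    rcases Nv z h with h | h | h | h | h | h
    · exact zs h
    · exact zt h
    · exact za h
    · exact zb h
    · exact za' h
    · exact zb' h
  have naz : ¬ G.Adj a z := by
    intro h
    rcases Na z h with h | h | h | h | h | h
    · exact zv h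
    · exact zs h
    · exact zt h
    · exact za' h
    · exact zg h
    · exact zx h
  have hgz : G.Adj g z := Aa'.cl va'.symm hga az gv.symm zv.symm zg.symm nvg nvz
  have hxz : G.Adj x z := Aa'.cl va'.symm hxa az xv.symm zv.symm zx.symm nvx nvz
  have hbz : G.Adj b' z := Aa'.cl aa'.symm ab' az m6 za.symm zb'.symm nab' naz
  clear Nv Nt Na Nb Na'
  have xy : x ≠ y := by
    rintro rfl
    exact Ax.seven ax.symm hxa.symm hgx.symm hsx.symm bY.symm hyb.symm hgy.symm
      (by and_intros <;> grind)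
  have Ag' := h2 t g' st tg' gs'
  have zg' : z ≠ g' := by
    rintro rfl
    exact Ag'.seven tg'.symm hgg.symm bg'.symm hgb.symm hgy az.symm hxz.symm
      (by and_intros <;> grind)
  have zy : z ≠ y := by
    rintro rfl
    exact Ay.seven bY.symm hyb.symm hgy.symm hsy.symm az.symm hgz.symm hxz.symm
      (by and_intros <;> grind)
  have hyz : G.Adj y z := Ab'.cl vb'.symm hyb hbz yv.symm zv.symm zy.symm nvy nvz
  refine model hm (k₁ := a') (k₂ := g) (k₃ := z) (k₄ := x) hga az hxa hgz hgx hxz.symm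
    {u | u = s ∨ u = t ∨ u = g' ∨ u = b'}
    {u | u = a ∨ u = v ∨ u = b ∨ u = y} (path4 G st tg' hgb.symm)
    (path4 G va.symm vb bY) ?_ ?_ ?_ ⟨s, Or.inl rfl, v, Or.inr (Or.inl rfl), vs.symm⟩
    ⟨b', Or.inr (Or.inr (Or.inr rfl)), ab'⟩ ⟨t, Or.inr (Or.inl rfl), tg.symm⟩
    ⟨b', Or.inr (Or.inr (Or.inr rfl)), hbz.symm⟩ ⟨s, Or.inl rfl, hsx.symm⟩
    ⟨a, Or.inl rfl, aa'.symm⟩ ⟨a, Or.inl rfl, ag.symm⟩
    ⟨y, Or.inr (Or.inr (Or.inr rfl)), hyz.symm⟩ ⟨a, Or.inl rfl, ax.symm⟩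
  · simp only [Set.mem_ofPred_eq]
    and_intros <;> grind
  · simp only [Set.mem_ofPred_eq]
    and_intros <;> grind
  · simp only [Set.mem_ofPred_eq]
    rintro u (rfl | rfl | rfl | rfl)
    all_goals grind

/-- `T2` with `w = s`. -/
theorem t2_alpha (hm : ¬ HasCompleteMinor 6 G) (hL : Gl G) (hB : LemB G) (hX : LemX G)
    {v s t a b a' b' : V} (h : T2 G v s t a b a' b') (h1 : ∀ x, G.Adj s x → At G x)
    (h2 : ∀ x y, G.Adj s x → G.Adj x y → y ≠ s → At G y) : False := by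
  have h' := h
  obtain ⟨vs, vt, va, vb, va', vb', st, sa, sb, ta, tb, aa', bb', ab', nsa, nsb, nta, ntb, nab,
    nab', nba', m1, m2, m3, m4, m5, m6, m7⟩ := h'
  have sym := hL.sym
  have irr := hL.irr
  have Av := h1 v vs.symm
  have At' := h1 t st
  have Aa := h1 a sa
  have Ab := h1 b sb
  have Aa' := h2 v a' vs.symm va' m1.symm
  have Ab' := h2 v b' vs.symm vb' m2.symm
  have Nv := Av.all vs vt va vb va' vb' (by and_intros <;> grind)
  obtain ⟨g, g', tg, tg', gg, ⟨gv, gs, ga, gb⟩, ⟨gv', gs', ga', gb'⟩, Nt⟩ :=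
    At'.more4 vt.symm st.symm ta tb (by and_intros <;> grind)
  have nvg : ¬ G.Adj v g := by grind
  have nvg' : ¬ G.Adj v g' := by grind
  have nsg : ¬ G.Adj s g := fun h1 => t2_nocommon hL hB Aa' h h1 tg nvg gv
  have nsg' : ¬ G.Adj s g' := fun h1 => t2_nocommon hL hB Aa' h h1 tg' nvg' gv'
  have k3 := fun h1 => t2_same hL At' Aa h.swap tg tg' gg nvg nvg' gv gv' nsg nsg' h1
  have k4 := fun h1 => t2_same hL At' Ab h.rev.swap tg tg' gg nvg nvg' gv gv' nsg nsg' h1
  have c3 : G.Adj a g ∨ G.Adj b g := by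
    have := At'.claw a b g ta tb tg m5 (by grind) (by grind)
    grind
  have c4 : G.Adj a g' ∨ G.Adj b g' := by
    have := At'.claw a b g' ta tb tg' m5 (by grind) (by grind)
    grind
  have d2 : (G.Adj a g ∧ G.Adj b g' ∧ ¬ G.Adj b g ∧ ¬ G.Adj a g') ∨
      (G.Adj a g' ∧ G.Adj b g ∧ ¬ G.Adj b g' ∧ ¬ G.Adj a g) := by
    grind
  rcases d2 with ⟨q1, q2, q3, q4⟩ | ⟨q1, q2, q3, q4⟩
  · exact t2_alpha_core hm hL hX Av At' Aa Ab Aa' Ab' h2 h tg tg' nsg nsg' gg nvg nvg' gv gv'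
      q1 q2 q3 q4
  · exact t2_alpha_core hm hL hX Av At' Aa Ab Aa' Ab' h2 h tg' tg nsg' nsg gg.symm nvg' nvg gv' gv
      q1 q2 q3 q4

end Pool.Agent.LD6
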