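import Pool.Agent.LD6.F2

/-!
LD6, Theorem F: the configuration `T3` with `w = y`.
-/

set_option autoImplicit false

namespace Pool.Agent.LD6

open Finset Pool.Agent.LG6

variable {V : Type} {G : SimpleGraph V}

/-- The sixth neighbour `x` of the hub `w`. -/
theorem t3_x (hL : Gl G) {v w p₁ p₂ p₃ p₄ y : V} (Av : At G v) (Aw : At G w)
    (h : T3 G v w p₁ p₂ p₃ p₄ y) :
    ∃ x, G.Adj w x ∧ ¬ G.Adj v x ∧ x ≠ v ∧ x ≠ p₁ ∧ x ≠ p₂ ∧ x ≠ p₃ ∧ x ≠ p₄ ∧ x ≠ y ∧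
      (∀ z, G.Adj w z → z = v ∨ z = p₁ ∨ z = p₂ ∨ z = p₃ ∨ z = p₄ ∨ z = x) ∧
      ((G.Adj x p₁ ∧ G.Adj x p₄ ∧ ¬ G.Adj x p₂ ∧ ¬ G.Adj x p₃) ∨
       (G.Adj x p₁ ∧ G.Adj x p₂ ∧ ¬ G.Adj x p₃ ∧ ¬ G.Adj x p₄) ∨
       (G.Adj x p₄ ∧ G.Adj x p₃ ∧ ¬ G.Adj x p₂ ∧ ¬ G.Adj x p₁)) := by
  obtain ⟨vw, v1, v2, v3, v4, vy, w1, w2, w3, w4, p12, p23, p34, y1, y4, n13, n14, n24, ny2, ny3,
    nyw, m13, m14, m24, my2, my3, myw⟩ := h
  have sym := hL.sym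
  have irr := hL.irr
  have Nv := Av.all vw v1 v2 v3 v4 vy (by grind)
  obtain ⟨x, wx, xv, x1, x2, x3, x4, Nw⟩ := Aw.more5 (vw.symm) w1 w2 w3 w4 (by grind)
  have nvx : ¬ G.Adj v x := by grind
  have c13 := Aw.claw x p₁ p₃ wx w1 w3 (by grind) (by grind) m13
  have c14 := Aw.claw x p₁ p₄ wx w1 w4 (by grind) (by grind) m14
  have c24 := Aw.claw x p₂ p₄ wx w2 w4 (by grind) (by grind) m24
  refine ⟨x, wx, nvx, xv, x1, x2, x3, x4, by grind, Nw, ?_⟩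
  have e123 : G.Adj x p₁ → G.Adj x p₂ → G.Adj x p₃ → False := fun a b c =>
    Aw.dom v p₂ p₃ x p₁ p₄ vw.symm w2 w3 wx w1 w4 v2 v3 p23 a (by grind) (by grind) (by grind)
      (by grind)
  have e234 : G.Adj x p₂ → G.Adj x p₃ → G.Adj x p₄ → False := fun a b c =>
    Aw.dom v p₂ p₃ x p₄ p₁ vw.symm w2 w3 wx w4 w1 v2 v3 p23 c (by grind) (by grind) (by grind)
      (by grind)
  have e124 : G.Adj x p₁ → G.Adj x p₂ → G.Adj x p₄ → False := fun a b c =>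
    Aw.dom v p₁ p₂ x p₄ p₃ vw.symm w1 w2 wx w4 w3 v1 v2 p12 c (by grind) (by grind) (by grind)
      (by grind)
  have e134 : G.Adj x p₁ → G.Adj x p₃ → G.Adj x p₄ → False := fun a b c =>
    Aw.dom v p₃ p₄ x p₁ p₂ vw.symm w3 w4 wx w1 w2 v3 v4 p34 a (by grind) (by grind) (by grind)
      (by grind)
  grind

/-- `T3` with the claw centre `y`. -/
theorem t3_iso (hL : Gl G) (hB : LemB G) (hX : LemX G) {v w p₁ p₂ p₃ p₄ y : V}
    (h : T3 G v w p₁ p₂ p₃ p₄ y) (h1 : ∀ x, G.Adj y x → At G x)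
    (h2 : ∀ x z, G.Adj y x → G.Adj x z → z ≠ y → At G z) : False := by
  have h' := h
  obtain ⟨vw, v1, v2, v3, v4, vy, w1, w2, w3, w4, p12, p23, p34, y1, y4, n13, n14, n24, ny2, ny3,
    nyw, m13, m14, m24, my2, my3, myw⟩ := h'
  have Av := h1 v vy.symm
  have Aw := h2 v w vy.symm vw myw.symm
  obtain ⟨x, wx, nvx, xv, x1, x2, x3, x4, xy, Nw, hx⟩ := t3_x hL Av Aw h
  rcases hx with ⟨q1, q4, q2, q3⟩ | ⟨q1, q2, q3, q4⟩ | ⟨q4, q3, q2, q1⟩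
  · have Ax := h2 p₁ x y1 q1.symm xy
    exact t3_false hL hB Aw Ax (v := w) (w := v) (p₁ := p₁) (p₂ := p₂) (p₃ := p₃) (p₄ := p₄)
      (y := x) ⟨vw.symm, w1, w2, w3, w4, wx, v1, v2, v3, v4, p12, p23, p34, q1, q4, n13, n14, n24,
        q2, q3, fun h => nvx h.symm, ⟨m13, m14, m24, x2, x3, xv⟩⟩
  · have Ax := h2 p₁ x y1 q1.symm xy
    refine qv_out hL hX Aw Ax wx w1 w2 q1 q2 p12 ?_
    intro u hu hxu
    rcases Nw u hu with rfl | rfl | rfl | rfl | rfl | rfl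
    · exact absurd hxu.symm nvx
    · exact Or.inl rfl
    · exact Or.inr rfl
    · exact absurd hxu q3
    · exact absurd hxu q4
    · exact absurd hxu (hL.irr _)
  · have Ax := h2 p₄ x y4 q4.symm xy
    refine qv_out hL hX Aw Ax wx w3 w4 q3 q4 p34 ?_
    intro u hu hxu
    rcases Nw u hu with rfl | rfl | rfl | rfl | rfl | rfl
    · exact absurd hxu.symm nvx
    · exact absurd hxu q1
    · exact absurd hxu q2
    · exact Or.inl rfl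
    · exact Or.inr rfl
    · exact absurd hxu (hL.irr _)

end Pool.Agent.LD6
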