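import Pool.Agent.LG6.Gen

/-!
LD6: Menger's theorem for `k` disjoint paths (walk form, Goering's induction on arcs), and the form
`menger4` used for Lemma X and Lemma B.
-/

set_option autoImplicit false

namespace Pool.Agent.LD6

open Relation Finset Pool.Agent.LG6 Pool.Agent.MK3.Mg

section Walks

variable {V : Type*}

/-- the statement of the `k`-path theorem for one relation -/
def KD (k : ℕ) (R : V → V → Prop) : Prop :=
  ∀ A B : Set V, (∀ S : Finset V, S.card < k → SIn R (↑S : Set V)ᶜ A B) →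
    ∃ P : Fin k → Set V, (∀ i j, i ≠ j → Disjoint (P i) (P j)) ∧ ∀ i, SIn R (P i) A B

theorem KD.flip {k : ℕ} {R : V → V → Prop} (h : KD k R) : KD k (fun u v => R v u) := by
  intro A B h1
  obtain ⟨P, hd, h3⟩ := h B A (fun S hS => (h1 S hS).flip)
  exact ⟨P, hd, fun i => (h3 i).flip⟩

theorem halfK {k : ℕ} {R R' : V → V → Prop} (x : V) (S : Finset V)
    (hRR : ∀ u v, R u v → u ≠ x → R' u v)
    (ih : KD k R') (A B : Set V)
    (h1 : ∀ Z : Finset V, Z.card < k → SIn R (↑Z : Set V)ᶜ A B)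
    (hs : ¬ SIn R' (↑S : Set V)ᶜ A B) (hxs : x ∉ S) (hk : S.card + 1 = k) :
    ∃ U : V → Set V,
      (∀ s t, (s = x ∨ s ∈ S) → (t = x ∨ t ∈ S) → s ≠ t → Disjoint (U s) (U t)) ∧
      (∀ t v, (t = x ∨ t ∈ S) → v ∈ U t → v ∈ S → v = t) ∧
      (∀ t v, (t = x ∨ t ∈ S) → v ∈ U t → v ∉ S → ∃ a ∈ A, WIn R' (↑S : Set V)ᶜ a v) ∧
      (∀ t, (t = x ∨ t ∈ S) → ∃ a ∈ A, WIn R' (U t) a t) := by
  classical
  set T : Finset V := insert x S with hT
  have hTc : T.card = k := by rw [hT, card_insert_of_notMem hxs, hk]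
  have memT : ∀ t, t ∈ T ↔ (t = x ∨ t ∈ S) := fun t => by rw [hT, mem_insert]
  have c1 : ∀ Z : Finset V, Z.card < k → SIn R' (↑Z : Set V)ᶜ A (↑T : Set V) := by
    intro Z hZ
    obtain ⟨a, ha, b, hb, h⟩ := h1 Z hZ
    by_contra hno
    rcases h.first (↑T : Set V) with h | ⟨q, hq, h2, _⟩
    · apply hs
      refine ⟨a, ha, b, hb, h.mono ?_ ?_⟩
      · intro u v hu _ hR
        refine hRR u v hR ?_
        rintro rfl
        exact hu.2 (mem_coe.2 ((memT _).2 (Or.inl rfl)))
      · intro u hu hu'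
        exact hu.2 (mem_coe.2 ((memT _).2 (Or.inr (mem_coe.1 hu'))))
    · apply hno
      refine ⟨a, ha, q, hq, h2.mono ?_ (le_refl _)⟩
      intro u v _ _ hR
      refine hRR u v hR.1 ?_
      rintro rfl
      exact hR.2 (mem_coe.2 ((memT _).2 (Or.inl rfl)))
  obtain ⟨P, hd, hP⟩ := ih A (↑T : Set V) c1
  have hP2 : ∀ i, ∃ q ∈ T, ∃ a ∈ A, WIn (fun u v => R' u v ∧ u ∉ (↑T : Set V)) (P i) a q := by
    intro i
    obtain ⟨a, ha, b, hb, h⟩ := hP i
    rcases h.first (↑T : Set V) with h | ⟨q, hq, h2, _⟩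
    · exact absurd hb h.right.2
    · exact ⟨q, mem_coe.1 hq, a, ha, h2⟩
  choose q hqT a haA hq using hP2
  have hqP : ∀ i, q i ∈ P i := fun i => (hq i).right
  have hinj : Function.Injective q := by
    intro i j hij
    by_contra hne
    exact Set.disjoint_left.1 (hd i j hne) (hqP i) (hij ▸ hqP j)
  have himg : (Finset.univ.image q) = T := by
    apply Finset.eq_of_subset_of_card_le
    · intro v hv
      obtain ⟨i, _, rfl⟩ := Finset.mem_image.1 hv
      exact hqT i
    · rw [hTc, Finset.card_image_of_injective _ hinj, Finset.card_univ, Fintype.card_fin]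
  have hex : ∀ t ∈ T, ∃ i, q i = t := by
    intro t ht
    rw [← himg] at ht
    obtain ⟨i, _, hi⟩ := Finset.mem_image.1 ht
    exact ⟨i, hi⟩
  set U : V → Set V := fun t => {v | ∃ i, q i = t ∧
    WIn (fun u v => R' u v ∧ u ∉ (↑T : Set V)) (P i) (a i) v ∧ (v ∈ T → v = t)} with hU
  refine ⟨U, ?_, ?_, ?_, ?_⟩
  · intro s t _ _ hst
    rw [Set.disjoint_left]
    rintro v ⟨i, hi, hv, _⟩ ⟨j, hj, hv', _⟩
    have hij : i ≠ j := fun h => hst (by rw [← hi, ← hj, h])
    exact Set.disjoint_left.1 (hd i j hij) hv.right hv'.right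
  · rintro t v _ ⟨i, _, _, h⟩ hvS
    exact h ((memT v).2 (Or.inr hvS))
  · rintro t v _ ⟨i, _, hv, _⟩ hvS
    refine ⟨a i, haA i, ?_⟩
    refine WIn.induction' (motive := fun c => c ∉ S → WIn R' (↑S : Set V)ᶜ (a i) c) ?_ ?_ hv hvS
    · intro _ hc
      exact WIn.refl hc
    · intro b c _ hR _ ihb hc
      have hbS : b ∉ S := fun h => hR.2 (mem_coe.2 ((memT b).2 (Or.inr h)))
      exact (ihb hbS).tail hR.1 hc
  · intro t ht
    obtain ⟨i, hi⟩ := hex t ((memT t).2 ht)
    refine ⟨a i, haA i, ?_⟩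
    have hq' := hq i
    rw [hi] at hq'
    have key : ∀ c, WIn (fun u v => R' u v ∧ u ∉ (↑T : Set V)) (P i) (a i) c →
        (c ∉ T ∨ c = t) → WIn R' (U t) (a i) c := by
      intro c hc
      refine WIn.induction' (motive := fun c => (c ∉ T ∨ c = t) → WIn R' (U t) (a i) c) ?_ ?_ hc
      · intro haP h
        refine WIn.refl ⟨i, hi, WIn.refl haP, fun h' => ?_⟩
        rcases h with h | h
        · exact absurd h' h
        · exact h
      · intro b c hb hR hcP ihb h
        have hbT : b ∉ T := fun h => hR.2 (mem_coe.2 h)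
        refine (ihb (Or.inl hbT)).tail hR.1 ⟨i, hi, hb.tail hR hcP, fun h' => ?_⟩
        rcases h with h | h
        · exact absurd h' h
        · exact h
    exact key t hq' (Or.inr rfl)

theorem kD_of_card [Finite V] (k : ℕ) : ∀ (n : ℕ) (R : V → V → Prop),
    {p : V × V | R p.1 p.2}.ncard ≤ n → KD k R := by
  classical
  intro n
  induction n with
  | zero =>
    intro R hR A B h1
    have hno : ∀ u v, ¬ R u v := by
      intro u v huv
      have : {p : V × V | R p.1 p.2} = ∅ := (Set.ncard_eq_zero (Set.toFinite _)).1 (by omega)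
      have h2 : (u, v) ∈ {p : V × V | R p.1 p.2} := huv
      rw [this] at h2
      exact h2
    have triv : ∀ P, SIn R P A B → ∃ v ∈ A, v ∈ B ∧ v ∈ P := by
      rintro P ⟨a, ha, b, hb, h⟩
      rcases ReflTransGen.cases_head h.2 with h' | ⟨c, hc, _⟩
      · subst h'; exact ⟨a, ha, hb, h.1⟩
      · exact absurd hc.1 (hno _ _)
    have hfin : (A ∩ B).Finite := Set.toFinite _
    have hk : k ≤ hfin.toFinset.card := by
      by_contra hlt
      push Not at hlt
      obtain ⟨v, hvA, hvB, hv⟩ := triv _ (h1 hfin.toFinset hlt)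
      exact hv (mem_coe.2 (hfin.mem_toFinset.2 ⟨hvA, hvB⟩))
    obtain ⟨D, hD, hDc⟩ := Finset.exists_subset_card_eq hk
    let e := D.equivFinOfCardEq hDc
    refine ⟨fun i => {((e.symm i : D) : V)}, ?_, ?_⟩
    · intro i j hij
      rw [Set.disjoint_singleton]
      intro h
      exact hij (e.symm.injective (Subtype.ext h))
    · intro i
      have h2 : ((e.symm i : D) : V) ∈ A ∩ B := hfin.mem_toFinset.1 (hD (e.symm i).2)
      exact ⟨_, h2.1, _, h2.2, WIn.refl rfl⟩
  | succ n ih =>
    intro R hR A B h1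
    by_cases hne : ∃ x y, R x y
    swap
    · refine ih R ?_ A B h1
      have : {p : V × V | R p.1 p.2} = ∅ := by
        ext p
        simp only [Set.mem_ofPred_eq, Set.mem_empty_iff_false, iff_false]
        exact fun hp => hne ⟨_, _, hp⟩
      rw [this]; simp
    obtain ⟨x, y, hxy⟩ := hne
    set R' : V → V → Prop := fun u v => R u v ∧ ¬ (u = x ∧ v = y) with hR'
    have hcard : {p : V × V | R' p.1 p.2}.ncard ≤ n := by
      have : {p : V × V | R' p.1 p.2}.ncard < {p : V × V | R p.1 p.2}.ncard := by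
        refine Set.ncard_lt_ncard ?_ (Set.toFinite _)
        refine ⟨fun p hp => hp.1, fun h => ?_⟩
        have h2 : (x, y) ∈ {p : V × V | R p.1 p.2} := hxy
        exact (h h2).2 ⟨rfl, rfl⟩
      omega
    have ih' : KD k R' := ih R' hcard
    have hsub : ∀ u v, R' u v → R u v := fun u v h => h.1
    by_cases hall : ∀ S : Finset V, S.card < k → SIn R' (↑S : Set V)ᶜ A B
    · obtain ⟨P, hd, h3⟩ := ih' A B hall
      exact ⟨P, hd, fun i => (h3 i).mono (fun _ _ _ _ h => hsub _ _ h) (le_refl _) (le_refl _)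
        (le_refl _)⟩
    push Not at hall
    obtain ⟨S, hSk, hs⟩ := hall
    have hxs : x ∉ S ∧ y ∉ S := by
      obtain ⟨a, ha, b, hb, h⟩ := h1 S hSk
      rcases h.cut_arc x y with h | ⟨h2, _, h3, _⟩
      · exact absurd ⟨a, ha, b, hb, h⟩ hs
      · exact ⟨fun h => h2.right (mem_coe.2 h), fun h => h3 (mem_coe.2 h)⟩
    have hk : S.card + 1 = k := by
      by_contra hne
      have hlt : (insert x S).card < k := by
        rw [card_insert_of_notMem hxs.1]
        omega
      obtain ⟨a, ha, b, hb, h⟩ := h1 _ hlt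
      apply hs
      refine ⟨a, ha, b, hb, h.mono ?_ ?_⟩
      · intro u v hu _ hR
        refine ⟨hR, fun h' => hu (mem_coe.2 ?_)⟩
        rw [h'.1]
        exact mem_insert_self _ _
      · intro u hu hu'
        exact hu (mem_coe.2 (mem_insert_of_mem (mem_coe.1 hu')))
    obtain ⟨U, hU1, hU2, hU3, hU4⟩ :=
      halfK x S (R := R) (R' := R') (fun u v h hu => ⟨h, fun h' => hu h'.1⟩) ih' A B h1 hs hxs.1 hk
    obtain ⟨W, hW1, hW2, hW3, hW4⟩ :=
      halfK y S (R := fun u v => R v u) (R' := fun u v => R' v u)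
        (fun u v h hu => ⟨h, fun h' => hu h'.2⟩) ih'.flip B A (fun Z hZ => (h1 Z hZ).flip)
        (fun h => hs h.flip) hxs.2 hk
    have hdis : ∀ v, (∃ a ∈ A, WIn R' (↑S : Set V)ᶜ a v) →
        (∃ b ∈ B, WIn (fun u v => R' v u) (↑S : Set V)ᶜ b v) → False := by
      rintro v ⟨a, ha, h⟩ ⟨b, hb, h'⟩
      exact hs ⟨a, ha, b, hb, h.trans h'.flip⟩
    have up : ∀ (P P' : Set V) (u v : V), P ⊆ P' → WIn R' P u v → WIn R P' u v := by
      intro P P' u v hP h
      exact h.mono (fun _ _ _ _ h => hsub _ _ h) hP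
    set T : Finset V := insert x S with hT
    have hTc : T.card = k := by rw [hT, card_insert_of_notMem hxs.1, hk]
    let e := T.equivFinOfCardEq hTc
    -- the partner of `t ∈ T` on the other side
    set π : V → V := fun t => if t = x then y else t with hπ
    have πm : ∀ t, (t = x ∨ t ∈ S) → (π t = y ∨ π t ∈ S) := by
      intro t ht
      by_cases h : t = x
      · left; simp [hπ, h]
      · right
        have : π t = t := by simp [hπ, h]
        rw [this]
        exact ht.resolve_left h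
    have πinj : ∀ s t, (s = x ∨ s ∈ S) → (t = x ∨ t ∈ S) → s ≠ t → π s ≠ π t := by
      intro s t hs' ht' hst h
      by_cases h3 : s = x <;> by_cases h4 : t = x
      · exact hst (h3.trans h4.symm)
      · have e1 : π s = y := by simp [hπ, h3]
        have e2 : π t = t := by simp [hπ, h4]
        rw [e1, e2] at h
        exact hxs.2 (h ▸ ht'.resolve_left h4)
      · have e1 : π s = s := by simp [hπ, h3]
        have e2 : π t = y := by simp [hπ, h4]
        rw [e1, e2] at h
        exact hxs.2 (h ▸ hs'.resolve_left h3)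
      · have e1 : π s = s := by simp [hπ, h3]
        have e2 : π t = t := by simp [hπ, h4]
        rw [e1, e2] at h
        exact hst h
    have cross : ∀ s t v, (s = x ∨ s ∈ S) → (t = x ∨ t ∈ S) → s ≠ t → v ∈ U s → v ∈ W (π t) →
        False := by
      intro s t v hs' ht' hst hv hv'
      by_cases hvS : v ∈ S
      · have e1 := hU2 s v hs' hv hvS
        have e2 := hW2 (π t) v (πm t ht') hv' hvS
        by_cases h4 : t = x
        · have e3 : π t = y := by simp [hπ, h4]
          rw [e3] at e2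
          exact hxs.2 (e2 ▸ hvS)
        · have e3 : π t = t := by simp [hπ, h4]
          rw [e3] at e2
          exact hst (e1.symm.trans e2)
      · exact hdis v (hU3 s v hs' hv hvS) (hW3 (π t) v (πm t ht') hv' hvS)
    have memT : ∀ i, ((e.symm i : T) : V) = x ∨ ((e.symm i : T) : V) ∈ S := by
      intro i
      exact mem_insert.1 (e.symm i).2
    refine ⟨fun i => U (e.symm i : T) ∪ W (π (e.symm i : T)), ?_, ?_⟩
    · intro i j hij
      have hne : ((e.symm i : T) : V) ≠ ((e.symm j : T) : V) := by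
        intro h
        exact hij (e.symm.injective (Subtype.ext h))
      rw [Set.disjoint_left]
      rintro v (hv | hv) (hv' | hv')
      · exact Set.disjoint_left.1 (hU1 _ _ (memT i) (memT j) hne) hv hv'
      · exact cross _ _ v (memT i) (memT j) hne hv hv'
      · exact cross _ _ v (memT j) (memT i) hne.symm hv' hv
      · exact Set.disjoint_left.1 (hW1 _ _ (πm _ (memT i)) (πm _ (memT j))
          (πinj _ _ (memT i) (memT j) hne)) hv hv'
    · intro i
      set t : V := ((e.symm i : T) : V) with ht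
      obtain ⟨a, ha, hw1⟩ := hU4 t (memT i)
      obtain ⟨b, hb, hw2⟩ := hW4 (π t) (πm t (memT i))
      refine ⟨a, ha, b, hb, ?_⟩
      change WIn R (U t ∪ W (π t)) a b
      by_cases h : t = x
      · have e3 : π t = y := by simp [hπ, h]
        rw [e3] at hw2 ⊢
        rw [h] at hw1 ⊢
        exact ((up _ _ _ _ Set.subset_union_left hw1).tail hxy (Or.inr hw2.right)).trans
          (up _ _ _ _ Set.subset_union_right hw2.flip)
      · have e3 : π t = t := by simp [hπ, h]
        rw [e3] at hw2 ⊢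
        exact (up _ _ _ _ Set.subset_union_left hw1).trans
          (up _ _ _ _ Set.subset_union_right hw2.flip)

/-- **Menger's theorem** (set form): if no set of fewer than `k` vertices meets all walks from `A`
to `B`, then there are `k` disjoint vertex sets each containing a walk from `A` to `B`. -/
theorem mengerK [Finite V] (k : ℕ) (R : V → V → Prop) (A B : Set V)
    (h1 : ∀ S : Finset V, S.card < k → SIn R (↑S : Set V)ᶜ A B) :
    ∃ P : Fin k → Set V, (∀ i j, i ≠ j → Disjoint (P i) (P j)) ∧ ∀ i, SIn R (P i) A B :=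
  kD_of_card k _ R le_rfl A B h1

end Walks

variable {V : Type} {G : SimpleGraph V} [Fintype V] [DecidableEq V]

theorem menger4 (hG : IsKConnected 6 G) (K S T : Finset V) (hK : K.card ≤ 2) (hS : S.card = 4)
    (hT : T.card = 4) (hSK : ∀ x ∈ S, x ∉ K) (hTK : ∀ x ∈ T, x ∉ K) :
    ∃ P : Fin 4 → Set V, (∀ i, (G.induce (P i)).Connected) ∧
      (∀ i j, i ≠ j → Disjoint (P i) (P j)) ∧ (∀ i, ∀ x ∈ K, x ∉ P i) ∧
      (∀ i, ∃ s ∈ S, s ∈ P i) ∧ (∀ i, ∃ t ∈ T, t ∈ P i) := by
  set r : V → V → Prop := fun u v => G.Adj u v ∧ u ∉ K ∧ v ∉ K with hr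
  obtain ⟨P, hd, hP⟩ := mengerK 4 r (↑S : Set V) (↑T : Set V) (by
    intro Z hZ
    have exS : ∃ s ∈ S, s ∉ Z := by
      by_contra hno
      push Not at hno
      have := card_le_card (show S ⊆ Z from hno)
      omega
    have exT : ∃ t ∈ T, t ∉ Z := by
      by_contra hno
      push Not at hno
      have := card_le_card (show T ⊆ Z from hno)
      omega
    obtain ⟨s, hsS, hsZ⟩ := exS
    obtain ⟨t, htT, htZ⟩ := exT
    have hc := hG.2 (Z ∪ K) (by
      have := card_union_le Z K
      omega)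
    have hsC : s ∈ ((↑(Z ∪ K) : Set V))ᶜ := by
      intro h
      rcases mem_union.1 (mem_coe.1 h) with h | h
      · exact hsZ h
      · exact hSK s hsS h
    have htC : t ∈ ((↑(Z ∪ K) : Set V))ᶜ := by
      intro h
      rcases mem_union.1 (mem_coe.1 h) with h | h
      · exact htZ h
      · exact hTK t htT h
    have h3 := (SimpleGraph.reachable_iff_reflTransGen _ _).1
      (hc.preconnected ⟨s, hsC⟩ ⟨t, htC⟩)
    refine ⟨s, mem_coe.2 hsS, t, mem_coe.2 htT, fun h => hsZ (mem_coe.1 h), ?_⟩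
    refine Relation.ReflTransGen.lift (p := fun u v => r u v ∧ v ∈ (↑Z : Set V)ᶜ) Subtype.val
      ?_ _ _ h3
    rintro ⟨u, hu⟩ ⟨w, hw⟩ huw
    have hu' : u ∉ Z ∪ K := fun h => hu (mem_coe.2 h)
    have hw' : w ∉ Z ∪ K := fun h => hw (mem_coe.2 h)
    rw [mem_union, not_or] at hu' hw'
    exact ⟨⟨huw, hu'.2, hw'.2⟩, fun h => hw'.1 (mem_coe.1 h)⟩)
  choose a haS b hbT hw using hP
  refine ⟨fun i => {w | ReflTransGen (fun u v => r u v ∧ v ∈ P i) (a i) w}, ?_, ?_, ?_, ?_, ?_⟩
  · intro i
    exact reach_conn (fun _ _ h => h.1.1) (a i)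
  · intro i j hij
    have sub : ∀ i, {w | ReflTransGen (fun u v => r u v ∧ v ∈ P i) (a i) w} ⊆ P i := by
      intro i w hw'
      rcases ReflTransGen.cases_tail hw' with h | ⟨c, _, hc⟩
      · exact h ▸ (hw i).left
      · exact hc.2
    exact Set.disjoint_of_subset (sub i) (sub j) (hd i j hij)
  · intro i x hx hx'
    rcases ReflTransGen.cases_tail hx' with h | ⟨c, _, hc⟩
    · exact hSK (a i) (mem_coe.1 (haS i)) (h ▸ hx)
    · exact hc.1.2.2 hx
  · intro i
    exact ⟨a i, mem_coe.1 (haS i), ReflTransGen.refl⟩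
  · intro i
    exact ⟨b i, mem_coe.1 (hbT i), (hw i).2⟩

end Pool.Agent.LD6
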