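import Pool.Agent.LD6.XTop
import Pool.Agent.LD6.Menger

/-!
LD6, Lemma X: a `K₄` with vertices `v`, `a`, `c`, `d`, a triangle `B` complete to `v` and a triangle
`W` complete to `a`, pairwise disjoint, give a `K₆` minor in a 6-connected graph.
-/

set_option autoImplicit false

namespace Pool.Agent.LD6

open Finset Pool.Agent.LG6

variable {V : Type} {G : SimpleGraph V} [Fintype V] [DecidableEq V]

theorem lemmaX (hG : IsKConnected 6 G) {v a c d : V} (va : G.Adj v a) (vc : G.Adj v c)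
    (vd : G.Adj v d) (ac : G.Adj a c) (ad : G.Adj a d) (cd : G.Adj c d) (B W : Finset V)
    (hB : B.card = 3) (hW : W.card = 3) (hBc : ∀ x ∈ B, ∀ y ∈ B, x ≠ y → G.Adj x y)
    (hWc : ∀ x ∈ W, ∀ y ∈ W, x ≠ y → G.Adj x y) (hvB : ∀ x ∈ B, G.Adj v x)
    (haW : ∀ x ∈ W, G.Adj a x) (hBn : ∀ x ∈ B, x ≠ a ∧ x ≠ c ∧ x ≠ d)
    (hWn : ∀ x ∈ W, x ≠ v ∧ x ≠ c ∧ x ≠ d) (hBW : ∀ x ∈ B, x ∉ W) :
    HasCompleteMinor 6 G :=
  X.lemmaX_of (fun K S T hK hS hT h1 h2 => menger4 hG K S T hK hS hT h1 h2) hG va vc vd ac ad cd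
    B W hB hW hBc hWc hvB haW hBn hWn hBW

end Pool.Agent.LD6
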