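import Pool.Agent.LD6.Main
import Pool.Agent.LD6.X

/-!
LD6: Lemma X in the explicit form, and the local theorem.
-/

set_option autoImplicit false

namespace Pool.Agent.LD6

open Finset Pool.Agent.LG6

variable {V : Type} {G : SimpleGraph V} [DecidableEq V] [Fintype V]

theorem lemX (hG : IsKConnected 6 G) (hm : ¬ HasCompleteMinor 6 G) : LemX G := by
  intro v a c d b₁ b₂ b₃ w₁ w₂ w₃ va vc vd ac ad cd vb1 vb2 vb3 b12 b13 b23 aw1 aw2 aw3 w12 w13
    w23 n1 n2 n3 n4 n5 n6 n7 n8 n9
  apply hm
  have tri : ∀ x y z : V, G.Adj x y → G.Adj x z → G.Adj y z →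
      (∀ p ∈ ({x, y, z} : Finset V), ∀ q ∈ ({x, y, z} : Finset V), p ≠ q → G.Adj p q) ∧
      ({x, y, z} : Finset V).card = 3 := by
    intro x y z h1 h2 h3
    refine ⟨?_, card_eq_three.2 ⟨x, y, z, h1.ne, h2.ne, h3.ne, rfl⟩⟩
    intro p hp q hq hpq
    simp only [mem_insert, mem_singleton] at hp hq
    rcases hp with rfl | rfl | rfl <;> rcases hq with rfl | rfl | rfl
    all_goals first
      | exact absurd rfl hpq
      | assumption
      | (apply SimpleGraph.Adj.symm; assumption)
  obtain ⟨t1, t2⟩ := tri b₁ b₂ b₃ b12 b13 b23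
  obtain ⟨t3, t4⟩ := tri w₁ w₂ w₃ w12 w13 w23
  refine lemmaX hG va vc vd ac ad cd {b₁, b₂, b₃} {w₁, w₂, w₃} t2 t4 t1 t3 ?_ ?_ ?_ ?_ ?_
  · intro x hx
    simp only [mem_insert, mem_singleton] at hx
    rcases hx with rfl | rfl | rfl <;> assumption
  · intro x hx
    simp only [mem_insert, mem_singleton] at hx
    rcases hx with rfl | rfl | rfl <;> assumption
  · intro x hx
    simp only [mem_insert, mem_singleton] at hx
    rcases hx with rfl | rfl | rfl <;> assumption
  · intro x hx
    simp only [mem_insert, mem_singleton] at hx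
    rcases hx with rfl | rfl | rfl <;> assumption
  · intro x hx hx'
    simp only [mem_insert, mem_singleton] at hx hx'
    rcases hx with rfl | rfl | rfl
    · rcases hx' with h | h | h
      · exact n7.1 h
      · exact n7.2.1 h
      · exact n7.2.2 h
    · rcases hx' with h | h | h
      · exact n8.1 h
      · exact n8.2.1 h
      · exact n8.2.2 h
    · rcases hx' with h | h | h
      · exact n9.1 h
      · exact n9.2.1 h
      · exact n9.2.2 h

/-- In a 6-connected graph without a `K₆` minor a vertex that is the centre of no claw has a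
neighbour that is the centre of a claw. -/
theorem local_claw (hG : IsKConnected 6 G) (hm : ¬ HasCompleteMinor 6 G) {v : V} (hv : NC G v) :
    ∃ x, G.Adj v x ∧ ¬ NC G x := by
  by_contra hno
  push Not at hno
  exact loc hG hm (lemX hG hm) hv hno

end Pool.Agent.LD6
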