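import Mathlib

/-!
# The icosahedron is the only connected locally pentagonal graph (helper file for MP_1fb202_co)
-/

set_option autoImplicit false

namespace Pool.Agent.LD6

/-- The cone over the icosahedron: 0 is the apex, 1 and 12 the poles, 2..6 and 7..11 the two
rings. -/
def coneIco : SimpleGraph (Fin 13) := SimpleGraph.fromRel fun i j => i = 0 ∨ (i = 1 ∧ 2 ≤ j.1 ∧ j.1 ≤ 6) ∨ (i = 12 ∧ 7 ≤ j.1 ∧ j.1 ≤ 11) ∨ (i.1, j.1) ∈ [(2,3),(3,4),(4,5),(5,6),(6,2),(7,8),(8,9),(9,10),(10,11),(11,7),(2,7),(2,8),(3,8),(3,9),(4,9),(4,10),(5,10),(5,11),(6,11),(6,7)]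

namespace Ico46

/-- The neighbourhood of `x` is the pentagon `c0 c1 c2 c3 c4`. -/
structure Cyc {U : Type*} (H : SimpleGraph U) (x c0 c1 c2 c3 c4 : U) : Prop where
  n : ∀ y, H.Adj x y ↔ y = c0 ∨ y = c1 ∨ y = c2 ∨ y = c3 ∨ y = c4
  a01 : H.Adj c0 c1
  a12 : H.Adj c1 c2
  a23 : H.Adj c2 c3
  a34 : H.Adj c3 c4
  a40 : H.Adj c4 c0
  n02 : ¬ H.Adj c0 c2
  n03 : ¬ H.Adj c0 c3
  n13 : ¬ H.Adj c1 c3
  n14 : ¬ H.Adj c1 c4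
  n24 : ¬ H.Adj c2 c4
  d02 : c0 ≠ c2
  d03 : c0 ≠ c3
  d13 : c1 ≠ c3
  d14 : c1 ≠ c4
  d24 : c2 ≠ c4

section
variable {U : Type*} {H : SimpleGraph U}

theorem Cyc.rot {x c0 c1 c2 c3 c4 : U} (h : Cyc H x c0 c1 c2 c3 c4) :
    Cyc H x c1 c2 c3 c4 c0 where
  n y := by rw [h.n]; tauto
  a01 := h.a12
  a12 := h.a23
  a23 := h.a34
  a34 := h.a40
  a40 := h.a01
  n02 := h.n13
  n03 := h.n14
  n13 := h.n24
  n14 := fun e => h.n02 e.symm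
  n24 := fun e => h.n03 e.symm
  d02 := h.d13
  d03 := h.d14
  d13 := h.d24
  d14 := h.d02.symm
  d24 := h.d03.symm

theorem Cyc.refl {x c0 c1 c2 c3 c4 : U} (h : Cyc H x c0 c1 c2 c3 c4) :
    Cyc H x c0 c4 c3 c2 c1 where
  n y := by rw [h.n]; tauto
  a01 := h.a40.symm
  a12 := h.a34.symm
  a23 := h.a23.symm
  a34 := h.a12.symm
  a40 := h.a01.symm
  n02 := h.n03
  n03 := h.n02
  n13 := fun e => h.n24 e.symm
  n14 := fun e => h.n14 e.symm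
  n24 := fun e => h.n13 e.symm
  d02 := h.d03
  d03 := h.d02
  d13 := h.d24.symm
  d14 := h.d14.symm
  d24 := h.d13.symm

theorem Cyc.common {x a b c d e y : U} (h : Cyc H x a b c d e) (h1 : H.Adj x y)
    (h2 : H.Adj a y) : y = b ∨ y = e := by
  rcases (h.n y).1 h1 with rfl | rfl | rfl | rfl | rfl
  · exact absurd rfl h2.ne
  · exact Or.inl rfl
  · exact absurd h2 h.n02
  · exact absurd h2 h.n03
  · exact Or.inr rfl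

/-- The vertex after `a, b`. -/
theorem Cyc.third {x a b c d e y : U} (h : Cyc H x a b c d e) (h1 : H.Adj x y)
    (h2 : H.Adj b y) (h3 : y ≠ a) : y = c := by
  rcases h.rot.common h1 h2 with h4 | h4
  · exact h4
  · exact absurd h4 h3

/-- The vertex before `a, b`. -/
theorem Cyc.last {x a b c d e y : U} (h : Cyc H x a b c d e) (h1 : H.Adj x y)
    (h2 : H.Adj a y) (h3 : y ≠ b) : y = e := by
  rcases h.common h1 h2 with h4 | h4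
  · exact absurd h4 h3
  · exact h4

/-- Every neighbourhood is a pentagon. -/
def Loc (H : SimpleGraph U) : Prop := ∀ x, ∃ c0 c1 c2 c3 c4, Cyc H x c0 c1 c2 c3 c4

theorem Loc.at1 (hl : Loc H) {x a : U} (h : H.Adj x a) : ∃ b c d e, Cyc H x a b c d e := by
  obtain ⟨c0, c1, c2, c3, c4, hc⟩ := hl x
  rcases (hc.n a).1 h with rfl | rfl | rfl | rfl | rfl
  · exact ⟨_, _, _, _, hc⟩
  · exact ⟨_, _, _, _, hc.rot⟩
  · exact ⟨_, _, _, _, hc.rot.rot⟩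
  · exact ⟨_, _, _, _, hc.rot.rot.rot⟩
  · exact ⟨_, _, _, _, hc.rot.rot.rot.rot⟩

theorem Loc.at2 (hl : Loc H) {x a b : U} (h : H.Adj x a) (h' : H.Adj x b) (h2 : H.Adj a b) :
    ∃ c d e, Cyc H x a b c d e := by
  obtain ⟨b', c, d, e, hc⟩ := hl.at1 h
  rcases hc.common h' h2 with rfl | rfl
  · exact ⟨_, _, _, hc⟩
  · exact ⟨_, _, _, hc.refl⟩

/-- Step 1. -/
theorem Loc.s1 (hl : Loc H) {x c0 c1 c2 c3 c4 : U} (J : Cyc H x c0 c1 c2 c3 c4) :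
    ∃ b e, Cyc H c0 x c1 b e c4 := by
  have h0 : H.Adj x c0 := (J.n _).2 (Or.inl rfl)
  have h1 : H.Adj x c1 := (J.n _).2 (Or.inr (Or.inl rfl))
  have h4 : H.Adj x c4 := (J.n _).2 (Or.inr (Or.inr (Or.inr (Or.inr rfl))))
  obtain ⟨b, e, f, K⟩ := hl.at2 h0.symm J.a01 h1
  have : c4 = f := K.last J.a40.symm h4 J.d14.symm
  subst this
  exact ⟨b, e, K⟩

/-- Step 2. -/
theorem Loc.s2 {x c0 c1 c2 c4 b e b' e' : U} (K : Cyc H c0 x c1 b e c4)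
    (K' : Cyc H c1 x c2 b' e' c0) : e' = b := by
  have h1 : H.Adj c1 b := K.a12
  have h2 : H.Adj c0 b := (K.n _).2 (Or.inr (Or.inr (Or.inl rfl)))
  rcases K'.rot.rot.rot.rot.common h1 h2 with h | h
  · exact absurd h.symm K.d02
  · exact h.symm

/-- Step 3. -/
theorem Loc.s3 (hl : Loc H) {x c0 c1 c2 c4 d0 d1 d4 : U} (K0 : Cyc H c0 x c1 d0 d4 c4)
    (K1 : Cyc H c1 x c2 d1 d0 c0) : ∃ z, Cyc H d0 c0 c1 d1 z d4 := by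
  have h0 : H.Adj c0 d0 := (K0.n _).2 (Or.inr (Or.inr (Or.inl rfl)))
  have h1 : H.Adj c1 d0 := K0.a12
  have h01 : H.Adj c0 c1 := (K0.n _).2 (Or.inr (Or.inl rfl))
  obtain ⟨p, q, r, L⟩ := hl.at2 h0.symm h1.symm h01
  have hp : d1 = p := L.third K1.a23.symm ((K1.n _).2 (Or.inr (Or.inr (Or.inl rfl)))) K1.d24
  have hr : d4 = r := L.last K0.a23 ((K0.n _).2 (Or.inr (Or.inr (Or.inr (Or.inl rfl)))))
    K0.d13.symm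
  subst hp hr
  exact ⟨q, L⟩

/-- Step 4. -/
theorem Loc.s4 {c0 c1 c2 d0 d1 d2 d4 z z' : U} (L0 : Cyc H d0 c0 c1 d1 z d4)
    (L1 : Cyc H d1 c1 c2 d2 z' d0) : z' = z := by
  have h0 : H.Adj d0 z := (L0.n _).2 (Or.inr (Or.inr (Or.inr (Or.inl rfl))))
  have h1 : H.Adj d1 z := L0.a23
  rcases L1.rot.rot.rot.rot.common h1 h0 with h | h
  · exact absurd h.symm L0.d13
  · exact h.symm

/-- Neighbours in the icosahedron (0 and 11 are the poles, 1..5 and 6..10 the rings). -/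
def nb : Fin 12 → List (Fin 12) :=
  ![[1, 2, 3, 4, 5], [0, 2, 7, 6, 5], [0, 3, 8, 7, 1], [0, 4, 9, 8, 2], [0, 5, 10, 9, 3],
    [0, 1, 6, 10, 4], [5, 1, 7, 11, 10], [1, 2, 8, 11, 6], [2, 3, 9, 11, 7], [3, 4, 10, 11, 8],
    [4, 5, 6, 11, 9], [7, 8, 9, 10, 6]]

theorem core (hc : H.Connected) (hl : Loc H) :
    ∃ f : Fin 12 → U, Function.Bijective f ∧ ∀ i j, H.Adj (f i) (f j) ↔ j ∈ nb i := by
  obtain ⟨x⟩ := hc.nonempty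
  obtain ⟨c0, c1, c2, c3, c4, J⟩ := hl x
  obtain ⟨d0, e0, K0⟩ := hl.s1 J
  obtain ⟨d1, e1, K1⟩ := hl.s1 J.rot
  obtain ⟨d2, e2, K2⟩ := hl.s1 J.rot.rot
  obtain ⟨d3, e3, K3⟩ := hl.s1 J.rot.rot.rot
  obtain ⟨d4, e4, K4⟩ := hl.s1 J.rot.rot.rot.rot
  have t1 := Loc.s2 K0 K1
  have t2 := Loc.s2 K1 K2
  have t3 := Loc.s2 K2 K3
  have t4 := Loc.s2 K3 K4
  have t0 := Loc.s2 K4 K0
  rw [t1] at K1
  rw [t2] at K2
  rw [t3] at K3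
  rw [t4] at K4
  rw [t0] at K0
  obtain ⟨z, L0⟩ := hl.s3 K0 K1
  obtain ⟨z1, L1⟩ := hl.s3 K1 K2
  obtain ⟨z2, L2⟩ := hl.s3 K2 K3
  obtain ⟨z3, L3⟩ := hl.s3 K3 K4
  obtain ⟨z4, L4⟩ := hl.s3 K4 K0
  have u1 := Loc.s4 L0 L1
  rw [u1] at L1
  have u2 := Loc.s4 L1 L2
  rw [u2] at L2
  have u3 := Loc.s4 L2 L3
  rw [u3] at L3
  have u4 := Loc.s4 L3 L4
  rw [u4] at L4
  have M : Cyc H z d0 d1 d2 d3 d4 := by
    have z0 : H.Adj z d0 := ((L0.n _).2 (Or.inr (Or.inr (Or.inr (Or.inl rfl))))).symm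
    have z1 : H.Adj z d1 := ((L1.n _).2 (Or.inr (Or.inr (Or.inr (Or.inl rfl))))).symm
    have z2 : H.Adj z d2 := ((L2.n _).2 (Or.inr (Or.inr (Or.inr (Or.inl rfl))))).symm
    have z3 : H.Adj z d3 := ((L3.n _).2 (Or.inr (Or.inr (Or.inr (Or.inl rfl))))).symm
    have z4 : H.Adj z d4 := ((L4.n _).2 (Or.inr (Or.inr (Or.inr (Or.inl rfl))))).symm
    have a01 : H.Adj d0 d1 := (L0.n _).2 (Or.inr (Or.inr (Or.inl rfl)))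
    have a12 : H.Adj d1 d2 := (L1.n _).2 (Or.inr (Or.inr (Or.inl rfl)))
    have a23 : H.Adj d2 d3 := (L2.n _).2 (Or.inr (Or.inr (Or.inl rfl)))
    have a34 : H.Adj d3 d4 := (L3.n _).2 (Or.inr (Or.inr (Or.inl rfl)))
    have a40 : H.Adj d4 d0 := (L4.n _).2 (Or.inr (Or.inr (Or.inl rfl)))
    obtain ⟨p, q, r, M⟩ := hl.at2 z0 z1 a01
    have hp : d2 = p := M.third z2 a12 L1.d24
    have hr : d4 = r := M.last z4 a40.symm L0.d24.symm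
    subst hp hr
    have hq : d3 = q := M.rot.third z3 a23 L2.d24
    subst hq
    exact M
  have ne_x_c0 : x ≠ c0 := ((J.n _).2 (Or.inl rfl)).ne
  have ne_x_c1 : x ≠ c1 := ((J.n _).2 (Or.inr (Or.inl rfl))).ne
  have ne_x_c2 : x ≠ c2 := ((J.n _).2 (Or.inr (Or.inr (Or.inl rfl)))).ne
  have ne_x_c3 : x ≠ c3 := ((J.n _).2 (Or.inr (Or.inr (Or.inr (Or.inl rfl))))).ne
  have ne_x_c4 : x ≠ c4 := ((J.n _).2 (Or.inr (Or.inr (Or.inr (Or.inr rfl))))).ne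
  have ne_x_d4 : x ≠ d4 := K0.d03
  have ne_x_d0 : x ≠ d0 := K0.d02
  have ne_x_d1 : x ≠ d1 := K1.d02
  have ne_x_d2 : x ≠ d2 := K2.d02
  have ne_x_d3 : x ≠ d3 := K3.d02
  have ne_x_z : x ≠ z := (fun h => L0.n03 (h ▸ ((K0.n _).2 (Or.inl rfl))))
  have ne_c0_c1 : c0 ≠ c1 := ((K0.n _).2 (Or.inr (Or.inl rfl))).ne
  have ne_c0_c2 : c0 ≠ c2 := J.d02
  have ne_c0_c3 : c0 ≠ c3 := J.d03
  have ne_c0_c4 : c0 ≠ c4 := ((K0.n _).2 (Or.inr (Or.inr (Or.inr (Or.inr rfl))))).ne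
  have ne_c0_d4 : c0 ≠ d4 := ((K0.n _).2 (Or.inr (Or.inr (Or.inr (Or.inl rfl))))).ne
  have ne_c0_d0 : c0 ≠ d0 := ((K0.n _).2 (Or.inr (Or.inr (Or.inl rfl)))).ne
  have ne_c0_d1 : c0 ≠ d1 := L0.d02
  have ne_c0_d2 : c0 ≠ d2 := (fun h => K2.n02 (h ▸ ((J.n _).2 (Or.inl rfl))))
  have ne_c0_d3 : c0 ≠ d3 := K4.d13
  have ne_c0_z : c0 ≠ z := L0.d03
  have ne_c1_c2 : c1 ≠ c2 := ((K1.n _).2 (Or.inr (Or.inl rfl))).ne
  have ne_c1_c3 : c1 ≠ c3 := J.d13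
  have ne_c1_c4 : c1 ≠ c4 := J.d14
  have ne_c1_d4 : c1 ≠ d4 := K0.d13
  have ne_c1_d0 : c1 ≠ d0 := ((K1.n _).2 (Or.inr (Or.inr (Or.inr (Or.inl rfl))))).ne
  have ne_c1_d1 : c1 ≠ d1 := ((K1.n _).2 (Or.inr (Or.inr (Or.inl rfl)))).ne
  have ne_c1_d2 : c1 ≠ d2 := L1.d02
  have ne_c1_d3 : c1 ≠ d3 := (fun h => K3.n02 (h ▸ ((J.n _).2 (Or.inr (Or.inl rfl)))))
  have ne_c1_z : c1 ≠ z := L0.d13
  have ne_c2_c3 : c2 ≠ c3 := ((K2.n _).2 (Or.inr (Or.inl rfl))).ne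
  have ne_c2_c4 : c2 ≠ c4 := J.d24
  have ne_c2_d4 : c2 ≠ d4 := (fun h => K0.n03 (h ▸ ((J.n _).2 (Or.inr (Or.inr (Or.inl rfl))))))
  have ne_c2_d0 : c2 ≠ d0 := K1.d13
  have ne_c2_d1 : c2 ≠ d1 := ((K2.n _).2 (Or.inr (Or.inr (Or.inr (Or.inl rfl))))).ne
  have ne_c2_d2 : c2 ≠ d2 := ((K2.n _).2 (Or.inr (Or.inr (Or.inl rfl)))).ne
  have ne_c2_d3 : c2 ≠ d3 := L2.d02
  have ne_c2_z : c2 ≠ z := L1.d13
  have ne_c3_c4 : c3 ≠ c4 := ((K3.n _).2 (Or.inr (Or.inl rfl))).ne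
  have ne_c3_d4 : c3 ≠ d4 := L3.d02
  have ne_c3_d0 : c3 ≠ d0 := (fun h => K0.n02 (h ▸ ((J.n _).2 (Or.inr (Or.inr (Or.inr (Or.inl rfl)))))))
  have ne_c3_d1 : c3 ≠ d1 := K2.d13
  have ne_c3_d2 : c3 ≠ d2 := ((K3.n _).2 (Or.inr (Or.inr (Or.inr (Or.inl rfl))))).ne
  have ne_c3_d3 : c3 ≠ d3 := ((K3.n _).2 (Or.inr (Or.inr (Or.inl rfl)))).ne
  have ne_c3_z : c3 ≠ z := L2.d13
  have ne_c4_d4 : c4 ≠ d4 := ((K4.n _).2 (Or.inr (Or.inr (Or.inl rfl)))).ne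
  have ne_c4_d0 : c4 ≠ d0 := K0.d24.symm
  have ne_c4_d1 : c4 ≠ d1 := (fun h => K1.n02 (h ▸ ((J.n _).2 (Or.inr (Or.inr (Or.inr (Or.inr rfl)))))))
  have ne_c4_d2 : c4 ≠ d2 := K3.d13
  have ne_c4_d3 : c4 ≠ d3 := ((K4.n _).2 (Or.inr (Or.inr (Or.inr (Or.inl rfl))))).ne
  have ne_c4_z : c4 ≠ z := L3.d13
  have ne_d4_d0 : d4 ≠ d0 := ((L4.n _).2 (Or.inr (Or.inr (Or.inl rfl)))).ne
  have ne_d4_d1 : d4 ≠ d1 := L0.d24.symm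
  have ne_d4_d2 : d4 ≠ d2 := L3.d24
  have ne_d4_d3 : d4 ≠ d3 := ((L4.n _).2 (Or.inr (Or.inr (Or.inr (Or.inr rfl))))).ne
  have ne_d4_z : d4 ≠ z := ((L4.n _).2 (Or.inr (Or.inr (Or.inr (Or.inl rfl))))).ne
  have ne_d0_d1 : d0 ≠ d1 := ((L0.n _).2 (Or.inr (Or.inr (Or.inl rfl)))).ne
  have ne_d0_d2 : d0 ≠ d2 := L1.d24.symm
  have ne_d0_d3 : d0 ≠ d3 := L4.d24
  have ne_d0_z : d0 ≠ z := ((L0.n _).2 (Or.inr (Or.inr (Or.inr (Or.inl rfl))))).ne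
  have ne_d1_d2 : d1 ≠ d2 := ((L1.n _).2 (Or.inr (Or.inr (Or.inl rfl)))).ne
  have ne_d1_d3 : d1 ≠ d3 := L2.d24.symm
  have ne_d1_z : d1 ≠ z := ((L1.n _).2 (Or.inr (Or.inr (Or.inr (Or.inl rfl))))).ne
  have ne_d2_d3 : d2 ≠ d3 := ((L2.n _).2 (Or.inr (Or.inr (Or.inl rfl)))).ne
  have ne_d2_z : d2 ≠ z := ((L2.n _).2 (Or.inr (Or.inr (Or.inr (Or.inl rfl))))).ne
  have ne_d3_z : d3 ≠ z := ((L3.n _).2 (Or.inr (Or.inr (Or.inr (Or.inl rfl))))).ne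
  have hnd : List.Nodup [x, c0, c1, c2, c3, c4, d4, d0, d1, d2, d3, z] := by
    simp only [List.nodup_cons, List.mem_cons, List.not_mem_nil, or_false, not_or, List.nodup_nil,
      and_true, not_false_eq_true]
    exact ⟨⟨ne_x_c0, ne_x_c1, ne_x_c2, ne_x_c3, ne_x_c4, ne_x_d4, ne_x_d0, ne_x_d1, ne_x_d2, ne_x_d3, ne_x_z⟩,
      ⟨ne_c0_c1, ne_c0_c2, ne_c0_c3, ne_c0_c4, ne_c0_d4, ne_c0_d0, ne_c0_d1, ne_c0_d2, ne_c0_d3, ne_c0_z⟩,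
      ⟨ne_c1_c2, ne_c1_c3, ne_c1_c4, ne_c1_d4, ne_c1_d0, ne_c1_d1, ne_c1_d2, ne_c1_d3, ne_c1_z⟩,
      ⟨ne_c2_c3, ne_c2_c4, ne_c2_d4, ne_c2_d0, ne_c2_d1, ne_c2_d2, ne_c2_d3, ne_c2_z⟩,
      ⟨ne_c3_c4, ne_c3_d4, ne_c3_d0, ne_c3_d1, ne_c3_d2, ne_c3_d3, ne_c3_z⟩,
      ⟨ne_c4_d4, ne_c4_d0, ne_c4_d1, ne_c4_d2, ne_c4_d3, ne_c4_z⟩,
      ⟨ne_d4_d0, ne_d4_d1, ne_d4_d2, ne_d4_d3, ne_d4_z⟩,
      ⟨ne_d0_d1, ne_d0_d2, ne_d0_d3, ne_d0_z⟩,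
      ⟨ne_d1_d2, ne_d1_d3, ne_d1_z⟩, ⟨ne_d2_d3, ne_d2_z⟩, ne_d3_z⟩
  let f : Fin 12 → U := fun i => [x, c0, c1, c2, c3, c4, d4, d0, d1, d2, d3, z].get i
  have hinj : Function.Injective f := fun i j h => List.nodup_iff_injective_get.1 hnd h
  have hadj : ∀ i y, H.Adj (f i) y ↔ ∃ j ∈ nb i, y = f j := by
    intro i y
    fin_cases i
    · simpa [nb, f] using J.n y
    · simpa [nb, f] using K0.n y
    · simpa [nb, f] using K1.n y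
    · simpa [nb, f] using K2.n y
    · simpa [nb, f] using K3.n y
    · simpa [nb, f] using K4.n y
    · simpa [nb, f] using L4.n y
    · simpa [nb, f] using L0.n y
    · simpa [nb, f] using L1.n y
    · simpa [nb, f] using L2.n y
    · simpa [nb, f] using L3.n y
    · simpa [nb, f] using M.n y
  refine ⟨f, ⟨hinj, ?_⟩, ?_⟩
  · intro y
    obtain ⟨p⟩ := hc.preconnected (f 0) y
    have key : ∀ (u v : U) (p : H.Walk u v), (∃ i, f i = u) → ∃ i, f i = v := by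
      intro u v p
      induction p with
      | nil => exact id
      | cons h _ ih =>
        rintro ⟨i, rfl⟩
        obtain ⟨j, _, hj⟩ := (hadj i _).1 h
        exact ih ⟨j, hj.symm⟩
    exact key _ _ p ⟨0, rfl⟩
  · intro i j
    rw [hadj]
    constructor
    · rintro ⟨k, hk, hjk⟩
      rwa [hinj hjk]
    · intro h
      exact ⟨j, h, rfl⟩

end

end Ico46

open Ico46 in
theorem ico {V : Type} [Fintype V] (G : SimpleGraph V) (w : V) (hw : ∀ x, x ≠ w → G.Adj w x) (hc : (G.induce ({w} : Set V)ᶜ).Connected) (hloc : ∀ x, x ≠ w → ∃ c₀ c₁ c₂ c₃ c₄ : V, (∀ y, y ≠ w → (G.Adj x y ↔ y = c₀ ∨ y = c₁ ∨ y = c₂ ∨ y = c₃ ∨ y = c₄)) ∧ (c₀ ≠ c₂ ∧ c₀ ≠ c₃ ∧ c₁ ≠ c₃ ∧ c₁ ≠ c₄ ∧ c₂ ≠ c₄) ∧ (c₀ ≠ w ∧ c₁ ≠ w ∧ c₂ ≠ w ∧ c₃ ≠ w ∧ c₄ ≠ w) ∧ G.Adj c₀ c₁ ∧ G.Adj c₁ c₂ ∧ G.Adj c₂ c₃ ∧ G.Adj c₃ c₄ ∧ G.Adj c₄ c₀ ∧ ¬ G.Adj c₀ c₂ ∧ ¬ G.Adj c₀ c₃ ∧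 ¬ G.Adj c₁ c₃ ∧ ¬ G.Adj c₁ c₄ ∧ ¬ G.Adj c₂ c₄) : Nonempty (G ≃g coneIco) := by
  have hl : Loc (G.induce ({w} : Set V)ᶜ) := by
    rintro ⟨x, hx⟩
    obtain ⟨c0, c1, c2, c3, c4, h1, ⟨e1, e2, e3, e4, e5⟩, ⟨f0, f1, f2, f3, f4⟩, a0, a1, a2, a3, a4, n0, n1, n2, n3, n4⟩ := hloc x hx
    refine ⟨⟨c0, f0⟩, ⟨c1, f1⟩, ⟨c2, f2⟩, ⟨c3, f3⟩, ⟨c4, f4⟩, ?_, a0, a1, a2, a3, a4, n0, n1, n2, n3, n4, ?_, ?_, ?_, ?_, ?_⟩
    · rintro ⟨y, hy⟩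
      rw [Subtype.ext_iff, Subtype.ext_iff, Subtype.ext_iff, Subtype.ext_iff, Subtype.ext_iff]
      exact h1 y hy
    all_goals simpa [Subtype.ext_iff]
  obtain ⟨f, ⟨hinj, hsurj⟩, hadj⟩ := core hc hl
  let g : Fin 13 → V := Fin.cons w (fun i => (f i).1)
  have g0 : g 0 = w := rfl
  have gs : ∀ i, g (Fin.succ i) = (f i).1 := fun i => rfl
  have fw : ∀ i, (f i).1 ≠ w := fun i => (f i).2
  have ginj : Function.Injective g := by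
    intro i j
    refine Fin.cases ?_ (fun i => ?_) i <;> refine Fin.cases ?_ (fun j => ?_) j
    · intro _; rfl
    · intro h; exact absurd h.symm (fw j)
    · intro h; exact absurd h (fw i)
    · intro h; exact congrArg Fin.succ (hinj (Subtype.ext h))
  have gsurj : Function.Surjective g := by
    intro y
    by_cases hy : y = w
    · exact ⟨0, hy.symm⟩
    · obtain ⟨i, hi⟩ := hsurj ⟨y, hy⟩
      exact ⟨i.succ, by rw [gs, hi]⟩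
  have gadj : ∀ i j, G.Adj (g i) (g j) ↔ coneIco.Adj i j := by
    intro i j
    refine Fin.cases ?_ (fun i => ?_) i <;> refine Fin.cases ?_ (fun j => ?_) j
    · simp
    · have h1 : G.Adj (g 0) (g j.succ) := hw _ (fw j)
      refine iff_of_true h1 ?_
      rw [coneIco, SimpleGraph.fromRel_adj]
      exact ⟨(Fin.succ_ne_zero j).symm, Or.inl (Or.inl rfl)⟩
    · have h1 : G.Adj (g i.succ) (g 0) := (hw _ (fw i)).symm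
      refine iff_of_true h1 ?_
      rw [coneIco, SimpleGraph.fromRel_adj]
      exact ⟨Fin.succ_ne_zero i, Or.inr (Or.inl rfl)⟩
    · have h1 : G.Adj (g i.succ) (g j.succ) ↔ j ∈ nb i := hadj i j
      rw [h1, coneIco, SimpleGraph.fromRel_adj]
      clear h1
      revert i j
      decide
  exact ⟨RelIso.symm ⟨Equiv.ofBijective g ⟨ginj, gsurj⟩, by
    intro i j
    exact gadj i j⟩⟩

end Pool.Agent.LD6
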