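import Pool.Agent.LD6.F4
import Pool.Agent.LD6.Fin
import Pool.Agent.LD6.Ico

/-!
LD6, Theorem F: an isolated claw centre in a 6-connected graph without a `K₆` minor is the apex of
the cone over the icosahedron.
-/

set_option autoImplicit false

namespace Pool.Agent.LD6

open Finset Pool.Agent.LG6

variable {V : Type} {G : SimpleGraph V} [DecidableEq V]

/-- `T2` next to an isolated claw centre. -/
theorem t2_iso (hm : ¬ HasCompleteMinor 6 G) (hL : Gl G) (hB : LemB G) (hX : LemX G)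
    {w v s t a b a' b' : V} (h : T2 G v s t a b a' b') (vw : G.Adj v w)
    (h1 : ∀ x, G.Adj w x → At G x) (h2 : ∀ x z, G.Adj w x → G.Adj x z → z ≠ w → At G z) :
    False := by
  have h' := h
  obtain ⟨vs, vt, va, vb, va', vb', st, sa, sb, ta, tb, aa', bb', ab', nsa, nsb, nta, ntb, nab,
    nab', nba', m1, m2, m3, m4, m5, m6, m7⟩ := h'
  have Av := h1 v vw.symm
  have hA : ∀ x, G.Adj v x → x ≠ w → At G x := fun x hx hxw => h2 v x vw.symm hx hxw
  have Nv := Av.all vs vt va vb va' vb'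
    ⟨st.ne, sa.ne, sb.ne, m1, m2, ta.ne, tb.ne, m3, m4, m5, aa'.ne, m6, m7, bb'.ne, ab'.ne⟩
  rcases Nv w vw with rfl | rfl | rfl | rfl | rfl | rfl
  · exact t2_alpha hm hL hB hX h h1 h2
  · exact t2_alpha hm hL hB hX h.swap h1 h2
  · exact t2_beta hm hL hB hX h h1 h2
  · exact t2_beta hm hL hB hX h.rev h1 h2
  · exact t2_gen hm hL hB Av (hA s vs m1) (hA t vt m3) (hA b vb m7) (hA a va aa'.ne)
      (hA b' vb' ab'.ne.symm) h.rev
  · exact t2_gen hm hL hB Av (hA s vs m2) (hA t vt m4) (hA a va m6) (hA b vb bb'.ne)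
      (hA a' va' ab'.ne) h

variable [Fintype V]

/-- Two triangles next to an isolated claw centre. -/
theorem qv_iso (hG : IsKConnected 6 G) (hm : ¬ HasCompleteMinor 6 G) (hL : Gl G) (hB : LemB G)
    (hX : LemX G) {w v : V} {A B : Finset V} (q : QV G v A B) (hwA : w ∈ A)
    (h1 : ∀ x, G.Adj w x → At G x) (h2 : ∀ x z, G.Adj w x → G.Adj x z → z ≠ w → At G z) :
    False := by
  have vw : G.Adj v w := (q.nbr w).2 (Or.inl hwA)
  have Av := h1 v vw.symm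
  have hA : ∀ x, G.Adj v x → x ≠ w → At G x := fun x hx hxw => h2 v x vw.symm hx hxw
  have hbw : ∀ b ∈ B, b ≠ w := by
    rintro b hb rfl
    exact q.disj _ hwA hb
  have hb : ∀ b ∈ B, ∃ a ∈ A, G.Adj b a := by
    intro b hb
    by_contra hno
    push Not at hno
    exact case_two hX q.swap hb (hA b ((q.nbr b).2 (Or.inr hb)) (hbw b hb)) hno
  have star : ∀ a ∈ A, ∃ b ∈ B, G.Adj a b ∧ ∀ x ∈ A, G.Adj b x → x = a := by
    intro a ha
    obtain ⟨b, hbB, hb'⟩ := star_A hG hm q ha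
    obtain ⟨x, hx, hbx⟩ := hb b hbB
    have := hb' x hx hbx
    subst this
    exact ⟨b, hbB, hbx.symm, hb'⟩
  obtain ⟨a₂, ha2, a₃, ha3, m12', m13', m23, mA⟩ := others q.hA hwA
  have m12 := Ne.symm m12'
  have m13 := Ne.symm m13'
  obtain ⟨b₁, hb1, c1, s1⟩ := star w hwA
  obtain ⟨b₂, hb2, c2, s2⟩ := star a₂ ha2
  obtain ⟨b₃, hb3, c3, s3⟩ := star a₃ ha3
  have n12 : ¬ G.Adj w b₂ := fun h => m12 (s2 w hwA h.symm)
  have n13 : ¬ G.Adj w b₃ := fun h => m13 (s3 w hwA h.symm)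
  have n21 : ¬ G.Adj a₂ b₁ := fun h => m12 (s1 a₂ ha2 h.symm).symm
  have n23 : ¬ G.Adj a₂ b₃ := fun h => m23 (s3 a₂ ha2 h.symm)
  have n31 : ¬ G.Adj a₃ b₁ := fun h => m13 (s1 a₃ ha3 h.symm).symm
  have n32 : ¬ G.Adj a₃ b₂ := fun h => m23 (s2 a₃ ha3 h.symm).symm
  have e12 : b₁ ≠ b₂ := fun h => n12 (h ▸ c1)
  have e13 : b₁ ≠ b₃ := fun h => n13 (h ▸ c1)
  have e23 : b₂ ≠ b₃ := fun h => n23 (h ▸ c2)
  have hBe : B = {b₁, b₂, b₃} := by
    symm
    apply eq_of_subset_of_card_le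
    · intro x hx
      simp only [mem_insert, mem_singleton] at hx
      rcases hx with rfl | rfl | rfl <;> assumption
    · rw [q.hB, card_eq_three.2 ⟨b₁, b₂, b₃, e12, e13, e23, rfl⟩]
  have mB : ∀ x, x ∈ B ↔ x = b₁ ∨ x = b₂ ∨ x = b₃ := by
    intro x
    rw [hBe]
    simp only [mem_insert, mem_singleton]
  have dAB : ∀ a ∈ A, ∀ b ∈ B, a ≠ b := by
    rintro a ha b hb rfl
    exact q.disj a ha hb
  have h : M G v w a₂ a₃ b₁ b₂ b₃ :=
    ⟨vw, (q.nbr _).2 (Or.inl ha2), (q.nbr _).2 (Or.inl ha3),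
      (q.nbr _).2 (Or.inr hb1), (q.nbr _).2 (Or.inr hb2), (q.nbr _).2 (Or.inr hb3),
      q.cA _ hwA _ ha2 m12, q.cA _ hwA _ ha3 m13, q.cA _ ha2 _ ha3 m23,
      q.cB _ hb1 _ hb2 e12, q.cB _ hb1 _ hb3 e13, q.cB _ hb2 _ hb3 e23, c1, c2, c3, n12, n13,
      n21, n23, n31, n32, ⟨dAB _ hwA _ hb2, dAB _ hwA _ hb3, dAB _ ha2 _ hb1, dAB _ ha2 _ hb3,
        dAB _ ha3 _ hb1, dAB _ ha3 _ hb2⟩, fun x hx => by
          rcases (q.nbr x).1 hx with h | h
          · rcases mA x h with h | h | h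
            · exact Or.inl h
            · exact Or.inr (Or.inl h)
            · exact Or.inr (Or.inr (Or.inl h))
          · rcases (mB x).1 h with h | h | h
            · exact Or.inr (Or.inr (Or.inr (Or.inl h)))
            · exact Or.inr (Or.inr (Or.inr (Or.inr (Or.inl h))))
            · exact Or.inr (Or.inr (Or.inr (Or.inr (Or.inr h))))⟩
  have A2 := hA _ h.va2 m12'
  have A3 := hA _ h.va3 m13'
  have B1 := hA _ h.vb1 (hbw _ hb1)
  have B2 := hA _ h.vb2 (hbw _ hb2)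
  have B3 := hA _ h.vb3 (hbw _ hb3)
  have hC : Cm G v w a₂ a₃ b₁ b₂ b₃ := fun p s k1 k2 k3 k4 k5 k6 k7 k8 k9 k10 k11 =>
    h.common hG hm hL k1 k2 k3 k4 k5 k6 k7 k8 k9 k10 k11
  obtain ⟨x₁, y₁, e1, e2, e3, e4, e5, e6, e7, e8, e9, e10⟩ := h.sw.ty hL hB B1
  obtain ⟨x₂, y₂, f1, f2, f3, f4, f5, f6, f7, f8, f9, f10⟩ := h.p12.ty hL hB A2
  obtain ⟨x₃, y₃, g1, g2, g3, g4, g5, g6, g7, g8, g9, g10⟩ := h.p23.p12.ty hL hB A3
  rcases e10 with e10 | ⟨k1, k2, k3, k4, k5, k6⟩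
  · rcases f10 with f10 | ⟨k1, k2, k3, k4, k5, k6⟩
    · rcases g10 with g10 | ⟨k1, k2, k3, k4, k5, k6⟩
      · exact h.allOne hm hL hB hX hC ⟨e1, e10.1, e10.2, e2, e3, e4, e5, e6, e7, e8⟩
          ⟨f1, f2, f3, f10.1, f10.2, f4, f5, f6, f7, f8⟩
          ⟨g1, g2, g3, g10.1, g10.2, g4, g5, g6, g7, g8⟩
      · -- `T2 G a₃ w a₂ v x₃ b₃ y₃`
        exact t2_alpha hm hL hB hX (v := a₃) (s := w) (t := a₂) (a := v) (b := x₃) (a' := b₃)
          (b' := y₃) ⟨h.a13.symm, h.a23.symm, h.va3.symm, g2, h.c3, g3, h.a12, h.va1.symm, k3,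
            h.va2.symm, k4, h.vb3, g4, k2, h.n13, k5, h.n23, k6, g5, g6, fun h' => k1 h'.symm,
            ⟨h.ne.2.1, fun h' => g6 (h' ▸ h.va1), h.ne.2.2.2.1, fun h' => g6 (h' ▸ h.va2), g7.symm,
              g8.symm, fun h' => g5 (h' ▸ h.vb3)⟩⟩ h1 h2
    · exact t2_alpha hm hL hB hX (v := a₂) (s := w) (t := a₃) (a := v) (b := x₂) (a' := b₂)
        (b' := y₂) ⟨h.a12.symm, h.a23, h.va2.symm, f2, h.c2, f3, h.a13, h.va1.symm, k3,
          h.va3.symm, k4, h.vb2, f4, k2, h.n12, k5, h.n32, k6, f5, f6, fun h' => k1 h'.symm,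
          ⟨h.ne.1, fun h' => f6 (h' ▸ h.va1), h.ne.2.2.2.2.2, fun h' => f6 (h' ▸ h.va3), f7.symm,
            f8.symm, fun h' => f5 (h' ▸ h.vb2)⟩⟩ h1 h2
  · -- `T2 G b₁ b₂ b₃ x₁ v y₁ w`
    have xw : x₁ ≠ w := fun h' => e5 (h' ▸ h.va1)
    exact t2_gen hm hL hB (v := b₁) (s := b₂) (t := b₃) (a := x₁) (b := v) (a' := y₁) (b' := w)
      B1 B2 B3 (h2 b₁ x₁ h.c1 e2 xw) Av (h1 y₁ k2)
      ⟨h.b12, h.b13, e2, h.vb1.symm, e3, h.c1.symm, h.b23, k3, h.vb2.symm, k4, h.vb3.symm, e4,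
        h.va1, k2.symm, k5, fun h' => h.n12 h'.symm, k6, fun h' => h.n13 h'.symm,
        fun h' => e5 h'.symm, fun h' => k1 h'.symm, e6,
        ⟨fun h' => e6 (h' ▸ h.vb2), h.ne.1.symm, fun h' => e6 (h' ▸ h.vb3), h.ne.2.1.symm, e7, xw,
          e8.symm⟩⟩

/-- The neighbourhood of a neighbour `v` of an isolated claw centre `w`. -/
theorem iso_nbr (hG : IsKConnected 6 G) (hm : ¬ HasCompleteMinor 6 G) {w v : V}
    (vw : G.Adj v w) (h1 : ∀ x, G.Adj w x → At G x)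
    (h2 : ∀ x z, G.Adj w x → G.Adj x z → z ≠ w → At G z) :
    ∃ c₀ c₁ c₂ c₃ c₄ : V, HC G v w c₀ c₁ c₂ c₃ c₄ ∧ G.Adj w c₀ ∧ G.Adj w c₄ := by
  have hL := Gl.mk' hG hm
  have hB := lemB hG hm
  have hX := lemX hG hm
  have Av := h1 v vw.symm
  have hA : ∀ x, G.Adj v x → x ≠ w → At G x := fun x hx hxw => h2 v x vw.symm hx hxw
  by_cases hH : ∃ u c₀ c₁ c₂ c₃ c₄ : V, HC G v u c₀ c₁ c₂ c₃ c₄
  · obtain ⟨u, c₀, c₁, c₂, c₃, c₄, h⟩ := hH
    have h' := h
    obtain ⟨vu, v0, v1, v2, v3, v4, a01, a12, a23, a34, a40, n02, n13, n24, n30, n41, m02, m13,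
      m24, m30, m41, u1, u2, u3, un0, un4⟩ := h'
    by_cases h0 : G.Adj u c₀ <;> by_cases h4 : G.Adj u c₄
    · by_cases huw : u = w
      · subst huw
        exact ⟨c₀, c₁, c₂, c₃, c₄, h, h0, h4⟩
      · exfalso
        apply Av.out u vu
        have Nu := (hA u vu huw).all vu.symm h0 u1 u2 u3 h4
          ⟨v0.ne, v1.ne, v2.ne, v3.ne, v4.ne, a01.ne, m02, m30.symm, a40.ne.symm, a12.ne, m13,
            m41.symm, a23.ne, m24, a34.ne⟩
        intro x hx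
        rcases Nu x hx with rfl | rfl | rfl | rfl | rfl | rfl
        · exact Or.inl rfl
        · exact Or.inr v0
        · exact Or.inr v1
        · exact Or.inr v2
        · exact Or.inr v3
        · exact Or.inr v4
    · exfalso
      have h3 : T3 G v u c₀ c₁ c₂ c₃ c₄ :=
        ⟨vu, v0, v1, v2, v3, v4, h0, u1, u2, u3, a01, a12, a23, a40, a34.symm, n02,
          fun h => n30 h.symm, n13, n41, fun h => n24 h.symm, fun h => h4 h.symm,
          ⟨m02, m30.symm, m13, m41, m24.symm, un4.symm⟩⟩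
      by_cases hw : c₄ = w
      · subst hw
        exact t3_iso hL hB hX h3 h1 h2
      · exact t3_false hL hB Av (hA _ v4 hw) h3
    · exfalso
      have h3 : T3 G v u c₁ c₂ c₃ c₄ c₀ :=
        ⟨vu, v1, v2, v3, v4, v0, u1, u2, u3, h4, a12, a23, a34, a01, a40.symm, n13,
          fun h => n41 h.symm, n24, n02, fun h => n30 h.symm, fun h => h0 h.symm,
          ⟨m13, m41.symm, m24, m02, m30.symm, un0.symm⟩⟩
      by_cases hw : c₀ = w
      · subst hw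
        exact t3_iso hL hB hX h3 h1 h2
      · exact t3_false hL hB Av (hA _ v0 hw) h3
    · exfalso
      exact t2_iso hm hL hB hX (v := v) (s := u) (t := c₂) (a := c₁) (b := c₃) (a' := c₀)
        (b' := c₄) ⟨vu, v2, v1, v3, v0, v4, u2, u1, u3, a12.symm, a23, a01.symm, a34, a40.symm, h0,
          h4, fun h => n02 h.symm, n24, n13, fun h => n41 h.symm, n30,
          ⟨un0, un4, m02.symm, m24, m13, m41.symm, m30⟩⟩ vw h1 h2
  · exfalso
    push Not at hH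
    obtain ⟨A, B, q⟩ := local_qv2 hL Av hH
    rcases (q.nbr w).1 vw with hw | hw
    · exact qv_iso hG hm hL hB hX q hw h1 h2
    · exact qv_iso hG hm hL hB hX q.swap hw h1 h2

/-- An isolated claw centre is the apex of the cone over the icosahedron. -/
theorem iso_main (hG : IsKConnected 6 G) (hm : ¬ HasCompleteMinor 6 G) {w : V}
    (h1' : ∀ x, G.Adj w x → NC G x)
    (h2' : ∀ x z, G.Adj w x → G.Adj x z → z ≠ w → NC G z) : Nonempty (G ≃g coneIco) := by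
  have h1 : ∀ x, G.Adj w x → At G x := fun x hx => At.mk' hG hm (h1' x hx)
  have h2 : ∀ x z, G.Adj w x → G.Adj x z → z ≠ w → At G z := fun x z hx hz hzw =>
    At.mk' hG hm (h2' x z hx hz hzw)
  have key : ∀ v, G.Adj w v → ∃ c₀ c₁ c₂ c₃ c₄ : V, HC G v w c₀ c₁ c₂ c₃ c₄ ∧ G.Adj w c₀ ∧
      G.Adj w c₄ ∧ ∀ y, G.Adj v y → y = w ∨ y = c₀ ∨ y = c₁ ∨ y = c₂ ∨ y = c₃ ∨ y = c₄ := by
    intro v hv
    obtain ⟨c₀, c₁, c₂, c₃, c₄, h, h0, h4⟩ := iso_nbr hG hm hv.symm h1 h2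
    refine ⟨c₀, c₁, c₂, c₃, c₄, h, h0, h4, ?_⟩
    exact (h1 v hv).all h.vw h.v0 h.v1 h.v2 h.v3 h.v4
      ⟨h.wn0, h.w1.ne, h.w2.ne, h.w3.ne, h.wn4, h.a01.ne, h.m02, h.m30.symm, h.a40.ne.symm,
        h.a12.ne, h.m13, h.m41.symm, h.a23.ne, h.m24, h.a34.ne⟩
  have hw : ∀ x, x ≠ w → G.Adj w x := by
    intro x hx
    by_contra hno
    obtain ⟨g, u, _, _, hgu, hgD, huD⟩ := cross (hG.2 ∅ (by simp)) {z | z = w ∨ G.Adj w z}
      (e := w) (f := x) (by simp) (by simp) (Or.inl rfl) (by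
        simp only [Set.mem_ofPred_eq]
        rintro (h | h)
        · exact hx h
        · exact hno h)
    simp only [Set.mem_ofPred_eq, not_or] at hgD huD
    rcases hgD with rfl | hgD
    · exact huD.2 hgu
    · obtain ⟨c₀, c₁, c₂, c₃, c₄, h, h0, h4, hN⟩ := key g hgD
      rcases hN u hgu with rfl | rfl | rfl | rfl | rfl | rfl
      · exact huD.1 rfl
      · exact huD.2 h0
      · exact huD.2 h.w1
      · exact huD.2 h.w2
      · exact huD.2 h.w3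
      · exact huD.2 h4
  refine ico G w hw ?_ ?_
  · have := hG.2 {w} (by simp)
    rwa [coe_singleton] at this
  · intro x hx
    obtain ⟨c₀, c₁, c₂, c₃, c₄, h, h0, h4, hN⟩ := key x (hw x hx)
    refine ⟨c₀, c₁, c₂, c₃, c₄, ?_, ⟨h.m02, h.m30.symm, h.m13, h.m41.symm, h.m24⟩,
      ⟨h0.ne.symm, h.w1.ne.symm, h.w2.ne.symm, h.w3.ne.symm, h4.ne.symm⟩, h.a01, h.a12, h.a23,
      h.a34, h.a40, h.n02, fun h' => h.n30 h'.symm, h.n13, fun h' => h.n41 h'.symm, h.n24⟩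
    intro y hy
    constructor
    · intro hxy
      rcases hN y hxy with h | h | h | h | h | h
      · exact absurd h hy
      · exact Or.inl h
      · exact Or.inr (Or.inl h)
      · exact Or.inr (Or.inr (Or.inl h))
      · exact Or.inr (Or.inr (Or.inr (Or.inl h)))
      · exact Or.inr (Or.inr (Or.inr (Or.inr h)))
    · rintro (rfl | rfl | rfl | rfl | rfl)
      · exact h.v0
      · exact h.v1
      · exact h.v2
      · exact h.v3
      · exact h.v4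

end Pool.Agent.LD6
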