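import Pool.Agent.LD6.Base

/-!
LD6: the local versions of the lemmas `T3`, `T2` and `hub`: only the vertices of the closed
neighbourhood of `v` have to be centres of no claw.
-/

set_option autoImplicit false

namespace Pool.Agent.LD6

open Finset Pool.Agent.LG6

variable {V : Type} {G : SimpleGraph V}

/-- The statement of Lemma B (negated form, for graphs without a `K₆` minor). -/
def LemB (G : SimpleGraph V) : Prop :=
  ∀ p p' q₁ q₂ q₃ q₄ k₁ k₂ k₃ k₄ : V, G.Adj p p' → G.Adj p q₁ → G.Adj p q₂ → G.Adj p q₃ →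
    G.Adj p q₄ → G.Adj p' q₁ → G.Adj p' q₂ → G.Adj p' q₃ → G.Adj p' q₄ →
    G.Adj k₁ k₂ → G.Adj k₁ k₃ → G.Adj k₁ k₄ → G.Adj k₂ k₃ → G.Adj k₂ k₄ → G.Adj k₃ k₄ →
    (q₁ ≠ q₂ ∧ q₁ ≠ q₃ ∧ q₁ ≠ q₄ ∧ q₂ ≠ q₃ ∧ q₂ ≠ q₄ ∧ q₃ ≠ q₄) →
    (k₁ ≠ p ∧ k₂ ≠ p ∧ k₃ ≠ p ∧ k₄ ≠ p ∧ k₁ ≠ p' ∧ k₂ ≠ p' ∧ k₃ ≠ p' ∧ k₄ ≠ p') → False

theorem t3_false (hL : Gl G) (hB : LemB G) {v w p₁ p₂ p₃ p₄ y : V} (Av : At G v) (Ay : At G y)
    (h : T3 G v w p₁ p₂ p₃ p₄ y) : False := by
  obtain ⟨vw, v1, v2, v3, v4, vy, w1, w2, w3, w4, p12, p23, p34, y1, y4, n13, n14, n24, ny2, ny3,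
    nyw, m13, m14, m24, my2, my3, myw⟩ := h
  have sym := hL.sym
  have irr := hL.irr
  have Nv := Av.all vw v1 v2 v3 v4 vy (by and_intros <;> grind)
  obtain ⟨t₁, t₂, t₃, a1, a2, a3, b12, b13, b23⟩ := Ay.tri
  have key : ∀ s t : V, G.Adj y s → G.Adj y t → G.Adj v s → G.Adj v t → G.Adj s t → False := by
    intro s t ys yt vs vt st
    have h1 := Nv s vs
    have h2 := Nv t vt
    grind
  have n1 : t₁ ≠ v := by
    rintro rfl
    exact key t₂ t₃ a2 a3 b12 b13 b23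
  have n2 : t₂ ≠ v := by
    rintro rfl
    exact key t₁ t₃ a1 a3 b12.symm b23 b13
  have n3 : t₃ ≠ v := by
    rintro rfl
    exact key t₁ t₂ a1 a2 b13.symm b23.symm b12
  exact hB v w p₁ p₂ p₃ p₄ y t₁ t₂ t₃ vw v1 v2 v3 v4 w1 w2 w3 w4 a1 a2 a3 b12 b13 b23
    (by and_intros <;> grind) (by and_intros <;> grind)

/-- `s` and `t` have no common outside neighbour. -/
theorem t2_nocommon (hL : Gl G) (hB : LemB G) {v s t a b a' b' e : V} (Aa' : At G a')
    (h : T2 G v s t a b a' b') (se : G.Adj s e) (te : G.Adj t e)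
    (nve : ¬ G.Adj v e) (nev : e ≠ v) : False := by
  obtain ⟨vs, vt, va, vb, va', vb', st, sa, sb, ta, tb, aa', bb', ab', nsa, nsb, nta, ntb, nab,
    nab', nba', m1, m2, m3, m4, m5, m6, m7⟩ := h
  have sym := hL.sym
  have irr := hL.irr
  obtain ⟨t₁, t₂, t₃, a1, a2, a3, b12, b13, b23⟩ := Aa'.tri
  exact hB s t v a b e a' t₁ t₂ t₃ st vs.symm sa sb se vt.symm ta tb te a1 a2 a3 b12 b13 b23
    (by and_intros <;> grind) (by and_intros <;> grind)

theorem t2_same (hL : Gl G) {v s t a b a' b' e e' : V} (As : At G s) (Aa : At G a)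
    (h : T2 G v s t a b a' b')
    (se : G.Adj s e) (se' : G.Adj s e') (ee : e ≠ e') (nve : ¬ G.Adj v e) (nve' : ¬ G.Adj v e')
    (ev : e ≠ v) (ev' : e' ≠ v) (nte : ¬ G.Adj t e) (nte' : ¬ G.Adj t e') (ae : G.Adj a e)
    (ae' : G.Adj a e') : False := by
  obtain ⟨vs, vt, va, vb, va', vb', st, sa, sb, ta, tb, aa', bb', ab', nsa, nsb, nta, ntb, nab,
    nab', nba', m1, m2, m3, m4, m5, m6, m7⟩ := h
  have sym := hL.sym
  have irr := hL.irr
  have hee : G.Adj e e' := by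
    have := As.claw v e e' vs.symm se se' (by grind) (by grind) ee
    grind
  have h1 : G.Adj a' e := by
    have := Aa.claw t a' e ta.symm aa' ae (by grind) (by grind) (by grind)
    grind
  have h2 : G.Adj a' e' := by
    have := Aa.claw t a' e' ta.symm aa' ae' (by grind) (by grind) (by grind)
    grind
  exact Aa.dom s e e' v a' t sa.symm ae ae' va.symm aa' ta.symm se se' hee va'
    (by and_intros <;> grind) (Or.inl vs.symm) (Or.inr h1.symm) (Or.inr h2.symm)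

variable [DecidableEq V]

/-- Outside neighbours `e, e'` of `s` and `g, g'` of `t`, with `e, g` adjacent to `a` and `e', g'`
adjacent to `b`. -/
theorem t2_mixed (hm : ¬ HasCompleteMinor 6 G) (hL : Gl G)
    {v s t a b a' b' e e' g g' : V} (Av : At G v) (As : At G s) (At' : At G t) (Aa : At G a)
    (Ab : At G b) (Aa' : At G a') (Ab' : At G b') (h : T2 G v s t a b a' b') (se : G.Adj s e)
    (se' : G.Adj s e') (tg : G.Adj t g) (tg' : G.Adj t g') (nte : ¬ G.Adj t e)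
    (nte' : ¬ G.Adj t e') (nsg : ¬ G.Adj s g) (nsg' : ¬ G.Adj s g') (ee : e ≠ e') (gg : g ≠ g')
    (nve : ¬ G.Adj v e) (nve' : ¬ G.Adj v e') (nvg : ¬ G.Adj v g) (nvg' : ¬ G.Adj v g')
    (ev : e ≠ v) (ev' : e' ≠ v) (gv : g ≠ v) (gv' : g' ≠ v) (ae : G.Adj a e) (ag : G.Adj a g)
    (be' : G.Adj b e') (bg' : G.Adj b g') : False := by
  obtain ⟨vs, vt, va, vb, va', vb', st, sa, sb, ta, tb, aa', bb', ab', nsa, nsb, nta, ntb, nab,
    nab', nba', m1, m2, m3, m4, m5, m6, m7⟩ := h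
  have sym := hL.sym
  have irr := hL.irr
  have ndist : ∀ x y z, G.Adj x y → ¬ G.Adj x z → y ≠ z := fun x y z h h' e => h' (e ▸ h)
  have es : e ≠ s := se.ne.symm
  have es' : e' ≠ s := se'.ne.symm
  have et : e ≠ t := (ndist v t e vt nve).symm
  have et' : e' ≠ t := (ndist v t e' vt nve').symm
  have gs : g ≠ s := (ndist v s g vs nvg).symm
  have gs' : g' ≠ s := (ndist v s g' vs nvg').symm
  have gt : g ≠ t := tg.ne.symm
  have gt' : g' ≠ t := tg'.ne.symm
  have eg : e ≠ g := ndist s e g se nsg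
  have eg' : e ≠ g' := ndist s e g' se nsg'
  have e'g : e' ≠ g := ndist s e' g se' nsg
  have e'g' : e' ≠ g' := ndist s e' g' se' nsg'
  have ea' : e ≠ a' := (ndist v a' e va' nve).symm
  have eb' : e ≠ b' := (ndist v b' e vb' nve).symm
  have e'a' : e' ≠ a' := (ndist v a' e' va' nve').symm
  have e'b' : e' ≠ b' := (ndist v b' e' vb' nve').symm
  have ga' : g ≠ a' := (ndist v a' g va' nvg).symm
  have gb' : g ≠ b' := (ndist v b' g vb' nvg).symm
  have g'a' : g' ≠ a' := (ndist v a' g' va' nvg').symm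
  have g'b' : g' ≠ b' := (ndist v b' g' vb' nvg').symm
  have ea : e ≠ a := ae.ne.symm
  have ga : g ≠ a := ag.ne.symm
  have e'b : e' ≠ b := be'.ne.symm
  have g'b : g' ≠ b := bg'.ne.symm
  have eb : e ≠ b := (ndist v b e vb nve).symm
  have gb : g ≠ b := (ndist v b g vb nvg).symm
  have e'a : e' ≠ a := (ndist v a e' va nve').symm
  have g'a : g' ≠ a := (ndist v a g' va nvg').symm
  have Na := Aa.all va.symm sa.symm ta.symm aa' ae ag (by and_intros <;> grind)
  have Nb := Ab.all vb.symm sb.symm tb.symm bb' be' bg' (by and_intros <;> grind)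
  have hee : G.Adj e e' := by
    have := As.claw v e e' vs.symm se se' (by grind) (by grind) ee
    grind
  have hgg : G.Adj g g' := by
    have := At'.claw v g g' vt.symm tg tg' (by grind) (by grind) gg
    grind
  have heg : G.Adj e g := by
    have := Aa.claw v e g va.symm ae ag (by grind) (by grind) eg
    grind
  have hea : G.Adj a' e := by
    have := Aa.claw t a' e ta.symm aa' ae (by grind) (by grind) (by grind)
    grind
  have hga : G.Adj a' g := by
    have := Aa.claw s a' g sa.symm aa' ag (by grind) (by grind) (by grind)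
    grind
  have heg' : G.Adj e' g' := by
    have := Ab.claw v e' g' vb.symm be' bg' (by grind) (by grind) e'g'
    grind
  have heb : G.Adj b' e' := by
    have := Ab.claw t b' e' tb.symm bb' be' (by grind) (by grind) (by grind)
    grind
  have hgb : G.Adj b' g' := by
    have := Ab.claw s b' g' sb.symm bb' bg' (by grind) (by grind) (by grind)
    grind
  obtain ⟨z, az, zv, za, zb', ze, zg, Na'⟩ :=
    Aa'.more5 va'.symm aa'.symm ab' hea hga (by and_intros <;> grind)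
  have Nv := Av.all vs vt va vb va' vb' (by and_intros <;> grind)
  have nvz : ¬ G.Adj v z := by grind
  have hez : G.Adj e z := by
    have := Aa'.claw v e z va'.symm hea az (by grind) (by grind) (by grind)
    grind
  have hgz : G.Adj g z := by
    have := Aa'.claw v g z va'.symm hga az (by grind) (by grind) (by grind)
    grind
  have naz : ¬ G.Adj a z := by grind
  have hbz : G.Adj b' z := by
    have := Aa'.claw a b' z aa'.symm ab' az (by grind) (by grind) (by grind)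
    grind
  by_cases ze' : z = e'
  · -- `K = {v,s,t,a}`, `P = {b, e', a'}`, `Q = {b', g', g, e}`
    subst ze'
    refine model hm vs vt va st sa ta {x | x = b ∨ x = z ∨ x = a'}
      {x | x = b' ∨ x = g' ∨ x = g ∨ x = e} (path3 G be' az.symm)
      (path4 G hgb hgg.symm heg.symm) ?_ ?_ ?_ ⟨b, Or.inl rfl, b', Or.inl rfl, bb'⟩
      ⟨b, Or.inl rfl, vb⟩ ⟨b, Or.inl rfl, sb⟩ ⟨b, Or.inl rfl, tb⟩
      ⟨a', Or.inr (Or.inr rfl), aa'⟩ ⟨b', Or.inl rfl, vb'⟩
      ⟨e, Or.inr (Or.inr (Or.inr rfl)), se⟩ ⟨g, Or.inr (Or.inr (Or.inl rfl)), tg⟩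
      ⟨g, Or.inr (Or.inr (Or.inl rfl)), ag⟩
    · simp only [Set.mem_ofPred_eq]
      and_intros <;> grind
    · simp only [Set.mem_ofPred_eq]
      and_intros <;> grind
    · simp only [Set.mem_ofPred_eq]
      rintro x (rfl | rfl | rfl)
      all_goals grind
  by_cases zg' : z = g'
  · -- `K = {v,s,t,a}`, `P = {b, g', a'}`, `Q = {b', e', e, g}`
    subst zg'
    refine model hm vs vt va st sa ta {x | x = b ∨ x = z ∨ x = a'}
      {x | x = b' ∨ x = e' ∨ x = e ∨ x = g} (path3 G bg' az.symm)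
      (path4 G heb hee.symm heg) ?_ ?_ ?_ ⟨b, Or.inl rfl, b', Or.inl rfl, bb'⟩
      ⟨b, Or.inl rfl, vb⟩ ⟨b, Or.inl rfl, sb⟩ ⟨b, Or.inl rfl, tb⟩
      ⟨a', Or.inr (Or.inr rfl), aa'⟩ ⟨b', Or.inl rfl, vb'⟩
      ⟨e, Or.inr (Or.inr (Or.inl rfl)), se⟩ ⟨g, Or.inr (Or.inr (Or.inr rfl)), tg⟩
      ⟨g, Or.inr (Or.inr (Or.inr rfl)), ag⟩
    · simp only [Set.mem_ofPred_eq]
      and_intros <;> grind
    · simp only [Set.mem_ofPred_eq]
      and_intros <;> grind
    · simp only [Set.mem_ofPred_eq]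
      rintro x (rfl | rfl | rfl)
      all_goals grind
  have hez' : G.Adj e' z := by
    have := Ab'.claw v e' z vb'.symm heb hbz (by grind) (by grind) (by grind)
    grind
  refine model hm vs vt va st sa ta {x | x = b ∨ x = e' ∨ x = z ∨ x = a'}
    {x | x = b' ∨ x = g' ∨ x = g ∨ x = e} (path4 G be' hez' az.symm)
    (path4 G hgb hgg.symm heg.symm) ?_ ?_ ?_ ⟨b, Or.inl rfl, b', Or.inl rfl, bb'⟩
    ⟨b, Or.inl rfl, vb⟩ ⟨b, Or.inl rfl, sb⟩ ⟨b, Or.inl rfl, tb⟩
    ⟨a', Or.inr (Or.inr (Or.inr rfl)), aa'⟩ ⟨b', Or.inl rfl, vb'⟩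
    ⟨e, Or.inr (Or.inr (Or.inr rfl)), se⟩ ⟨g, Or.inr (Or.inr (Or.inl rfl)), tg⟩
    ⟨g, Or.inr (Or.inr (Or.inl rfl)), ag⟩
  · simp only [Set.mem_ofPred_eq]
    and_intros <;> grind
  · simp only [Set.mem_ofPred_eq]
    and_intros <;> grind
  · simp only [Set.mem_ofPred_eq]
    rintro x (rfl | rfl | rfl | rfl)
    all_goals grind

/-- The configuration `T2` does not occur. -/
theorem t2_false (hm : ¬ HasCompleteMinor 6 G) (hL : Gl G) (hB : LemB G)
    {v s t a b a' b' : V} (hA : ∀ x, G.Adj v x → At G x) (Av : At G v)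
    (h : T2 G v s t a b a' b') : False := by
  have h' := h
  obtain ⟨vs, vt, va, vb, va', vb', st, sa, sb, ta, tb, aa', bb', ab', nsa, nsb, nta, ntb, nab,
    nab', nba', m1, m2, m3, m4, m5, m6, m7⟩ := h'
  have sym := hL.sym
  have irr := hL.irr
  have As := hA s vs
  have At' := hA t vt
  have Aa := hA a va
  have Ab := hA b vb
  have Aa' := hA a' va'
  have Ab' := hA b' vb'
  have Nv := Av.all vs vt va vb va' vb' (by and_intros <;> grind)
  obtain ⟨e, e', se, se', ee, ⟨ev, et, ea, eb⟩, ⟨ev', et', ea', eb'⟩, Ns⟩ :=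
    As.more4 vs.symm st sa sb (by and_intros <;> grind)
  obtain ⟨g, g', tg, tg', gg, ⟨gv, gs, ga, gb⟩, ⟨gv', gs', ga', gb'⟩, Nt⟩ :=
    At'.more4 vt.symm st.symm ta tb (by and_intros <;> grind)
  have nve : ¬ G.Adj v e := by grind
  have nve' : ¬ G.Adj v e' := by grind
  have nvg : ¬ G.Adj v g := by grind
  have nvg' : ¬ G.Adj v g' := by grind
  have nte : ¬ G.Adj t e := fun h1 => t2_nocommon hL hB Aa' h se h1 nve ev
  have nte' : ¬ G.Adj t e' := fun h1 => t2_nocommon hL hB Aa' h se' h1 nve' ev'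
  have nsg : ¬ G.Adj s g := fun h1 => t2_nocommon hL hB Aa' h h1 tg nvg gv
  have nsg' : ¬ G.Adj s g' := fun h1 => t2_nocommon hL hB Aa' h h1 tg' nvg' gv'
  have k1 := fun h1 => t2_same hL As Aa h se se' ee nve nve' ev ev' nte nte' h1
  have k2 := fun h1 => t2_same hL As Ab h.rev se se' ee nve nve' ev ev' nte nte' h1
  have k3 := fun h1 => t2_same hL At' Aa h.swap tg tg' gg nvg nvg' gv gv' nsg nsg' h1
  have k4 := fun h1 => t2_same hL At' Ab h.rev.swap tg tg' gg nvg nvg' gv gv' nsg nsg' h1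
  have c1 : G.Adj a e ∨ G.Adj b e := by
    have := As.claw a b e sa sb se m5 (by grind) (by grind)
    grind
  have c2 : G.Adj a e' ∨ G.Adj b e' := by
    have := As.claw a b e' sa sb se' m5 (by grind) (by grind)
    grind
  have c3 : G.Adj a g ∨ G.Adj b g := by
    have := At'.claw a b g ta tb tg m5 (by grind) (by grind)
    grind
  have c4 : G.Adj a g' ∨ G.Adj b g' := by
    have := At'.claw a b g' ta tb tg' m5 (by grind) (by grind)
    grind
  have d1 : (G.Adj a e ∧ G.Adj b e') ∨ (G.Adj a e' ∧ G.Adj b e) := by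
    rcases c1 with h1 | h1 <;> rcases c2 with h2 | h2
    · exact (k1 h1 h2).elim
    · exact Or.inl ⟨h1, h2⟩
    · exact Or.inr ⟨h2, h1⟩
    · exact (k2 h1 h2).elim
  have d2 : (G.Adj a g ∧ G.Adj b g') ∨ (G.Adj a g' ∧ G.Adj b g) := by
    rcases c3 with h1 | h1 <;> rcases c4 with h2 | h2
    · exact (k3 h1 h2).elim
    · exact Or.inl ⟨h1, h2⟩
    · exact Or.inr ⟨h2, h1⟩
    · exact (k4 h1 h2).elim
  rcases d1 with ⟨p1, p2⟩ | ⟨p1, p2⟩ <;> rcases d2 with ⟨p3, p4⟩ | ⟨p3, p4⟩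
  · exact t2_mixed hm hL Av As At' Aa Ab Aa' Ab' h se se' tg tg' nte nte' nsg nsg' ee gg nve nve'
      nvg nvg' ev ev' gv gv' p1 p3 p2 p4
  · exact t2_mixed hm hL Av As At' Aa Ab Aa' Ab' h se se' tg' tg nte nte' nsg' nsg ee gg.symm nve
      nve' nvg' nvg ev ev' gv' gv p1 p3 p2 p4
  · exact t2_mixed hm hL Av As At' Aa Ab Aa' Ab' h se' se tg tg' nte' nte nsg nsg' ee.symm gg nve'
      nve nvg nvg' ev' ev gv gv' p1 p3 p2 p4
  · exact t2_mixed hm hL Av As At' Aa Ab Aa' Ab' h se' se tg' tg nte' nte nsg' nsg ee.symm gg.symm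
      nve' nve nvg' nvg ev' ev gv' gv p1 p3 p2 p4

end Pool.Agent.LD6
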