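import Pool.Agent.LD6.Menger
import Pool.Agent.LD6.T2

/-!
LD6: Lemma B. An edge `p p'` with four common neighbours and a `K₄` avoiding `p, p'` give a `K₆`
minor of a 6-connected graph.
-/

set_option autoImplicit false

namespace Pool.Agent.LD6

open Finset Pool.Agent.LG6

variable {V : Type} {G : SimpleGraph V}

/-- The model: `{p}`, `{p'}` and four disjoint connected sets, each with a common neighbour of
`p, p'` and a vertex of the clique `T`. -/
theorem lemB_core {p p' : V} {S T : Finset V} (pp : G.Adj p p')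
    (hS : ∀ q ∈ S, G.Adj p q ∧ G.Adj p' q) (hT : ∀ x ∈ T, ∀ y ∈ T, x ≠ y → G.Adj x y)
    (P : Fin 4 → Set V) (hP : ∀ i, (G.induce (P i)).Connected)
    (hd : ∀ i j, i ≠ j → Disjoint (P i) (P j)) (hp : ∀ i, p ∉ P i) (hp' : ∀ i, p' ∉ P i)
    (hSP : ∀ i, ∃ s ∈ S, s ∈ P i) (hTP : ∀ i, ∃ t ∈ T, t ∈ P i) : HasCompleteMinor 6 G := by
  classical
  apply clique_model (k := 6) ({p, p'} : Finset V) ?_ (J := Fin 4) P hP ?_ hd ?_ ?_ ?_
  · intro e he f hf hef
    rw [mem_insert, mem_singleton] at he hf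
    rcases he with rfl | rfl <;> rcases hf with rfl | rfl
    · exact absurd rfl hef
    · exact pp
    · exact pp.symm
    · exact absurd rfl hef
  · intro e he j
    rw [mem_insert, mem_singleton] at he
    rcases he with rfl | rfl
    · exact hp j
    · exact hp' j
  · intro i j hij
    obtain ⟨x, hx, hxi⟩ := hTP i
    obtain ⟨y, hy, hyj⟩ := hTP j
    refine ⟨x, hxi, y, hyj, hT x hx y hy ?_⟩
    rintro rfl
    exact Set.disjoint_left.1 (hd i j hij) hxi hyj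
  · intro e he j
    obtain ⟨s, hs, hsj⟩ := hSP j
    rw [mem_insert, mem_singleton] at he
    rcases he with rfl | rfl
    · exact ⟨s, hsj, (hS s hs).1⟩
    · exact ⟨s, hsj, (hS s hs).2⟩
  · rw [card_pair pp.ne, Fintype.card_fin]

variable [DecidableEq V]

/-- Lemma B, from the existence of four disjoint connected sets. -/
theorem lemB_of_menger (hM : ∀ K S T : Finset V, K.card ≤ 2 → S.card = 4 → T.card = 4 →
      (∀ x ∈ S, x ∉ K) → (∀ x ∈ T, x ∉ K) → ∃ P : Fin 4 → Set V,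
      (∀ i, (G.induce (P i)).Connected) ∧ (∀ i j, i ≠ j → Disjoint (P i) (P j)) ∧
      (∀ i, ∀ x ∈ K, x ∉ P i) ∧ (∀ i, ∃ s ∈ S, s ∈ P i) ∧ (∀ i, ∃ t ∈ T, t ∈ P i))
    (p p' q₁ q₂ q₃ q₄ k₁ k₂ k₃ k₄ : V) (pp : G.Adj p p')
    (p1 : G.Adj p q₁) (p2 : G.Adj p q₂) (p3 : G.Adj p q₃) (p4 : G.Adj p q₄)
    (p1' : G.Adj p' q₁) (p2' : G.Adj p' q₂) (p3' : G.Adj p' q₃) (p4' : G.Adj p' q₄)
    (k12 : G.Adj k₁ k₂) (k13 : G.Adj k₁ k₃) (k14 : G.Adj k₁ k₄) (k23 : G.Adj k₂ k₃)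
    (k24 : G.Adj k₂ k₄) (k34 : G.Adj k₃ k₄)
    (hq : q₁ ≠ q₂ ∧ q₁ ≠ q₃ ∧ q₁ ≠ q₄ ∧ q₂ ≠ q₃ ∧ q₂ ≠ q₄ ∧ q₃ ≠ q₄)
    (hk : k₁ ≠ p ∧ k₂ ≠ p ∧ k₃ ≠ p ∧ k₄ ≠ p ∧ k₁ ≠ p' ∧ k₂ ≠ p' ∧ k₃ ≠ p' ∧ k₄ ≠ p') :
    HasCompleteMinor 6 G := by
  obtain ⟨q12, q13, q14, q23, q24, q34⟩ := hq
  obtain ⟨a1, a2, a3, a4, b1, b2, b3, b4⟩ := hk
  have hSm : ∀ x, x ∈ ({q₁, q₂, q₃, q₄} : Finset V) ↔ x = q₁ ∨ x = q₂ ∨ x = q₃ ∨ x = q₄ := by
    intro x
    simp only [mem_insert, mem_singleton]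
  have hTm : ∀ x, x ∈ ({k₁, k₂, k₃, k₄} : Finset V) ↔ x = k₁ ∨ x = k₂ ∨ x = k₃ ∨ x = k₄ := by
    intro x
    simp only [mem_insert, mem_singleton]
  have hS4 : ({q₁, q₂, q₃, q₄} : Finset V).card = 4 := by
    rw [card_insert_of_notMem, card_insert_of_notMem, card_insert_of_notMem, card_singleton]
    · simpa using q34
    · simp only [mem_insert, mem_singleton, not_or]
      exact ⟨q23, q24⟩
    · simp only [mem_insert, mem_singleton, not_or]
      exact ⟨q12, q13, q14⟩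
  have hT4 : ({k₁, k₂, k₃, k₄} : Finset V).card = 4 := by
    rw [card_insert_of_notMem, card_insert_of_notMem, card_insert_of_notMem, card_singleton]
    · simpa using k34.ne
    · simp only [mem_insert, mem_singleton, not_or]
      exact ⟨k23.ne, k24.ne⟩
    · simp only [mem_insert, mem_singleton, not_or]
      exact ⟨k12.ne, k13.ne, k14.ne⟩
  obtain ⟨P, hP, hd, hKP, hSP, hTP⟩ := hM {p, p'} {q₁, q₂, q₃, q₄} {k₁, k₂, k₃, k₄}
    (card_le_two) hS4 hT4 (by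
      intro x hx hxK
      rw [mem_insert, mem_singleton] at hxK
      rcases (hSm x).1 hx with rfl | rfl | rfl | rfl <;> rcases hxK with rfl | rfl
      · exact p1.ne rfl
      · exact p1'.ne rfl
      · exact p2.ne rfl
      · exact p2'.ne rfl
      · exact p3.ne rfl
      · exact p3'.ne rfl
      · exact p4.ne rfl
      · exact p4'.ne rfl) (by
      intro x hx hxK
      rw [mem_insert, mem_singleton] at hxK
      rcases (hTm x).1 hx with rfl | rfl | rfl | rfl <;> rcases hxK with h | h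
      · exact a1 h
      · exact b1 h
      · exact a2 h
      · exact b2 h
      · exact a3 h
      · exact b3 h
      · exact a4 h
      · exact b4 h)
  refine lemB_core pp (S := {q₁, q₂, q₃, q₄}) (T := {k₁, k₂, k₃, k₄}) ?_ ?_ P hP hd
    (fun i => hKP i p (by simp)) (fun i => hKP i p' (by simp)) hSP hTP
  · intro q hq
    rcases (hSm q).1 hq with rfl | rfl | rfl | rfl
    · exact ⟨p1, p1'⟩
    · exact ⟨p2, p2'⟩
    · exact ⟨p3, p3'⟩
    · exact ⟨p4, p4'⟩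
  · intro x hx y hy hxy
    rcases (hTm x).1 hx with rfl | rfl | rfl | rfl <;>
      rcases (hTm y).1 hy with rfl | rfl | rfl | rfl <;>
      first
      | exact absurd rfl hxy
      | assumption
      | (apply SimpleGraph.Adj.symm; assumption)

/-- Lemma B, in the form used by the other files. -/
theorem lemB [Fintype V] (hG : IsKConnected 6 G) (hm : ¬ HasCompleteMinor 6 G) : LemB G :=
  fun p p' q₁ q₂ q₃ q₄ k₁ k₂ k₃ k₄ pp p1 p2 p3 p4 p1' p2' p3' p4' k12 k13 k14 k23 k24 k34 hq hk =>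
    hm (lemB_of_menger (fun K S T => menger4 hG K S T) p p' q₁ q₂ q₃ q₄ k₁ k₂ k₃ k₄ pp p1 p2 p3 p4
      p1' p2' p3' p4' k12 k13 k14 k23 k24 k34 hq hk)

end Pool.Agent.LD6
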