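import Pool.Agent.LG6.Gen

/-!
LD6: Lemma B. In a 6-connected graph, an edge `p q` with four common neighbours and a `K₄` avoiding
`p` and `q` give a `K₆` minor. The Menger theorem for four paths is a hypothesis `M4` here
(`Menger.lean` proves it).
-/

set_option autoImplicit false

namespace Pool.Agent.LD6

open Finset Pool.Agent.LG6

variable {V : Type} {G : SimpleGraph V}

/-- Lemma B, from four disjoint connected sets. -/
theorem lemmaB_of {p q : V} (pq : G.Adj p q) (S T : Finset V)
    (hSp : ∀ x ∈ S, G.Adj p x) (hSq : ∀ x ∈ S, G.Adj q x)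
    (hTc : ∀ x ∈ T, ∀ y ∈ T, x ≠ y → G.Adj x y)
    (P : Fin 4 → Set V) (hP : ∀ i, (G.induce (P i)).Connected)
    (hd : ∀ i j, i ≠ j → Disjoint (P i) (P j)) (hp : ∀ i, p ∉ P i) (hq : ∀ i, q ∉ P i)
    (hPS : ∀ i, ∃ s ∈ S, s ∈ P i) (hPT : ∀ i, ∃ t ∈ T, t ∈ P i) : HasCompleteMinor 6 G := by
  classical
  apply clique_model ({p, q} : Finset V) (J := Fin 4) (R := P)
  · intro e he f hf hef
    rw [mem_insert, mem_singleton] at he hf
    rcases he with rfl | rfl <;> rcases hf with rfl | rfl
    · exact absurd rfl hef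
    · exact pq
    · exact pq.symm
    · exact absurd rfl hef
  · exact hP
  · intro e he j
    rw [mem_insert, mem_singleton] at he
    rcases he with rfl | rfl
    · exact hp j
    · exact hq j
  · exact hd
  · intro i j hij
    obtain ⟨x, hx, hxi⟩ := hPT i
    obtain ⟨y, hy, hyj⟩ := hPT j
    refine ⟨x, hxi, y, hyj, hTc x hx y hy ?_⟩
    rintro rfl
    exact Set.disjoint_left.1 (hd i j hij) hxi hyj
  · intro e he j
    rw [mem_insert, mem_singleton] at he
    obtain ⟨x, hx, hxj⟩ := hPS j
    rcases he with rfl | rfl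
    · exact ⟨x, hxj, hSp x hx⟩
    · exact ⟨x, hxj, hSq x hx⟩
  · rw [card_insert_of_notMem (by
      rw [mem_singleton]
      exact pq.ne), card_singleton, Fintype.card_fin]

end Pool.Agent.LD6
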