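import Pool.Agent.LD6.End4
import Pool.Agent.LD6.Common
import Pool.Agent.LD6.LemB
import Pool.Agent.LD6.Menger

/-!
LD6: the two halves of the theorem (the second one from Lemma X).
-/

set_option autoImplicit false

namespace Pool.Agent.LD6

open Finset Pool.Agent.LG6

variable {V : Type} {G : SimpleGraph V} [DecidableEq V] [Fintype V]

theorem loc (hG : IsKConnected 6 G) (hm : ¬ HasCompleteMinor 6 G) (hX : LemX G)
    {v : V} (hv : NC G v) (hN : ∀ x, G.Adj v x → NC G x) : False :=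
  loc_main hG hm (lemB hG hm) hX
    (fun v a₁ a₂ a₃ b₁ b₂ b₃ h p s h1 h2 h3 h4 h5 h6 h7 h8 h9 h10 h11 =>
      h.common hG hm (Gl.mk' hG hm) h1 h2 h3 h4 h5 h6 h7 h8 h9 h10 h11) hv hN

end Pool.Agent.LD6
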