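import Pool.Agent.LG6.Gen

/-!
LD6, Lemma X: connected sets, bridges, and the configuration `NoGood` that a `K₆` minor free graph
satisfies around a `K₄` with two triangles.
-/

set_option autoImplicit false

namespace Pool.Agent.LD6.X

open Finset Pool.Agent.LG6

variable {V : Type} {G : SimpleGraph V}

/-- connected vertex sets -/
def Con (G : SimpleGraph V) (S : Set V) : Prop := (G.induce S).Connected

theorem Con.single (G : SimpleGraph V) (x : V) : Con G {x} := single_connected G x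

theorem Con.union {A D : Set V} (hA : Con G A) (hD : Con G D) {x y : V} (hx : x ∈ A)
    (hy : y ∈ D) (h : G.Adj x y) : Con G (A ∪ D) :=
  SimpleGraph.connected_induce_union hA.preconnected hD.preconnected hx hy h

theorem Con.inter {A D : Set V} (hA : Con G A) (hD : Con G D) {x : V} (hx : x ∈ A)
    (hy : x ∈ D) : Con G (A ∪ D) :=
  SimpleGraph.induce_union_connected hA.preconnected hD.preconnected ⟨x, hx, hy⟩

theorem Con.nonempty {A : Set V} (hA : Con G A) : ∃ x, x ∈ A := by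
  obtain ⟨⟨x, hx⟩⟩ := (show (G.induce A).Connected from hA).nonempty
  exact ⟨x, hx⟩

/-- a connected set that meets a set closed in it lies inside it -/
theorem Con.sub {A D : Set V} (hA : Con G A) {x : V} (hx : x ∈ A) (hxD : x ∈ D)
    (h : ∀ g ∈ D, ∀ h ∈ A, G.Adj g h → h ∈ D) : ∀ z ∈ A, z ∈ D := by
  intro z hz
  by_contra hzD
  obtain ⟨g, y, hg, hy, hgy, hgD, hyD⟩ := cross hA D hx hz hxD hzD
  exact hyD (h g hgD y hy hgy)

/-- a bridge between `p` and `q` through the set `S` of vertices of kind 6 -/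
def Br (G : SimpleGraph V) (k : V → ℕ) (p q : V) (S : Set V) : Prop :=
  (∀ s ∈ S, k s = 6) ∧ ((S = ∅ ∧ G.Adj p q) ∨
    (Con G S ∧ (∃ s ∈ S, G.Adj p s) ∧ (∃ s ∈ S, G.Adj q s)))

theorem Br.symm {k : V → ℕ} {p q : V} {S : Set V} (h : Br G k p q S) : Br G k q p S := by
  obtain ⟨h1, h2 | h2⟩ := h
  · exact ⟨h1, Or.inl ⟨h2.1, h2.2.symm⟩⟩
  · exact ⟨h1, Or.inr ⟨h2.1, h2.2.2, h2.2.1⟩⟩

theorem Br.edge {k : V → ℕ} {p q : V} (h : G.Adj p q) : Br G k p q ∅ :=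
  ⟨fun s hs => absurd hs (Set.notMem_empty s), Or.inl ⟨rfl, h⟩⟩

theorem Br.con {k : V → ℕ} {p q : V} {S A D : Set V} (h : Br G k p q S) (hA : Con G A)
    (hp : p ∈ A) (hD : Con G D) (hq : q ∈ D) : Con G (A ∪ S ∪ D) := by
  obtain ⟨_, ⟨h1, h2⟩ | ⟨h1, ⟨s, hs, hps⟩, ⟨t, ht, hqt⟩⟩⟩ := h
  · rw [h1, Set.union_empty]
    exact hA.union hD hp hq h2
  · exact (hA.union h1 hp hs hps).union hD (Or.inr ht) hq hqt.symm

theorem Br.meet {k : V → ℕ} {p q p' q' : V} {S S' : Set V} (h : Br G k p q S)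
    (h' : Br G k p' q' S') {z : V} (hz : z ∈ S) (hz' : z ∈ S') : Br G k p p' (S ∪ S') := by
  obtain ⟨hk, ⟨h1, _⟩ | ⟨h1, ⟨s, hs, hps⟩, _⟩⟩ := h
  · exact absurd hz (h1 ▸ Set.notMem_empty z)
  obtain ⟨hk', ⟨h1', _⟩ | ⟨h1', ⟨s', hs', hps'⟩, _⟩⟩ := h'
  · exact absurd hz' (h1' ▸ Set.notMem_empty z)
  refine ⟨?_, Or.inr ⟨h1.inter h1' hz hz', ⟨s, Or.inl hs, hps⟩, ⟨s', Or.inr hs', hps'⟩⟩⟩
  rintro x (hx | hx)
  · exact hk x hx
  · exact hk' x hx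

/-- There are no four sets that together with `v` and `a` give a `K₆` minor. -/
def NoGood (G : SimpleGraph V) (v a c d : V) (B W : Set V) : Prop :=
  ∀ X₁ X₂ X₃ X₄ : Set V, Con G X₁ → Con G X₂ → Con G X₃ → Con G X₄ →
    (∀ z, z ∈ X₁ → z ∈ X₂ → False) → (∀ z, z ∈ X₁ → z ∈ X₃ → False) →
    (∀ z, z ∈ X₁ → z ∈ X₄ → False) → (∀ z, z ∈ X₂ → z ∈ X₃ → False) →
    (∀ z, z ∈ X₂ → z ∈ X₄ → False) → (∀ z, z ∈ X₃ → z ∈ X₄ → False) →
    (∀ z, z = v ∨ z = a → z ∈ X₁ ∨ z ∈ X₂ ∨ z ∈ X₃ ∨ z ∈ X₄ → False) →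
    c ∈ X₁ → d ∈ X₂ →
    ((∃ z ∈ X₁, z ∈ B) ∧ (∃ z ∈ X₂, z ∈ W) ∨ (∃ z ∈ X₁, z ∈ W) ∧ (∃ z ∈ X₂, z ∈ B)) →
    (∃ z ∈ X₃, z ∈ B) → (∃ z ∈ X₃, z ∈ W) → (∃ z ∈ X₄, z ∈ B) → (∃ z ∈ X₄, z ∈ W) → False

theorem NoGood.swap {v a c d : V} {B W : Set V} (h : NoGood G v a c d B W) :
    NoGood G v a d c B W := by
  intro X₁ X₂ X₃ X₄ c1 c2 c3 c4 d12 d13 d14 d23 d24 d34 hva hc hd hbw b3 w3 b4 w4
  refine h X₂ X₁ X₃ X₄ c2 c1 c3 c4 (fun z h1 h2 => d12 z h2 h1) d23 d24 d13 d14 d34 ?_ hd hc ?_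
    b3 w3 b4 w4
  · intro z hz h'
    exact hva z hz (by tauto)
  · exact hbw.elim (fun h => Or.inr ⟨h.2, h.1⟩) (fun h => Or.inl ⟨h.2, h.1⟩)

theorem NoGood.rev {v a c d : V} {B W : Set V} (h : NoGood G v a c d B W) :
    NoGood G a v c d W B := by
  intro X₁ X₂ X₃ X₄ c1 c2 c3 c4 d12 d13 d14 d23 d24 d34 hva hc hd hbw b3 w3 b4 w4
  refine h X₁ X₂ X₃ X₄ c1 c2 c3 c4 d12 d13 d14 d23 d24 d34 ?_ hc hd ?_ w3 b3 w4 b4
  · intro z hz h'
    exact hva z (by tauto) h'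
  · exact hbw.symm

theorem noGood_of [Fintype V] [DecidableEq V] (hm : ¬ HasCompleteMinor 6 G) {v a c d : V}
    (va : G.Adj v a) (vc : G.Adj v c) (vd : G.Adj v d) (ac : G.Adj a c) (ad : G.Adj a d)
    (cd : G.Adj c d) (B W : Set V)
    (hBc : ∀ x ∈ B, ∀ y ∈ B, x ≠ y → G.Adj x y) (hWc : ∀ x ∈ W, ∀ y ∈ W, x ≠ y → G.Adj x y)
    (hvB : ∀ x ∈ B, G.Adj v x) (haW : ∀ x ∈ W, G.Adj a x) : NoGood G v a c d B W := by
  intro X₁ X₂ X₃ X₄ c1 c2 c3 c4 d12 d13 d14 d23 d24 d34 hva hc hd hbw b3 w3 b4 w4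
  apply hm
  have kB : ∀ X Y : Set V, (∀ z, z ∈ X → z ∈ Y → False) → (∃ z ∈ X, z ∈ B) → (∃ z ∈ Y, z ∈ B) →
      ∃ x ∈ X, ∃ y ∈ Y, G.Adj x y := by
    rintro X Y hd ⟨x, hx, hxB⟩ ⟨y, hy, hyB⟩
    exact ⟨x, hx, y, hy, hBc x hxB y hyB (fun h => hd x hx (h ▸ hy))⟩
  have kW : ∀ X Y : Set V, (∀ z, z ∈ X → z ∈ Y → False) → (∃ z ∈ X, z ∈ W) → (∃ z ∈ Y, z ∈ W) →
      ∃ x ∈ X, ∃ y ∈ Y, G.Adj x y := by
    rintro X Y hd ⟨x, hx, hxB⟩ ⟨y, hy, hyB⟩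
    exact ⟨x, hx, y, hy, hWc x hxB y hyB (fun h => hd x hx (h ▸ hy))⟩
  have k12 : ∃ x ∈ X₁, ∃ y ∈ X₂, G.Adj x y := ⟨c, hc, d, hd, cd⟩
  have k34 := kB X₃ X₄ d34 b3 b4
  have k1 : ∀ Y : Set V, (∀ z, z ∈ X₁ → z ∈ Y → False) → (∃ z ∈ Y, z ∈ B) → (∃ z ∈ Y, z ∈ W) →
      ∃ x ∈ X₁, ∃ y ∈ Y, G.Adj x y := by
    intro Y hY hB hW
    rcases hbw with h | h
    · exact kB X₁ Y hY h.1 hB
    · exact kW X₁ Y hY h.1 hW
  have k2 : ∀ Y : Set V, (∀ z, z ∈ X₂ → z ∈ Y → False) → (∃ z ∈ Y, z ∈ B) → (∃ z ∈ Y, z ∈ W) →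
      ∃ x ∈ X₂, ∃ y ∈ Y, G.Adj x y := by
    intro Y hY hB hW
    rcases hbw with h | h
    · exact kW X₂ Y hY h.2 hW
    · exact kB X₂ Y hY h.2 hB
  have k13 := k1 X₃ d13 b3 w3
  have k14 := k1 X₄ d14 b4 w4
  have k23 := k2 X₃ d23 b3 w3
  have k24 := k2 X₄ d24 b4 w4
  have sy : ∀ X Y : Set V, (∃ x ∈ X, ∃ y ∈ Y, G.Adj x y) → ∃ x ∈ Y, ∃ y ∈ X, G.Adj x y := by
    rintro X Y ⟨x, hx, y, hy, h⟩
    exact ⟨y, hy, x, hx, h.symm⟩
  have dj : ∀ X Y : Set V, (∀ z, z ∈ X → z ∈ Y → False) → Disjoint X Y := by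
    intro X Y h
    rw [Set.disjoint_left]
    exact fun z hz hz' => h z hz hz'
  have dj' : ∀ X Y : Set V, (∀ z, z ∈ X → z ∈ Y → False) → Disjoint Y X :=
    fun X Y h => (dj X Y h).symm
  have hva' : ∀ X : Set V, (∃ z ∈ X, z ∈ B) → (∃ y ∈ X, G.Adj v y) := by
    rintro X ⟨x, hx, hxB⟩
    exact ⟨x, hx, hvB x hxB⟩
  have haa' : ∀ X : Set V, (∃ z ∈ X, z ∈ W) → (∃ y ∈ X, G.Adj a y) := by
    rintro X ⟨x, hx, hxB⟩
    exact ⟨x, hx, haW x hxB⟩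
  apply clique_model (k := 6) {v, a} (J := Fin 4)
    ?_ ![X₁, X₂, X₃, X₄] ?_ ?_ ?_ ?_ ?_ ?_
  · intro e he f hf hef
    simp only [mem_insert, mem_singleton] at he hf
    rcases he with rfl | rfl <;> rcases hf with rfl | rfl
    · exact absurd rfl hef
    · exact va
    · exact va.symm
    · exact absurd rfl hef
  · intro j
    fin_cases j
    · exact c1
    · exact c2
    · exact c3
    · exact c4
  · intro e he j hj
    simp only [mem_insert, mem_singleton] at he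
    apply hva e he
    fin_cases j
    · exact Or.inl hj
    · exact Or.inr (Or.inl hj)
    · exact Or.inr (Or.inr (Or.inl hj))
    · exact Or.inr (Or.inr (Or.inr hj))
  · intro i j hij
    fin_cases i <;> fin_cases j
    all_goals first
      | exact absurd rfl hij
      | exact dj _ _ d12
      | exact dj _ _ d13
      | exact dj _ _ d14
      | exact dj _ _ d23
      | exact dj _ _ d24
      | exact dj _ _ d34
      | exact dj' _ _ d12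
      | exact dj' _ _ d13
      | exact dj' _ _ d14
      | exact dj' _ _ d23
      | exact dj' _ _ d24
      | exact dj' _ _ d34
  · intro i j hij
    fin_cases i <;> fin_cases j
    all_goals first
      | exact absurd rfl hij
      | exact k12
      | exact k13
      | exact k14
      | exact k23
      | exact k24
      | exact k34
      | exact sy _ _ k12
      | exact sy _ _ k13
      | exact sy _ _ k14
      | exact sy _ _ k23
      | exact sy _ _ k24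
      | exact sy _ _ k34
  · intro e he j
    simp only [mem_insert, mem_singleton] at he
    rcases he with rfl | rfl
    · fin_cases j
      · exact ⟨c, hc, vc⟩
      · exact ⟨d, hd, vd⟩
      · exact hva' _ b3
      · exact hva' _ b4
    · fin_cases j
      · exact ⟨c, hc, ac⟩
      · exact ⟨d, hd, ad⟩
      · exact haa' _ w3
      · exact haa' _ w4
  · rw [card_pair va.ne, Fintype.card_fin]

end Pool.Agent.LD6.X
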