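import Pool.Agent.LD6.XBase

/-!
LD6, Lemma X: the final configuration (three paths, the two ends `E`, `F` and the rest) and its
contradiction.
-/

set_option autoImplicit false

namespace Pool.Agent.LD6.X

open Finset Pool.Agent.LG6

variable {V : Type} {G : SimpleGraph V}

/-- The configuration: `k` is the kind of a vertex (0: `v`, `a`; `i`, `j`, 3: the paths; `e`, `g`:
the sets of `c` and `d`; 6: the rest), `f` the position on the paths. -/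
structure Cfg (G : SimpleGraph V) (v a c d : V) (B W : Set V) (k : V → ℕ) (f : V → ℤ)
    (i j e g : ℕ) (b₁ b₂ b₃ w₁ w₂ w₃ l r l' r' : V) : Prop where
  hk : (i = 1 ∧ j = 2 ∧ e = 4 ∧ g = 5) ∨ (i = 2 ∧ j = 1 ∧ e = 5 ∧ g = 4)
  cut : ∀ C : Finset V, C.card ≤ 5 → ∀ S : Set V, ∀ x y, x ∈ S → y ∉ S → x ∉ C → y ∉ C →
    ∃ p q, p ∈ S ∧ q ∉ S ∧ p ∉ C ∧ q ∉ C ∧ G.Adj p q
  good : NoGood G v a c d B W
  k0 : ∀ z, k z = 0 ↔ z = v ∨ z = a
  k6 : ∀ z, k z ≤ 6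
  kc : k c = e
  kd : k d = g
  conE : Con G {z | k z = e}
  conF : Con G {z | k z = g}
  seg : ∀ n x y, 1 ≤ n → n ≤ 3 → k x = n → k y = n → f x ≤ f y →
    Con G {z | k z = n ∧ f x ≤ f z ∧ f z ≤ f y}
  inj : ∀ x y, k x = k y → 1 ≤ k x → k x ≤ 3 → f x = f y → x = y
  kb₁ : k b₁ = i
  kb₂ : k b₂ = j
  kb₃ : k b₃ = 3
  kw₁ : k w₁ = i
  kw₂ : k w₂ = j
  kw₃ : k w₃ = 3
  m₁ : ∀ z, k z = i → f b₁ ≤ f z ∧ f z ≤ f w₁
  m₂ : ∀ z, k z = j → f b₂ ≤ f z ∧ f z ≤ f w₂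
  m₃ : ∀ z, k z = 3 → f b₃ ≤ f z ∧ f z ≤ f w₃
  bB₁ : b₁ ∈ B
  bB₂ : b₂ ∈ B
  bB₃ : b₃ ∈ B
  wW₁ : w₁ ∈ W
  wW₂ : w₂ ∈ W
  wW₃ : w₃ ∈ W
  bw : b₃ ≠ w₃
  nE : ∀ x y, k x = e → G.Adj x y → k y = e ∨ k y = 0 ∨ k y = i ∨ y = d
  nF : ∀ x y, k x = g → G.Adj x y → k y = g ∨ k y = 0 ∨ k y = j ∨ y = c
  re : ∀ p q z u S, k z = k p → k q = k p → 1 ≤ k p → k p ≤ 3 → f p < f z → f z < f q →
    G.Adj z u → (k u = e ∨ k u = g) → Br G k p q S → False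
  kl : k l = i
  kr : k r = i
  kl' : k l' = j
  kr' : k r' = j
  al : ∃ u, k u = e ∧ G.Adj l u
  ar : ∃ u, k u = e ∧ G.Adj r u
  al' : ∃ u, k u = g ∧ G.Adj l' u
  ar' : ∃ u, k u = g ∧ G.Adj r' u
  am : ∃ m u, k m = i ∧ f l < f m ∧ f m < f r ∧ k u = e ∧ G.Adj m u
  am' : ∃ m u, k m = j ∧ f l' < f m ∧ f m < f r' ∧ k u = g ∧ G.Adj m u
  fl : ∀ z u, k z = i → k u = e → G.Adj z u → f l ≤ f z ∧ f z ≤ f r
  fl' : ∀ z u, k z = j → k u = g → G.Adj z u → f l' ≤ f z ∧ f z ≤ f r'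

namespace Cfg

variable {v a c d : V} {B W : Set V} {k : V → ℕ} {f : V → ℤ} {i j e g : ℕ}
  {b₁ b₂ b₃ w₁ w₂ w₃ l r l' r' : V}

theorem swap (h : Cfg G v a c d B W k f i j e g b₁ b₂ b₃ w₁ w₂ w₃ l r l' r') :
    Cfg G v a d c B W k f j i g e b₂ b₁ b₃ w₂ w₁ w₃ l' r' l r where
  hk := by have := h.hk; omega
  cut := h.cut
  good := h.good.swap
  k0 := h.k0
  k6 := h.k6
  kc := h.kd
  kd := h.kc
  conE := h.conF
  conF := h.conE
  seg := h.seg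
  inj := h.inj
  kb₁ := h.kb₂
  kb₂ := h.kb₁
  kb₃ := h.kb₃
  kw₁ := h.kw₂
  kw₂ := h.kw₁
  kw₃ := h.kw₃
  m₁ := h.m₂
  m₂ := h.m₁
  m₃ := h.m₃
  bB₁ := h.bB₂
  bB₂ := h.bB₁
  bB₃ := h.bB₃
  wW₁ := h.wW₂
  wW₂ := h.wW₁
  wW₃ := h.wW₃
  bw := h.bw
  nE := h.nF
  nF := h.nE
  re := fun p q z u S h1 h2 h3 h4 h5 h6 h7 h8 h9 =>
    h.re p q z u S h1 h2 h3 h4 h5 h6 h7 h8.symm h9
  kl := h.kl'
  kr := h.kr'
  kl' := h.kl
  kr' := h.kr
  al := h.al'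
  ar := h.ar'
  al' := h.al
  ar' := h.ar
  am := h.am'
  am' := h.am
  fl := h.fl'
  fl' := h.fl

theorem rev (h : Cfg G v a c d B W k f i j e g b₁ b₂ b₃ w₁ w₂ w₃ l r l' r') :
    Cfg G a v c d W B k (fun z => - f z) i j e g w₁ w₂ w₃ b₁ b₂ b₃ r l r' l' where
  hk := h.hk
  cut := h.cut
  good := h.good.rev
  k0 := fun z => by rw [h.k0 z]; exact Or.comm
  k6 := h.k6
  kc := h.kc
  kd := h.kd
  conE := h.conE
  conF := h.conF
  seg := by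
    intro n x y h1 h2 hx hy hxy
    have := h.seg n y x h1 h2 hy hx (by omega)
    have he : {z | k z = n ∧ -f x ≤ -f z ∧ -f z ≤ -f y} =
        {z | k z = n ∧ f y ≤ f z ∧ f z ≤ f x} := by
      ext z
      simp only [Set.mem_ofPred_eq]
      omega
    rw [he]
    exact this
  inj := fun x y h1 h2 h3 h4 => h.inj x y h1 h2 h3 (by omega)
  kb₁ := h.kw₁
  kb₂ := h.kw₂
  kb₃ := h.kw₃
  kw₁ := h.kb₁
  kw₂ := h.kb₂
  kw₃ := h.kb₃
  m₁ := fun z hz => by have := h.m₁ z hz; omega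
  m₂ := fun z hz => by have := h.m₂ z hz; omega
  m₃ := fun z hz => by have := h.m₃ z hz; omega
  bB₁ := h.wW₁
  bB₂ := h.wW₂
  bB₃ := h.wW₃
  wW₁ := h.bB₁
  wW₂ := h.bB₂
  wW₃ := h.bB₃
  bw := h.bw.symm
  nE := h.nE
  nF := h.nF
  re := fun p q z u S h1 h2 h3 h4 h5 h6 h7 h8 h9 =>
    h.re q p z u S (h1.trans h2.symm) h2.symm (by omega) (by omega) (by omega) (by omega) h7 h8
      h9.symm
  kl := h.kr
  kr := h.kl
  kl' := h.kr'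
  kr' := h.kl'
  al := h.ar
  ar := h.al
  al' := h.ar'
  ar' := h.al'
  am := by
    obtain ⟨m, u, h1, h2, h3, h4, h5⟩ := h.am
    exact ⟨m, u, h1, by omega, by omega, h4, h5⟩
  am' := by
    obtain ⟨m, u, h1, h2, h3, h4, h5⟩ := h.am'
    exact ⟨m, u, h1, by omega, by omega, h4, h5⟩
  fl := fun z u h1 h2 h3 => by have := h.fl z u h1 h2 h3; omega
  fl' := fun z u h1 h2 h3 => by have := h.fl' z u h1 h2 h3; omega

theorem lo₁ (h : Cfg G v a c d B W k f i j e g b₁ b₂ b₃ w₁ w₂ w₃ l r l' r') {x : V}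
    (hx : k x = i) : Con G {z | k z = i ∧ f z ≤ f x} := by
  have h1 := h.seg i b₁ x (by have := h.hk; omega) (by have := h.hk; omega) h.kb₁ hx
    (h.m₁ x hx).1
  have he : {z | k z = i ∧ f z ≤ f x} = {z | k z = i ∧ f b₁ ≤ f z ∧ f z ≤ f x} := by
    ext z
    exact ⟨fun h' => ⟨h'.1, (h.m₁ z h'.1).1, h'.2⟩, fun h' => ⟨h'.1, h'.2.2⟩⟩
  rw [he]
  exact h1

theorem up₁ (h : Cfg G v a c d B W k f i j e g b₁ b₂ b₃ w₁ w₂ w₃ l r l' r') {x : V}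
    (hx : k x = i) : Con G {z | k z = i ∧ f x ≤ f z} := by
  have h1 := h.seg i x w₁ (by have := h.hk; omega) (by have := h.hk; omega) hx h.kw₁
    (h.m₁ x hx).2
  have he : {z | k z = i ∧ f x ≤ f z} = {z | k z = i ∧ f x ≤ f z ∧ f z ≤ f w₁} := by
    ext z
    exact ⟨fun h' => ⟨h'.1, h'.2, (h.m₁ z h'.1).2⟩, fun h' => ⟨h'.1, h'.2.1⟩⟩
  rw [he]
  exact h1

theorem lo₂ (h : Cfg G v a c d B W k f i j e g b₁ b₂ b₃ w₁ w₂ w₃ l r l' r') {x : V}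
    (hx : k x = j) : Con G {z | k z = j ∧ f z ≤ f x} := h.swap.lo₁ hx

theorem up₂ (h : Cfg G v a c d B W k f i j e g b₁ b₂ b₃ w₁ w₂ w₃ l r l' r') {x : V}
    (hx : k x = j) : Con G {z | k z = j ∧ f x ≤ f z} := h.swap.up₁ hx

theorem lo₃ (h : Cfg G v a c d B W k f i j e g b₁ b₂ b₃ w₁ w₂ w₃ l r l' r') {x : V}
    (hx : k x = 3) : Con G {z | k z = 3 ∧ f z ≤ f x} := by
  have h1 := h.seg 3 b₃ x (by omega) (by omega) h.kb₃ hx (h.m₃ x hx).1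
  have he : {z | k z = 3 ∧ f z ≤ f x} = {z | k z = 3 ∧ f b₃ ≤ f z ∧ f z ≤ f x} := by
    ext z
    exact ⟨fun h' => ⟨h'.1, (h.m₃ z h'.1).1, h'.2⟩, fun h' => ⟨h'.1, h'.2.2⟩⟩
  rw [he]
  exact h1

theorem up₃ (h : Cfg G v a c d B W k f i j e g b₁ b₂ b₃ w₁ w₂ w₃ l r l' r') {x : V}
    (hx : k x = 3) : Con G {z | k z = 3 ∧ f x ≤ f z} := by
  have h1 := h.seg 3 x w₃ (by omega) (by omega) hx h.kw₃ (h.m₃ x hx).2
  have he : {z | k z = 3 ∧ f x ≤ f z} = {z | k z = 3 ∧ f x ≤ f z ∧ f z ≤ f w₃} := by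
    ext z
    exact ⟨fun h' => ⟨h'.1, h'.2, (h.m₃ z h'.1).2⟩, fun h' => ⟨h'.1, h'.2.1⟩⟩
  rw [he]
  exact h1

theorem con₃ (h : Cfg G v a c d B W k f i j e g b₁ b₂ b₃ w₁ w₂ w₃ l r l' r') :
    Con G {z | k z = 3} := by
  have h1 := h.lo₃ h.kw₃
  have he : {z | k z = 3} = {z | k z = 3 ∧ f z ≤ f w₃} := by
    ext z
    exact ⟨fun h' => ⟨h', (h.m₃ z h').2⟩, fun h' => h'.1⟩
  rw [he]
  exact h1

/-- the way `NoGood` is used -/
theorem app (h : Cfg G v a c d B W k f i j e g b₁ b₂ b₃ w₁ w₂ w₃ l r l' r')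
    (X₁ X₂ X₃ X₄ : Set V) (c1 : Con G X₁) (c2 : Con G X₂) (c3 : Con G X₃) (c4 : Con G X₄)
    (hd : ∀ z, (z ∈ X₁ → z ∈ X₂ → False) ∧ (z ∈ X₁ → z ∈ X₃ → False) ∧
      (z ∈ X₁ → z ∈ X₄ → False) ∧ (z ∈ X₂ → z ∈ X₃ → False) ∧ (z ∈ X₂ → z ∈ X₄ → False) ∧
      (z ∈ X₃ → z ∈ X₄ → False) ∧ (z ∈ X₁ → k z ≠ 0) ∧ (z ∈ X₂ → k z ≠ 0) ∧
      (z ∈ X₃ → k z ≠ 0) ∧ (z ∈ X₄ → k z ≠ 0))
    (hc : c ∈ X₁) (hd' : d ∈ X₂)
    (hbw : (∃ z ∈ X₁, z ∈ B) ∧ (∃ z ∈ X₂, z ∈ W) ∨ (∃ z ∈ X₁, z ∈ W) ∧ (∃ z ∈ X₂, z ∈ B))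
    (h3 : ∃ z ∈ X₃, z ∈ B) (h3' : ∃ z ∈ X₃, z ∈ W) (h4 : ∃ z ∈ X₄, z ∈ B)
    (h4' : ∃ z ∈ X₄, z ∈ W) : False := by
  refine h.good X₁ X₂ X₃ X₄ c1 c2 c3 c4 (fun z => (hd z).1) (fun z => (hd z).2.1)
    (fun z => (hd z).2.2.1) (fun z => (hd z).2.2.2.1) (fun z => (hd z).2.2.2.2.1)
    (fun z => (hd z).2.2.2.2.2.1) ?_ hc hd' hbw h3 h3' h4 h4'
  intro z hz h'
  have h0 := (h.k0 z).2 hz
  rcases h' with h' | h' | h' | h'
  · exact (hd z).2.2.2.2.2.2.1 h' h0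
  · exact (hd z).2.2.2.2.2.2.2.1 h' h0
  · exact (hd z).2.2.2.2.2.2.2.2.1 h' h0
  · exact (hd z).2.2.2.2.2.2.2.2.2 h' h0

theorem noM₂a (h : Cfg G v a c d B W k f i j e g b₁ b₂ b₃ w₁ w₂ w₃ l r l' r') {x y : V}
    {S : Set V} (hx : k x = i) (_h1 : f l < f x) (h2 : f x < f r) (hy : k y = j)
    (h3 : f l' < f y) (hS : Br G k x y S) : False := by
  obtain ⟨ue, hue, hru⟩ := h.ar
  obtain ⟨uf, huf, hlu⟩ := h.al'
  have hk := h.hk
  refine h.app ({z | k z = e} ∪ {z | k z = i ∧ f r ≤ f z})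
    ({z | k z = g} ∪ {z | k z = j ∧ f z ≤ f l'})
    ({z | k z = i ∧ f z ≤ f x} ∪ S ∪ {z | k z = j ∧ f y ≤ f z}) {z | k z = 3}
    (h.conE.union (h.up₁ h.kr) hue ⟨h.kr, le_rfl⟩ hru.symm)
    (h.conF.union (h.lo₂ h.kl') huf ⟨h.kl', le_rfl⟩ hlu.symm)
    (hS.con (h.lo₁ hx) ⟨hx, le_rfl⟩ (h.up₂ hy) ⟨hy, le_rfl⟩) h.con₃ ?_
    (Or.inl h.kc) (Or.inl h.kd)
    (Or.inr ⟨⟨w₁, Or.inr ⟨h.kw₁, (h.m₁ r h.kr).2⟩, h.wW₁⟩,
      ⟨b₂, Or.inr ⟨h.kb₂, (h.m₂ l' h.kl').1⟩, h.bB₂⟩⟩)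
    ⟨b₁, Or.inl (Or.inl ⟨h.kb₁, (h.m₁ x hx).1⟩), h.bB₁⟩
    ⟨w₂, Or.inr ⟨h.kw₂, (h.m₂ y hy).2⟩, h.wW₂⟩ ⟨b₃, h.kb₃, h.bB₃⟩ ⟨w₃, h.kw₃, h.wW₃⟩
  intro z
  have hz := hS.1 z
  simp only [Set.mem_union, Set.mem_ofPred_eq]
  clear hru hlu h hS
  refine ⟨?_, ?_, ?_, ?_, ?_, ?_, ?_, ?_, ?_, ?_⟩ <;> grind (splits := 20)

theorem lt_r (h : Cfg G v a c d B W k f i j e g b₁ b₂ b₃ w₁ w₂ w₃ l r l' r') : f l < f r := by
  obtain ⟨m, u, h1, h2, h3, h4, h5⟩ := h.am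
  omega

/-- no bridge from the middle segment of the first path to the second path -/
theorem noM₂ (h : Cfg G v a c d B W k f i j e g b₁ b₂ b₃ w₁ w₂ w₃ l r l' r') {x y : V}
    {S : Set V} (hx : k x = i) (h1 : f l < f x) (h2 : f x < f r) (hy : k y = j)
    (hS : Br G k x y S) : False := by
  by_cases h3 : f l' < f y
  · exact h.noM₂a hx h1 h2 hy h3 hS
  · have := h.swap.lt_r
    exact h.rev.noM₂a (x := x) (y := y) hx (by omega) (by omega) hy (by omega) hS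

theorem lt_absurd (h : Cfg G v a c d B W k f i j e g b₁ b₂ b₃ w₁ w₂ w₃ l r l' r')
    {x y x' y' : V} {S S' : Set V} (hx : k x = i) (h1 : f l < f x) (h2 : f x < f r)
    (hy : k y = 3) (hS : Br G k x y S) (hx' : k x' = j) (_h1' : f l' < f x')
    (h2' : f x' < f r') (hy' : k y' = 3) (hS' : Br G k x' y' S') (hlt : f y < f y') :
    False := by
  obtain ⟨ue, hue, hru⟩ := h.al
  obtain ⟨uf, huf, hlu⟩ := h.ar'
  have hk := h.hk
  have hdis : ∀ z, z ∈ S → z ∈ S' → False := fun z hz hz' =>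
    h.noM₂ hx h1 h2 hx' (hS.meet hS' hz hz')
  refine h.app ({z | k z = e} ∪ {z | k z = i ∧ f z ≤ f l})
    ({z | k z = g} ∪ {z | k z = j ∧ f r' ≤ f z})
    ({z | k z = 3 ∧ f z ≤ f y} ∪ S ∪ {z | k z = i ∧ f x ≤ f z})
    ({z | k z = j ∧ f z ≤ f x'} ∪ S' ∪ {z | k z = 3 ∧ f y' ≤ f z})
    (h.conE.union (h.lo₁ h.kl) hue ⟨h.kl, le_rfl⟩ hru.symm)
    (h.conF.union (h.up₂ h.kr') huf ⟨h.kr', le_rfl⟩ hlu.symm)
    (hS.symm.con (h.lo₃ hy) ⟨hy, le_rfl⟩ (h.up₁ hx) ⟨hx, le_rfl⟩)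
    (hS'.con (h.lo₂ hx') ⟨hx', le_rfl⟩ (h.up₃ hy') ⟨hy', le_rfl⟩) ?_
    (Or.inl h.kc) (Or.inl h.kd)
    (Or.inl ⟨⟨b₁, Or.inr ⟨h.kb₁, (h.m₁ l h.kl).1⟩, h.bB₁⟩,
      ⟨w₂, Or.inr ⟨h.kw₂, (h.m₂ r' h.kr').2⟩, h.wW₂⟩⟩)
    ⟨b₃, Or.inl (Or.inl ⟨h.kb₃, (h.m₃ y hy).1⟩), h.bB₃⟩
    ⟨w₁, Or.inr ⟨h.kw₁, (h.m₁ x hx).2⟩, h.wW₁⟩
    ⟨b₂, Or.inl (Or.inl ⟨h.kb₂, (h.m₂ x' hx').1⟩), h.bB₂⟩
    ⟨w₃, Or.inr ⟨h.kw₃, (h.m₃ y' hy').2⟩, h.wW₃⟩
  intro z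
  have hz := hS.1 z
  have hz' := hS'.1 z
  have hzz := hdis z
  simp only [Set.mem_union, Set.mem_ofPred_eq]
  clear hru hlu h hS hS' hdis
  refine ⟨?_, ?_, ?_, ?_, ?_, ?_, ?_, ?_, ?_, ?_⟩ <;> grind (splits := 20)

/-- bridges from the two middle segments to the third path end in the same vertex -/
theorem uniq (h : Cfg G v a c d B W k f i j e g b₁ b₂ b₃ w₁ w₂ w₃ l r l' r')
    {x y x' y' : V} {S S' : Set V} (hx : k x = i) (h1 : f l < f x) (h2 : f x < f r)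
    (hy : k y = 3) (hS : Br G k x y S) (hx' : k x' = j) (h1' : f l' < f x')
    (h2' : f x' < f r') (hy' : k y' = 3) (hS' : Br G k x' y' S') : y = y' := by
  rcases lt_trichotomy (f y) (f y') with hlt | heq | hgt
  · exact (h.lt_absurd hx h1 h2 hy hS hx' h1' h2' hy' hS' hlt).elim
  · exact h.inj y y' (by omega) (by omega) (by omega) heq
  · exact (h.swap.lt_absurd hx' h1' h2' hy' hS' hx h1 h2 hy hS hgt).elim

theorem no₃₃ (h : Cfg G v a c d B W k f i j e g b₁ b₂ b₃ w₁ w₂ w₃ l r l' r')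
    {x x' y : V} {S S' : Set V} (hx : k x = i) (h1 : f l < f x) (h2 : f x < f r)
    (hy : k y = 3) (hS : Br G k x y S) (hx' : k x' = j) (h1' : f l' < f x')
    (h2' : f x' < f r') (hS' : Br G k x' y S') {p q : V} {T : Set V} (hp : k p = 3)
    (hq : k q = 3) (hpy : f p < f y) (hyq : f y < f q) (hT : Br G k p q T) : False := by
  obtain ⟨ue, hue, hru⟩ := h.ar
  obtain ⟨uf, huf, hlu⟩ := h.al'
  have hk := h.hk
  have hdis : ∀ z, z ∈ S → z ∈ T → False := fun z hz hz' => by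
    have h3 := h.uniq hx h1 h2 hp (hS.meet hT hz hz') hx' h1' h2' hy hS'
    rw [h3] at hpy
    exact lt_irrefl _ hpy
  have hdis' : ∀ z, z ∈ S' → z ∈ T → False := fun z hz hz' => by
    have h3 := h.uniq hx h1 h2 hy hS hx' h1' h2' hp (hS'.meet hT hz hz')
    rw [h3] at hpy
    exact lt_irrefl _ hpy
  have hA := hS.con (h.lo₁ hx) ⟨hx, le_rfl⟩ (Con.single G y) rfl
  refine h.app ({z | k z = e} ∪ {z | k z = i ∧ f r ≤ f z})
    ({z | k z = g} ∪ {z | k z = j ∧ f z ≤ f l'})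
    ({z | k z = i ∧ f z ≤ f x} ∪ S ∪ {y} ∪ S' ∪ {z | k z = j ∧ f x' ≤ f z})
    ({z | k z = 3 ∧ f z ≤ f p} ∪ T ∪ {z | k z = 3 ∧ f q ≤ f z})
    (h.conE.union (h.up₁ h.kr) hue ⟨h.kr, le_rfl⟩ hru.symm)
    (h.conF.union (h.lo₂ h.kl') huf ⟨h.kl', le_rfl⟩ hlu.symm)
    (hS'.symm.con hA (Or.inr rfl) (h.up₂ hx') ⟨hx', le_rfl⟩)
    (hT.con (h.lo₃ hp) ⟨hp, le_rfl⟩ (h.up₃ hq) ⟨hq, le_rfl⟩) ?_
    (Or.inl h.kc) (Or.inl h.kd)
    (Or.inr ⟨⟨w₁, Or.inr ⟨h.kw₁, (h.m₁ r h.kr).2⟩, h.wW₁⟩,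
      ⟨b₂, Or.inr ⟨h.kb₂, (h.m₂ l' h.kl').1⟩, h.bB₂⟩⟩)
    ⟨b₁, Or.inl (Or.inl (Or.inl (Or.inl ⟨h.kb₁, (h.m₁ x hx).1⟩))), h.bB₁⟩
    ⟨w₂, Or.inr ⟨h.kw₂, (h.m₂ x' hx').2⟩, h.wW₂⟩
    ⟨b₃, Or.inl (Or.inl ⟨h.kb₃, (h.m₃ p hp).1⟩), h.bB₃⟩
    ⟨w₃, Or.inr ⟨h.kw₃, (h.m₃ q hq).2⟩, h.wW₃⟩
  intro z
  have hz := hS.1 z
  have hz' := hS'.1 z
  have hzt := hT.1 z
  have hzz := hdis z
  have hzz' := hdis' z
  simp only [Set.mem_union, Set.mem_ofPred_eq, Set.mem_singleton_iff]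
  clear hru hlu h hS hS' hdis hdis' hA hT
  refine ⟨?_, ?_, ?_, ?_, ?_, ?_, ?_, ?_, ?_, ?_⟩ <;> grind (splits := 20)

theorem no₁₂ (h : Cfg G v a c d B W k f i j e g b₁ b₂ b₃ w₁ w₂ w₃ l r l' r')
    {p q : V} {T : Set V} (hp : k p = i) (hpl : f p ≤ f l) (hq : k q = j) (hqr : f r' ≤ f q)
    (hT : Br G k p q T) : False := by
  obtain ⟨ue, hue, hru⟩ := h.ar
  obtain ⟨uf, huf, hlu⟩ := h.al'
  have hk := h.hk
  have hlr := h.lt_r
  have hlr' := h.swap.lt_r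
  refine h.app ({z | k z = e} ∪ {z | k z = i ∧ f r ≤ f z})
    ({z | k z = g} ∪ {z | k z = j ∧ f z ≤ f l'})
    ({z | k z = i ∧ f z ≤ f p} ∪ T ∪ {z | k z = j ∧ f q ≤ f z}) {z | k z = 3}
    (h.conE.union (h.up₁ h.kr) hue ⟨h.kr, le_rfl⟩ hru.symm)
    (h.conF.union (h.lo₂ h.kl') huf ⟨h.kl', le_rfl⟩ hlu.symm)
    (hT.con (h.lo₁ hp) ⟨hp, le_rfl⟩ (h.up₂ hq) ⟨hq, le_rfl⟩) h.con₃ ?_
    (Or.inl h.kc) (Or.inl h.kd)
    (Or.inr ⟨⟨w₁, Or.inr ⟨h.kw₁, (h.m₁ r h.kr).2⟩, h.wW₁⟩,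
      ⟨b₂, Or.inr ⟨h.kb₂, (h.m₂ l' h.kl').1⟩, h.bB₂⟩⟩)
    ⟨b₁, Or.inl (Or.inl ⟨h.kb₁, (h.m₁ p hp).1⟩), h.bB₁⟩
    ⟨w₂, Or.inr ⟨h.kw₂, (h.m₂ q hq).2⟩, h.wW₂⟩ ⟨b₃, h.kb₃, h.bB₃⟩ ⟨w₃, h.kw₃, h.wW₃⟩
  intro z
  have hz := hT.1 z
  simp only [Set.mem_union, Set.mem_ofPred_eq]
  clear hru hlu h hT
  refine ⟨?_, ?_, ?_, ?_, ?_, ?_, ?_, ?_, ?_, ?_⟩ <;> grind (splits := 20)

theorem no₁₃ (h : Cfg G v a c d B W k f i j e g b₁ b₂ b₃ w₁ w₂ w₃ l r l' r')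
    {x x' y : V} {S S' : Set V} (hx : k x = i) (h1 : f l < f x) (h2 : f x < f r)
    (hy : k y = 3) (hS : Br G k x y S) (hx' : k x' = j) (h1' : f l' < f x')
    (h2' : f x' < f r') (hS' : Br G k x' y S') {p q : V} {T : Set V} (hp : k p = i)
    (hpl : f p ≤ f l) (hq : k q = 3) (hyq : f y < f q) (hT : Br G k p q T) : False := by
  obtain ⟨ue, hue, hru⟩ := h.ar
  obtain ⟨uf, huf, hlu⟩ := h.al'
  have hk := h.hk
  have hlr := h.lt_r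
  have hlr' := h.swap.lt_r
  have hdis : ∀ z, z ∈ S' → z ∈ T → False := fun z hz hz' => by
    have h3 := h.uniq hx h1 h2 hy hS hx' h1' h2' hq (hS'.meet hT.symm hz hz')
    rw [h3] at hyq
    exact lt_irrefl _ hyq
  refine h.app ({z | k z = e} ∪ {z | k z = i ∧ f r ≤ f z})
    ({z | k z = g} ∪ {z | k z = j ∧ f z ≤ f l'})
    ({z | k z = i ∧ f z ≤ f p} ∪ T ∪ {z | k z = 3 ∧ f q ≤ f z})
    ({z | k z = 3 ∧ f z ≤ f y} ∪ S' ∪ {z | k z = j ∧ f x' ≤ f z})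
    (h.conE.union (h.up₁ h.kr) hue ⟨h.kr, le_rfl⟩ hru.symm)
    (h.conF.union (h.lo₂ h.kl') huf ⟨h.kl', le_rfl⟩ hlu.symm)
    (hT.con (h.lo₁ hp) ⟨hp, le_rfl⟩ (h.up₃ hq) ⟨hq, le_rfl⟩)
    (hS'.symm.con (h.lo₃ hy) ⟨hy, le_rfl⟩ (h.up₂ hx') ⟨hx', le_rfl⟩) ?_
    (Or.inl h.kc) (Or.inl h.kd)
    (Or.inr ⟨⟨w₁, Or.inr ⟨h.kw₁, (h.m₁ r h.kr).2⟩, h.wW₁⟩,
      ⟨b₂, Or.inr ⟨h.kb₂, (h.m₂ l' h.kl').1⟩, h.bB₂⟩⟩)
    ⟨b₁, Or.inl (Or.inl ⟨h.kb₁, (h.m₁ p hp).1⟩), h.bB₁⟩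
    ⟨w₃, Or.inr ⟨h.kw₃, (h.m₃ q hq).2⟩, h.wW₃⟩
    ⟨b₃, Or.inl (Or.inl ⟨h.kb₃, (h.m₃ y hy).1⟩), h.bB₃⟩
    ⟨w₂, Or.inr ⟨h.kw₂, (h.m₂ x' hx').2⟩, h.wW₂⟩
  intro z
  have hz' := hS'.1 z
  have hzt := hT.1 z
  have hzz := hdis z
  simp only [Set.mem_union, Set.mem_ofPred_eq]
  clear hru hlu h hS hS' hdis hT
  refine ⟨?_, ?_, ?_, ?_, ?_, ?_, ?_, ?_, ?_, ?_⟩ <;> grind (splits := 20)

/-- the way the 6-connectivity is used: `X` on the paths, `T` outside, and the components of the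
rest that see `X` -/
theorem grow (h : Cfg G v a c d B W k f i j e g b₁ b₂ b₃ w₁ w₂ w₃ l r l' r')
    (X T : Set V) (C : Finset V) (hC : C.card ≤ 5) (hvC : v ∈ C) (haC : a ∈ C)
    (hq : ∀ x ∈ X, ∀ q S, (k q = i ∨ k q = j ∨ k q = 3) → Br G k x q S → q ∈ X ∨ q ∈ C)
    (hE : ∀ x ∈ X, ∀ q, (k q = e ∨ k q = g) → G.Adj x q → q ∈ T)
    (hT : ∀ x ∈ T, ∀ q, G.Adj x q → q ∈ T ∨ q ∈ X ∨ q ∈ C)
    {x₀ y₀ : V} (hx₀ : x₀ ∈ X ∨ x₀ ∈ T) (hxC : x₀ ∉ C) (hyX : y₀ ∉ X) (hyT : y₀ ∉ T)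
    (hyC : y₀ ∉ C) (hy6 : k y₀ ≠ 6) : False := by
  set O : Set V := {z | ∃ S, (∀ s ∈ S, k s = 6) ∧ Con G S ∧ z ∈ S ∧ ∃ s ∈ S, ∃ x ∈ X,
    G.Adj x s} with hO
  have hO6 : ∀ z ∈ O, k z = 6 := by
    rintro z ⟨S, h1, _, h3, _⟩
    exact h1 z h3
  obtain ⟨p, q, hp, hq', hpC, hqC, hpq⟩ := h.cut C hC (X ∪ T ∪ O) x₀ y₀ (Or.inl hx₀)
    (by
      rintro ((h1 | h1) | h1)
      · exact hyX h1
      · exact hyT h1
      · exact hy6 (hO6 _ h1)) hxC hyC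
  have hqX : q ∉ X := fun h' => hq' (Or.inl (Or.inl h'))
  have hqT : q ∉ T := fun h' => hq' (Or.inl (Or.inr h'))
  have hqO : q ∉ O := fun h' => hq' (Or.inr h')
  have hk := h.hk
  have hk6 := h.k6 q
  have hq0 : k q ≠ 0 := by
    intro h0
    rcases (h.k0 q).1 h0 with h1 | h1
    · exact hqC (h1 ▸ hvC)
    · exact hqC (h1 ▸ haC)
  rcases hp with (hp | hp) | hp
  · by_cases h3 : k q = i ∨ k q = j ∨ k q = 3
    · rcases hq p hp q ∅ h3 (Br.edge hpq) with h1 | h1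
      · exact hqX h1
      · exact hqC h1
    by_cases h4 : k q = e ∨ k q = g
    · exact hqT (hE p hp q h4 hpq)
    have h6 : k q = 6 := by omega
    refine hqO ⟨{q}, ?_, Con.single G q, rfl, q, rfl, p, hp, hpq⟩
    rintro s hs
    rw [Set.mem_singleton_iff] at hs
    rw [hs]
    exact h6
  · rcases hT p hp q hpq with h1 | h1 | h1
    · exact hqT h1
    · exact hqX h1
    · exact hqC h1
  · have hp6 := hO6 p hp
    obtain ⟨S, hS6, hS, hpS, s, hs, x, hx, hxs⟩ := hp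
    by_cases h3 : k q = i ∨ k q = j ∨ k q = 3
    · rcases hq x hx q S h3 ⟨hS6, Or.inr ⟨hS, ⟨s, hs, hxs⟩, ⟨p, hpS, hpq.symm⟩⟩⟩ with h1 | h1
      · exact hqX h1
      · exact hqC h1
    have hkd := h.kd
    have hkc := h.kc
    by_cases h4 : k q = e
    · rcases h.nE q p h4 hpq.symm with h5 | h5 | h5 | h5
      · omega
      · omega
      · omega
      · rw [h5] at hp6
        omega
    by_cases h5 : k q = g
    · rcases h.nF q p h5 hpq.symm with h5 | h5 | h5 | h5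
      · omega
      · omega
      · omega
      · rw [h5] at hp6
        omega
    have h6 : k q = 6 := by omega
    refine hqO ⟨S ∪ {q}, ?_, hS.union (Con.single G q) hpS rfl hpq, Or.inr rfl, s, Or.inl hs,
      x, hx, hxs⟩
    rintro s (hs | hs)
    · exact hS6 s hs
    · rw [Set.mem_singleton_iff] at hs
      rw [hs]
      exact h6

theorem ne_of_k (k : V → ℕ) {x y : V} (h : k x ≠ k y) : x ≠ y := fun h' => h (h' ▸ rfl)

/-- there is a bridge from the middle segment of the first path to the third path -/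
theorem exY (h : Cfg G v a c d B W k f i j e g b₁ b₂ b₃ w₁ w₂ w₃ l r l' r') :
    ∃ x y S, k x = i ∧ f l < f x ∧ f x < f r ∧ k y = 3 ∧ Br G k x y S := by
  classical
  by_contra hno
  push Not at hno
  have hk := h.hk
  have hkv : k v = 0 := (h.k0 v).2 (Or.inl rfl)
  have hka : k a = 0 := (h.k0 a).2 (Or.inr rfl)
  have hkd := h.kd
  have hkc := h.kc
  have hkl := h.kl
  have hkr := h.kr
  have hkb := h.kb₂
  refine h.grow {z | k z = i ∧ f l < f z ∧ f z < f r} {z | k z = e} {v, a, d, l, r}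
    card_le_five (by simp) (by simp) ?_ ?_ ?_ (x₀ := c) (y₀ := b₂)
    (Or.inr h.kc) ?_ ?_ ?_ ?_ ?_
  · rintro x ⟨hx, h1, h2⟩ q S (hq | hq | hq) hS
    · by_cases hql : q = l
      · exact Or.inr (by simp [hql])
      by_cases hqr : q = r
      · exact Or.inr (by simp [hqr])
      left
      refine ⟨hq, ?_, ?_⟩
      · by_contra h3
        have h4 : f q ≠ f l := fun h4 => hql (h.inj q l (by omega) (by omega) (by omega) h4)
        obtain ⟨u, hu, hlu⟩ := h.al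
        exact h.re q x l u S (by omega) (by omega) (by omega) (by omega) (by omega) h1 hlu
          (Or.inl hu) hS.symm
      · by_contra h3
        have h4 : f q ≠ f r := fun h4 => hqr (h.inj q r (by omega) (by omega) (by omega) h4)
        obtain ⟨u, hu, hlu⟩ := h.ar
        exact h.re x q r u S (by omega) (by omega) (by omega) (by omega) h2 (by omega) hlu
          (Or.inl hu) hS
    · exact (h.noM₂ hx h1 h2 hq hS).elim
    · exact (hno x q S hx h1 h2 hq hS).elim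
  · rintro x ⟨hx, h1, h2⟩ q (hq | hq) hxq
    · exact hq
    · rcases h.nF q x hq hxq.symm with h3 | h3 | h3 | h3
      · omega
      · omega
      · omega
      · rw [h3] at hx
        omega
  · intro x hx q hxq
    rcases h.nE x q hx hxq with h3 | h3 | h3 | h3
    · exact Or.inl h3
    · right
      right
      rcases (h.k0 q).1 h3 with h4 | h4
      · simp [h4]
      · simp [h4]
    · have h4 := h.fl q x h3 hx hxq.symm
      by_cases hql : q = l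
      · exact Or.inr (Or.inr (by simp [hql]))
      by_cases hqr : q = r
      · exact Or.inr (Or.inr (by simp [hqr]))
      have h5 : f q ≠ f l := fun h5 => hql (h.inj q l (by omega) (by omega) (by omega) h5)
      have h6 : f q ≠ f r := fun h6 => hqr (h.inj q r (by omega) (by omega) (by omega) h6)
      exact Or.inr (Or.inl ⟨h3, by omega, by omega⟩)
    · exact Or.inr (Or.inr (by simp [h3]))
  · simp only [mem_insert, mem_singleton, not_or]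
    exact ⟨ne_of_k k (by omega), ne_of_k k (by omega), ne_of_k k (by omega),
      ne_of_k k (by omega), ne_of_k k (by omega)⟩
  · rintro ⟨h1, _⟩
    omega
  · intro h1
    rw [Set.mem_ofPred_eq] at h1
    omega
  · simp only [mem_insert, mem_singleton, not_or]
    exact ⟨ne_of_k k (by omega), ne_of_k k (by omega), ne_of_k k (by omega),
      ne_of_k k (by omega), ne_of_k k (by omega)⟩
  · omega

theorem first (h : Cfg G v a c d B W k f i j e g b₁ b₂ b₃ w₁ w₂ w₃ l r l' r')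
    {x x' y : V} {S S' : Set V} (hx : k x = i) (h1 : f l < f x) (h2 : f x < f r)
    (hy : k y = 3) (hS : Br G k x y S) (hx' : k x' = j) (h1' : f l' < f x')
    (h2' : f x' < f r') (hS' : Br G k x' y S') : y = b₃ := by
  classical
  by_contra hne
  have hk := h.hk
  have hby := (h.m₃ y hy).1
  have hkb := h.kb₃
  have hby' : f y ≠ f b₃ := fun h3 => hne (h.inj y b₃ (by omega) (by omega) (by omega) h3)
  have hkv : k v = 0 := (h.k0 v).2 (Or.inl rfl)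
  have hka : k a = 0 := (h.k0 a).2 (Or.inr rfl)
  have hkd := h.kd
  have hkc := h.kc
  have hkl := h.kl
  have hkr := h.kr
  have hkl' := h.kl'
  have hkr' := h.kr'
  have hlr := h.lt_r
  have hlr' := h.swap.lt_r
  obtain ⟨ul, hul, hlul⟩ := h.al
  obtain ⟨ul', hul', hlul'⟩ := h.al'
  refine h.grow {z | (k z = i ∧ f z < f l) ∨ (k z = j ∧ f z < f l') ∨ (k z = 3 ∧ f z < f y)} ∅
    {v, a, l, l', y} card_le_five (by simp) (by simp) ?_ ?_ ?_ (x₀ := b₃) (y₀ := c)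
    (Or.inl (Or.inr (Or.inr ⟨hkb, by omega⟩))) ?_ ?_ ?_ ?_ ?_
  · have key : ∀ q, (k q = i ∨ k q = j ∨ k q = 3) →
        (((k q = i ∧ f q < f l) ∨ (k q = j ∧ f q < f l') ∨ (k q = 3 ∧ f q < f y)) ∨
          q ∈ ({v, a, l, l', y} : Finset V)) ∨ (k q = i ∧ f l < f q) ∨ (k q = j ∧ f l' < f q) ∨
          (k q = 3 ∧ f y < f q) := by
      rintro q (hq | hq | hq)
      · by_cases hql : q = l
        · exact Or.inl (Or.inr (by simp [hql]))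
        have h5 : f q ≠ f l := fun h5 => hql (h.inj q l (by omega) (by omega) (by omega) h5)
        by_cases h6 : f q < f l
        · exact Or.inl (Or.inl (Or.inl ⟨hq, h6⟩))
        · exact Or.inr (Or.inl ⟨hq, by omega⟩)
      · by_cases hql : q = l'
        · exact Or.inl (Or.inr (by simp [hql]))
        have h5 : f q ≠ f l' := fun h5 => hql (h.inj q l' (by omega) (by omega) (by omega) h5)
        by_cases h6 : f q < f l'
        · exact Or.inl (Or.inl (Or.inr (Or.inl ⟨hq, h6⟩)))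
        · exact Or.inr (Or.inr (Or.inl ⟨hq, by omega⟩))
      · by_cases hql : q = y
        · exact Or.inl (Or.inr (by simp [hql]))
        have h5 : f q ≠ f y := fun h5 => hql (h.inj q y (by omega) (by omega) (by omega) h5)
        by_cases h6 : f q < f y
        · exact Or.inl (Or.inl (Or.inr (Or.inr ⟨hq, h6⟩)))
        · exact Or.inr (Or.inr (Or.inr ⟨hq, by omega⟩))
    intro p hp q T hq hT
    rcases key q hq with h3 | h3
    · exact h3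
    exfalso
    rcases hp with ⟨hp, hpl⟩ | ⟨hp, hpl⟩ | ⟨hp, hpl⟩
    · rcases h3 with ⟨h3, h4⟩ | ⟨h3, h4⟩ | ⟨h3, h4⟩
      · exact h.re p q l ul T (by omega) (by omega) (by omega) (by omega) hpl h4 hlul
          (Or.inl hul) hT
      · by_cases h5 : f q < f r'
        · exact h.swap.noM₂ h3 h4 h5 hp hT.symm
        · exact h.no₁₂ hp (by omega) h3 (by omega) hT
      · exact h.no₁₃ hx h1 h2 hy hS hx' h1' h2' hS' hp (by omega) h3 h4 hT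
    · rcases h3 with ⟨h3, h4⟩ | ⟨h3, h4⟩ | ⟨h3, h4⟩
      · by_cases h5 : f q < f r
        · exact h.noM₂ h3 h4 h5 hp hT.symm
        · exact h.swap.no₁₂ hp (by omega) h3 (by omega) hT
      · exact h.re p q l' ul' T (by omega) (by omega) (by omega) (by omega) hpl h4 hlul'
          (Or.inr hul') hT
      · exact h.swap.no₁₃ hx' h1' h2' hy hS' hx h1 h2 hS hp (by omega) h3 h4 hT
    · rcases h3 with ⟨h3, h4⟩ | ⟨h3, h4⟩ | ⟨h3, h4⟩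
      · by_cases h5 : f q < f r
        · have h6 := h.uniq h3 h4 h5 hp hT.symm hx' h1' h2' hy hS'
          rw [h6] at hpl
          exact lt_irrefl _ hpl
        · exact h.rev.no₁₃ (x := x) (x' := x') (y := y) (p := q) (q := p) hx (by omega)
            (by omega) hy hS hx' (by omega) (by omega) hS' h3 (by omega) hp (by omega) hT.symm
      · by_cases h5 : f q < f r'
        · have h6 := h.uniq hx h1 h2 hy hS h3 h4 h5 hp hT.symm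
          rw [h6] at hpl
          exact lt_irrefl _ hpl
        · exact h.swap.rev.no₁₃ (x := x') (x' := x) (y := y) (p := q) (q := p) hx' (by omega)
            (by omega) hy hS' hx (by omega) (by omega) hS h3 (by omega) hp (by omega) hT.symm
      · exact h.no₃₃ hx h1 h2 hy hS hx' h1' h2' hS' hp h3 hpl h4 hT
  · rintro p hp q (hq | hq) hpq
    · exfalso
      rcases h.nE q p hq hpq.symm with h3 | h3 | h3 | h3
      · rcases hp with hp | hp | hp <;> omega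
      · rcases hp with hp | hp | hp <;> omega
      · have h4 := h.fl p q h3 hq hpq
        rcases hp with hp | hp | hp <;> omega
      · rw [h3] at hp
        rcases hp with hp | hp | hp <;> omega
    · exfalso
      rcases h.nF q p hq hpq.symm with h3 | h3 | h3 | h3
      · rcases hp with hp | hp | hp <;> omega
      · rcases hp with hp | hp | hp <;> omega
      · have h4 := h.fl' p q h3 hq hpq
        rcases hp with hp | hp | hp <;> omega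
      · rw [h3] at hp
        rcases hp with hp | hp | hp <;> omega
  · intro p hp
    exact absurd hp (Set.notMem_empty p)
  · simp only [mem_insert, mem_singleton, not_or]
    exact ⟨ne_of_k k (by omega), ne_of_k k (by omega), ne_of_k k (by omega), ne_of_k k (by omega),
      fun h' => hne h'.symm⟩
  · rintro (h3 | h3 | h3) <;> omega
  · exact Set.notMem_empty c
  · simp only [mem_insert, mem_singleton, not_or]
    exact ⟨ne_of_k k (by omega), ne_of_k k (by omega), ne_of_k k (by omega),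
      ne_of_k k (by omega), ne_of_k k (by omega)⟩
  · omega

/-- The configuration is impossible. -/
theorem final (h : Cfg G v a c d B W k f i j e g b₁ b₂ b₃ w₁ w₂ w₃ l r l' r') : False := by
  obtain ⟨x, y, S, hx, h1, h2, hy, hS⟩ := h.exY
  obtain ⟨x', y', S', hx', h1', h2', hy', hS'⟩ := h.swap.exY
  have hyy := h.uniq hx h1 h2 hy hS hx' h1' h2' hy' hS'
  rw [← hyy] at hS'
  have hb := h.first hx h1 h2 hy hS hx' h1' h2' hS'
  have hw := h.rev.first (x := x) (x' := x') (y := y) hx (by omega) (by omega) hy hS hx'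
    (by omega) (by omega) hS'
  exact h.bw (hb.symm.trans hw)

end Cfg

end Pool.Agent.LD6.X
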