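import Pool.Agent.LD6.XSys
import Pool.Agent.LD6.XCore

/-!
LD6, Lemma X: from a system of maximum size to the configuration `Cfg`.
-/

set_option autoImplicit false

namespace Pool.Agent.LD6.X

open Finset Pool.Agent.LG6

variable {V : Type} {G : SimpleGraph V}

theorem IsPath.congr {P : Set V} {f f' : V → ℤ} {b w : V} (h : IsPath G P f b w)
    (he : ∀ z ∈ P, f' z = f z) : IsPath G P f' b w where
  hb := h.hb
  hw := h.hw
  mn := fun z hz => by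
    rw [he z hz, he b h.hb, he w h.hw]
    exact h.mn z hz
  inj := fun x hx y hy hxy => by
    rw [he x hx, he y hy] at hxy
    exact h.inj x hx y hy hxy
  seg := fun x hx y hy hxy => by
    rw [he x hx, he y hy] at hxy
    have h1 := h.seg x hx y hy hxy
    have h2 : {z | z ∈ P ∧ f' x ≤ f' z ∧ f' z ≤ f' y} = {z | z ∈ P ∧ f x ≤ f z ∧ f z ≤ f y} := by
      ext z
      simp only [Set.mem_ofPred_eq]
      constructor
      · rintro ⟨hz, h3, h4⟩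
        rw [he z hz, he x hx] at h3
        rw [he z hz, he y hy] at h4
        exact ⟨hz, h3, h4⟩
      · rintro ⟨hz, h3, h4⟩
        rw [he z hz, he x hx, he y hy]
        exact ⟨hz, h3, h4⟩
    rw [h2]
    exact h1

/-- three attachments, by 6-connectivity -/
theorem att [Fintype V] [DecidableEq V] (hG : IsKConnected 6 G) {E P : Set V} {f : V → ℤ}
    (hinj : ∀ x ∈ P, ∀ y ∈ P, f x = f y → x = y) {v a d x₀ y₀ : V}
    (hn : ∀ x ∈ E, ∀ y, G.Adj x y → y ∈ E ∨ y = v ∨ y = a ∨ y = d ∨ y ∈ P) (hx : x₀ ∈ E)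
    (hxv : x₀ ≠ v) (hxa : x₀ ≠ a) (hxd : x₀ ≠ d) (hEP : ∀ z ∈ E, z ∉ P) (hy : y₀ ∉ E)
    (hyP : y₀ ∉ P) (hyv : y₀ ≠ v) (hya : y₀ ≠ a) (hyd : y₀ ≠ d) :
    ∃ l r m, l ∈ P ∧ r ∈ P ∧ m ∈ P ∧ (∃ u ∈ E, G.Adj l u) ∧ (∃ u ∈ E, G.Adj r u) ∧
      (∃ u ∈ E, G.Adj m u) ∧ f l < f m ∧ f m < f r ∧
      ∀ z ∈ P, (∃ u ∈ E, G.Adj z u) → f l ≤ f z ∧ f z ≤ f r := by
  classical
  set A : Finset V := univ.filter fun z => z ∈ P ∧ ∃ u ∈ E, G.Adj z u with hA
  have hAm : ∀ z, z ∈ A ↔ z ∈ P ∧ ∃ u ∈ E, G.Adj z u := by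
    intro z
    rw [hA, mem_filter]
    exact ⟨fun h => h.2, fun h => ⟨mem_univ z, h⟩⟩
  have h3 : 3 ≤ A.card := by
    by_contra hlt
    have hc : (insert v (insert a (insert d A))).card < 6 := by
      have h1 := card_insert_le v (insert a (insert d A))
      have h2 := card_insert_le a (insert d A)
      have h3 := card_insert_le d A
      omega
    obtain ⟨p, q, hp, hq, hpq, hpE, hqE⟩ := cross (hG.2 _ hc) E (e := x₀) (f := y₀)
      (by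
        intro h1
        rw [mem_coe, mem_insert, mem_insert, mem_insert] at h1
        rcases h1 with h1 | h1 | h1 | h1
        · exact hxv h1
        · exact hxa h1
        · exact hxd h1
        · exact hEP x₀ hx ((hAm x₀).1 h1).1)
      (by
        intro h1
        rw [mem_coe, mem_insert, mem_insert, mem_insert] at h1
        rcases h1 with h1 | h1 | h1 | h1
        · exact hyv h1
        · exact hya h1
        · exact hyd h1
        · exact hyP ((hAm y₀).1 h1).1) hx hy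
    apply hq
    rw [mem_coe, mem_insert, mem_insert, mem_insert]
    rcases hn p hpE q hpq with h1 | h1 | h1 | h1 | h1
    · exact (hqE h1).elim
    · exact Or.inl h1
    · exact Or.inr (Or.inl h1)
    · exact Or.inr (Or.inr (Or.inl h1))
    · exact Or.inr (Or.inr (Or.inr ((hAm q).2 ⟨h1, p, hpE, hpq.symm⟩)))
  obtain ⟨l, hl, r, hr, m, hm, h1, h2, h4⟩ := three_of_card A f
    (fun x hx y hy => hinj x ((hAm x).1 hx).1 y ((hAm y).1 hy).1) h3
  rw [hAm] at hl hr hm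
  exact ⟨l, r, m, hl.1, hr.1, hm.1, hl.2, hr.2, hm.2, h1, h2,
    fun z hz hz' => h4 z ((hAm z).2 ⟨hz, hz'⟩)⟩

namespace Sys

variable {v a c d : V} {B W : Set V} {P₁ P₂ P₃ C : Set V}

theorem fin [Fintype V] [DecidableEq V] (hG : IsKConnected 6 G) (hg : NoGood G v a c d B W)
    (hBW : ∀ z ∈ B, z ∉ W) (h : Sys G v a c d B W P₁ P₂ P₃ C) (hm : IsMax G v a c d B W C)
    (hd : d ∈ C) (hcd : c ≠ d)
    (hn3 : ∀ x ∈ C, ∀ y ∈ P₃, ¬ G.Adj x y)
    {f₁ f₂ f₃ : V → ℤ} {b₁ b₂ b₃ w₁ w₂ w₃ : V} (q₁ : IsPath G P₁ f₁ b₁ w₁)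
    (q₂ : IsPath G P₂ f₂ b₂ w₂) (q₃ : IsPath G P₃ f₃ b₃ w₃)
    (bB₁ : b₁ ∈ B) (bB₂ : b₂ ∈ B) (bB₃ : b₃ ∈ B) (wW₁ : w₁ ∈ W) (wW₂ : w₂ ∈ W) (wW₃ : w₃ ∈ W)
    (h₁ : ∀ S : Set V, (∀ x ∈ S, x ∈ C) → Con G S → (c ∈ S ∨ d ∈ S) → c ∉ S →
      ∀ x ∈ S, ∀ y ∈ P₁, G.Adj x y → y = c)
    (h₂ : ∀ S : Set V, (∀ x ∈ S, x ∈ C) → Con G S → (c ∈ S ∨ d ∈ S) → d ∉ S →
      ∀ x ∈ S, ∀ y ∈ P₂, G.Adj x y → y = d) : False := by
  classical
  obtain ⟨E, hEX, hcE, hE, hEcl⟩ := comp G {x | x ∈ C ∧ x ≠ d} c ⟨h.hc, hcd⟩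
  obtain ⟨F, hFX, hdF, hF, hFcl⟩ := comp G {x | x ∈ C ∧ x ≠ c} d ⟨hd, hcd.symm⟩
  have hEC : ∀ x ∈ E, x ∈ C := fun x hx => (hEX hx).1
  have hFC : ∀ x ∈ F, x ∈ C := fun x hx => (hFX hx).1
  have hdE : d ∉ E := fun h' => (hEX h').2 rfl
  have hcF : c ∉ F := fun h' => (hFX h').2 rfl
  have hF1 : ∀ x ∈ F, ∀ y ∈ P₁, ¬ G.Adj x y := by
    intro x hx y hy hxy
    have h3 := h₁ F hFC hF (Or.inr hdF) hcF x hx y hy hxy
    exact h.e₁ c h.hc (h3 ▸ hy)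
  have hE2 : ∀ x ∈ E, ∀ y ∈ P₂, ¬ G.Adj x y := by
    intro x hx y hy hxy
    have h3 := h₂ E hEC hE (Or.inl hcE) hdE x hx y hy hxy
    exact h.e₂ d hd (h3 ▸ hy)
  have hb3C : b₃ ∉ C := fun h' => h.e₃ b₃ h' q₃.hb
  have hb3v := (h.n₃ b₃ q₃.hb).1
  have hb3a := (h.n₃ b₃ q₃.hb).2.1
  have hb3d := (h.n₃ b₃ q₃.hb).2.2
  have hb3c : b₃ ≠ c := fun h' => hb3C (h' ▸ h.hc)
  have hcv := (h.nC c h.hc).1
  have hca := (h.nC c h.hc).2
  have hdv := (h.nC d hd).1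
  have hda := (h.nC d hd).2
  have hEF : ∀ z ∈ E, z ∉ F := by
    intro z hzE hzF
    have hzc : z ≠ c := fun h' => hcF (h' ▸ hzF)
    have hzd : z ≠ d := fun h' => hdE (h' ▸ hzE)
    obtain ⟨Z, hZX, hzZ, hZ, hZcl⟩ := comp G {x | x ∈ C ∧ x ≠ c ∧ x ≠ d} z ⟨hEC z hzE, hzc, hzd⟩
    have hZE : ∀ x ∈ Z, x ∈ E := (show Con G Z from hZ).sub hzZ hzE
      (fun g hg y hy hgy => hEcl g hg y ⟨(hZX hy).1, (hZX hy).2.2⟩ hgy)
    have hZF : ∀ x ∈ Z, x ∈ F := (show Con G Z from hZ).sub hzZ hzF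
      (fun g hg y hy hgy => hFcl g hg y ⟨(hZX hy).1, (hZX hy).2.1⟩ hgy)
    obtain ⟨p, q, hp, hq, hpq, hpZ, hqZ⟩ := cross (hG.2 {v, a, c, d} (by
      have := card_le_four (a := v) (b := a) (c := c) (d := d)
      omega)) Z (e := z) (f := b₃) (by
        simp only [coe_insert, coe_singleton, Set.mem_compl_iff, Set.mem_insert_iff,
          Set.mem_singleton_iff, not_or]
        exact ⟨(h.nC z (hEC z hzE)).1, (h.nC z (hEC z hzE)).2, hzc, hzd⟩) (by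
        simp only [coe_insert, coe_singleton, Set.mem_compl_iff, Set.mem_insert_iff,
          Set.mem_singleton_iff, not_or]
        exact ⟨hb3v, hb3a, hb3c, hb3d⟩) hzZ (fun h' => hb3C (hZX h').1)
    simp only [coe_insert, coe_singleton, Set.mem_compl_iff, Set.mem_insert_iff,
        Set.mem_singleton_iff, not_or] at hp hq
    rcases h.closed hm (hZX hpZ).1 hpq with h' | h' | h' | h' | h' | h'
    · exact hqZ (hZcl p hpZ q ⟨h', hq.2.2.1, hq.2.2.2⟩ hpq)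
    · exact hF1 p (hZF p hpZ) q h' hpq
    · exact hE2 p (hZE p hpZ) q h' hpq
    · exact hn3 p (hZX hpZ).1 q h' hpq
    · exact hq.1 h'
    · exact hq.2.1 h'
  have hCEF : ∀ x ∈ C, x ∈ E ∪ F := h.cC.sub h.hc (Or.inl hcE) (by
    rintro g (hg | hg) y hy hgy
    · by_cases hyd : y = d
      · exact Or.inr (hyd ▸ hdF)
      · exact Or.inl (hEcl g hg y ⟨hy, hyd⟩ hgy)
    · by_cases hyc : y = c
      · exact Or.inl (hyc ▸ hcE)
      · exact Or.inr (hFcl g hg y ⟨hy, hyc⟩ hgy))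
  -- neighbours of `E` and `F`
  have nE : ∀ x ∈ E, ∀ y, G.Adj x y → y ∈ E ∨ y = v ∨ y = a ∨ y = d ∨ y ∈ P₁ := by
    intro x hx y hxy
    rcases h.closed hm (hEC x hx) hxy with h' | h' | h' | h' | h' | h'
    · by_cases hyd : y = d
      · exact Or.inr (Or.inr (Or.inr (Or.inl hyd)))
      · exact Or.inl (hEcl x hx y ⟨h', hyd⟩ hxy)
    · exact Or.inr (Or.inr (Or.inr (Or.inr h')))
    · exact (hE2 x hx y h' hxy).elim
    · exact (hn3 x (hEC x hx) y h' hxy).elim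
    · exact Or.inr (Or.inl h')
    · exact Or.inr (Or.inr (Or.inl h'))
  have nF : ∀ x ∈ F, ∀ y, G.Adj x y → y ∈ F ∨ y = v ∨ y = a ∨ y = c ∨ y ∈ P₂ := by
    intro x hx y hxy
    rcases h.closed hm (hFC x hx) hxy with h' | h' | h' | h' | h' | h'
    · by_cases hyc : y = c
      · exact Or.inr (Or.inr (Or.inr (Or.inl hyc)))
      · exact Or.inl (hFcl x hx y ⟨h', hyc⟩ hxy)
    · exact (hF1 x hx y h' hxy).elim
    · exact Or.inr (Or.inr (Or.inr (Or.inr h')))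
    · exact (hn3 x (hFC x hx) y h' hxy).elim
    · exact Or.inr (Or.inl h')
    · exact Or.inr (Or.inr (Or.inl h'))
  -- one position function
  set f : V → ℤ := fun z => if z ∈ P₁ then f₁ z else if z ∈ P₂ then f₂ z else f₃ z with hf
  have p₁ : IsPath G P₁ f b₁ w₁ := q₁.congr fun z hz => by simp only [hf, if_pos hz]
  have p₂ : IsPath G P₂ f b₂ w₂ := q₂.congr fun z hz => by
    simp only [hf, if_neg (fun h' => h.d₁₂ z h' hz), if_pos hz]
  have p₃ : IsPath G P₃ f b₃ w₃ := q₃.congr fun z hz => by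
    simp only [hf, if_neg (fun h' => h.d₁₃ z h' hz), if_neg (fun h' => h.d₂₃ z h' hz)]
  have hE1' : ∀ z ∈ E, z ∉ P₁ := fun z hz => h.e₁ z (hEC z hz)
  have hE2' : ∀ z ∈ E, z ∉ P₂ := fun z hz => h.e₂ z (hEC z hz)
  have hE3' : ∀ z ∈ E, z ∉ P₃ := fun z hz => h.e₃ z (hEC z hz)
  have hF1' : ∀ z ∈ F, z ∉ P₁ := fun z hz => h.e₁ z (hFC z hz)
  have hF2' : ∀ z ∈ F, z ∉ P₂ := fun z hz => h.e₂ z (hFC z hz)
  have hF3' : ∀ z ∈ F, z ∉ P₃ := fun z hz => h.e₃ z (hFC z hz)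
  obtain ⟨l, r, m, hl, hr, hmP, hlu, hru, hmu, hlm, hmr, hlr⟩ := att hG p₁.inj nE hcE hcv hca
    hcd hE1' (fun h' => hb3C (hEC _ h')) (fun h' => h.d₁₃ b₃ h' q₃.hb) hb3v hb3a hb3d
  obtain ⟨l', r', m', hl', hr', hmP', hlu', hru', hmu', hlm', hmr', hlr'⟩ := att hG p₂.inj nF
    hdF hdv hda hcd.symm hF2' (fun h' => hb3C (hFC _ h')) (fun h' => h.d₂₃ b₃ h' q₃.hb) hb3v
    hb3a hb3c
  have n0 : ∀ z ∈ ({v, a} : Set V), z = v ∨ z = a := fun z hz => hz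
  obtain ⟨k, hk⟩ := exists_kind ({v, a} : Set V) P₁ P₂ P₃ E F
    (fun z hz h' => by
      rcases n0 z hz with h3 | h3
      · exact (h.n₁ z h').1 h3
      · exact (h.n₁ z h').2.1 h3)
    (fun z hz h' => by
      rcases n0 z hz with h3 | h3
      · exact (h.n₂ z h').1 h3
      · exact (h.n₂ z h').2.1 h3)
    (fun z hz h' => by
      rcases n0 z hz with h3 | h3
      · exact (h.n₃ z h').1 h3
      · exact (h.n₃ z h').2.1 h3)
    (fun z hz h' => by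
      rcases n0 z hz with h3 | h3
      · exact (h.nC z (hEC z h')).1 h3
      · exact (h.nC z (hEC z h')).2 h3)
    (fun z hz h' => by
      rcases n0 z hz with h3 | h3
      · exact (h.nC z (hFC z h')).1 h3
      · exact (h.nC z (hFC z h')).2 h3)
    h.d₁₂ h.d₁₃ (fun z hz h' => hE1' z h' hz) (fun z hz h' => hF1' z h' hz)
    h.d₂₃ (fun z hz h' => hE2' z h' hz) (fun z hz h' => hF2' z h' hz)
    (fun z hz h' => hE3' z h' hz) (fun z hz h' => hF3' z h' hz) hEF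
  have k0 : ∀ z, k z = 0 ↔ z = v ∨ z = a := fun z => (hk z).2.1
  have k1 : ∀ z, k z = 1 ↔ z ∈ P₁ := fun z => (hk z).2.2.1
  have k2 : ∀ z, k z = 2 ↔ z ∈ P₂ := fun z => (hk z).2.2.2.1
  have k3 : ∀ z, k z = 3 ↔ z ∈ P₃ := fun z => (hk z).2.2.2.2.1
  have k4 : ∀ z, k z = 4 ↔ z ∈ E := fun z => (hk z).2.2.2.2.2.1
  have k5 : ∀ z, k z = 5 ↔ z ∈ F := fun z => (hk z).2.2.2.2.2.2
  have k6 : ∀ z, k z = 6 → z ∉ P₁ ∧ z ∉ P₂ ∧ z ∉ P₃ ∧ z ∉ C ∧ z ≠ v ∧ z ≠ a := by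
    intro z hz
    refine ⟨fun h' => ?_, fun h' => ?_, fun h' => ?_, fun h' => ?_, fun h' => ?_,
      fun h' => ?_⟩
    · have := (k1 z).2 h'
      omega
    · have := (k2 z).2 h'
      omega
    · have := (k3 z).2 h'
      omega
    · rcases hCEF z h' with h'' | h''
      · have := (k4 z).2 h''
        omega
      · have := (k5 z).2 h''
        omega
    · have := (k0 z).2 (Or.inl h')
      omega
    · have := (k0 z).2 (Or.inr h')
      omega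
  have sg : ∀ (n : ℕ) (P : Set V) (b w : V), (∀ z, k z = n ↔ z ∈ P) → IsPath G P f b w →
      ∀ x y, k x = n → k y = n → f x ≤ f y → Con G {z | k z = n ∧ f x ≤ f z ∧ f z ≤ f y} := by
    intro n P b w hn p x y hx hy hxy
    have h3 := p.seg x ((hn x).1 hx) y ((hn y).1 hy) hxy
    have h4 : {z | k z = n ∧ f x ≤ f z ∧ f z ≤ f y} = {z | z ∈ P ∧ f x ≤ f z ∧ f z ≤ f y} := by
      ext z
      simp only [Set.mem_ofPred_eq, hn z]
    rw [h4]
    exact h3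
  have cfg : Cfg G v a c d B W k f 1 2 4 5 b₁ b₂ b₃ w₁ w₂ w₃ l r l' r' :=
    { hk := Or.inl ⟨rfl, rfl, rfl, rfl⟩
      cut := by
        intro C0 hC0 S x y hx hy hxC hyC
        obtain ⟨p, q, hp, hq, hpq, hpS, hqS⟩ := cross (hG.2 C0 (by omega)) S (e := x) (f := y)
          (fun h' => hxC (mem_coe.1 h')) (fun h' => hyC (mem_coe.1 h')) hx hy
        exact ⟨p, q, hpS, hqS, fun h' => hp (mem_coe.2 h'), fun h' => hq (mem_coe.2 h'), hpq⟩
      good := hg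
      k0 := k0
      k6 := fun z => (hk z).1
      kc := (k4 c).2 hcE
      kd := (k5 d).2 hdF
      conE := by
        rw [show {z | k z = 4} = E from Set.ext k4]
        exact hE
      conF := by
        rw [show {z | k z = 5} = F from Set.ext k5]
        exact hF
      seg := by
        intro n x y hn hn' hx hy hxy
        have h3 : n = 1 ∨ n = 2 ∨ n = 3 := by omega
        rcases h3 with rfl | rfl | rfl
        · exact sg 1 P₁ b₁ w₁ k1 p₁ x y hx hy hxy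
        · exact sg 2 P₂ b₂ w₂ k2 p₂ x y hx hy hxy
        · exact sg 3 P₃ b₃ w₃ k3 p₃ x y hx hy hxy
      inj := by
        intro x y hxy h3 h4 hf'
        have h5 : k x = 1 ∨ k x = 2 ∨ k x = 3 := by omega
        rcases h5 with h5 | h5 | h5
        · exact p₁.inj x ((k1 x).1 h5) y ((k1 y).1 (by omega)) hf'
        · exact p₂.inj x ((k2 x).1 h5) y ((k2 y).1 (by omega)) hf'
        · exact p₃.inj x ((k3 x).1 h5) y ((k3 y).1 (by omega)) hf'
      kb₁ := (k1 _).2 p₁.hb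
      kb₂ := (k2 _).2 p₂.hb
      kb₃ := (k3 _).2 p₃.hb
      kw₁ := (k1 _).2 p₁.hw
      kw₂ := (k2 _).2 p₂.hw
      kw₃ := (k3 _).2 p₃.hw
      m₁ := fun z hz => p₁.mn z ((k1 z).1 hz)
      m₂ := fun z hz => p₂.mn z ((k2 z).1 hz)
      m₃ := fun z hz => p₃.mn z ((k3 z).1 hz)
      bB₁ := bB₁
      bB₂ := bB₂
      bB₃ := bB₃
      wW₁ := wW₁
      wW₂ := wW₂
      wW₃ := wW₃
      bw := fun h' => hBW b₃ bB₃ (h' ▸ wW₃)
      nE := by
        intro x y hx hxy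
        rcases nE x ((k4 x).1 hx) y hxy with h' | h' | h' | h' | h'
        · exact Or.inl ((k4 y).2 h')
        · exact Or.inr (Or.inl ((k0 y).2 (Or.inl h')))
        · exact Or.inr (Or.inl ((k0 y).2 (Or.inr h')))
        · exact Or.inr (Or.inr (Or.inr h'))
        · exact Or.inr (Or.inr (Or.inl ((k1 y).2 h')))
      nF := by
        intro x y hx hxy
        rcases nF x ((k5 x).1 hx) y hxy with h' | h' | h' | h' | h'
        · exact Or.inl ((k5 y).2 h')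
        · exact Or.inr (Or.inl ((k0 y).2 (Or.inl h')))
        · exact Or.inr (Or.inl ((k0 y).2 (Or.inr h')))
        · exact Or.inr (Or.inr (Or.inr h'))
        · exact Or.inr (Or.inr (Or.inl ((k2 y).2 h')))
      re := by
        intro p q z u S hzp hqp h3 h4 hpz hzq hzu hu hS
        have huC : u ∈ C := by
          rcases hu with hu | hu
          · exact hEC u ((k4 u).1 hu)
          · exact hFC u ((k5 u).1 hu)
        have hS6 : Br G (fun _ => 6) p q S := ⟨fun _ _ => rfl, hS.2⟩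
        have hSn := fun s hs => k6 s (hS.1 s hs)
        have h5 : k p = 1 ∨ k p = 2 ∨ k p = 3 := by omega
        rcases h5 with h5 | h5 | h5
        · exact h.reroute hm hd p₁ bB₁ wW₁ ((k1 p).1 h5) ((k1 q).1 (by omega))
            ((k1 z).1 (by omega)) hpz hzq hzu huC hS6 hSn
        · exact h.swap₁₂.reroute hm hd p₂ bB₂ wW₂ ((k2 p).1 h5) ((k2 q).1 (by omega))
            ((k2 z).1 (by omega)) hpz hzq hzu huC hS6
            (fun s hs => ⟨(hSn s hs).2.1, (hSn s hs).1, (hSn s hs).2.2⟩)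
        · exact hn3 u huC z ((k3 z).1 (by omega)) hzu.symm
      kl := (k1 _).2 hl
      kr := (k1 _).2 hr
      kl' := (k2 _).2 hl'
      kr' := (k2 _).2 hr'
      al := by
        obtain ⟨u, hu, hu'⟩ := hlu
        exact ⟨u, (k4 u).2 hu, hu'⟩
      ar := by
        obtain ⟨u, hu, hu'⟩ := hru
        exact ⟨u, (k4 u).2 hu, hu'⟩
      al' := by
        obtain ⟨u, hu, hu'⟩ := hlu'
        exact ⟨u, (k5 u).2 hu, hu'⟩
      ar' := by
        obtain ⟨u, hu, hu'⟩ := hru'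
        exact ⟨u, (k5 u).2 hu, hu'⟩
      am := by
        obtain ⟨u, hu, hu'⟩ := hmu
        exact ⟨m, u, (k1 m).2 hmP, hlm, hmr, (k4 u).2 hu, hu'⟩
      am' := by
        obtain ⟨u, hu, hu'⟩ := hmu'
        exact ⟨m', u, (k2 m').2 hmP', hlm', hmr', (k5 u).2 hu, hu'⟩
      fl := fun z u hz hu hzu => hlr z ((k1 z).1 hz) ⟨u, (k4 u).1 hu, hzu⟩
      fl' := fun z u hz hu hzu => hlr' z ((k2 z).1 hz) ⟨u, (k5 u).1 hu, hzu⟩ }
  exact cfg.final

/-- the case in which the third path is not adjacent to `C` -/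
theorem third [Fintype V] [DecidableEq V] (hG : IsKConnected 6 G) (hg : NoGood G v a c d B W)
    (hBW : ∀ z ∈ B, z ∉ W) (h : Sys G v a c d B W P₁ P₂ P₃ C) (hm : IsMax G v a c d B W C)
    (hd : d ∈ C) (hcd : c ≠ d)
    (hn3 : ∀ x ∈ C, ∀ y ∈ P₃, ¬ G.Adj x y)
    {f₁ f₂ f₃ : V → ℤ} {b₁ b₂ b₃ w₁ w₂ w₃ : V} (q₁ : IsPath G P₁ f₁ b₁ w₁)
    (q₂ : IsPath G P₂ f₂ b₂ w₂) (q₃ : IsPath G P₃ f₃ b₃ w₃)
    (bB₁ : b₁ ∈ B) (bB₂ : b₂ ∈ B) (bB₃ : b₃ ∈ B) (wW₁ : w₁ ∈ W) (wW₂ : w₂ ∈ W)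
    (wW₃ : w₃ ∈ W) : False := by
  obtain ⟨z₁, h₁⟩ := h.small hg hd q₁ bB₁ wW₁
  obtain ⟨z₂, h₂⟩ := h.swap₁₂.small hg hd q₂ bB₂ wW₂
  have hc' := h.mem_sep hG hm hn3 h₁ h₂ h.hc (Or.inl rfl)
  have hd' := h.mem_sep hG hm hn3 h₁ h₂ hd (Or.inr rfl)
  rcases hc' with rfl | rfl
  · rcases hd' with h3 | rfl
    · exact hcd h3.symm
    · exact h.fin hG hg hBW hm hd hcd hn3 q₁ q₂ q₃ bB₁ bB₂ bB₃ wW₁ wW₂ wW₃ h₁ h₂
  · rcases hd' with rfl | h3
    · exact h.swap₁₂.fin hG hg hBW hm hd hcd hn3 q₂ q₁ q₃ bB₂ bB₁ bB₃ wW₂ wW₁ wW₃ h₂ h₁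
    · exact hcd h3.symm

end Sys

end Pool.Agent.LD6.X
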