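import Pool.Agent.LD6.XBase

/-!
LD6, Lemma X: paths as sets with a position function, the kind function, three extreme elements.
-/

set_option autoImplicit false

namespace Pool.Agent.LD6.X

open Finset Pool.Agent.LG6

variable {V : Type} {G : SimpleGraph V}

/-- a path from `b` to `w` with vertex set `P` and position function `f` -/
structure IsPath (G : SimpleGraph V) (P : Set V) (f : V → ℤ) (b w : V) : Prop where
  hb : b ∈ P
  hw : w ∈ P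
  mn : ∀ z ∈ P, f b ≤ f z ∧ f z ≤ f w
  inj : ∀ x ∈ P, ∀ y ∈ P, f x = f y → x = y
  seg : ∀ x ∈ P, ∀ y ∈ P, f x ≤ f y → Con G {z | z ∈ P ∧ f x ≤ f z ∧ f z ≤ f y}

theorem con_seq {n : ℕ} {u : ℕ → V} (hadj : ∀ m, m < n → G.Adj (u m) (u (m + 1))) {s : ℕ} :
    ∀ t, s ≤ t → t ≤ n → Con G {z | ∃ m, s ≤ m ∧ m ≤ t ∧ u m = z} := by
  intro t hst
  induction t, hst using Nat.le_induction with
  | base =>
    intro _
    have he : {z | ∃ m, s ≤ m ∧ m ≤ s ∧ u m = z} = {u s} := by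
      ext z
      simp only [Set.mem_ofPred_eq, Set.mem_singleton_iff]
      constructor
      · rintro ⟨m, h1, h2, rfl⟩
        rw [le_antisymm h2 h1]
      · rintro rfl
        exact ⟨s, le_rfl, le_rfl, rfl⟩
    rw [he]
    exact Con.single G _
  | succ t hst ih =>
    intro hn
    have h1 := (ih (by omega)).union (Con.single G (u (t + 1))) (x := u t) (y := u (t + 1))
      ⟨t, hst, le_rfl, rfl⟩ rfl (hadj t (by omega))
    have he : {z | ∃ m, s ≤ m ∧ m ≤ t + 1 ∧ u m = z} =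
        {z | ∃ m, s ≤ m ∧ m ≤ t ∧ u m = z} ∪ {u (t + 1)} := by
      ext z
      simp only [Set.mem_ofPred_eq, Set.mem_union, Set.mem_singleton_iff]
      constructor
      · rintro ⟨m, h1, h2, rfl⟩
        rcases Nat.lt_or_ge t m with h3 | h3
        · right
          rw [show m = t + 1 by omega]
        · exact Or.inl ⟨m, h1, h3, rfl⟩
      · rintro (⟨m, h1, h2, rfl⟩ | rfl)
        · exact ⟨m, h1, by omega, rfl⟩
        · exact ⟨t + 1, by omega, le_rfl, rfl⟩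
    rw [he]
    exact h1

theorem path_of_seq {n : ℕ} {u : ℕ → V} (hinj : ∀ m m', m ≤ n → m' ≤ n → u m = u m' → m = m')
    (hadj : ∀ m, m < n → G.Adj (u m) (u (m + 1))) :
    ∃ f : V → ℤ, IsPath G {z | ∃ m, m ≤ n ∧ u m = z} f (u 0) (u n) := by
  classical
  set f : V → ℤ := fun z => if h : ∃ m, m ≤ n ∧ u m = z then (Nat.find h : ℤ) else 0 with hf
  have hfu : ∀ m, m ≤ n → f (u m) = m := by
    intro m hm
    have h : ∃ m', m' ≤ n ∧ u m' = u m := ⟨m, hm, rfl⟩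
    have h1 := Nat.find_spec h
    have h2 : f (u m) = (Nat.find h : ℤ) := dif_pos h
    rw [h2, hinj _ m h1.1 hm h1.2]
  refine ⟨f, ⟨0, Nat.zero_le n, rfl⟩, ⟨n, le_rfl, rfl⟩, ?_, ?_, ?_⟩
  · rintro z ⟨m, hm, rfl⟩
    rw [hfu 0 (Nat.zero_le n), hfu m hm, hfu n le_rfl]
    omega
  · rintro x ⟨m, hm, rfl⟩ y ⟨m', hm', rfl⟩ h
    rw [hfu m hm, hfu m' hm'] at h
    rw [show m = m' by omega]
  · rintro x ⟨s, hs, rfl⟩ y ⟨t, ht, rfl⟩ h
    rw [hfu s hs, hfu t ht] at h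
    have h1 := con_seq hadj (s := s) t (by omega) ht
    have he : {z | z ∈ {z | ∃ m, m ≤ n ∧ u m = z} ∧ f (u s) ≤ f z ∧ f z ≤ f (u t)} =
        {z | ∃ m, s ≤ m ∧ m ≤ t ∧ u m = z} := by
      ext z
      simp only [Set.mem_ofPred_eq]
      constructor
      · rintro ⟨⟨m, hm, rfl⟩, h2, h3⟩
        rw [hfu m hm, hfu s hs] at h2
        rw [hfu m hm, hfu t ht] at h3
        exact ⟨m, by omega, by omega, rfl⟩
      · rintro ⟨m, h2, h3, rfl⟩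
        rw [hfu m (by omega), hfu s hs, hfu t ht]
        exact ⟨⟨m, by omega, rfl⟩, by omega, by omega⟩
    rw [he]
    exact h1

theorem exists_path {Q : Set V} (hQ : Con G Q) {x y : V} (hx : x ∈ Q) (hy : y ∈ Q) :
    ∃ P : Set V, (∀ z ∈ P, z ∈ Q) ∧ ∃ f : V → ℤ, IsPath G P f x y := by
  classical
  obtain ⟨p₀⟩ := (show (G.induce Q).Connected from hQ).preconnected ⟨x, hx⟩ ⟨y, hy⟩
  obtain ⟨p, hp⟩ := p₀.toPath
  obtain ⟨f, hf⟩ := path_of_seq (G := G) (n := p.length) (u := fun m => (p.getVert m).1)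
    (fun m m' hm hm' h => hp.getVert_injOn hm hm' (Subtype.ext h))
    (fun m hm => p.adj_getVert_succ hm)
  refine ⟨{z | ∃ m, m ≤ p.length ∧ (p.getVert m).1 = z}, ?_, f, ?_⟩
  · rintro z ⟨m, _, rfl⟩
    exact (p.getVert m).2
  · have h1 : (p.getVert 0).1 = x := by rw [SimpleGraph.Walk.getVert_zero]
    have h2 : (p.getVert p.length).1 = y := by rw [SimpleGraph.Walk.getVert_length]
    rw [h1, h2] at hf
    exact hf

theorem exists_kind (A₀ A₁ A₂ A₃ A₄ A₅ : Set V) (d01 : ∀ z ∈ A₀, z ∉ A₁) (d02 : ∀ z ∈ A₀, z ∉ A₂)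
    (d03 : ∀ z ∈ A₀, z ∉ A₃) (d04 : ∀ z ∈ A₀, z ∉ A₄) (d05 : ∀ z ∈ A₀, z ∉ A₅)
    (d12 : ∀ z ∈ A₁, z ∉ A₂) (d13 : ∀ z ∈ A₁, z ∉ A₃) (d14 : ∀ z ∈ A₁, z ∉ A₄)
    (d15 : ∀ z ∈ A₁, z ∉ A₅) (d23 : ∀ z ∈ A₂, z ∉ A₃) (d24 : ∀ z ∈ A₂, z ∉ A₄)
    (d25 : ∀ z ∈ A₂, z ∉ A₅) (d34 : ∀ z ∈ A₃, z ∉ A₄) (d35 : ∀ z ∈ A₃, z ∉ A₅)
    (d45 : ∀ z ∈ A₄, z ∉ A₅) :
    ∃ k : V → ℕ, ∀ z, k z ≤ 6 ∧ (k z = 0 ↔ z ∈ A₀) ∧ (k z = 1 ↔ z ∈ A₁) ∧ (k z = 2 ↔ z ∈ A₂) ∧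
      (k z = 3 ↔ z ∈ A₃) ∧ (k z = 4 ↔ z ∈ A₄) ∧ (k z = 5 ↔ z ∈ A₅) := by
  classical
  refine ⟨fun z => if z ∈ A₀ then 0 else if z ∈ A₁ then 1 else if z ∈ A₂ then 2 else
    if z ∈ A₃ then 3 else if z ∈ A₄ then 4 else if z ∈ A₅ then 5 else 6, ?_⟩
  intro z
  have e01 := d01 z
  have e02 := d02 z
  have e03 := d03 z
  have e04 := d04 z
  have e05 := d05 z
  have e12 := d12 z
  have e13 := d13 z
  have e14 := d14 z
  have e15 := d15 z
  have e23 := d23 z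
  have e24 := d24 z
  have e25 := d25 z
  have e34 := d34 z
  have e35 := d35 z
  have e45 := d45 z
  by_cases h0 : z ∈ A₀
  · simp [h0, e01 h0, e02 h0, e03 h0, e04 h0, e05 h0]
  by_cases h1 : z ∈ A₁
  · simp [h0, h1, e12 h1, e13 h1, e14 h1, e15 h1]
  by_cases h2 : z ∈ A₂
  · simp [h0, h1, h2, e23 h2, e24 h2, e25 h2]
  by_cases h3 : z ∈ A₃
  · simp [h0, h1, h2, h3, e34 h3, e35 h3]
  by_cases h4 : z ∈ A₄
  · simp [h0, h1, h2, h3, h4, e45 h4]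
  by_cases h5 : z ∈ A₅
  · simp [h0, h1, h2, h3, h4, h5]
  · simp [h0, h1, h2, h3, h4, h5]

theorem three_of_card (A : Finset V) (f : V → ℤ)
    (hinj : ∀ x ∈ A, ∀ y ∈ A, f x = f y → x = y) (h3 : 3 ≤ A.card) :
    ∃ l ∈ A, ∃ r ∈ A, ∃ m ∈ A, f l < f m ∧ f m < f r ∧ ∀ z ∈ A, f l ≤ f z ∧ f z ≤ f r := by
  classical
  have hne : A.Nonempty := card_pos.1 (by omega)
  obtain ⟨l, hl, hl'⟩ := exists_min_image A f hne
  obtain ⟨r, hr, hr'⟩ := exists_max_image A f hne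
  have h4 : 1 ≤ ((A.erase l).erase r).card := by
    have h5 := pred_card_le_card_erase (s := A) (a := l)
    have h6 := pred_card_le_card_erase (s := A.erase l) (a := r)
    omega
  obtain ⟨m, hm⟩ := card_pos.1 (show 0 < ((A.erase l).erase r).card by omega)
  rw [mem_erase, mem_erase] at hm
  have h7 : f m ≠ f l := fun h => hm.2.1 (hinj m hm.2.2 l hl h)
  have h8 : f m ≠ f r := fun h => hm.1 (hinj m hm.2.2 r hr h)
  have h9 := hl' m hm.2.2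
  have h10 := hr' m hm.2.2
  exact ⟨l, hl, r, hr, m, hm.2.2, by omega, by omega, fun z hz => ⟨hl' z hz, hr' z hz⟩⟩

end Pool.Agent.LD6.X
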