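import Pool.Agent.LD6.XPath

/-!
LD6, Lemma X: systems of three disjoint connected sets and a connected set `C` of maximum size.
-/

set_option autoImplicit false

namespace Pool.Agent.LD6.X

open Finset Pool.Agent.LG6 Relation Pool.Agent.Mader

variable {V : Type} {G : SimpleGraph V}

/-- three disjoint connected sets that meet `B` and `W`, and a connected set `C` with `c` -/
structure Sys (G : SimpleGraph V) (v a c d : V) (B W : Set V) (Q₁ Q₂ Q₃ C : Set V) : Prop where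
  c₁ : Con G Q₁
  c₂ : Con G Q₂
  c₃ : Con G Q₃
  cC : Con G C
  hc : c ∈ C
  d₁₂ : ∀ z ∈ Q₁, z ∉ Q₂
  d₁₃ : ∀ z ∈ Q₁, z ∉ Q₃
  d₂₃ : ∀ z ∈ Q₂, z ∉ Q₃
  e₁ : ∀ z ∈ C, z ∉ Q₁
  e₂ : ∀ z ∈ C, z ∉ Q₂
  e₃ : ∀ z ∈ C, z ∉ Q₃
  n₁ : ∀ z ∈ Q₁, z ≠ v ∧ z ≠ a ∧ z ≠ d
  n₂ : ∀ z ∈ Q₂, z ≠ v ∧ z ≠ a ∧ z ≠ d
  n₃ : ∀ z ∈ Q₃, z ≠ v ∧ z ≠ a ∧ z ≠ d
  nC : ∀ z ∈ C, z ≠ v ∧ z ≠ a
  B₁ : ∃ z ∈ Q₁, z ∈ B
  B₂ : ∃ z ∈ Q₂, z ∈ B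
  B₃ : ∃ z ∈ Q₃, z ∈ B
  W₁ : ∃ z ∈ Q₁, z ∈ W
  W₂ : ∃ z ∈ Q₂, z ∈ W
  W₃ : ∃ z ∈ Q₃, z ∈ W

/-- no system has a larger `C` -/
def IsMax (G : SimpleGraph V) (v a c d : V) (B W C : Set V) : Prop :=
  ∀ Q₁ Q₂ Q₃ C' : Set V, Sys G v a c d B W Q₁ Q₂ Q₃ C' → C'.ncard ≤ C.ncard

theorem IsPath.lo {P : Set V} {f : V → ℤ} {b w : V} (h : IsPath G P f b w) {x : V} (hx : x ∈ P) :
    Con G {z | z ∈ P ∧ f z ≤ f x} := by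
  have h1 := h.seg b h.hb x hx (h.mn x hx).1
  have he : {z | z ∈ P ∧ f z ≤ f x} = {z | z ∈ P ∧ f b ≤ f z ∧ f z ≤ f x} := by
    ext z
    exact ⟨fun h' => ⟨h'.1, (h.mn z h'.1).1, h'.2⟩, fun h' => ⟨h'.1, h'.2.2⟩⟩
  rw [he]
  exact h1

theorem IsPath.up {P : Set V} {f : V → ℤ} {b w : V} (h : IsPath G P f b w) {x : V} (hx : x ∈ P) :
    Con G {z | z ∈ P ∧ f x ≤ f z} := by
  have h1 := h.seg x hx w h.hw (h.mn x hx).2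
  have he : {z | z ∈ P ∧ f x ≤ f z} = {z | z ∈ P ∧ f x ≤ f z ∧ f z ≤ f w} := by
    ext z
    exact ⟨fun h' => ⟨h'.1, h'.2, (h.mn z h'.1).2⟩, fun h' => ⟨h'.1, h'.2.1⟩⟩
  rw [he]
  exact h1

theorem IsPath.all {P : Set V} {f : V → ℤ} {b w : V} (h : IsPath G P f b w) : Con G P := by
  have h1 := h.lo h.hw
  have he : P = {z | z ∈ P ∧ f z ≤ f w} := by
    ext z
    exact ⟨fun h' => ⟨h', (h.mn z h').2⟩, fun h' => h'.1⟩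
  rw [he]
  exact h1

namespace Sys

variable {v a c d : V} {B W : Set V} {P₁ P₂ P₃ C : Set V}

theorem swap₁₂ (h : Sys G v a c d B W P₁ P₂ P₃ C) : Sys G v a c d B W P₂ P₁ P₃ C :=
  ⟨h.c₂, h.c₁, h.c₃, h.cC, h.hc, fun z h2 h1 => h.d₁₂ z h1 h2, h.d₂₃, h.d₁₃, h.e₂, h.e₁, h.e₃,
    h.n₂, h.n₁, h.n₃, h.nC, h.B₂, h.B₁, h.B₃, h.W₂, h.W₁, h.W₃⟩

theorem swap₂₃ (h : Sys G v a c d B W P₁ P₂ P₃ C) : Sys G v a c d B W P₁ P₃ P₂ C :=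
  ⟨h.c₁, h.c₃, h.c₂, h.cC, h.hc, h.d₁₃, h.d₁₂, fun z h2 h1 => h.d₂₃ z h1 h2, h.e₁, h.e₃, h.e₂,
    h.n₁, h.n₃, h.n₂, h.nC, h.B₁, h.B₃, h.B₂, h.W₁, h.W₃, h.W₂⟩

theorem closed [Finite V] (h : Sys G v a c d B W P₁ P₂ P₃ C) (hm : IsMax G v a c d B W C)
    {x y : V} (hx : x ∈ C) (hxy : G.Adj x y) :
    y ∈ C ∨ y ∈ P₁ ∨ y ∈ P₂ ∨ y ∈ P₃ ∨ y = v ∨ y = a := by
  by_contra hno
  simp only [not_or] at hno
  obtain ⟨h0, h1, h2, h3, h4, h5⟩ := hno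
  have hs : Sys G v a c d B W P₁ P₂ P₃ (C ∪ {y}) :=
    { h with
      cC := h.cC.union (Con.single G y) hx rfl hxy
      hc := Or.inl h.hc
      e₁ := by
        rintro z (hz | hz)
        · exact h.e₁ z hz
        · rw [Set.mem_singleton_iff] at hz
          exact hz ▸ h1
      e₂ := by
        rintro z (hz | hz)
        · exact h.e₂ z hz
        · rw [Set.mem_singleton_iff] at hz
          exact hz ▸ h2
      e₃ := by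
        rintro z (hz | hz)
        · exact h.e₃ z hz
        · rw [Set.mem_singleton_iff] at hz
          exact hz ▸ h3
      nC := by
        rintro z (hz | hz)
        · exact h.nC z hz
        · rw [Set.mem_singleton_iff] at hz
          exact hz ▸ ⟨h4, h5⟩ }
  have h6 := hm _ _ _ _ hs
  rw [Set.union_singleton, Set.ncard_insert_of_notMem h0 (Set.toFinite C)] at h6
  omega

theorem reroute [Finite V] (h : Sys G v a c d B W P₁ P₂ P₃ C) (hm : IsMax G v a c d B W C)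
    (hd : d ∈ C) {f : V → ℤ} {b w : V} (p₁ : IsPath G P₁ f b w) (hb : b ∈ B) (hw : w ∈ W)
    {p q z u : V} {S : Set V} (hp : p ∈ P₁) (hq : q ∈ P₁) (hz : z ∈ P₁) (h1 : f p < f z)
    (h2 : f z < f q) (hzu : G.Adj z u) (hu : u ∈ C) (hS : Br G (fun _ => 6) p q S)
    (hSn : ∀ s ∈ S, s ∉ P₁ ∧ s ∉ P₂ ∧ s ∉ P₃ ∧ s ∉ C ∧ s ≠ v ∧ s ≠ a) : False := by
  have hzC : z ∉ C := fun h' => h.e₁ z h' hz
  have hs : Sys G v a c d B W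
      ({t | t ∈ P₁ ∧ f t ≤ f p} ∪ S ∪ {t | t ∈ P₁ ∧ f q ≤ f t}) P₂ P₃ (C ∪ {z}) :=
    { c₁ := hS.con (p₁.lo hp) ⟨hp, le_rfl⟩ (p₁.up hq) ⟨hq, le_rfl⟩
      c₂ := h.c₂
      c₃ := h.c₃
      cC := h.cC.union (Con.single G z) hu rfl hzu.symm
      hc := Or.inl h.hc
      d₁₂ := by
        rintro t ((ht | ht) | ht)
        · exact h.d₁₂ t ht.1
        · exact (hSn t ht).2.1
        · exact h.d₁₂ t ht.1
      d₁₃ := by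
        rintro t ((ht | ht) | ht)
        · exact h.d₁₃ t ht.1
        · exact (hSn t ht).2.2.1
        · exact h.d₁₃ t ht.1
      d₂₃ := h.d₂₃
      e₁ := by
        rintro t (ht | ht)
        · rintro ((ht' | ht') | ht')
          · exact h.e₁ t ht ht'.1
          · exact (hSn t ht').2.2.2.1 ht
          · exact h.e₁ t ht ht'.1
        · rw [Set.mem_singleton_iff] at ht
          subst ht
          rintro ((ht' | ht') | ht')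
          · have := ht'.2
            omega
          · exact (hSn t ht').1 hz
          · have := ht'.2
            omega
      e₂ := by
        rintro t (ht | ht)
        · exact h.e₂ t ht
        · rw [Set.mem_singleton_iff] at ht
          exact ht ▸ h.d₁₂ z hz
      e₃ := by
        rintro t (ht | ht)
        · exact h.e₃ t ht
        · rw [Set.mem_singleton_iff] at ht
          exact ht ▸ h.d₁₃ z hz
      n₁ := by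
        rintro t ((ht | ht) | ht)
        · exact h.n₁ t ht.1
        · have h3 := hSn t ht
          exact ⟨h3.2.2.2.2.1, h3.2.2.2.2.2, fun h4 => h3.2.2.2.1 (h4 ▸ hd)⟩
        · exact h.n₁ t ht.1
      n₂ := h.n₂
      n₃ := h.n₃
      nC := by
        rintro t (ht | ht)
        · exact h.nC t ht
        · rw [Set.mem_singleton_iff] at ht
          rw [ht]
          exact ⟨(h.n₁ z hz).1, (h.n₁ z hz).2.1⟩
      B₁ := ⟨b, Or.inl (Or.inl ⟨p₁.hb, (p₁.mn p hp).1⟩), hb⟩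
      B₂ := h.B₂
      B₃ := h.B₃
      W₁ := ⟨w, Or.inr ⟨p₁.hw, (p₁.mn q hq).2⟩, hw⟩
      W₂ := h.W₂
      W₃ := h.W₃ }
  have h6 := hm _ _ _ _ hs
  rw [Set.union_singleton, Set.ncard_insert_of_notMem hzC (Set.toFinite C)] at h6
  omega

theorem zero (hg : NoGood G v a c d B W) (h : Sys G v a c d B W P₁ P₂ P₃ C)
    {f : V → ℤ} {b w : V} (p₁ : IsPath G P₁ f b w) (hb : b ∈ B) (hw : w ∈ W)
    {S T : Set V} (hS : Con G S) (hT : Con G T) (hSC : ∀ x ∈ S, x ∈ C) (hTC : ∀ x ∈ T, x ∈ C)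
    (hST : ∀ x ∈ S, x ∉ T) (hcS : c ∈ S) (hdT : d ∈ T) {s t : V} (hs : s ∈ P₁) (ht : t ∈ P₁)
    (hsS : ∃ x ∈ S, G.Adj x s) (htT : ∃ x ∈ T, G.Adj x t) (hne : s ≠ t) : False := by
  obtain ⟨x, hx, hxs⟩ := hsS
  obtain ⟨y, hy, hyt⟩ := htT
  have hd12 := h.d₁₂
  have hd13 := h.d₁₃
  have hd23 := h.d₂₃
  have he1 := h.e₁
  have he2 := h.e₂
  have he3 := h.e₃
  have hn1 := h.n₁
  have hn2 := h.n₂
  have hn3 := h.n₃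
  have hnC := h.nC
  have hfne : f s ≠ f t := fun h' => hne (p₁.inj s hs t ht h')
  rcases lt_or_gt_of_ne hfne with hlt | hlt
  · refine hg (S ∪ {z | z ∈ P₁ ∧ f z ≤ f s}) (T ∪ {z | z ∈ P₁ ∧ f t ≤ f z}) P₂ P₃
      (hS.union (p₁.lo hs) hx ⟨hs, le_rfl⟩ hxs) (hT.union (p₁.up ht) hy ⟨ht, le_rfl⟩ hyt)
      h.c₂ h.c₃ ?_ ?_ ?_ ?_ ?_ ?_ ?_ (Or.inl hcS) (Or.inl hdT)
      (Or.inl ⟨⟨b, Or.inr ⟨p₁.hb, (p₁.mn s hs).1⟩, hb⟩, ⟨w, Or.inr ⟨p₁.hw, (p₁.mn t ht).2⟩, hw⟩⟩)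
      h.B₂ h.W₂ h.B₃ h.W₃
    all_goals
      intro z
      try simp only [Set.mem_union, Set.mem_ofPred_eq]
      grind
  · refine hg (S ∪ {z | z ∈ P₁ ∧ f s ≤ f z}) (T ∪ {z | z ∈ P₁ ∧ f z ≤ f t}) P₂ P₃
      (hS.union (p₁.up hs) hx ⟨hs, le_rfl⟩ hxs) (hT.union (p₁.lo ht) hy ⟨ht, le_rfl⟩ hyt)
      h.c₂ h.c₃ ?_ ?_ ?_ ?_ ?_ ?_ ?_ (Or.inl hcS) (Or.inl hdT)
      (Or.inr ⟨⟨w, Or.inr ⟨p₁.hw, (p₁.mn s hs).2⟩, hw⟩, ⟨b, Or.inr ⟨p₁.hb, (p₁.mn t ht).1⟩, hb⟩⟩)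
      h.B₂ h.W₂ h.B₃ h.W₃
    all_goals
      intro z
      try simp only [Set.mem_union, Set.mem_ofPred_eq]
      grind

/-- there is one vertex that meets all connected sets from `c`, `d` in `C` to the first path -/
theorem small [Finite V] (hg : NoGood G v a c d B W) (h : Sys G v a c d B W P₁ P₂ P₃ C)
    (hd : d ∈ C) {f : V → ℤ} {b w : V} (p₁ : IsPath G P₁ f b w) (hb : b ∈ B) (hw : w ∈ W) :
    ∃ z : V, ∀ S : Set V, (∀ x ∈ S, x ∈ C) → Con G S → (c ∈ S ∨ d ∈ S) → z ∉ S →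
      ∀ x ∈ S, ∀ y ∈ P₁, G.Adj x y → y = z := by
  by_contra hno
  push Not at hno
  set r : V → V → Prop := fun x y => G.Adj x y ∧ x ∈ C ∧ (y ∈ C ∨ y ∈ P₁) with hr
  obtain ⟨R₁, R₂, x₁, x₂, y₁, y₂, hdis, hx₁, hx₂, hy₁, hy₂, hxR₁, hxR₂, hr₁, hr₂⟩ :=
    MK3.menger2 r {c, d} P₁ (by
      intro z
      obtain ⟨S, hSC, hS, hcd, hzS, x, hx, y, hy, hxy, hyz⟩ := hno z
      have h1 : ∃ s ∈ S, s = c ∨ s = d := by
        rcases hcd with h1 | h1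
        · exact ⟨c, h1, Or.inl rfl⟩
        · exact ⟨d, h1, Or.inr rfl⟩
      obtain ⟨s, hs, hs'⟩ := h1
      refine ⟨s, hs', y, hy, fun h2 => hzS (h2 ▸ hs), ?_⟩
      have h3 := (SimpleGraph.reachable_iff_reflTransGen _ _).1
        ((show (G.induce S).Connected from hS).preconnected ⟨s, hs⟩ ⟨x, hx⟩)
      have h4 : ReflTransGen (MK3.Del r z) s x := by
        refine Relation.ReflTransGen.lift (p := MK3.Del r z) Subtype.val ?_ _ _ h3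
        rintro ⟨u, hu⟩ ⟨w', hw'⟩ huw
        exact ⟨⟨huw, hSC u hu, Or.inl (hSC w' hw')⟩, fun h5 => hzS (h5 ▸ hu),
          fun h5 => hzS (h5 ▸ hw')⟩
      exact h4.tail ⟨⟨hxy, hSC x hx, Or.inr hy⟩, fun h5 => hzS (h5 ▸ hx), hyz⟩) ⟨c⟩
  have key : ∀ (R : Set V) (x y : V), x ∈ R → (x = c ∨ x = d) → y ∈ P₁ →
      ReflTransGen (Res r R) x y → y ∈ R ∧ ∃ S : Set V, (∀ z ∈ S, z ∈ C) ∧ (∀ z ∈ S, z ∈ R) ∧
        Con G S ∧ x ∈ S ∧ ∃ s ∈ S, G.Adj s y := by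
    intro R x y hxR hx hy hxy
    have hxC : x ∈ C := by
      rcases hx with rfl | rfl
      · exact h.hc
      · exact hd
    rcases ReflTransGen.cases_tail hxy with h1 | ⟨s, h1, h2⟩
    · exact (h.e₁ x hxC (h1 ▸ hy)).elim
    refine ⟨h2.2.2, {z | ReflTransGen (Res (fun x y => G.Adj x y ∧ x ∈ C ∧ y ∈ C) R) x z},
      ?_, ?_, reach_conn (fun _ _ h => h.1.1) x, ReflTransGen.refl, s, ?_, h2.1.1⟩
    · intro z hz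
      rcases ReflTransGen.cases_tail hz with h3 | ⟨t, _, h3⟩
      · exact h3 ▸ hxC
      · exact h3.1.2.2
    · intro z hz
      rcases ReflTransGen.cases_tail hz with h3 | ⟨t, _, h3⟩
      · exact h3 ▸ hxR
      · exact h3.2.2
    · have h5 : ∀ s, ReflTransGen (Res r R) x s → s ∈ C →
          ReflTransGen (Res (fun x y => G.Adj x y ∧ x ∈ C ∧ y ∈ C) R) x s := by
        intro s hs
        induction hs with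
        | refl => exact fun _ => ReflTransGen.refl
        | tail _ h6 ih =>
          intro h7
          exact (ih h6.1.2.1).tail ⟨⟨h6.1.1, h6.1.2.1, h7⟩, h6.2⟩
      exact h5 s h1 h2.1.2.1
  obtain ⟨hyR₁, S₁, hS₁C, hS₁R, hS₁, hxS₁, hs₁⟩ := key R₁ x₁ y₁ hxR₁ hx₁ hy₁ hr₁
  obtain ⟨hyR₂, S₂, hS₂C, hS₂R, hS₂, hxS₂, hs₂⟩ := key R₂ x₂ y₂ hxR₂ hx₂ hy₂ hr₂
  have hR : ∀ z, z ∈ R₁ → z ∉ R₂ := fun z hz => Set.disjoint_left.1 hdis hz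
  have hyy : y₁ ≠ y₂ := fun h1 => hR y₁ hyR₁ (h1 ▸ hyR₂)
  have hSS : ∀ z ∈ S₁, z ∉ S₂ := fun z hz hz' => hR z (hS₁R z hz) (hS₂R z hz')
  have hSS' : ∀ z ∈ S₂, z ∉ S₁ := fun z hz hz' => hR z (hS₁R z hz') (hS₂R z hz)
  have hxx : x₁ ≠ x₂ := fun h1 => hR x₁ hxR₁ (h1 ▸ hxR₂)
  rcases hx₁ with h1 | h1
  · rcases hx₂ with h2 | h2
    · exact hxx (h1.trans h2.symm)
    · rw [Set.mem_singleton_iff] at h2
      exact zero hg h p₁ hb hw hS₁ hS₂ hS₁C hS₂C hSS (h1 ▸ hxS₁) (h2 ▸ hxS₂) hy₁ hy₂ hs₁ hs₂ hyy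
  · rw [Set.mem_singleton_iff] at h1
    rcases hx₂ with h2 | h2
    · exact zero hg h p₁ hb hw hS₂ hS₁ hS₂C hS₁C hSS' (h2 ▸ hxS₂) (h1 ▸ hxS₁) hy₂ hy₁ hs₂ hs₁
        hyy.symm
    · rw [Set.mem_singleton_iff] at h2
      exact hxx (h1.trans h2.symm)

theorem mem_sep [Fintype V] [DecidableEq V] (hG : IsKConnected 6 G)
    (h : Sys G v a c d B W P₁ P₂ P₃ C)
    (hm : IsMax G v a c d B W C) (hn3 : ∀ x ∈ C, ∀ y ∈ P₃, ¬ G.Adj x y) {z₁ z₂ : V}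
    (h₁ : ∀ S : Set V, (∀ x ∈ S, x ∈ C) → Con G S → (c ∈ S ∨ d ∈ S) → z₁ ∉ S →
      ∀ x ∈ S, ∀ y ∈ P₁, G.Adj x y → y = z₁)
    (h₂ : ∀ S : Set V, (∀ x ∈ S, x ∈ C) → Con G S → (c ∈ S ∨ d ∈ S) → z₂ ∉ S →
      ∀ x ∈ S, ∀ y ∈ P₂, G.Adj x y → y = z₂) {x₀ : V} (hx₀ : x₀ ∈ C)
    (hx₀' : x₀ = c ∨ x₀ = d) : x₀ = z₁ ∨ x₀ = z₂ := by
  by_contra hno
  rw [not_or] at hno
  obtain ⟨Z, hZX, hxZ, hZ, hcl⟩ := comp G {x | x ∈ C ∧ x ≠ z₁ ∧ x ≠ z₂} x₀ ⟨hx₀, hno⟩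
  obtain ⟨β₁, hβ₁, _⟩ := h.B₁
  obtain ⟨β₂, hβ₂, _⟩ := h.B₂
  obtain ⟨β₃, hβ₃, _⟩ := h.B₃
  have h12 : β₁ ≠ β₂ := fun h' => h.d₁₂ β₁ hβ₁ (h' ▸ hβ₂)
  have h13 : β₁ ≠ β₃ := fun h' => h.d₁₃ β₁ hβ₁ (h' ▸ hβ₃)
  have h23 : β₂ ≠ β₃ := fun h' => h.d₂₃ β₂ hβ₂ (h' ▸ hβ₃)
  have hβ : ∃ β, β ∉ C ∧ β ≠ v ∧ β ≠ a ∧ β ≠ z₁ ∧ β ≠ z₂ := by
    have k1 : β₁ ∉ C ∧ β₁ ≠ v ∧ β₁ ≠ a :=
      ⟨fun h' => h.e₁ _ h' hβ₁, (h.n₁ _ hβ₁).1, (h.n₁ _ hβ₁).2.1⟩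
    have k2 : β₂ ∉ C ∧ β₂ ≠ v ∧ β₂ ≠ a :=
      ⟨fun h' => h.e₂ _ h' hβ₂, (h.n₂ _ hβ₂).1, (h.n₂ _ hβ₂).2.1⟩
    have k3 : β₃ ∉ C ∧ β₃ ≠ v ∧ β₃ ≠ a :=
      ⟨fun h' => h.e₃ _ h' hβ₃, (h.n₃ _ hβ₃).1, (h.n₃ _ hβ₃).2.1⟩
    by_cases q1 : β₁ ≠ z₁ ∧ β₁ ≠ z₂
    · exact ⟨β₁, k1.1, k1.2.1, k1.2.2, q1.1, q1.2⟩
    by_cases q2 : β₂ ≠ z₁ ∧ β₂ ≠ z₂
    · exact ⟨β₂, k2.1, k2.2.1, k2.2.2, q2.1, q2.2⟩
    refine ⟨β₃, k3.1, k3.2.1, k3.2.2, ?_, ?_⟩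
    · intro q3
      apply q1
      refine ⟨fun q4 => h13 (q4.trans q3.symm), fun q4 => q2 ⟨fun q5 => h23 (q5.trans q3.symm),
        fun q5 => h12 (q4.trans q5.symm)⟩⟩
    · intro q3
      apply q1
      refine ⟨fun q4 => q2 ⟨fun q5 => h12 (q4.trans q5.symm), fun q5 => h23 (q5.trans q3.symm)⟩,
        fun q4 => h13 (q4.trans q3.symm)⟩
  obtain ⟨β, hβC, hβv, hβa, hβ1, hβ2⟩ := hβ
  have hxv := h.nC x₀ hx₀
  obtain ⟨p, q, hp, hq, hpq, hpZ, hqZ⟩ := cross (hG.2 {v, a, z₁, z₂} (by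
    have := card_le_four (a := v) (b := a) (c := z₁) (d := z₂)
    omega)) Z (e := x₀) (f := β) (by
      simp only [coe_insert, coe_singleton, Set.mem_compl_iff, Set.mem_insert_iff,
        Set.mem_singleton_iff, not_or]
      exact ⟨hxv.1, hxv.2, hno.1, hno.2⟩) (by
      simp only [coe_insert, coe_singleton, Set.mem_compl_iff, Set.mem_insert_iff,
        Set.mem_singleton_iff, not_or]
      exact ⟨hβv, hβa, hβ1, hβ2⟩) hxZ (fun h' => hβC (hZX h').1)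
  simp only [coe_insert, coe_singleton, Set.mem_compl_iff, Set.mem_insert_iff,
        Set.mem_singleton_iff, not_or] at hp hq
  have hZC : ∀ x ∈ Z, x ∈ C := fun x hx => (hZX hx).1
  have hcd : c ∈ Z ∨ d ∈ Z := by
    rcases hx₀' with h' | h'
    · exact Or.inl (h' ▸ hxZ)
    · exact Or.inr (h' ▸ hxZ)
  rcases h.closed hm (hZC p hpZ) hpq with h' | h' | h' | h' | h' | h'
  · exact hqZ (hcl p hpZ q ⟨h', hq.2.2.1, hq.2.2.2⟩ hpq)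
  · exact hq.2.2.1 (h₁ Z hZC hZ hcd (fun h3 => (hZX h3).2.1 rfl) p hpZ q h' hpq)
  · exact hq.2.2.2 (h₂ Z hZC hZ hcd (fun h3 => (hZX h3).2.2 rfl) p hpZ q h' hpq)
  · exact hn3 p (hZC p hpZ) q h' hpq
  · exact hq.1 h'
  · exact hq.2.1 h'

end Sys

end Pool.Agent.LD6.X
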