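import Pool.Agent.LD6.XFin

/-!
LD6, Lemma X, with the four-path Menger theorem as a hypothesis.
-/

set_option autoImplicit false

namespace Pool.Agent.LD6.X

open Finset Pool.Agent.LG6

variable {V : Type} {G : SimpleGraph V}

/-- four disjoint sets that meet a set of four elements cover it -/
theorem hit {P : Fin 4 → Set V} (hd : ∀ i j, i ≠ j → Disjoint (P i) (P j)) (S : Finset V)
    (hS : S.card = 4) (h : ∀ i, ∃ s ∈ S, s ∈ P i) {c : V} (hc : c ∈ S) : ∃ i, c ∈ P i := by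
  classical
  choose φ hφ hφ' using h
  have hinj : Function.Injective φ := by
    intro i j hij
    by_contra hne
    exact Set.disjoint_left.1 (hd i j hne) (hφ' i) (hij ▸ hφ' j)
  have himg : univ.image φ = S := by
    apply eq_of_subset_of_card_le
    · intro x hx
      obtain ⟨i, _, rfl⟩ := mem_image.1 hx
      exact hφ i
    · rw [hS, card_image_of_injective _ hinj, card_fin]
  rw [← himg] at hc
  obtain ⟨i, _, rfl⟩ := mem_image.1 hc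
  exact ⟨i, hφ' i⟩

theorem not_all [Fintype V] [DecidableEq V] (hm : ¬ HasCompleteMinor 6 G) {v a c : V}
    (va : G.Adj v a) (vc : G.Adj v c) (ac : G.Adj a c) {B W : Set V} {d : V}
    (hBc : ∀ x ∈ B, ∀ y ∈ B, x ≠ y → G.Adj x y)
    (hvB : ∀ x ∈ B, G.Adj v x) (haW : ∀ x ∈ W, G.Adj a x) {Q₁ Q₂ Q₃ C : Set V}
    (h : Sys G v a c d B W Q₁ Q₂ Q₃ C) (h1 : ∃ x ∈ C, ∃ y ∈ Q₁, G.Adj x y)
    (h2 : ∃ x ∈ C, ∃ y ∈ Q₂, G.Adj x y) (h3 : ∃ x ∈ C, ∃ y ∈ Q₃, G.Adj x y) : False := by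
  apply hm
  have kB : ∀ X Y : Set V, (∀ z ∈ X, z ∉ Y) → (∃ z ∈ X, z ∈ B) → (∃ z ∈ Y, z ∈ B) →
      ∃ x ∈ X, ∃ y ∈ Y, G.Adj x y := by
    rintro X Y hd ⟨x, hx, hxB⟩ ⟨y, hy, hyB⟩
    exact ⟨x, hx, y, hy, hBc x hxB y hyB (fun h => hd x hx (h ▸ hy))⟩
  have k12 := kB Q₁ Q₂ h.d₁₂ h.B₁ h.B₂
  have k13 := kB Q₁ Q₃ h.d₁₃ h.B₁ h.B₃
  have k23 := kB Q₂ Q₃ h.d₂₃ h.B₂ h.B₃
  have sy : ∀ X Y : Set V, (∃ x ∈ X, ∃ y ∈ Y, G.Adj x y) → ∃ x ∈ Y, ∃ y ∈ X, G.Adj x y := by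
    rintro X Y ⟨x, hx, y, hy, h⟩
    exact ⟨y, hy, x, hx, h.symm⟩
  have dj : ∀ X Y : Set V, (∀ z ∈ X, z ∉ Y) → Disjoint X Y := by
    intro X Y h
    rw [Set.disjoint_left]
    exact fun z hz hz' => h z hz hz'
  have dj' : ∀ X Y : Set V, (∀ z ∈ X, z ∉ Y) → Disjoint Y X := fun X Y h => (dj X Y h).symm
  have hva' : ∀ X : Set V, (∃ z ∈ X, z ∈ B) → (∃ y ∈ X, G.Adj v y) := by
    rintro X ⟨x, hx, hxB⟩
    exact ⟨x, hx, hvB x hxB⟩
  have haa' : ∀ X : Set V, (∃ z ∈ X, z ∈ W) → (∃ y ∈ X, G.Adj a y) := by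
    rintro X ⟨x, hx, hxB⟩
    exact ⟨x, hx, haW x hxB⟩
  apply clique_model (k := 6) {v, a} (J := Fin 4)
    ?_ ![C, Q₁, Q₂, Q₃] ?_ ?_ ?_ ?_ ?_ ?_
  · intro e he f hf hef
    simp only [mem_insert, mem_singleton] at he hf
    rcases he with rfl | rfl <;> rcases hf with rfl | rfl
    · exact absurd rfl hef
    · exact va
    · exact va.symm
    · exact absurd rfl hef
  · intro j
    fin_cases j
    · exact h.cC
    · exact h.c₁
    · exact h.c₂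
    · exact h.c₃
  · intro e he j hj
    simp only [mem_insert, mem_singleton] at he
    rcases he with rfl | rfl
    · fin_cases j
      · exact (h.nC _ hj).1 rfl
      · exact (h.n₁ _ hj).1 rfl
      · exact (h.n₂ _ hj).1 rfl
      · exact (h.n₃ _ hj).1 rfl
    · fin_cases j
      · exact (h.nC _ hj).2 rfl
      · exact (h.n₁ _ hj).2.1 rfl
      · exact (h.n₂ _ hj).2.1 rfl
      · exact (h.n₃ _ hj).2.1 rfl
  · intro i j hij
    fin_cases i <;> fin_cases j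
    all_goals first
      | exact absurd rfl hij
      | exact dj _ _ h.e₁
      | exact dj _ _ h.e₂
      | exact dj _ _ h.e₃
      | exact dj _ _ h.d₁₂
      | exact dj _ _ h.d₁₃
      | exact dj _ _ h.d₂₃
      | exact dj' _ _ h.e₁
      | exact dj' _ _ h.e₂
      | exact dj' _ _ h.e₃
      | exact dj' _ _ h.d₁₂
      | exact dj' _ _ h.d₁₃
      | exact dj' _ _ h.d₂₃
  · intro i j hij
    fin_cases i <;> fin_cases j
    all_goals first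
      | exact absurd rfl hij
      | exact h1
      | exact h2
      | exact h3
      | exact k12
      | exact k13
      | exact k23
      | exact sy _ _ h1
      | exact sy _ _ h2
      | exact sy _ _ h3
      | exact sy _ _ k12
      | exact sy _ _ k13
      | exact sy _ _ k23
  · intro e he j
    simp only [mem_insert, mem_singleton] at he
    rcases he with rfl | rfl
    · fin_cases j
      · exact ⟨c, h.hc, vc⟩
      · exact hva' _ h.B₁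
      · exact hva' _ h.B₂
      · exact hva' _ h.B₃
    · fin_cases j
      · exact ⟨c, h.hc, ac⟩
      · exact haa' _ h.W₁
      · exact haa' _ h.W₂
      · exact haa' _ h.W₃
  · rw [card_pair va.ne, Fintype.card_fin]

/-- a subsystem -/
theorem Sys.sub {v a c d : V} {B W : Set V} {Q₁ Q₂ Q₃ C : Set V}
    (h : Sys G v a c d B W Q₁ Q₂ Q₃ C) {P₁ P₂ P₃ : Set V} (s₁ : ∀ z ∈ P₁, z ∈ Q₁)
    (s₂ : ∀ z ∈ P₂, z ∈ Q₂) (s₃ : ∀ z ∈ P₃, z ∈ Q₃) (c₁ : Con G P₁) (c₂ : Con G P₂)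
    (c₃ : Con G P₃) (B₁ : ∃ z ∈ P₁, z ∈ B) (B₂ : ∃ z ∈ P₂, z ∈ B) (B₃ : ∃ z ∈ P₃, z ∈ B)
    (W₁ : ∃ z ∈ P₁, z ∈ W) (W₂ : ∃ z ∈ P₂, z ∈ W) (W₃ : ∃ z ∈ P₃, z ∈ W) :
    Sys G v a c d B W P₁ P₂ P₃ C where
  c₁ := c₁
  c₂ := c₂
  c₃ := c₃
  cC := h.cC
  hc := h.hc
  d₁₂ := fun z h1 h2 => h.d₁₂ z (s₁ z h1) (s₂ z h2)
  d₁₃ := fun z h1 h2 => h.d₁₃ z (s₁ z h1) (s₃ z h2)
  d₂₃ := fun z h1 h2 => h.d₂₃ z (s₂ z h1) (s₃ z h2)
  e₁ := fun z h1 h2 => h.e₁ z h1 (s₁ z h2)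
  e₂ := fun z h1 h2 => h.e₂ z h1 (s₂ z h2)
  e₃ := fun z h1 h2 => h.e₃ z h1 (s₃ z h2)
  n₁ := fun z h1 => h.n₁ z (s₁ z h1)
  n₂ := fun z h1 => h.n₂ z (s₂ z h1)
  n₃ := fun z h1 => h.n₃ z (s₃ z h1)
  nC := h.nC
  B₁ := B₁
  B₂ := B₂
  B₃ := B₃
  W₁ := W₁
  W₂ := W₂
  W₃ := W₃

/-- Lemma X from a first system -/
theorem of_sys [Fintype V] [DecidableEq V] (hG : IsKConnected 6 G)
    (hm : ¬ HasCompleteMinor 6 G) {v a c d : V}
    (va : G.Adj v a) (vc : G.Adj v c) (vd : G.Adj v d) (ac : G.Adj a c) (ad : G.Adj a d)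
    (cd : G.Adj c d) {B W : Set V} (hBc : ∀ x ∈ B, ∀ y ∈ B, x ≠ y → G.Adj x y)
    (hWc : ∀ x ∈ W, ∀ y ∈ W, x ≠ y → G.Adj x y) (hvB : ∀ x ∈ B, G.Adj v x)
    (haW : ∀ x ∈ W, G.Adj a x) (hBW : ∀ x ∈ B, x ∉ W) {Q₁ Q₂ Q₃ C : Set V}
    (h₀ : Sys G v a c d B W Q₁ Q₂ Q₃ C) : False := by
  have hg := noGood_of hm va vc vd ac ad cd B W hBc hWc hvB haW
  obtain ⟨⟨R₁, R₂, R₃, D⟩, hs, hmax⟩ := Set.exists_max_image
    {x : Set V × Set V × Set V × Set V | Sys G v a c d B W x.1 x.2.1 x.2.2.1 x.2.2.2}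
    (fun x => x.2.2.2.ncard) (Set.toFinite _) ⟨(Q₁, Q₂, Q₃, C), h₀⟩
  have hm' : IsMax G v a c d B W D := fun T₁ T₂ T₃ D' hT => hmax (T₁, T₂, T₃, D') hT
  have hs' : Sys G v a c d B W R₁ R₂ R₃ D := hs
  obtain ⟨b₁, hb₁, bB₁⟩ := hs'.B₁
  obtain ⟨b₂, hb₂, bB₂⟩ := hs'.B₂
  obtain ⟨b₃, hb₃, bB₃⟩ := hs'.B₃
  obtain ⟨w₁, hw₁, wW₁⟩ := hs'.W₁
  obtain ⟨w₂, hw₂, wW₂⟩ := hs'.W₂
  obtain ⟨w₃, hw₃, wW₃⟩ := hs'.W₃
  obtain ⟨P₁, s₁, f₁, p₁⟩ := exists_path hs'.c₁ hb₁ hw₁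
  obtain ⟨P₂, s₂, f₂, p₂⟩ := exists_path hs'.c₂ hb₂ hw₂
  obtain ⟨P₃, s₃, f₃, p₃⟩ := exists_path hs'.c₃ hb₃ hw₃
  have h : Sys G v a c d B W P₁ P₂ P₃ D := hs'.sub s₁ s₂ s₃ p₁.all p₂.all p₃.all
    ⟨b₁, p₁.hb, bB₁⟩ ⟨b₂, p₂.hb, bB₂⟩ ⟨b₃, p₃.hb, bB₃⟩ ⟨w₁, p₁.hw, wW₁⟩ ⟨w₂, p₂.hw, wW₂⟩
    ⟨w₃, p₃.hw, wW₃⟩
  have hd : d ∈ D := by
    rcases h.closed hm' h.hc cd with h' | h' | h' | h' | h' | h'
    · exact h'
    · exact ((h.n₁ d h').2.2 rfl).elim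
    · exact ((h.n₂ d h').2.2 rfl).elim
    · exact ((h.n₃ d h').2.2 rfl).elim
    · exact (vd.ne h'.symm).elim
    · exact (ad.ne h'.symm).elim
  by_cases h3 : ∀ x ∈ D, ∀ y ∈ P₃, ¬ G.Adj x y
  · exact h.third hG hg hBW hm' hd cd.ne h3 p₁ p₂ p₃ bB₁ bB₂ bB₃ wW₁ wW₂ wW₃
  by_cases h2 : ∀ x ∈ D, ∀ y ∈ P₂, ¬ G.Adj x y
  · exact h.swap₂₃.third hG hg hBW hm' hd cd.ne h2 p₁ p₃ p₂ bB₁ bB₃ bB₂ wW₁ wW₃ wW₂
  by_cases h1 : ∀ x ∈ D, ∀ y ∈ P₁, ¬ G.Adj x y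
  · exact h.swap₁₂.swap₂₃.third hG hg hBW hm' hd cd.ne h1 p₂ p₃ p₁ bB₂ bB₃ bB₁ wW₂ wW₃ wW₁
  push Not at h1 h2 h3
  exact not_all hm va vc ac hBc hvB haW h h1 h2 h3

/-- the statement of the four-path Menger theorem in `G` -/
def Menger4 (G : SimpleGraph V) : Prop :=
  ∀ K S T : Finset V, K.card ≤ 2 → S.card = 4 → T.card = 4 → (∀ x ∈ S, x ∉ K) →
    (∀ x ∈ T, x ∉ K) → ∃ P : Fin 4 → Set V, (∀ i, (G.induce (P i)).Connected) ∧
      (∀ i j, i ≠ j → Disjoint (P i) (P j)) ∧ (∀ i, ∀ x ∈ K, x ∉ P i) ∧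
      (∀ i, ∃ s ∈ S, s ∈ P i) ∧ (∀ i, ∃ t ∈ T, t ∈ P i)

theorem two_others : ∀ i j : Fin 4, i ≠ j → ∃ p q : Fin 4, p ≠ q ∧ p ≠ i ∧ p ≠ j ∧ q ≠ i ∧
    q ≠ j := by decide

theorem three_others : ∀ i : Fin 4, ∃ p q r : Fin 4, p ≠ q ∧ p ≠ r ∧ q ≠ r ∧ p ≠ i ∧ q ≠ i ∧
    r ≠ i := by decide

theorem lemmaX_of [Fintype V] [DecidableEq V] (H4 : Menger4 G) (hG : IsKConnected 6 G)
    {v a c d : V} (va : G.Adj v a) (vc : G.Adj v c) (vd : G.Adj v d) (ac : G.Adj a c)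
    (ad : G.Adj a d) (cd : G.Adj c d) (B W : Finset V) (hB : B.card = 3) (hW : W.card = 3)
    (hBc : ∀ x ∈ B, ∀ y ∈ B, x ≠ y → G.Adj x y) (hWc : ∀ x ∈ W, ∀ y ∈ W, x ≠ y → G.Adj x y)
    (hvB : ∀ x ∈ B, G.Adj v x) (haW : ∀ x ∈ W, G.Adj a x)
    (hBn : ∀ x ∈ B, x ≠ a ∧ x ≠ c ∧ x ≠ d) (hWn : ∀ x ∈ W, x ≠ v ∧ x ≠ c ∧ x ≠ d)
    (hBW : ∀ x ∈ B, x ∉ W) : HasCompleteMinor 6 G := by
  by_contra hm
  have hg := noGood_of hm va vc vd ac ad cd (↑B : Set V) (↑W : Set V)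
    (fun x hx y hy => hBc x (mem_coe.1 hx) y (mem_coe.1 hy))
    (fun x hx y hy => hWc x (mem_coe.1 hx) y (mem_coe.1 hy))
    (fun x hx => hvB x (mem_coe.1 hx)) (fun x hx => haW x (mem_coe.1 hx))
  have hcB : c ∉ B := fun h => (hBn c h).2.1 rfl
  have hdW : d ∉ W := fun h => (hWn d h).2.2 rfl
  have hK : ({v, a} : Finset V).card ≤ 2 := card_le_two
  obtain ⟨P, hP, hd, hK', hS, hT⟩ := H4 {v, a} (insert c B) (insert d W) hK
    (by rw [card_insert_of_notMem hcB, hB]) (by rw [card_insert_of_notMem hdW, hW])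
    (by
      intro x hx hx'
      rw [mem_insert] at hx
      rw [mem_insert, mem_singleton] at hx'
      rcases hx with rfl | hx
      · rcases hx' with h | h
        · exact vc.ne h.symm
        · exact ac.ne h.symm
      · rcases hx' with h | h
        · exact (hvB x hx).ne h.symm
        · exact (hBn x hx).1 h)
    (by
      intro x hx hx'
      rw [mem_insert] at hx
      rw [mem_insert, mem_singleton] at hx'
      rcases hx with rfl | hx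
      · rcases hx' with h | h
        · exact vd.ne h.symm
        · exact ad.ne h.symm
      · rcases hx' with h | h
        · exact (hWn x hx).1 h
        · exact (haW x hx).ne h.symm)
  obtain ⟨i, hi⟩ := hit hd (insert c B) (by rw [card_insert_of_notMem hcB, hB]) hS
    (mem_insert_self c B)
  obtain ⟨j, hj⟩ := hit hd (insert d W) (by rw [card_insert_of_notMem hdW, hW]) hT
    (mem_insert_self d W)
  have hdis : ∀ p q, p ≠ q → ∀ z, z ∈ P p → z ∉ P q := fun p q hpq z hz =>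
    Set.disjoint_left.1 (hd p q hpq) hz
  have kB : ∀ p, p ≠ i → ∃ z ∈ P p, z ∈ (↑B : Set V) := by
    intro p hp
    obtain ⟨s, hs, hsP⟩ := hS p
    rw [mem_insert] at hs
    rcases hs with hs | hs
    · exact (hdis p i hp s hsP (hs ▸ hi)).elim
    · exact ⟨s, hsP, mem_coe.2 hs⟩
  have kW : ∀ p, p ≠ j → ∃ z ∈ P p, z ∈ (↑W : Set V) := by
    intro p hp
    obtain ⟨s, hs, hsP⟩ := hT p
    rw [mem_insert] at hs
    rcases hs with hs | hs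
    · exact (hdis p j hp s hsP (hs ▸ hj)).elim
    · exact ⟨s, hsP, mem_coe.2 hs⟩
  have hKv : ∀ p, v ∉ P p := fun p => hK' p v (mem_insert_self v _)
  have hKa : ∀ p, a ∉ P p := fun p => hK' p a (mem_insert_of_mem (mem_singleton_self a))
  by_cases hij : i = j
  · obtain ⟨p, q, r, hpq, hpr, hqr, hpi, hqi, hri⟩ := three_others i
    have hn : ∀ p, p ≠ i → ∀ z ∈ P p, z ≠ v ∧ z ≠ a ∧ z ≠ d := by
      intro p hp z hz
      refine ⟨fun h => hKv p (h ▸ hz), fun h => hKa p (h ▸ hz), fun h => ?_⟩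
      exact hdis p i hp d (h ▸ hz) (hij ▸ hj)
    have hs : Sys G v a c d (↑B : Set V) (↑W : Set V) (P p) (P q) (P r) {c} :=
      { c₁ := hP p
        c₂ := hP q
        c₃ := hP r
        cC := Con.single G c
        hc := rfl
        d₁₂ := hdis p q hpq
        d₁₃ := hdis p r hpr
        d₂₃ := hdis q r hqr
        e₁ := by
          rintro z hz
          rw [Set.mem_singleton_iff] at hz
          exact hz ▸ hdis i p hpi.symm c hi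
        e₂ := by
          rintro z hz
          rw [Set.mem_singleton_iff] at hz
          exact hz ▸ hdis i q hqi.symm c hi
        e₃ := by
          rintro z hz
          rw [Set.mem_singleton_iff] at hz
          exact hz ▸ hdis i r hri.symm c hi
        n₁ := hn p hpi
        n₂ := hn q hqi
        n₃ := hn r hri
        nC := by
          rintro z hz
          rw [Set.mem_singleton_iff] at hz
          rw [hz]
          exact ⟨vc.ne.symm, ac.ne.symm⟩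
        B₁ := kB p hpi
        B₂ := kB q hqi
        B₃ := kB r hri
        W₁ := kW p (hij ▸ hpi)
        W₂ := kW q (hij ▸ hqi)
        W₃ := kW r (hij ▸ hri) }
    exact of_sys hG hm va vc vd ac ad cd
      (fun x hx y hy => hBc x (mem_coe.1 hx) y (mem_coe.1 hy))
      (fun x hx y hy => hWc x (mem_coe.1 hx) y (mem_coe.1 hy))
      (fun x hx => hvB x (mem_coe.1 hx)) (fun x hx => haW x (mem_coe.1 hx))
      (fun x hx hx' => hBW x (mem_coe.1 hx) (mem_coe.1 hx')) hs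
  · obtain ⟨p, q, hpq, hpi, hpj, hqi, hqj⟩ := two_others i j hij
    refine hg (P i) (P j) (P p) (P q) (hP i) (hP j) (hP p) (hP q)
      (fun z h1 h2 => hdis i j hij z h1 h2) (fun z h1 h2 => hdis i p hpi.symm z h1 h2)
      (fun z h1 h2 => hdis i q hqi.symm z h1 h2) (fun z h1 h2 => hdis j p hpj.symm z h1 h2)
      (fun z h1 h2 => hdis j q hqj.symm z h1 h2) (fun z h1 h2 => hdis p q hpq z h1 h2) ?_
      hi hj (Or.inr ⟨kW i hij, kB j (Ne.symm hij)⟩) (kB p hpi) (kW p hpj) (kB q hqi) (kW q hqj)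
    rintro z (rfl | rfl) (h | h | h | h)
    · exact hKv i h
    · exact hKv j h
    · exact hKv p h
    · exact hKv q h
    · exact hKa i h
    · exact hKa j h
    · exact hKa p h
    · exact hKa q h

end Pool.Agent.LD6.X
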